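import Pool.Agent.Lib.MP_a8dae7_an.CV.Spec

/-!
# MP_a8dae7_an, CV, module P: caps and slabs
-/

set_option autoImplicit false

open MeasureTheory Metric
open scoped ContDiff

namespace Pool.Agent.Lib.MP_a8dae7_an.CV.PM

theorem AA_re (lam r t : ℝ) : (AA lam r t).re = 1 / r ^ 2 := by
  simp only [AA, Complex.add_re, Complex.ofReal_re, Complex.mul_re, Complex.I_re, Complex.I_im,
    Complex.ofReal_im]
  ring

theorem AA_slit {r : ℝ} (hr : 0 < r) (lam t : ℝ) : AA lam r t ∈ Complex.slitPlane := by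
  refine Or.inl ?_
  rw [AA_re]
  positivity

theorem AA_ne {r : ℝ} (hr : 0 < r) (lam t : ℝ) : AA lam r t ≠ 0 :=
  Complex.slitPlane_ne_zero (AA_slit hr lam t)

theorem continuous_Kf {k : ℕ} (om : EE (k + 1)) (lam : ℝ) {r : ℝ} (hr : 0 < r) :
    Continuous (Kf om lam r) := by
  have h1 : Continuous (fun x : EE (k + 1) => (inner ℝ om x : ℝ)) := continuous_const.inner continuous_id
  have hA : Continuous (fun x : EE (k + 1) => AA lam r (inner ℝ om x)) := by
    unfold AA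
    exact continuous_const.add (continuous_const.mul (Complex.continuous_ofReal.comp
      (h1.div_const _)))
  have hq : Continuous (fun x : EE (k + 1) => pq om x) := by
    unfold pq
    exact (continuous_norm.pow 2).sub (h1.pow 2)
  have hF : Continuous (FF om lam r) := by
    unfold FF
    refine ((Complex.continuous_ofReal.comp ?_).neg.sub (continuous_const.mul
      (hA.clog fun x => AA_slit hr lam _))).sub
      ((Complex.continuous_ofReal.comp hq).div (continuous_const.mul hA) fun x => ?_)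
    · exact ((h1.pow 2).mul continuous_const).div_const _
    · exact mul_ne_zero (by norm_num) (AA_ne hr lam _)
  unfold Kf
  exact (continuous_const.mul (Complex.continuous_exp.comp (continuous_const.mul
    (Complex.continuous_ofReal.comp (continuous_const.mul h1))))).mul
    (Complex.continuous_exp.comp hF)

theorem continuous_es {d k : ℕ} (s : Finset (Fin d → ℤ)) (a : (Fin d → ℤ) → ℂ) (X : EE k → EE d)
    (hX : Continuous X) : Continuous (fun q => es s a (X q)) := by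
  unfold es ex
  refine continuous_finsetSum _ fun n _ => continuous_const.mul (Complex.continuous_exp.comp
    (continuous_const.mul (Complex.continuous_ofReal.comp (continuous_const.inner hX))))

/-- The frame `(J, nu)` is orthonormal: Pythagoras. -/
theorem split {k : ℕ} (ch : Chart k) (om w : EE (k + 1))
    (hw : ∀ q : EE k, inner ℝ w (ch.J q) = inner ℝ om (ch.J q)) (q0 : EE k) (hq0 : w = ch.J q0) :
    ‖om‖ ^ 2 = inner ℝ om ch.nu ^ 2 + ‖q0‖ ^ 2 := by
  set S : Submodule ℝ (EE (k + 1)) := LinearMap.range ch.J.toLinearMap with hS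
  have hfin : Module.finrank ℝ S = k := by
    rw [hS, LinearMap.finrank_range_of_inj ch.J.injective]
    simp
  have hfin2 : Module.finrank ℝ Sᗮ = 1 := by
    have h := S.finrank_add_finrank_orthogonal
    rw [hfin] at h
    have h2 : Module.finrank ℝ (EE (k + 1)) = k + 1 := by simp
    omega
  have hnu : ch.nu ∈ Sᗮ := by
    rw [Submodule.mem_orthogonal]
    rintro u ⟨v, rfl⟩
    rw [real_inner_comm]
    exact ch.nu_perp v
  have hom : om - w ∈ Sᗮ := by
    rw [Submodule.mem_orthogonal]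
    rintro u ⟨v, rfl⟩
    rw [real_inner_comm, inner_sub_left]
    have := hw v
    simp only [LinearIsometry.coe_toLinearMap]
    linarith
  have hnu0 : (⟨ch.nu, hnu⟩ : Sᗮ) ≠ 0 := by
    intro h
    have h1 : ch.nu = 0 := congrArg Subtype.val h
    have h2 := ch.nu_one
    rw [h1, norm_zero] at h2
    norm_num at h2
  obtain ⟨c, hc⟩ := (finrank_eq_one_iff_of_nonzero' _ hnu0).1 hfin2 ⟨om - w, hom⟩
  have hc' : om - w = c • ch.nu := (congrArg Subtype.val hc).symm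
  have h1 : om = w + c • ch.nu := by rw [← hc']; abel
  have h2 : inner ℝ w ch.nu = 0 := by
    rw [hq0, real_inner_comm]
    exact ch.nu_perp q0
  have h3 : inner ℝ ch.nu ch.nu = (1 : ℝ) := by
    rw [real_inner_self_eq_norm_sq, ch.nu_one]; norm_num
  have h4 : inner ℝ om ch.nu = c := by
    rw [h1, inner_add_left, h2, real_inner_smul_left, h3]; ring
  have h5 : ‖q0‖ ^ 2 = inner ℝ w w := by
    rw [real_inner_self_eq_norm_sq, hq0, ch.J.norm_map]
  have h6 : ‖om‖ ^ 2 = inner ℝ w w + c ^ 2 := by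
    rw [← real_inner_self_eq_norm_sq, h1]
    have h7 : inner ℝ ch.nu w = (0 : ℝ) := by rw [real_inner_comm]; exact h2
    rw [inner_add_left, inner_add_right, inner_add_right, real_inner_smul_left,
      real_inner_smul_right, real_inner_smul_right, real_inner_smul_left, h3, h2, h7]
    ring
  rw [h6, h4, h5]; ring

/-- the negligible part -/
theorem exp_est (D : ℕ) (eps : ℝ) (heps : 0 < eps) : ∃ C : ℝ, 0 < C ∧ ∀ lam : ℝ, 1 ≤ lam →
    lam ^ D * Real.exp (-(lam ^ (2 * eps) / 16)) ≤ C := by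
  obtain ⟨n, hn⟩ := exists_nat_gt ((D : ℝ) / (2 * eps))
  refine ⟨(n.factorial : ℝ) * 16 ^ n, by positivity, fun lam hlam => ?_⟩
  have hl0 : 0 < lam := by linarith
  have hx : 0 < lam ^ (2 * eps) / 16 := by positivity
  have h1 : (lam ^ (2 * eps) / 16) ^ n / (n.factorial : ℝ) ≤ Real.exp (lam ^ (2 * eps) / 16) :=
    Real.pow_div_factorial_le_exp _ hx.le n
  have h2 : (lam : ℝ) ^ D ≤ (lam ^ (2 * eps)) ^ n := by
    rw [← Real.rpow_natCast, ← Real.rpow_natCast, ← Real.rpow_mul hl0.le]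
    refine Real.rpow_le_rpow_of_exponent_le hlam ?_
    rw [div_lt_iff₀ (by positivity)] at hn
    nlinarith
  have hf : (0 : ℝ) < n.factorial := by positivity
  rw [div_le_iff₀ hf, div_pow, div_le_iff₀ (by positivity)] at h1
  rw [Real.exp_neg, ← div_eq_mul_inv, div_le_iff₀ (Real.exp_pos _)]
  calc lam ^ D ≤ (lam ^ (2 * eps)) ^ n := h2
    _ ≤ Real.exp (lam ^ (2 * eps) / 16) * n.factorial * 16 ^ n := h1
    _ = _ := by ring

/-- the sum of all blocks -/
theorem sum_est {lam r th eps K2 KS C0 C1 C2 C3 CS Ce : ℝ} {m : ℕ} (hlam : 1 ≤ lam) (hr : 1 ≤ r)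
    (hr3 : r ^ 3 ≤ lam ^ 2) (hth : 0 < th) (hth1 : th ≤ 1 / 4) (hthr : th ^ 2 * r ≤ lam ^ eps)
    (heps : 0 < eps) (hK2 : 0 ≤ K2) (hKS : 0 ≤ KS) (hC0 : 0 ≤ C0) (hC1 : 0 ≤ C1) (hC2 : 0 ≤ C2)
    (hC3 : 0 ≤ C3) (hCS : 0 ≤ CS)
    (hCe : lam ^ (2 * (m + 2)) * Real.exp (-(lam ^ (2 * eps) / 16)) ≤ Ce) :
    4 * th * (C0 * (lam ^ eps) ^ m * (r ^ 2 / lam) +
      CS * lam ^ (KS * eps) * (C1 + C2 * lam ^ (K2 * eps)) * Real.sqrt r +
      CS * lam ^ (m + 2) * (C3 * lam ^ (m + 2) * Real.exp (-(lam ^ (2 * eps) / 16)))) ≤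
    4 * (C0 + CS * (C1 + C2) + CS * C3 * Ce) * lam ^ ((m + 2 + K2 + KS + 1) * eps) := by
  have hl0 : 0 < lam := by linarith
  have hr0 : 0 < r := by linarith
  obtain ⟨La, hLa⟩ : ∃ La, La = lam ^ eps := ⟨_, rfl⟩
  have hLa1 : 1 ≤ La := by rw [hLa]; exact Real.one_le_rpow hlam heps.le
  have hLa0 : 0 < La := by linarith
  have hpow : ∀ K : ℝ, lam ^ (K * eps) = La ^ K := by
    intro K
    rw [hLa, ← Real.rpow_mul hl0.le, mul_comm]
  have hsr : Real.sqrt r * Real.sqrt r = r := Real.mul_self_sqrt hr0.le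
  have hs0 : 0 ≤ Real.sqrt r := Real.sqrt_nonneg r
  -- th * sqrt r ≤ La
  have h1 : th * Real.sqrt r ≤ La := by
    have h2 : (th * Real.sqrt r) ^ 2 ≤ La ^ 2 := by
      calc (th * Real.sqrt r) ^ 2 = th ^ 2 * r := by rw [mul_pow, sq (Real.sqrt r), hsr]
        _ ≤ La := by rw [hLa]; exact hthr
        _ ≤ La ^ 2 := by nlinarith
    exact le_of_sq_le_sq h2 hLa0.le
  have h3 : r * Real.sqrt r ≤ lam := by
    have h4 : (r * Real.sqrt r) ^ 2 ≤ lam ^ 2 := by
      calc (r * Real.sqrt r) ^ 2 = r ^ 3 := by rw [mul_pow, sq (Real.sqrt r), hsr]; ring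
        _ ≤ lam ^ 2 := hr3
    exact le_of_sq_le_sq h4 hl0.le
  have h5 : th * (r ^ 2 / lam) ≤ La := by
    have h6 : th * (r ^ 2 / lam) = (th * Real.sqrt r) * (r * Real.sqrt r / lam) := by
      field_simp
      rw [sq (Real.sqrt r), hsr]
    rw [h6]
    have h7 : r * Real.sqrt r / lam ≤ 1 := by rw [div_le_one hl0]; exact h3
    have h8 : 0 ≤ th * Real.sqrt r := by positivity
    calc (th * Real.sqrt r) * (r * Real.sqrt r / lam) ≤ (th * Real.sqrt r) * 1 :=
          mul_le_mul_of_nonneg_left h7 h8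
      _ ≤ La := by linarith
  obtain ⟨Q, hQ⟩ : ∃ Q, Q = La ^ ((m : ℝ) + 2 + K2 + KS + 1) := ⟨_, rfl⟩
  have hm0 : (0 : ℝ) ≤ m := Nat.cast_nonneg m
  have hQ1 : 1 ≤ Q := by rw [hQ]; exact Real.one_le_rpow hLa1 (by positivity)
  have hmono : ∀ x : ℝ, x ≤ (m : ℝ) + 2 + K2 + KS + 1 → La ^ x ≤ Q := by
    intro x hx
    rw [hQ]
    exact Real.rpow_le_rpow_of_exponent_le hLa1 hx
  have hA : La ^ m * La ≤ Q := by
    have : La ^ m * La = La ^ ((m : ℝ) + 1) := by
      rw [Real.rpow_add hLa0, Real.rpow_natCast, Real.rpow_one]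
    rw [this]
    exact hmono _ (by linarith)
  have hB : La ^ KS * La ≤ Q := by
    have : La ^ KS * La = La ^ (KS + 1) := by rw [Real.rpow_add hLa0, Real.rpow_one]
    rw [this]
    exact hmono _ (by linarith)
  have hC : La ^ KS * La ^ K2 * La ≤ Q := by
    have : La ^ KS * La ^ K2 * La = La ^ (KS + K2 + 1) := by
      rw [Real.rpow_add hLa0, Real.rpow_add hLa0, Real.rpow_one]
    rw [this]
    exact hmono _ (by linarith)
  have hKS0 : 0 < La ^ KS := Real.rpow_pos_of_pos hLa0 _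
  have hK20 : 0 < La ^ K2 := Real.rpow_pos_of_pos hLa0 _
  have hCe0 : 0 ≤ Ce := le_trans (by positivity) hCe
  rw [hpow KS, hpow K2, hpow (m + 2 + K2 + KS + 1), ← hQ, ← hLa]
  have t1 : th * (C0 * La ^ m * (r ^ 2 / lam)) ≤ C0 * Q := by
    calc th * (C0 * La ^ m * (r ^ 2 / lam)) = C0 * La ^ m * (th * (r ^ 2 / lam)) := by ring
      _ ≤ C0 * La ^ m * La := mul_le_mul_of_nonneg_left h5 (by positivity)
      _ = C0 * (La ^ m * La) := by ring
      _ ≤ C0 * Q := mul_le_mul_of_nonneg_left hA hC0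
  have t2 : th * (CS * La ^ KS * (C1 + C2 * La ^ K2) * Real.sqrt r) ≤ CS * (C1 + C2) * Q := by
    calc th * (CS * La ^ KS * (C1 + C2 * La ^ K2) * Real.sqrt r)
        = CS * La ^ KS * (C1 + C2 * La ^ K2) * (th * Real.sqrt r) := by ring
      _ ≤ CS * La ^ KS * (C1 + C2 * La ^ K2) * La := mul_le_mul_of_nonneg_left h1 (by positivity)
      _ = CS * (C1 * (La ^ KS * La) + C2 * (La ^ KS * La ^ K2 * La)) := by ring
      _ ≤ CS * (C1 * Q + C2 * Q) := by
          refine mul_le_mul_of_nonneg_left ?_ hCS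
          exact add_le_add (mul_le_mul_of_nonneg_left hB hC1) (mul_le_mul_of_nonneg_left hC hC2)
      _ = CS * (C1 + C2) * Q := by ring
  have t3 : th * (CS * lam ^ (m + 2) * (C3 * lam ^ (m + 2) * Real.exp (-(lam ^ (2 * eps) / 16)))) ≤
      CS * C3 * Ce * Q := by
    calc th * (CS * lam ^ (m + 2) * (C3 * lam ^ (m + 2) * Real.exp (-(lam ^ (2 * eps) / 16))))
        = th * (CS * C3 * (lam ^ (2 * (m + 2)) * Real.exp (-(lam ^ (2 * eps) / 16)))) := by
          rw [two_mul (m + 2), pow_add]; ring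
      _ ≤ 1 * (CS * C3 * Ce) := by
          refine mul_le_mul (by linarith) (mul_le_mul_of_nonneg_left hCe (by positivity))
            (by positivity) (by norm_num)
      _ ≤ CS * C3 * Ce * Q := by
          rw [one_mul]
          exact le_mul_of_one_le_right (by positivity) hQ1
  nlinarith [t1, t2, t3]

theorem norm_sl_le {m : ℕ} {e : EE (m + 1)} (he : ‖e‖ = 1) (L : EE m →ₗᵢ[ℝ] EE (m + 1))
    {dl sg : ℝ} {b : EE m} (hsg : |sg| ≤ 2 * dl) (hb : ‖b‖ ≤ 2 * dl) : ‖sl e L sg b‖ ≤ 4 * dl := by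
  unfold sl
  calc ‖sg • e + L b‖ ≤ ‖sg • e‖ + ‖L b‖ := norm_add_le _ _
    _ = |sg| + ‖b‖ := by rw [norm_smul, he, L.norm_map, Real.norm_eq_abs, mul_one]
    _ ≤ 4 * dl := by linarith

theorem continuous_ks {m : ℕ} (ch : Chart (m + 1)) (om : EE (m + 2)) (lam : ℝ) {r : ℝ} (hr : 0 < r)
    (e : EE (m + 1)) (L : EE m →ₗᵢ[ℝ] EE (m + 1)) (zt : EE (m + 2)) (sg sg' : ℝ) :
    Continuous (fun p : EE m × EE m => ks ch om lam r e L zt sg sg' p.1 p.2) := by
  unfold ks xd sl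
  have hX := ch.smooth.continuous
  have hL := L.continuous
  exact (continuous_Kf om lam hr).comp (((hX.comp (continuous_const.add (hL.comp continuous_fst))).sub
    (hX.comp (continuous_const.add (hL.comp continuous_snd)))).add continuous_const)

/-- the trivial bound of a negligible block -/
theorem ob_triv (hSC : SpecSC) {m : ℕ} (ch : Chart (m + 1)) {om : EE (m + 2)} {lam r : ℝ} (hr : 0 < r)
    {e : EE (m + 1)} (he : ‖e‖ = 1) (L : EE m →ₗᵢ[ℝ] EE (m + 1)) (zt : EE (m + 2)) {sg sg' M : ℝ}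
    (hsg : |sg| ≤ 2 * ch.dl) (hsg' : |sg'| ≤ 2 * ch.dl) (hM : 0 ≤ M)
    (hK : ∀ x : EE (m + 2), ‖x‖ ≤ 1 / 4 → ‖Kf om lam r (x + zt)‖ ≤ M) :
    OB m (2 * ch.dl) (ks ch om lam r e L zt sg sg')
      (M * volume.real (closedBall (0 : EE m) (2 * ch.dl))) := by
  have hb : ∀ b b' : EE m, ‖b‖ ≤ 2 * ch.dl → ‖b'‖ ≤ 2 * ch.dl →
      ‖ks ch om lam r e L zt sg sg' b b'‖ ≤ M := by
    intro b b' hb hb'
    unfold ks xd
    exact hK _ (ch.diam _ _ (norm_sl_le he L hsg hb) (norm_sl_le he L hsg' hb'))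
  refine hSC m _ _ _ (continuous_ks ch om lam hr e L zt sg sg') (by positivity) ?_ ?_
  · intro b hb1
    refine (le_abs_self _).trans ?_
    rw [← Real.norm_eq_abs]
    refine norm_setIntegral_le_of_norm_le_const (measure_closedBall_lt_top) fun b' hb' => ?_
    rw [norm_norm]
    exact hb b b' hb1 (mem_closedBall_zero_iff.1 hb')
  · intro b' hb1
    refine (le_abs_self _).trans ?_
    rw [← Real.norm_eq_abs]
    refine norm_setIntegral_le_of_norm_le_const (measure_closedBall_lt_top) fun b hb' => ?_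
    rw [norm_norm]
    exact hb b b' (mem_closedBall_zero_iff.1 hb') hb1

theorem bz_nonneg {k : ℕ} (om : EE (k + 1)) {lam r eps B0 B1 B2 : ℝ} (hlam : 0 < lam) (hr : 0 < r)
    (h0 : 0 ≤ B0) (h1 : 0 ≤ B1) (h2 : 0 ≤ B2) (z : Fin (k + 1) → ℤ) :
    0 ≤ bz om lam r eps B0 B1 B2 z := by
  unfold bz
  split_ifs <;> positivity

/-- one block -/
theorem block (hSL : SpecSL) {m : ℕ} (ch : Chart (m + 1)) {om : EE (m + 2)} {e : EE (m + 1)}
    {L : EE m →ₗᵢ[ℝ] EE (m + 1)} (hS : Slice ch om e L)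
    (hME : MeasurableEmbedding (fun p : ℝ × EE m => p.1 • e + L p.2))
    (hMP : MeasurePreserving (fun p : ℝ × EE m => p.1 • e + L p.2) (volume.prod volume) volume)
    {lam r th eps sg0 B0 B1 B2 : ℝ} (hlam : 0 < lam) (hr : 0 < r) (hth : 0 < th)
    (hB0 : 0 ≤ B0) (hB1 : 0 ≤ B1) (hB2 : 0 ≤ B2)
    (h0 : ∀ sg sg' : ℝ, |sg| ≤ 2 * ch.dl → |sg'| ≤ 2 * ch.dl → |sg - sg'| ≤ 4 * th →
      OB m (2 * ch.dl) (ks ch om lam r e L 0 sg sg') B0)
    (h1 : ∀ z : Fin (m + 2) → ℤ, Near om lam r eps z → ∀ sg sg' : ℝ, |sg| ≤ 2 * ch.dl →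
      |sg'| ≤ 2 * ch.dl → OB m (2 * ch.dl) (ks ch om lam r e L ((2 * Real.pi) • zv z) sg sg')
        (B1 * (r / lam) * Real.sqrt (lam / |inner ℝ om ((2 * Real.pi) • zv z)|)))
    (h2 : ∀ z : Fin (m + 2) → ℤ, z ≠ 0 → ¬ Near om lam r eps z → ∀ sg sg' : ℝ, |sg| ≤ 2 * ch.dl →
      |sg'| ≤ 2 * ch.dl → OB m (2 * ch.dl) (ks ch om lam r e L ((2 * Real.pi) • zv z) sg sg')
        (B2 * Real.exp (-(‖(2 * Real.pi) • zv z‖ * r / (64 * lam)))))
    (z : Fin (m + 2) → ℤ) (f : EE (m + 1) → ℂ) (hf : Continuous f) :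
    ‖∫ q in {q | ‖q‖ ≤ 2 * ch.dl ∧ |inner ℝ e q - sg0| ≤ 2 * th},
      ∫ q' in {q | ‖q‖ ≤ 2 * ch.dl ∧ |inner ℝ e q - sg0| ≤ 2 * th},
      Kf om lam r (ch.X q - ch.X q' + (2 * Real.pi) • zv z) * ((starRingEnd ℂ) (f q) * f q')‖ ≤
    (4 * th * bz om lam r eps B0 B1 B2 z) *
      ∫ q in {q | ‖q‖ ≤ 2 * ch.dl ∧ |inner ℝ e q - sg0| ≤ 2 * th}, ‖f q‖ ^ 2 := by
  have hdl := ch.dl_pos
  have hX := ch.smooth.continuous
  have hK : Continuous (fun p : EE (m + 1) × EE (m + 1) =>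
      Kf om lam r (ch.X p.1 - ch.X p.2 + (2 * Real.pi) • zv z)) :=
    (continuous_Kf om lam hr).comp (((hX.comp continuous_fst).sub (hX.comp continuous_snd)).add
      continuous_const)
  have hbz := bz_nonneg om (eps := eps) hlam hr hB0 hB1 hB2 z
  have h := hSL m e L (fun q q' => Kf om lam r (ch.X q - ch.X q' + (2 * Real.pi) • zv z))
    (2 * ch.dl) (2 * th) sg0 (bz om lam r eps B0 B1 B2 z) hS.e_one hS.eL hME hMP hK (by positivity)
    (by positivity) hbz (by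
      intro sg sg' hsg hsg' hR hR'
      have habs : |sg - sg'| ≤ 4 * th := by
        have : sg - sg' = (sg - sg0) - (sg' - sg0) := by ring
        rw [this]
        exact (abs_sub _ _).trans (by linarith)
      by_cases hz : z = 0
      · have hzv : (2 * Real.pi) • (zv z : EE (m + 2)) = 0 := by
          rw [hz]
          have : (zv (0 : Fin (m + 2) → ℤ) : EE (m + 2)) = 0 := by
            unfold zv
            ext i
            simp
          rw [this, smul_zero]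
        have hb : bz om lam r eps B0 B1 B2 z = B0 := by unfold bz; rw [if_pos hz]
        rw [hb]
        have h3 := h0 sg sg' hR hR' habs
        unfold ks xd at h3
        rw [hzv]
        exact h3
      · by_cases hN : Near om lam r eps z
        · have hb : bz om lam r eps B0 B1 B2 z =
              B1 * (r / lam) * Real.sqrt (lam / |inner ℝ om ((2 * Real.pi) • zv z)|) := by
            unfold bz; rw [if_neg hz, if_pos hN]
          rw [hb]
          exact h1 z hN sg sg' hR hR'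
        · have hb : bz om lam r eps B0 B1 B2 z =
              B2 * Real.exp (-(‖(2 * Real.pi) • (zv z : EE (m + 2))‖ * r / (64 * lam))) := by
            unfold bz; rw [if_neg hz, if_neg hN]
          rw [hb]
          exact h2 z hz hN sg sg' hR hR') f hf
  refine h.trans (le_of_eq ?_)
  ring

theorem OB_mono {m : ℕ} {R : ℝ} {K : EE m → EE m → ℂ} {B B' : ℝ} (h : OB m R K B) (hB : B ≤ B') :
    OB m R K B' := by
  intro f g hf hg hf1 hg1 hf2 hg2
  exact (h f g hf hg hf1 hg1 hf2 hg2).trans (mul_le_mul_of_nonneg_right hB (by positivity))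

/-- the trivial case -/
theorem triv_case (hTR : SpecTR) {m : ℕ} (ch : Chart (m + 1)) {lam r th : ℝ} {n0 : EE (m + 2)}
    {s : Finset (Fin (m + 2) → ℤ)} (a : (Fin (m + 2) → ℤ) → ℂ) (hr : 1 ≤ r)
    (h2 : ∀ n ∈ s, ‖zv n - n0‖ ≤ r) :
    ∫ q in {q | ‖q‖ ≤ 2 * ch.dl ∧ |sn ch n0 q| ≤ th * lam}, ‖es s a (ch.X q)‖ ^ 2 ≤
      volume.real (closedBall (0 : EE (m + 1)) (2 * ch.dl)) * (3 * r) ^ (m + 2) *
        ∑ n ∈ s, ‖a n‖ ^ 2 := by
  have hsum : 0 ≤ ∑ n ∈ s, ‖a n‖ ^ 2 := Finset.sum_nonneg fun n _ => by positivity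
  have hcard : (s.card : ℝ) ≤ (3 * r) ^ (m + 2) := by
    refine (hTR.2 (m + 2) s n0 r (by linarith) h2).trans ?_
    exact pow_le_pow_left₀ (by linarith) (by linarith) _
  have hb : ∀ q, ‖es s a (ch.X q)‖ ^ 2 ≤ (3 * r) ^ (m + 2) * ∑ n ∈ s, ‖a n‖ ^ 2 := fun q =>
    (hTR.1 (m + 2) s a (ch.X q)).trans (mul_le_mul_of_nonneg_right hcard hsum)
  have hsub : {q : EE (m + 1) | ‖q‖ ≤ 2 * ch.dl ∧ |sn ch n0 q| ≤ th * lam} ⊆
      closedBall (0 : EE (m + 1)) (2 * ch.dl) := fun q hq => mem_closedBall_zero_iff.2 hq.1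
  have hfin : volume (closedBall (0 : EE (m + 1)) (2 * ch.dl)) < ⊤ := measure_closedBall_lt_top
  refine (le_abs_self _).trans ?_
  rw [← Real.norm_eq_abs]
  refine (norm_setIntegral_le_of_norm_le_const (C := (3 * r) ^ (m + 2) * ∑ n ∈ s, ‖a n‖ ^ 2)
    ((measure_mono hsub).trans_lt hfin) fun q _ => ?_).trans ?_
  · rw [Real.norm_eq_abs, abs_of_nonneg (by positivity)]
    exact hb q
  · calc ((3 * r) ^ (m + 2) * ∑ n ∈ s, ‖a n‖ ^ 2) *
          volume.real {q : EE (m + 1) | ‖q‖ ≤ 2 * ch.dl ∧ |sn ch n0 q| ≤ th * lam}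
        ≤ ((3 * r) ^ (m + 2) * ∑ n ∈ s, ‖a n‖ ^ 2) *
          volume.real (closedBall (0 : EE (m + 1)) (2 * ch.dl)) := by
          refine mul_le_mul_of_nonneg_left ?_ (by positivity)
          exact measureReal_mono hsub hfin.ne
      _ = _ := by ring

/-- choice of the slices: `e = J^* om / |J^* om|` -/
theorem choose_e {m : ℕ} (ch : Chart (m + 1)) {om : EE (m + 2)} (hom : ‖om‖ = 1) {th : ℝ}
    (hth1 : th ≤ 1 / 4) {q1 : EE (m + 1)} (hq1 : ‖q1‖ ≤ 2 * ch.dl)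
    (hq1' : |inner ℝ om ch.nu - inner ℝ om (ch.J q1)| ≤ th) :
    ∃ (e : EE (m + 1)) (ka sg0 : ℝ), ‖e‖ = 1 ∧ 1 / 2 ≤ ka ∧
      (∀ q, inner ℝ om (ch.J q) = ka * inner ℝ e q) ∧
      (∀ q, inner ℝ om ch.nu - inner ℝ om (ch.J q) = -(ka * (inner ℝ e q - sg0))) := by
  obtain ⟨q0, hq0⟩ : ∃ q0 : EE (m + 1), ∀ q, inner ℝ q0 q = inner ℝ om (ch.J q) := by
    refine ⟨ContinuousLinearMap.adjoint ch.J.toContinuousLinearMap om, fun q => ?_⟩
    rw [real_inner_comm, ContinuousLinearMap.adjoint_inner_right, real_inner_comm]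
    rfl
  have hs := split ch om (ch.J q0) (fun q => by rw [ch.J.inner_map_map, hq0]) q0 rfl
  rw [hom] at hs
  obtain ⟨ka, hka⟩ : ∃ ka, ka = ‖q0‖ := ⟨_, rfl⟩
  have hka0 : 0 ≤ ka := by rw [hka]; exact norm_nonneg _
  rw [← hka] at hs
  have hka1 : ka ≤ 1 := by nlinarith [sq_nonneg (inner ℝ om ch.nu)]
  have h1 : |inner ℝ om (ch.J q1)| ≤ 1 / 32 := by
    rw [← hq0]
    refine (abs_real_inner_le_norm q0 q1).trans ?_
    rw [← hka]
    have := ch.dl_le
    calc ka * ‖q1‖ ≤ 1 * (1 / 32) := mul_le_mul hka1 (by linarith) (norm_nonneg _) (by norm_num)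
      _ = 1 / 32 := one_mul _
  have h2 : |inner ℝ om ch.nu| ≤ 9 / 32 := by
    have h3 : inner ℝ om ch.nu = (inner ℝ om ch.nu - inner ℝ om (ch.J q1)) + inner ℝ om (ch.J q1) := by
      ring
    rw [h3]
    exact (abs_add_le _ _).trans (by linarith)
  have h4 : inner ℝ om ch.nu ^ 2 ≤ (9 / 32 : ℝ) ^ 2 := by
    rw [← sq_abs]
    exact pow_le_pow_left₀ (abs_nonneg _) h2 2
  have hka2 : 1 / 2 ≤ ka := by
    by_contra hcon
    push Not at hcon
    nlinarith
  have hkapos : 0 < ka := by linarith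
  refine ⟨ka⁻¹ • q0, ka, ka⁻¹ * inner ℝ om ch.nu, ?_, hka2, ?_, ?_⟩
  · rw [norm_smul, Real.norm_eq_abs, abs_of_pos (by positivity), ← hka]
    exact inv_mul_cancel₀ hkapos.ne'
  · intro q
    rw [real_inner_smul_left, hq0]
    field_simp
  · intro q
    rw [real_inner_smul_left, hq0]
    field_simp
    ring

/-- **P** -/
theorem specP (hSPL : SpecSPL) (hDU : SpecDU) (hWL : SpecWL) (hTR : SpecTR) (hSL : SpecSL)
    (hSC : SpecSC) (hZ0 : SpecZ0) (hZ1 : SpecZ1) (hZ2 : SpecZ2) (hZN : SpecZN) (hZS : SpecZS) :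
    SpecP := by
  intro m ch
  obtain ⟨C0, hC0, h0⟩ := hZ0 m ch
  obtain ⟨C1, hC1, h1⟩ := hZ1 m ch
  obtain ⟨K2, hK2, h2⟩ := hZ2 m ch
  obtain ⟨C3, hC3, h3⟩ := hZN (m + 1)
  obtain ⟨CS, KS, hCS, hKS, hS⟩ := hZS (m + 1)
  obtain ⟨V, hV⟩ : ∃ V, V = volume.real (closedBall (0 : EE m) (2 * ch.dl)) := ⟨_, rfl⟩
  obtain ⟨V', hV'⟩ : ∃ V', V' = volume.real (closedBall (0 : EE (m + 1)) (2 * ch.dl)) := ⟨_, rfl⟩
  have hV0 : 0 ≤ V := by rw [hV]; positivity
  have hV'0 : 0 ≤ V' := by rw [hV']; positivity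
  have hm0 : (0 : ℝ) ≤ m := Nat.cast_nonneg m
  refine ⟨(m : ℝ) + 2 + K2 + KS + 1, by positivity, fun eps heps heps1 => ?_⟩
  obtain ⟨C2, hC2, h2⟩ := h2 eps heps heps1
  obtain ⟨Ce, hCe0, hCe⟩ := exp_est (2 * (m + 2)) eps heps
  refine ⟨V' * 48 ^ (m + 2) + Real.exp 2 *
    (4 * (C0 + CS * (C1 + C2) + CS * (C3 * V) * Ce)) + 1, by positivity, ?_⟩
  intro lam r th n0 s a hlam hr hr3 hth hthr hn0 hs1 hs2
  have hdl := ch.dl_pos
  have hl0 : 0 < lam := by linarith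
  have hr0 : 0 < r := by linarith
  have hsum : 0 ≤ ∑ n ∈ s, ‖a n‖ ^ 2 := Finset.sum_nonneg fun n _ => by positivity
  have hLa1 : 1 ≤ lam ^ eps := Real.one_le_rpow hlam heps.le
  obtain ⟨Q, hQ⟩ : ∃ Q, Q = lam ^ (((m : ℝ) + 2 + K2 + KS + 1) * eps) := ⟨_, rfl⟩
  have hQ0 : 0 < Q := by rw [hQ]; positivity
  rw [← hQ]
  obtain ⟨Ct, hCt⟩ : ∃ Ct, Ct = 4 * (C0 + CS * (C1 + C2) + CS * (C3 * V) * Ce) := ⟨_, rfl⟩
  have hCt0 : 0 ≤ Ct := by rw [hCt]; positivity
  rw [← hCt]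
  by_cases h16 : r ≤ 16 * lam ^ eps
  · -- trivial case
    refine (triv_case hTR ch a hr hs2).trans ?_
    rw [← hV']
    refine mul_le_mul_of_nonneg_right ?_ hsum
    have h4 : (3 * r) ^ (m + 2) ≤ 48 ^ (m + 2) * Q := by
      calc (3 * r) ^ (m + 2) ≤ (48 * lam ^ eps) ^ (m + 2) :=
            pow_le_pow_left₀ (by linarith) (by linarith) _
        _ = 48 ^ (m + 2) * (lam ^ eps) ^ (m + 2) := mul_pow _ _ _
        _ ≤ 48 ^ (m + 2) * Q := by
            refine mul_le_mul_of_nonneg_left ?_ (by positivity)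
            rw [hQ, ← Real.rpow_natCast, ← Real.rpow_mul hl0.le]
            refine Real.rpow_le_rpow_of_exponent_le hlam ?_
            push_cast
            nlinarith
    calc V' * (3 * r) ^ (m + 2) ≤ V' * (48 ^ (m + 2) * Q) := mul_le_mul_of_nonneg_left h4 hV'0
      _ = V' * 48 ^ (m + 2) * Q := by ring
      _ ≤ (V' * 48 ^ (m + 2) + Real.exp 2 * Ct + 1) * Q := by
          refine mul_le_mul_of_nonneg_right ?_ hQ0.le
          have : 0 ≤ Real.exp 2 * Ct := by positivity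
          linarith
  push Not at h16
  have hLr : lam ^ eps ≤ r := by linarith
  have hth1 : th ≤ 1 / 4 := by
    by_contra hcon
    push Not at hcon
    have : (1 / 4 : ℝ) ^ 2 * r < th ^ 2 * r := by
      refine mul_lt_mul_of_pos_right ?_ hr0
      exact pow_lt_pow_left₀ hcon (by norm_num) two_ne_zero
    nlinarith
  have hrlam : r ≤ lam := by
    by_contra hcon
    push Not at hcon
    have h5 : lam ^ 2 < r ^ 2 := pow_lt_pow_left₀ hcon hl0.le two_ne_zero
    nlinarith [sq_nonneg r]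
  rcases Set.eq_empty_or_nonempty {q : EE (m + 1) | ‖q‖ ≤ 2 * ch.dl ∧ |sn ch n0 q| ≤ th * lam}
    with hemp | ⟨q1, hq1, hq1'⟩
  · rw [hemp]
    simp only [Measure.restrict_empty, integral_zero_measure]
    positivity
  obtain ⟨om, hom⟩ : ∃ om, om = lam⁻¹ • n0 := ⟨_, rfl⟩
  have hom1 : ‖om‖ = 1 := by
    rw [hom, norm_smul, Real.norm_eq_abs, abs_of_pos (by positivity), hn0]
    exact inv_mul_cancel₀ hl0.ne'
  have hsn : ∀ q, sn ch n0 q = lam * (inner ℝ om ch.nu - inner ℝ om (ch.J q)) := by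
    intro q
    unfold sn
    rw [hom, inner_sub_right, real_inner_smul_left, real_inner_smul_left]
    field_simp
  have hreg : ∀ q, |sn ch n0 q| ≤ th * lam → |inner ℝ om ch.nu - inner ℝ om (ch.J q)| ≤ th := by
    intro q hq
    rw [hsn, abs_mul, abs_of_pos hl0] at hq
    have : lam * |inner ℝ om ch.nu - inner ℝ om (ch.J q)| ≤ lam * th := by linarith
    exact le_of_mul_le_mul_left this hl0
  obtain ⟨e, ka, sg0, he, hka, hJe, hnue⟩ := choose_e ch hom1 hth1 hq1 (hreg q1 hq1')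
  obtain ⟨L, hL1, hL2, hL3, hL4⟩ := hSPL m e he
  have hSl : Slice ch om e L := ⟨hom1, he, hL1, fun b => by rw [hJe, hL1, mul_zero]⟩
  obtain ⟨B0, hB0⟩ : ∃ B0, B0 = C0 * (lam ^ eps) ^ m * (r ^ 2 / lam) := ⟨_, rfl⟩
  obtain ⟨B1, hB1⟩ : ∃ B1, B1 = C1 + C2 * lam ^ (K2 * eps) := ⟨_, rfl⟩
  obtain ⟨B2, hB2⟩ : ∃ B2, B2 = C3 * V * lam ^ (m + 2) * Real.exp (-(lam ^ (2 * eps) / 16)) :=
    ⟨_, rfl⟩
  have hB00 : 0 ≤ B0 := by rw [hB0]; positivity
  have hB10 : 0 ≤ B1 := by rw [hB1]; positivity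
  have hB20 : 0 ≤ B2 := by rw [hB2]; positivity
  obtain ⟨hSum, hSum2⟩ := hS om lam r eps B0 B1 B2 hom1 heps heps1 hlam hr hrlam hB00 hB10 hB20
  have hcs : Continuous (fun q : EE (m + 1) => |inner ℝ e q - sg0|) :=
    ((continuous_const.inner continuous_id).sub continuous_const).abs
  have hDc : IsClosed {q : EE (m + 1) | ‖q‖ ≤ 2 * ch.dl ∧ |inner ℝ e q - sg0| ≤ 2 * th} :=
    (isClosed_le continuous_norm continuous_const).inter (isClosed_le hcs continuous_const)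
  have hDsub : {q : EE (m + 1) | ‖q‖ ≤ 2 * ch.dl ∧ |inner ℝ e q - sg0| ≤ 2 * th} ⊆
      closedBall (0 : EE (m + 1)) (2 * ch.dl) := fun q hq => mem_closedBall_zero_iff.2 hq.1
  have hmain := hDU (m + 1) ch.X {q | ‖q‖ ≤ 2 * ch.dl ∧ |inner ℝ e q - sg0| ≤ 2 * th}
    (2 * ch.dl) om lam r (Real.exp (-2)) s a (fun z => 4 * th * bz om lam r eps B0 B1 B2 z)
    ch.smooth.continuous hDc.measurableSet hDsub hom1 hl0 hr0 (Real.exp_pos _)
    (fun n hn => by
      rw [hom]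
      exact hWL (m + 2) (zv n) n0 lam r hlam hr hr3 (hs1 n hn) hn0 (hs2 n hn))
    (hSum.mul_left _)
    (fun z => mul_nonneg (by positivity) (bz_nonneg om hl0 hr0 hB00 hB10 hB20 z))
    (fun z f hf => block hSL ch hSl hL3 hL4 hl0 hr0 hth hB00 hB10 hB20
      (by
        intro sg sg' hsg hsg' hss
        have := h0 om e L hSl lam r th (lam ^ eps) sg sg' hlam hr hr3 hth hLa1 hthr hsg hsg' hss
        rw [hB0]
        exact this)
      (by
        intro z hN sg sg' hsg hsg'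
        obtain ⟨hN1, hN2, hN3⟩ := hN
        obtain ⟨Sq, hSq⟩ : ∃ Sq, Sq = Real.sqrt (lam / |inner ℝ om ((2 * Real.pi) • zv z)|) :=
          ⟨_, rfl⟩
        have hSq0 : 0 ≤ Sq := by rw [hSq]; exact Real.sqrt_nonneg _
        rw [← hSq, hB1]
        rcases le_total (|inner ℝ om ((2 * Real.pi) • zv z)| * r ^ 2) (2 * lam) with hc | hc
        · refine OB_mono (h1 om e L hSl lam r sg sg' _ hlam hr hN1 hc hsg hsg') ?_
          rw [← hSq]
          refine mul_le_mul_of_nonneg_right (mul_le_mul_of_nonneg_right ?_ (by positivity)) hSq0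
          have : 0 ≤ C2 * lam ^ (K2 * eps) := by positivity
          linarith
        · refine OB_mono (h2 om e L hSl lam r sg sg' _ hlam hr hr3 hN1 hc (by linarith) hsg hsg') ?_
          rw [← hSq]
          refine mul_le_mul_of_nonneg_right (mul_le_mul_of_nonneg_right ?_ (by positivity)) hSq0
          linarith)
      (by
        intro z hz hN sg sg' hsg hsg'
        refine OB_mono (ob_triv hSC ch hr0 he L _ hsg hsg' (M := C3 * lam ^ (m + 1 + 1) *
          Real.exp (-(lam ^ (2 * eps) / 16)) *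
          Real.exp (-(‖(2 * Real.pi) • (zv z : EE (m + 2))‖ * r / (64 * lam)))) (by positivity)
          (fun x hx => h3 om lam r eps x z hom1 heps heps1 hlam hLr hr3 hx hz hN)) ?_
        rw [← hV, hB2]
        exact le_of_eq (by ring)) z f hf)
  have hcont : Continuous (fun q => ‖es s a (ch.X q)‖ ^ 2) :=
    (continuous_es s a ch.X ch.smooth.continuous).norm.pow 2
  have hint : IntegrableOn (fun q => ‖es s a (ch.X q)‖ ^ 2)
      {q : EE (m + 1) | ‖q‖ ≤ 2 * ch.dl ∧ |inner ℝ e q - sg0| ≤ 2 * th} :=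
    (hcont.continuousOn.integrableOn_compact (isCompact_closedBall _ _)).mono_set hDsub
  have hsubset : {q : EE (m + 1) | ‖q‖ ≤ 2 * ch.dl ∧ |sn ch n0 q| ≤ th * lam} ⊆
      {q : EE (m + 1) | ‖q‖ ≤ 2 * ch.dl ∧ |inner ℝ e q - sg0| ≤ 2 * th} := by
    rintro q ⟨hq, hq'⟩
    refine ⟨hq, ?_⟩
    have h6 := hreg q hq'
    rw [hnue, abs_neg, abs_mul, abs_of_pos (by linarith : 0 < ka)] at h6
    have h7 : 0 ≤ |inner ℝ e q - sg0| := abs_nonneg _
    nlinarith
  have hmono := setIntegral_mono_set hint (Filter.Eventually.of_forall fun q => by positivity)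
    hsubset.eventuallyLE
  have hts : ∑' z, 4 * th * bz om lam r eps B0 B1 B2 z ≤ Ct * Q := by
    rw [tsum_mul_left]
    have h8 := sum_est (C0 := C0) (C1 := C1) (C2 := C2) (C3 := C3 * V) (CS := CS) (Ce := Ce) (m := m)
      hlam hr hr3 hth hth1 hthr heps (by linarith : 0 ≤ K2) hKS.le hC0.le hC1.le hC2.le
      (by positivity) hCS.le (hCe lam hlam)
    rw [hCt, hQ]
    refine le_trans ?_ h8
    refine mul_le_mul_of_nonneg_left (hSum2.trans (le_of_eq ?_)) (by positivity)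
    rw [hB0, hB1, hB2]
  calc ∫ q in {q | ‖q‖ ≤ 2 * ch.dl ∧ |sn ch n0 q| ≤ th * lam}, ‖es s a (ch.X q)‖ ^ 2
      ≤ ∫ q in {q | ‖q‖ ≤ 2 * ch.dl ∧ |inner ℝ e q - sg0| ≤ 2 * th}, ‖es s a (ch.X q)‖ ^ 2 := hmono
    _ ≤ (Real.exp (-2))⁻¹ * (∑' z, 4 * th * bz om lam r eps B0 B1 B2 z) * ∑ n ∈ s, ‖a n‖ ^ 2 :=
        hmain
    _ ≤ (V' * 48 ^ (m + 2) + Real.exp 2 * Ct + 1) * Q * ∑ n ∈ s, ‖a n‖ ^ 2 := by
        refine mul_le_mul_of_nonneg_right ?_ hsum
        rw [Real.exp_neg, inv_inv]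
        have h9 : Real.exp 2 * ∑' z, 4 * th * bz om lam r eps B0 B1 B2 z ≤ Real.exp 2 * (Ct * Q) :=
          mul_le_mul_of_nonneg_left hts (Real.exp_pos _).le
        have h10 : 0 ≤ V' * 48 ^ (m + 2) * Q := by positivity
        nlinarith

end Pool.Agent.Lib.MP_a8dae7_an.CV.PM
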