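import Pool.Agent.Lib.MP_a8dae7_an.CV.Spec

/-!
# MP_a8dae7_an, CV: RDU, common facts for the reductions (labels, characters, cutoffs)
-/

set_option autoImplicit false

open MeasureTheory
open scoped ContDiff

namespace Pool.Agent.Lib.MP_a8dae7_an.CV.RDUM

/-! ### labels and elementary facts -/

theorem norm_zv_sub_le {d : ℕ} {l : ℝ} (hl : 0 < l) {n n' : Fin d → ℤ} (h : cb l n = cb l n') :
    ‖zv n - zv n'‖ ≤ Real.sqrt d * l := by
  have key : ∀ i, ‖(zv n - zv n') i‖ ^ 2 ≤ l ^ 2 := by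
    intro i
    have h1 := congrFun h i
    simp only [cb] at h1
    have h2 := Int.abs_sub_lt_one_of_floor_eq_floor h1
    have h3 : (zv n - zv n') i = ((n i : ℝ) / l - (n' i : ℝ) / l) * l := by
      simp [zv]
      field_simp
    have h4 : ‖(zv n - zv n') i‖ ≤ l := by
      rw [h3, norm_mul, Real.norm_eq_abs, Real.norm_eq_abs, abs_of_pos hl]
      nlinarith
    exact pow_le_pow_left₀ (norm_nonneg _) h4 2
  rw [EuclideanSpace.norm_eq]
  have h5 : ∑ i, ‖(zv n - zv n') i‖ ^ 2 ≤ (Real.sqrt d * l) ^ 2 := by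
    calc ∑ i, ‖(zv n - zv n') i‖ ^ 2 ≤ ∑ _i : Fin d, l ^ 2 := Finset.sum_le_sum fun i _ => key i
      _ = d * l ^ 2 := by simp
      _ = (Real.sqrt d * l) ^ 2 := by
          rw [mul_pow, Real.sq_sqrt (Nat.cast_nonneg _)]
  calc Real.sqrt (∑ i, ‖(zv n - zv n') i‖ ^ 2) ≤ Real.sqrt ((Real.sqrt d * l) ^ 2) :=
        Real.sqrt_le_sqrt h5
    _ = Real.sqrt d * l := Real.sqrt_sq (by positivity)

theorem le_norm_zv_sub {d : ℕ} {l : ℝ} (hl : 0 < l) {n n' : Fin d → ℤ}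
    (h : ∃ i, ((1 : ℕ) : ℤ) < |cb l n i - cb l n' i|) : l ≤ ‖zv n - zv n'‖ := by
  obtain ⟨i, hi⟩ := h
  have h0 : ‖(zv n - zv n') i‖ ≤ ‖zv n - zv n'‖ := PiLp.norm_apply_le _ i
  refine le_trans ?_ h0
  have h3 : (zv n - zv n') i = ((n i : ℝ) / l - (n' i : ℝ) / l) * l := by
    simp [zv]
    field_simp
  rw [h3, norm_mul, Real.norm_eq_abs, Real.norm_eq_abs, abs_of_pos hl]
  have h4 : (1 : ℝ) ≤ |(n i : ℝ) / l - (n' i : ℝ) / l| := by
    simp only [cb] at hi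
    have a1 := Int.floor_le ((n i : ℝ) / l)
    have a2 := Int.lt_floor_add_one ((n i : ℝ) / l)
    have b1 := Int.floor_le ((n' i : ℝ) / l)
    have b2 := Int.lt_floor_add_one ((n' i : ℝ) / l)
    have hi2 : (2 : ℤ) ≤ |⌊(n i : ℝ) / l⌋ - ⌊(n' i : ℝ) / l⌋| := by
      have := hi
      push_cast at this
      omega
    rcases le_total 0 (⌊(n i : ℝ) / l⌋ - ⌊(n' i : ℝ) / l⌋) with hc | hc
    · rw [abs_of_nonneg hc] at hi2
      have hr : ((2 : ℤ) : ℝ) ≤ ((⌊(n i : ℝ) / l⌋ - ⌊(n' i : ℝ) / l⌋ : ℤ) : ℝ) := by exact_mod_cast hi2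
      push_cast at hr
      rw [le_abs]; left; linarith
    · rw [abs_of_nonpos hc] at hi2
      have hr : ((2 : ℤ) : ℝ) ≤ ((-(⌊(n i : ℝ) / l⌋ - ⌊(n' i : ℝ) / l⌋) : ℤ) : ℝ) := by exact_mod_cast hi2
      push_cast at hr
      rw [le_abs]; right; linarith
  nlinarith

theorem ex_mul_conj {d : ℕ} (n n' x : EE d) :
    ex n x * (starRingEnd ℂ) (ex n' x) = ex (n - n') x := by
  unfold ex
  rw [← Complex.exp_conj, ← Complex.exp_add]
  congr 1
  rw [inner_sub_left, map_mul, Complex.conj_I, Complex.conj_ofReal]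
  push_cast
  ring

theorem sn_sub {k : ℕ} (ch : Chart k) (n n' : EE (k + 1)) (q : EE k) :
    sn ch n q - sn ch n' q = sn ch (n - n') q := by
  simp [sn, inner_sub_left]

theorem abs_sn_le {k : ℕ} (ch : Chart k) (n : EE (k + 1)) (q : EE k) (hq : ‖q‖ ≤ 1) :
    |sn ch n q| ≤ 2 * ‖n‖ := by
  unfold sn
  have h1 : |inner ℝ n (ch.nu - ch.J q)| ≤ ‖n‖ * ‖ch.nu - ch.J q‖ := abs_real_inner_le_norm _ _
  have h2 : ‖ch.nu - ch.J q‖ ≤ 2 := by
    calc ‖ch.nu - ch.J q‖ ≤ ‖ch.nu‖ + ‖ch.J q‖ := norm_sub_le _ _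
      _ ≤ 1 + 1 := by rw [ch.nu_one, ch.J.norm_map]; linarith
      _ = 2 := by norm_num
  have h3 := norm_nonneg n
  nlinarith

/-! ### the cutoffs -/

noncomputable def psi : ContDiffBump (3 / 2 : ℝ) where
  rIn := 1 / 2
  rOut := 1
  rIn_pos := by norm_num
  rIn_lt_rOut := by norm_num

noncomputable def chi0 {k : ℕ} (ch : Chart k) : ContDiffBump (0 : EE k) where
  rIn := 3 / 2 * ch.dl
  rOut := 2 * ch.dl
  rIn_pos := by have := ch.dl_pos; positivity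
  rIn_lt_rOut := by have := ch.dl_pos; linarith

/-- the cutoff of the angle `mu / lam` -/
noncomputable def phi {k : ℕ} (ch : Chart k) (n0 : EE (k + 1)) (sg mu : ℝ) (q : EE k) : ℝ :=
  psi (sg * sn ch n0 q / mu) * chi0 ch q

theorem phi_nonneg {k : ℕ} (ch : Chart k) (n0 : EE (k + 1)) (sg mu : ℝ) (q : EE k) :
    0 ≤ phi ch n0 sg mu q := mul_nonneg psi.nonneg (chi0 ch).nonneg

theorem phi_le_one {k : ℕ} (ch : Chart k) (n0 : EE (k + 1)) (sg mu : ℝ) (q : EE k) :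
    phi ch n0 sg mu q ≤ 1 := mul_le_one₀ psi.le_one (chi0 ch).nonneg (chi0 ch).le_one

theorem phi_eq_one {k : ℕ} (ch : Chart k) (n0 : EE (k + 1)) (sg mu : ℝ) (q : EE k) (hmu : 0 < mu)
    (h1 : mu ≤ sg * sn ch n0 q) (h2 : sg * sn ch n0 q ≤ 2 * mu) (hq : ‖q‖ ≤ 3 / 2 * ch.dl) :
    phi ch n0 sg mu q = 1 := by
  unfold phi
  rw [psi.one_of_mem_closedBall, (chi0 ch).one_of_mem_closedBall, mul_one]
  · simpa [chi0] using hq
  · rw [Metric.mem_closedBall, Real.dist_eq, abs_le]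
    have e1 : 1 ≤ sg * sn ch n0 q / mu := by rw [le_div_iff₀ hmu]; linarith
    have e2 : sg * sn ch n0 q / mu ≤ 2 := by rw [div_le_iff₀ hmu]; linarith
    change -(1 / 2) ≤ _ ∧ _ ≤ (1 / 2 : ℝ)
    constructor <;> linarith

theorem phi_ne_zero {k : ℕ} (ch : Chart k) (n0 : EE (k + 1)) (sg mu : ℝ) (q : EE k) (hmu : 0 < mu)
    (h : phi ch n0 sg mu q ≠ 0) :
    mu / 2 ≤ sg * sn ch n0 q ∧ sg * sn ch n0 q ≤ 4 * mu ∧ ‖q‖ ≤ 2 * ch.dl := by
  unfold phi at h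
  have ha := left_ne_zero_of_mul h
  have hb := right_ne_zero_of_mul h
  have hb2 : ‖q‖ ≤ 2 * ch.dl := by
    by_contra hc
    push Not at hc
    refine hb ((chi0 ch).zero_of_le_dist ?_)
    rw [dist_zero_right]
    exact hc.le
  have ha2 : dist (sg * sn ch n0 q / mu) (3 / 2) < 1 := by
    by_contra hc
    push Not at hc
    exact ha (psi.zero_of_le_dist hc)
  rw [Real.dist_eq, abs_lt] at ha2
  obtain ⟨a1, a2⟩ := ha2
  have e1 : (1 / 2 : ℝ) < sg * sn ch n0 q / mu := by linarith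
  have e2 : sg * sn ch n0 q / mu < 5 / 2 := by linarith
  rw [lt_div_iff₀ hmu] at e1
  rw [div_lt_iff₀ hmu] at e2
  exact ⟨by linarith, by linarith, hb2⟩

theorem phi_contDiff {k : ℕ} (ch : Chart k) (n0 : EE (k + 1)) (sg mu : ℝ) :
    ContDiff ℝ ∞ (phi ch n0 sg mu) := by
  unfold phi
  refine ContDiff.mul (psi.contDiff.comp ?_) (chi0 ch).contDiff
  unfold sn
  have h1 : ContDiff ℝ ∞ (fun q : EE k => ch.J q) := ch.J.contDiff
  have h2 : ContDiff ℝ ∞ (fun q : EE k => inner ℝ n0 (ch.nu - ch.J q)) :=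
    ContDiff.inner ℝ contDiff_const (contDiff_const.sub h1)
  exact (contDiff_const.mul h2).div_const _

theorem phi_compact {k : ℕ} (ch : Chart k) (n0 : EE (k + 1)) (sg mu : ℝ) :
    HasCompactSupport (phi ch n0 sg mu) := by
  unfold phi
  exact (chi0 ch).hasCompactSupport.mul_left

/-- derivatives of a function of an affine form -/
theorem iter_affine {k : ℕ} (f : ℝ → ℝ) (hf : ContDiff ℝ ∞ f) (l : EE k →L[ℝ] ℝ) (c0 : ℝ) (j : ℕ)
    (q : EE k) : ‖iteratedFDeriv ℝ j (fun q => f (c0 + l q)) q‖ ≤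
      ‖iteratedFDeriv ℝ j f (c0 + l q)‖ * ‖l‖ ^ j := by
  have hg : ContDiff ℝ ∞ (fun t => f (c0 + t)) := hf.comp (contDiff_const.add contDiff_id)
  have h1 : (fun q => f (c0 + l q)) = (fun t => f (c0 + t)) ∘ l := rfl
  rw [h1, ContinuousLinearMap.iteratedFDeriv_comp_right l hg q (i := j) (by exact_mod_cast le_top)]
  refine (ContinuousMultilinearMap.norm_compContinuousLinearMap_le _ _).trans ?_
  rw [iteratedFDeriv_comp_add_left]
  simp

theorem exists_bound {k : ℕ} (f : EE k → ℝ) (hf : ContDiff ℝ ∞ f) (hc : HasCompactSupport f) :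
    ∃ B : ℕ → ℝ, ∀ j, 0 ≤ B j ∧ ∀ q, ‖iteratedFDeriv ℝ j f q‖ ≤ B j := by
  have h : ∀ j, ∃ B : ℝ, 0 ≤ B ∧ ∀ q, ‖iteratedFDeriv ℝ j f q‖ ≤ B := by
    intro j
    obtain ⟨C, hC⟩ := Continuous.bounded_above_of_compact_support
      (hf.continuous_iteratedFDeriv (m := j) (by exact_mod_cast le_top)) (hc.iteratedFDeriv j)
    exact ⟨C, (norm_nonneg _).trans (hC 0), hC⟩
  choose B hB using h
  exact ⟨B, hB⟩

theorem exists_bound' (f : ℝ → ℝ) (hf : ContDiff ℝ ∞ f) (hc : HasCompactSupport f) :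
    ∃ B : ℕ → ℝ, ∀ j, 0 ≤ B j ∧ ∀ q, ‖iteratedFDeriv ℝ j f q‖ ≤ B j := by
  have h : ∀ j, ∃ B : ℝ, 0 ≤ B ∧ ∀ q, ‖iteratedFDeriv ℝ j f q‖ ≤ B := by
    intro j
    obtain ⟨C, hC⟩ := Continuous.bounded_above_of_compact_support
      (hf.continuous_iteratedFDeriv (m := j) (by exact_mod_cast le_top)) (hc.iteratedFDeriv j)
    exact ⟨C, (norm_nonneg _).trans (hC 0), hC⟩
  choose B hB using h
  exact ⟨B, hB⟩

theorem phi_deriv {k : ℕ} (ch : Chart k) : ∃ A : ℕ → ℝ, ∀ (n0 : EE (k + 1)) (sg mu : ℝ) (S : ℝ),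
    |sg| ≤ 1 → 0 < mu → 1 ≤ S → ‖n0‖ ≤ S * mu → ∀ (j : ℕ) (q : EE k),
    ‖iteratedFDeriv ℝ j (phi ch n0 sg mu) q‖ ≤ A j * S ^ j := by
  obtain ⟨B1, hB1⟩ := exists_bound' psi psi.contDiff psi.hasCompactSupport
  obtain ⟨B2, hB2⟩ := exists_bound (chi0 ch) (chi0 ch).contDiff (chi0 ch).hasCompactSupport
  refine ⟨fun j => ∑ i ∈ Finset.range (j + 1), (j.choose i : ℝ) * B1 i * B2 (j - i), ?_⟩
  intro n0 sg mu S hsg hmu hS hn j q
  set l : EE k →L[ℝ] ℝ := (-(sg / mu)) • ((innerSL ℝ n0).comp ch.J.toContinuousLinearMap) with hl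
  set c0 : ℝ := sg * inner ℝ n0 ch.nu / mu with hc0
  have hl1 : ∀ q, sg * sn ch n0 q / mu = c0 + l q := by
    intro q
    simp only [sn, hl, hc0, FunLike.coe_smul, Pi.smul_apply, ContinuousLinearMap.comp_apply,
      LinearIsometry.coe_toContinuousLinearMap, innerSL_apply_apply, smul_eq_mul, inner_sub_right]
    ring
  have hl2 : ‖l‖ ≤ S := by
    rw [hl, norm_smul, norm_neg, Real.norm_eq_abs, abs_div, abs_of_pos hmu]
    have h1 : ‖(innerSL ℝ n0).comp ch.J.toContinuousLinearMap‖ ≤ ‖n0‖ * 1 :=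
      (ContinuousLinearMap.opNorm_comp_le _ _).trans
        (mul_le_mul (by rw [innerSL_apply_norm]) ch.J.norm_toContinuousLinearMap_le
          (norm_nonneg _) (norm_nonneg _))
    rw [mul_one] at h1
    calc |sg| / mu * ‖(innerSL ℝ n0).comp ch.J.toContinuousLinearMap‖ ≤ 1 / mu * (S * mu) := by
          refine mul_le_mul ?_ (h1.trans hn) (norm_nonneg _) (by positivity)
          exact div_le_div_of_nonneg_right hsg hmu.le
      _ = S := by field_simp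
  have hfun : phi ch n0 sg mu = fun q => (fun q => psi (c0 + l q)) q * chi0 ch q := by
    funext q
    simp only [phi, hl1]
  have hcd : ContDiff ℝ ∞ (fun q : EE k => psi (c0 + l q)) :=
    psi.contDiff.comp (contDiff_const.add l.contDiff)
  rw [hfun]
  refine (norm_iteratedFDeriv_mul_le (N := ∞) hcd (chi0 ch).contDiff q (n := j)
    (by exact_mod_cast le_top)).trans ?_
  rw [Finset.sum_mul]
  refine Finset.sum_le_sum fun i hi => ?_
  have hij : i ≤ j := Nat.lt_succ_iff.mp (Finset.mem_range.mp hi)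
  have e1 : ‖iteratedFDeriv ℝ i (fun q : EE k => psi (c0 + l q)) q‖ ≤ B1 i * S ^ i := by
    refine (iter_affine psi psi.contDiff l c0 i q).trans ?_
    exact mul_le_mul ((hB1 i).2 _) (pow_le_pow_left₀ (norm_nonneg _) hl2 i) (by positivity) (hB1 i).1
  have e2 : ‖iteratedFDeriv ℝ (j - i) (chi0 ch) q‖ ≤ B2 (j - i) := (hB2 (j - i)).2 q
  have e3 : S ^ i ≤ S ^ j := pow_le_pow_right₀ hS hij
  have p1 := (hB1 i).1
  have p2 := (hB2 (j - i)).1
  calc (j.choose i : ℝ) * ‖iteratedFDeriv ℝ i (fun q : EE k => psi (c0 + l q)) q‖ *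
        ‖iteratedFDeriv ℝ (j - i) (chi0 ch) q‖
      ≤ (j.choose i : ℝ) * (B1 i * S ^ i) * B2 (j - i) := by
        refine mul_le_mul (mul_le_mul_of_nonneg_left e1 (Nat.cast_nonneg _)) e2 (norm_nonneg _) ?_
        positivity
    _ ≤ (j.choose i : ℝ) * (B1 i * S ^ j) * B2 (j - i) := by gcongr
    _ = (j.choose i : ℝ) * B1 i * B2 (j - i) * S ^ j := by ring

end Pool.Agent.Lib.MP_a8dae7_an.CV.RDUM
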