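import Pool.Agent.Lib.MP_a8dae7_an.CV.Spec

/-!
# MP_a8dae7_an, CV: the cutoffs (SpecCT)
-/

set_option autoImplicit false

open MeasureTheory
open scoped ContDiff Topology

namespace Pool.Agent.Lib.MP_a8dae7_an.CV.CTM

open Pool.Agent.Lib.MP_a8dae7_an.CV

/-- derivatives of a constant -/
theorem norm_const_le (c : ℝ) (j : ℕ) (s : ℝ) :
    ‖iteratedFDeriv ℝ j (fun _ : ℝ => c) s‖ ≤ |c| := by
  rcases Nat.eq_zero_or_pos j with rfl | hj
  · rw [norm_iteratedFDeriv_zero]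
    exact le_of_eq (Real.norm_eq_abs c)
  · rw [iteratedFDeriv_const_of_ne (by omega)]
    simp

/-- a smooth function which is constant outside a bounded interval -/
theorem bd_of {f : ℝ → ℝ} (hf : ContDiff ℝ ∞ f) {a b c₁ c₂ : ℝ} (h₁ : ∀ s < a, f s = c₁)
    (h₂ : ∀ s, b < s → f s = c₂) : BD f := by
  refine ⟨hf, fun j => ?_⟩
  have hcont : Continuous (iteratedFDeriv ℝ j f) := hf.continuous_iteratedFDeriv (by exact_mod_cast le_top)
  obtain ⟨M, hM⟩ := isCompact_Icc.exists_bound_of_continuousOn (s := Set.Icc a b) hcont.continuousOn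
  refine ⟨max M (max |c₁| |c₂|), fun s => ?_⟩
  by_cases ha : s < a
  · have h3 : f =ᶠ[𝓝 s] fun _ => c₁ := by
      filter_upwards [Iio_mem_nhds ha] with x hx
      exact h₁ x hx
    rw [(h3.iteratedFDeriv ℝ j).eq_of_nhds]
    exact (norm_const_le c₁ j s).trans ((le_max_left _ _).trans (le_max_right _ _))
  by_cases hb : b < s
  · have h3 : f =ᶠ[𝓝 s] fun _ => c₂ := by
      filter_upwards [Ioi_mem_nhds hb] with x hx
      exact h₂ x hx
    rw [(h3.iteratedFDeriv ℝ j).eq_of_nhds]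
    exact (norm_const_le c₂ j s).trans ((le_max_right _ _).trans (le_max_right _ _))
  · exact (hM s ⟨not_lt.1 ha, not_lt.1 hb⟩).trans (le_max_left _ _)

theorem psP_smooth : ContDiff ℝ ∞ psP :=
  Real.smoothTransition.contDiff.comp (contDiff_id.sub contDiff_const)

theorem psN_smooth : ContDiff ℝ ∞ psN := psP_smooth.comp contDiff_neg

theorem psT_smooth : ContDiff ℝ ∞ psT := (contDiff_const.sub psP_smooth).sub psN_smooth

theorem ph_smooth : ContDiff ℝ ∞ ph :=
  (Real.smoothTransition.contDiff.comp ((contDiff_const.mul contDiff_id).sub contDiff_const)).mul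
    (Real.smoothTransition.contDiff.comp (contDiff_const.sub contDiff_id))

theorem psP_zero {s : ℝ} (h : s ≤ 1) : psP s = 0 :=
  Real.smoothTransition.zero_of_nonpos (by linarith)

theorem psP_one {s : ℝ} (h : 2 ≤ s) : psP s = 1 :=
  Real.smoothTransition.one_of_one_le (by linarith)

theorem psN_zero {s : ℝ} (h : -1 ≤ s) : psN s = 0 := psP_zero (by linarith)

theorem psN_one {s : ℝ} (h : s ≤ -2) : psN s = 1 := psP_one (by linarith)

theorem ph_zero {s : ℝ} (h : s ≤ 1 / 2 ∨ 4 ≤ s) : ph s = 0 := by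
  rw [ph]
  rcases h with h | h
  · rw [Real.smoothTransition.zero_of_nonpos (by linarith), zero_mul]
  · rw [Real.smoothTransition.zero_of_nonpos (x := 4 - s) (by linarith), mul_zero]

theorem bd_psP : BD psP :=
  bd_of psP_smooth (a := 1) (b := 2) (fun _ hs => psP_zero hs.le) fun _ hs => psP_one hs.le

theorem bd_psN : BD psN :=
  bd_of psN_smooth (a := -2) (b := -1) (fun _ hs => psN_one hs.le) fun _ hs => psN_zero hs.le

theorem psT_zero {s : ℝ} (h : s ≤ -2 ∨ 2 ≤ s) : psT s = 0 := by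
  rw [psT]
  rcases h with h | h
  · rw [psP_zero (by linarith), psN_one h]
    norm_num
  · rw [psP_one h, psN_zero (by linarith)]
    norm_num

theorem bd_psT : BD psT :=
  bd_of psT_smooth (a := -2) (b := 2) (fun _ hs => psT_zero (Or.inl hs.le))
    fun _ hs => psT_zero (Or.inr hs.le)

theorem bd_ph : BD ph :=
  bd_of ph_smooth (a := 1 / 2) (b := 4) (fun _ hs => ph_zero (Or.inl hs.le))
    fun _ hs => ph_zero (Or.inr hs.le)

theorem bd_ph_neg : BD (fun s => ph (-s)) :=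
  bd_of (ph_smooth.comp contDiff_neg) (a := -4) (b := -(1 / 2))
    (fun _ hs => ph_zero (Or.inr (by linarith))) fun _ hs => ph_zero (Or.inl (by linarith))

theorem psP_mem (s : ℝ) : 0 ≤ psP s ∧ psP s ≤ 1 :=
  ⟨Real.smoothTransition.nonneg _, Real.smoothTransition.le_one _⟩

theorem psT_mem (s : ℝ) : 0 ≤ psT s ∧ psT s ≤ 1 := by
  have h1 := psP_mem s
  have h2 : 0 ≤ psN s ∧ psN s ≤ 1 := psP_mem (-s)
  rw [psT]
  rcases le_total s 1 with h | h
  · rw [psP_zero h]
    constructor <;> linarith [h2.1, h2.2]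
  · rw [psN_zero (by linarith)]
    constructor <;> linarith [h1.1, h1.2]

/-! ### Derivatives of compositions with affine functions -/

variable {E : Type*} [NormedAddCommGroup E] [NormedSpace ℝ E]

theorem comp_aff {f : ℝ → ℝ} (hf : ContDiff ℝ ∞ f) (Λ : E →L[ℝ] ℝ) (c : ℝ) (j : ℕ) (q : E) :
    ‖iteratedFDeriv ℝ j (fun q => f (Λ q + c)) q‖ ≤
      ‖iteratedFDeriv ℝ j f (Λ q + c)‖ * ‖Λ‖ ^ j := by
  have hg : ContDiff ℝ ∞ (fun x : ℝ => f (x + c)) := hf.comp (contDiff_id.add contDiff_const)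
  have h1 : iteratedFDeriv ℝ j ((fun x : ℝ => f (x + c)) ∘ Λ) q =
      (iteratedFDeriv ℝ j (fun x : ℝ => f (x + c)) (Λ q)).compContinuousLinearMap fun _ => Λ :=
    Λ.iteratedFDeriv_comp_right hg q (by exact_mod_cast le_top)
  have h2 : (fun q => f (Λ q + c)) = (fun x : ℝ => f (x + c)) ∘ Λ := rfl
  rw [h2, h1, iteratedFDeriv_comp_add_right]
  refine (ContinuousMultilinearMap.norm_compContinuousLinearMap_le _ _).trans ?_
  rw [Finset.prod_const, Finset.card_univ, Fintype.card_fin]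

/-- the linear part of `sn ch n / (th lam)` -/
noncomputable def lin {k : ℕ} (ch : Chart k) (n : EE (k + 1)) (r : ℝ) : EE k →L[ℝ] ℝ :=
  (-r⁻¹) • ((innerSL ℝ n).comp ch.J.toContinuousLinearMap)

theorem sn_eq {k : ℕ} (ch : Chart k) (n : EE (k + 1)) (r : ℝ) (q : EE k) :
    sn ch n q / r = lin ch n r q + inner ℝ n ch.nu / r := by
  have h1 : lin ch n r q = -r⁻¹ * inner ℝ n (ch.J q) := rfl
  rw [h1, sn, inner_sub_right]
  ring

theorem lin_norm {k : ℕ} (ch : Chart k) (n : EE (k + 1)) {th lam : ℝ} (hth : 0 < th)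
    (hlam : 0 < lam) (hn : ‖n‖ ≤ lam) : ‖lin ch n (th * lam)‖ ≤ 1 / th := by
  have hpos : 0 < th * lam := mul_pos hth hlam
  refine ContinuousLinearMap.opNorm_le_bound _ (by positivity) fun q => ?_
  have h1 : lin ch n (th * lam) q = -(th * lam)⁻¹ * inner ℝ n (ch.J q) := rfl
  rw [h1, norm_mul, norm_neg, norm_inv, Real.norm_of_nonneg hpos.le]
  have h2 : ‖(inner ℝ n (ch.J q) : ℝ)‖ ≤ lam * ‖q‖ := by
    refine (norm_inner_le_norm n (ch.J q)).trans ?_
    rw [ch.J.norm_map]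
    exact mul_le_mul_of_nonneg_right hn (norm_nonneg _)
  calc (th * lam)⁻¹ * ‖(inner ℝ n (ch.J q) : ℝ)‖ ≤ (th * lam)⁻¹ * (lam * ‖q‖) :=
        mul_le_mul_of_nonneg_left h2 (by positivity)
    _ = 1 / th * ‖q‖ := by field_simp

/-- bound of a composition -/
theorem comp_sn {k : ℕ} (ch : Chart k) {f : ℝ → ℝ} (hf : BD f) {M : ℕ → ℝ}
    (hM : ∀ j s, ‖iteratedFDeriv ℝ j f s‖ ≤ M j) (n : EE (k + 1)) {th lam : ℝ} (hth : 0 < th)
    (hlam : 0 < lam) (hn : ‖n‖ ≤ lam) (j : ℕ) (q : EE k) :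
    ‖iteratedFDeriv ℝ j (fun q => f (sn ch n q / (th * lam))) q‖ ≤ M j * (1 / th) ^ j := by
  have h1 : (fun q => f (sn ch n q / (th * lam))) =
      fun q => f (lin ch n (th * lam) q + inner ℝ n ch.nu / (th * lam)) := by
    funext q
    rw [sn_eq]
  rw [h1]
  refine (comp_aff hf.1 _ _ j q).trans ?_
  exact mul_le_mul (hM _ _) (pow_le_pow_left₀ (norm_nonneg _) (lin_norm ch n hth hlam hn) j)
    (by positivity) ((norm_nonneg _).trans (hM j 0))

theorem smooth_sn {k : ℕ} (ch : Chart k) {f : ℝ → ℝ} (hf : BD f) (n : EE (k + 1)) (r : ℝ) :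
    ContDiff ℝ ∞ (fun q => f (sn ch n q / r)) := by
  have h1 : (fun q => f (sn ch n q / r)) = fun q => f (lin ch n r q + inner ℝ n ch.nu / r) := by
    funext q
    rw [sn_eq]
  rw [h1]
  exact hf.1.comp ((lin ch n r).contDiff.add contDiff_const)

/-- the product rule with powers of `t` -/
theorem mul_bound {k : ℕ} {F G : EE k → ℝ} (hF : ContDiff ℝ ∞ F) (hG : ContDiff ℝ ∞ G)
    {M N : ℕ → ℝ} {t : ℝ} (ht : 0 ≤ t) (hM0 : ∀ j, 0 ≤ M j)
    (hM : ∀ j q, ‖iteratedFDeriv ℝ j F q‖ ≤ M j * t ^ j)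
    (hN : ∀ j q, ‖iteratedFDeriv ℝ j G q‖ ≤ N j * t ^ j) (j : ℕ) (q : EE k) :
    ‖iteratedFDeriv ℝ j (fun q => F q * G q) q‖ ≤
      (∑ i ∈ Finset.range (j + 1), (j.choose i : ℝ) * M i * N (j - i)) * t ^ j := by
  refine (norm_iteratedFDeriv_mul_le (n := j) (N := ∞) hF hG q (by exact_mod_cast le_top)).trans ?_
  rw [Finset.sum_mul]
  refine Finset.sum_le_sum fun i hi => ?_
  have hi' : i ≤ j := by
    have := Finset.mem_range.1 hi
    omega
  have h3 : t ^ j = t ^ i * t ^ (j - i) := by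
    rw [← pow_add]
    congr 1
    omega
  have h4 : ‖iteratedFDeriv ℝ i F q‖ * ‖iteratedFDeriv ℝ (j - i) G q‖ ≤
      (M i * t ^ i) * (N (j - i) * t ^ (j - i)) :=
    mul_le_mul (hM i q) (hN (j - i) q) (norm_nonneg _) (mul_nonneg (hM0 i) (pow_nonneg ht i))
  calc (j.choose i : ℝ) * ‖iteratedFDeriv ℝ i F q‖ * ‖iteratedFDeriv ℝ (j - i) G q‖
      = (j.choose i : ℝ) * (‖iteratedFDeriv ℝ i F q‖ * ‖iteratedFDeriv ℝ (j - i) G q‖) := by ring
    _ ≤ (j.choose i : ℝ) * ((M i * t ^ i) * (N (j - i) * t ^ (j - i))) :=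
        mul_le_mul_of_nonneg_left h4 (Nat.cast_nonneg _)
    _ = (j.choose i : ℝ) * M i * N (j - i) * t ^ j := by
        rw [h3]
        ring

/-- the derivative bounds of the products -/
theorem prod_bound {k : ℕ} (ch : Chart k) {chi : EE k → ℝ} {f g : ℝ → ℝ}
    (hchi : ContDiff ℝ ∞ chi) (hcs : HasCompactSupport chi) (hf : BD f) (hg : BD g) :
    ∃ A : ℕ → ℝ, ∀ (n n' : EE (k + 1)) (th lam : ℝ), 0 < th → th ≤ 4 → 0 < lam → ‖n‖ ≤ lam →
      ‖n'‖ ≤ lam →
    ContDiff ℝ ∞ (fun q => chi q * (f (sn ch n q / (th * lam)) * g (sn ch n' q / (th * lam)))) ∧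
    ∀ (j : ℕ) (q : EE k), ‖iteratedFDeriv ℝ j
      (fun q => chi q * (f (sn ch n q / (th * lam)) * g (sn ch n' q / (th * lam)))) q‖ ≤
      A j * (1 / th) ^ j := by
  choose Mf hMf using hf.2
  choose Mg hMg using hg.2
  have hchi' : ∀ j : ℕ, ∃ C : ℝ, ∀ q, ‖iteratedFDeriv ℝ j chi q‖ ≤ C := fun j =>
    (hcs.iteratedFDeriv j).exists_bound_of_continuous
      (hchi.continuous_iteratedFDeriv (by exact_mod_cast le_top))
  choose Mc hMc using hchi'
  have hMc0 : ∀ j, 0 ≤ Mc j := fun j => (norm_nonneg _).trans (hMc j 0)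
  have hMf0 : ∀ j, 0 ≤ Mf j := fun j => (norm_nonneg _).trans (hMf j 0)
  set N : ℕ → ℝ := fun j => ∑ i ∈ Finset.range (j + 1), (j.choose i : ℝ) * Mf i * Mg (j - i)
    with hN
  refine ⟨fun j => ∑ i ∈ Finset.range (j + 1), (j.choose i : ℝ) * (Mc i * 4 ^ i) * N (j - i), ?_⟩
  intro n n' th lam hth hth4 hlam hn hn'
  have hF := smooth_sn ch hf n (th * lam)
  have hG := smooth_sn ch hg n' (th * lam)
  refine ⟨hchi.mul (hF.mul hG), fun j q => ?_⟩
  have ht : (0 : ℝ) ≤ 1 / th := by positivity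
  have h4 : (1 : ℝ) ≤ 4 * (1 / th) := by
    rw [mul_one_div, le_div_iff₀ hth]
    linarith
  refine mul_bound hchi (hF.mul hG) (M := fun j => Mc j * 4 ^ j) (N := N) ht
    (fun j => mul_nonneg (hMc0 j) (by positivity)) (fun i q => ?_) (fun i q => ?_) j q
  · calc ‖iteratedFDeriv ℝ i chi q‖ ≤ Mc i * 1 := by
          rw [mul_one]
          exact hMc i q
      _ ≤ Mc i * (4 * (1 / th)) ^ i := mul_le_mul_of_nonneg_left (one_le_pow₀ h4) (hMc0 i)
      _ = Mc i * 4 ^ i * (1 / th) ^ i := by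
          rw [mul_pow]
          ring
  · exact mul_bound hF hG ht hMf0 (comp_sn ch hf hMf n hth hlam hn)
      (comp_sn ch hg hMg n' hth hlam hn') i q

theorem specCT : SpecCT := by
  refine ⟨bd_psP, bd_psN, bd_psT, bd_ph, bd_ph_neg, ?_, ?_, ?_, ?_, ?_, ?_, ?_⟩
  · intro s
    refine ⟨(psP_mem s).1, (psP_mem s).2, (psP_mem (-s)).1, (psP_mem (-s)).2, (psT_mem s).1,
      (psT_mem s).2, ?_, ?_⟩
    · exact mul_nonneg (Real.smoothTransition.nonneg _) (Real.smoothTransition.nonneg _)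
    · exact mul_le_one₀ (Real.smoothTransition.le_one _) (Real.smoothTransition.nonneg _)
        (Real.smoothTransition.le_one _)
  · intro s hs
    by_contra h
    exact hs (psP_zero (not_lt.1 h))
  · intro s hs
    by_contra h
    exact hs (psN_zero (not_lt.1 h))
  · intro s hs
    by_contra h
    rw [not_lt, le_abs] at h
    apply hs
    rcases h with h | h
    · exact psT_zero (Or.inr h)
    · exact psT_zero (Or.inl (by linarith))
  · intro s h1 h2
    rw [ph, Real.smoothTransition.one_of_one_le (by linarith),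
      Real.smoothTransition.one_of_one_le (by linarith), mul_one]
  · intro s hs
    constructor
    · by_contra h
      exact hs (ph_zero (Or.inl (not_lt.1 h)))
    · by_contra h
      exact hs (ph_zero (Or.inr (not_lt.1 h)))
  · intro k ch chi f g hchi hcs hf hg
    exact prod_bound ch hchi hcs hf hg

end Pool.Agent.Lib.MP_a8dae7_an.CV.CTM
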