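import Pool.Agent.Lib.MP_a8dae7_an.CV.Spec

/-!
# MP_a8dae7_an, CV: DU, the duality step.

`(∫_D |u|²)² = |∑_s a_n ∫_D e_n(X) ū|² ≤ ∑|a|² ∑_s |∫_D e_n(X) ū|² ≤ c0⁻¹ ∑|a|² ∑_{ℤ^d} WW(n) |∫_D e_n(X) ū|²`, and the
last sum is the sum over `z` of the double integrals with the kernel `Kf (X q - X q' + 2πz)`.
-/

set_option autoImplicit false

open MeasureTheory
open scoped ContDiff ComplexConjugate

namespace Pool.Agent.Lib.MP_a8dae7_an.CV.DUM

open Pool.Agent.Lib.MP_a8dae7_an.CV

/-- interchange of a sum and a double integral -/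
theorem hasSum_double {k : ℕ} {ι : Type} [Countable ι] (D : Set (EE k)) (hD : MeasurableSet D)
    (hfin : volume D < ⊤) (F : ι → EE k → EE k → ℂ)
    (hF : ∀ i, Continuous (fun p : EE k × EE k => F i p.1 p.2)) (b : ι → ℝ) (hb : Summable b)
    (hFb : ∀ i, ∀ q ∈ D, ∀ q' ∈ D, ‖F i q q'‖ ≤ b i) :
    HasSum (fun i => ∫ q in D, ∫ q' in D, F i q q') (∫ q in D, ∫ q' in D, ∑' i, F i q q') := by
  have : IsFiniteMeasure (volume.restrict D) := ⟨by simpa using hfin⟩
  -- the inner sums
  have hin : ∀ q ∈ D, HasSum (fun i => ∫ q' in D, F i q q') (∫ q' in D, ∑' i, F i q q') := by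
    intro q hq
    refine hasSum_integral_of_dominated_convergence (fun i _ => b i) ?_ ?_ ?_ ?_ ?_
    · intro i
      have h1 : Continuous (fun q' => F i q q') := (hF i).comp (Continuous.prodMk_right q)
      exact h1.aestronglyMeasurable
    · intro i
      filter_upwards [ae_restrict_mem hD] with q' hq'
      exact hFb i q hq q' hq'
    · exact Filter.Eventually.of_forall fun _ => hb
    · exact integrable_const _
    · filter_upwards [ae_restrict_mem hD] with q' hq'
      exact (Summable.of_norm_bounded hb fun i => hFb i q hq q' hq').hasSum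
  refine hasSum_integral_of_dominated_convergence (fun i _ => b i * volume.real D) ?_ ?_ ?_ ?_ ?_
  · intro i
    exact ((hF i).stronglyMeasurable.integral_prod_right (ν := volume.restrict D)).aestronglyMeasurable
  · intro i
    filter_upwards [ae_restrict_mem hD] with q hq
    exact norm_setIntegral_le_of_norm_le_const hfin fun q' hq' => hFb i q hq q' hq'
  · exact Filter.Eventually.of_forall fun _ => hb.mul_right _
  · exact integrable_const _
  · filter_upwards [ae_restrict_mem hD] with q hq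
    exact hin q hq

/-- the square of an integral as a double integral -/
theorem sq_eq {k : ℕ} (D : Set (EE k)) (g : EE k → ℂ) :
    ((‖∫ q in D, g q‖ ^ 2 : ℝ) : ℂ) = ∫ q in D, ∫ q' in D, g q * conj (g q') := by
  have h1 : ∀ q, ∫ q' in D, g q * conj (g q') = g q * conj (∫ q' in D, g q') := by
    intro q
    rw [integral_const_mul, integral_conj]
  simp_rw [h1]
  rw [integral_mul_const, Complex.mul_conj, Complex.normSq_eq_norm_sq]

theorem ex_sub {d : ℕ} (n x y : EE d) : ex n (x - y) = ex n x * conj (ex n y) := by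
  unfold ex
  rw [← Complex.exp_conj, ← Complex.exp_add]
  congr 1
  rw [inner_sub_right]
  simp only [map_mul, Complex.conj_I, Complex.conj_ofReal]
  push_cast
  ring

theorem norm_ex {d : ℕ} (n x : EE d) : ‖ex n x‖ = 1 := by
  unfold ex
  rw [mul_comm, Complex.norm_exp_ofReal_mul_I]

theorem continuous_ex {d : ℕ} (n : EE d) : Continuous (ex n) := by
  unfold ex
  fun_prop

theorem continuous_es {d : ℕ} (s : Finset (Fin d → ℤ)) (a : (Fin d → ℤ) → ℂ) :
    Continuous (es s a) := by
  unfold es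
  exact continuous_finsetSum _ fun n _ => continuous_const.mul (continuous_ex _)

theorem AA_re {lam r t : ℝ} : (AA lam r t).re = 1 / r ^ 2 := by
  unfold AA
  simp only [Complex.add_re, Complex.ofReal_re, Complex.mul_re, Complex.I_re, Complex.I_im,
    Complex.ofReal_im]
  ring

theorem continuous_AA {lam r : ℝ} : Continuous (AA lam r) := by
  unfold AA
  fun_prop

theorem continuous_Kf {k : ℕ} (om : EE (k + 1)) {lam r : ℝ} (hr : 0 < r) :
    Continuous (Kf om lam r) := by
  have hA : Continuous fun x : EE (k + 1) => AA lam r (inner ℝ om x) :=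
    continuous_AA.comp (by fun_prop)
  have hre : ∀ x : EE (k + 1), 0 < (AA lam r (inner ℝ om x)).re := by
    intro x
    rw [AA_re]
    positivity
  have hne : ∀ x : EE (k + 1), 4 * AA lam r (inner ℝ om x) ≠ 0 := by
    intro x h0
    have h1 : AA lam r (inner ℝ om x) = 0 := by
      rcases mul_eq_zero.mp h0 with h | h
      · norm_num at h
      · exact h
    have h2 := hre x
    rw [h1] at h2
    simp at h2
  have hpq : Continuous fun x : EE (k + 1) => ((pq om x : ℝ) : ℂ) := by
    unfold pq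
    fun_prop
  have hF : Continuous (FF om lam r) := by
    unfold FF
    refine ((Continuous.neg (by fun_prop)).sub (continuous_const.mul
      (hA.clog fun x => Or.inl (hre x)))).sub (hpq.div (continuous_const.mul hA) hne)
  unfold Kf
  refine (Continuous.mul continuous_const (Complex.continuous_exp.comp ?_)).mul
    (Complex.continuous_exp.comp hF)
  fun_prop

/-- the identity: the weighted sum of the squares of the coefficients is the sum of the blocks -/
theorem blocks {k : ℕ} (hPS : SpecPS) (X : EE k → EE (k + 1)) (D : Set (EE k)) (R : ℝ)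
    (om : EE (k + 1)) (lam r : ℝ) (hX : Continuous X) (hD : MeasurableSet D)
    (hDR : D ⊆ Metric.closedBall 0 R) (hom : ‖om‖ = 1) (hlam : 0 < lam) (hr : 0 < r)
    (u : EE k → ℂ) (hu : Continuous u) : ∃ S : ℂ,
    HasSum (fun n : Fin (k + 1) → ℤ =>
      ((WW om lam r (zv n) * ‖∫ q in D, ex (zv n) (X q) * conj (u q)‖ ^ 2 : ℝ) : ℂ)) S ∧
    HasSum (fun z : Fin (k + 1) → ℤ => ∫ q in D, ∫ q' in D,
      Kf om lam r (X q - X q' + (2 * Real.pi) • zv z) * (conj (u q) * u q')) S := by
  obtain ⟨hsW, hbd, hpois⟩ := hPS k om lam r hom hlam hr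
  have hfin : volume D < ⊤ :=
    lt_of_le_of_lt (measure_mono hDR) (isCompact_closedBall (0 : EE k) R).measure_lt_top
  obtain ⟨M, hM⟩ := (isCompact_closedBall (0 : EE k) R).exists_bound_of_continuousOn
    (f := u) hu.continuousOn
  obtain ⟨M', hM'⟩ := (isCompact_closedBall (0 : EE k) R).exists_bound_of_continuousOn
    (f := X) hX.continuousOn
  obtain ⟨w, hw, hwb⟩ := hbd (M' + M')
  have huu : ∀ q ∈ D, ∀ q' ∈ D, ‖conj (u q) * u q'‖ ≤ M * M := by
    intro q hq q' hq'
    rw [norm_mul, RCLike.norm_conj]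
    exact mul_le_mul (hM q (hDR hq)) (hM q' (hDR hq')) (norm_nonneg _)
      ((norm_nonneg _).trans (hM q (hDR hq)))
  have hMM : 0 ≤ M * M := mul_self_nonneg M
  have hWpos : ∀ n : Fin (k + 1) → ℤ, 0 ≤ WW om lam r (zv n) := fun n => (Real.exp_pos _).le
  -- first family
  have h1 := hasSum_double D hD hfin
    (fun (n : Fin (k + 1) → ℤ) q q' =>
      ((WW om lam r (zv n) : ℝ) : ℂ) * ex (zv n) (X q - X q') * (conj (u q) * u q'))
    (fun n => by
      have h2 : Continuous fun p : EE k × EE k => ex (zv n) (X p.1 - X p.2) :=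
        (continuous_ex _).comp (by fun_prop)
      have h3 : Continuous fun p : EE k × EE k => conj (u p.1) * u p.2 := by fun_prop
      exact (continuous_const.mul h2).mul h3)
    (fun n => WW om lam r (zv n) * (M * M)) (hsW.mul_right _)
    (fun n q hq q' hq' => by
      rw [norm_mul, norm_mul, norm_ex, mul_one, Complex.norm_real, Real.norm_of_nonneg (hWpos n)]
      exact mul_le_mul_of_nonneg_left (huu q hq q' hq') (hWpos n))
  -- second family
  have h2 := hasSum_double D hD hfin
    (fun (z : Fin (k + 1) → ℤ) q q' =>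
      Kf om lam r (X q - X q' + (2 * Real.pi) • zv z) * (conj (u q) * u q'))
    (fun z => by
      have h2 : Continuous fun p : EE k × EE k => Kf om lam r (X p.1 - X p.2 + (2 * Real.pi) • zv z) :=
        (continuous_Kf om hr).comp (by fun_prop)
      have h3 : Continuous fun p : EE k × EE k => conj (u p.1) * u p.2 := by fun_prop
      exact h2.mul h3)
    (fun z => w z * (M * M)) (hw.mul_right _)
    (fun z q hq q' hq' => by
      rw [norm_mul]
      have h4 : ‖Kf om lam r (X q - X q' + (2 * Real.pi) • zv z)‖ ≤ w z :=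
        hwb z _ ((norm_sub_le _ _).trans (add_le_add (hM' q (hDR hq)) (hM' q' (hDR hq'))))
      exact mul_le_mul h4 (huu q hq q' hq') (norm_nonneg _) ((norm_nonneg _).trans h4))
  have h3 : ∀ q q' : EE k,
      ∑' n : Fin (k + 1) → ℤ, ((WW om lam r (zv n) : ℝ) : ℂ) * ex (zv n) (X q - X q') *
        (conj (u q) * u q') =
      ∑' z : Fin (k + 1) → ℤ, Kf om lam r (X q - X q' + (2 * Real.pi) • zv z) *
        (conj (u q) * u q') := by
    intro q q'
    rw [tsum_mul_right, tsum_mul_right, hpois (X q - X q')]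
  simp_rw [h3] at h1
  refine ⟨_, ?_, h2⟩
  convert h1 using 1
  funext n
  rw [Complex.ofReal_mul, sq_eq, ← integral_const_mul]
  refine integral_congr_ae (Filter.Eventually.of_forall fun q => ?_)
  simp only
  rw [← integral_const_mul]
  refine integral_congr_ae (Filter.Eventually.of_forall fun q' => ?_)
  simp only [map_mul, Complex.conj_conj]
  rw [ex_sub]
  ring

/-- **DU**, the duality step. -/
theorem specDU (hPS : SpecPS) : SpecDU := by
  intro k X D R om lam r c0 s a B hX hD hDR hom hlam hr hc0 hW hB hB0 hblock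
  set u : EE k → ℂ := fun q => es s a (X q) with hu
  have huc : Continuous u := (continuous_es s a).comp hX
  obtain ⟨S, hS1, hS2⟩ := blocks hPS X D R om lam r hX hD hDR hom hlam hr u huc
  set I2 : ℝ := ∫ q in D, ‖u q‖ ^ 2 with hI2
  have hI0 : 0 ≤ I2 := integral_nonneg fun q => sq_nonneg _
  set c : (Fin (k + 1) → ℤ) → ℂ := fun n => ∫ q in D, ex (zv n) (X q) * conj (u q) with hc
  have hfin : volume D < ⊤ :=
    lt_of_le_of_lt (measure_mono hDR) (isCompact_closedBall (0 : EE k) R).measure_lt_top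
  have hWpos : ∀ n : Fin (k + 1) → ℤ, 0 ≤ WW om lam r (zv n) := fun n => (Real.exp_pos _).le
  have hT0 : 0 ≤ ∑' z, B z := tsum_nonneg hB0
  -- the norm of `S`
  have hSn : ‖S‖ ≤ (∑' z, B z) * I2 := by
    rw [← hS2.tsum_eq, ← tsum_mul_right]
    exact tsum_of_norm_bounded (hB.mul_right I2).hasSum fun z => hblock z u huc
  -- the sum over `s`
  have hS1r : HasSum (fun n : Fin (k + 1) → ℤ => WW om lam r (zv n) * ‖c n‖ ^ 2) S.re := by
    have h1 := Complex.hasSum_re hS1
    simpa only [Complex.ofReal_re] using h1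
  have hs1 : ∑ n ∈ s, WW om lam r (zv n) * ‖c n‖ ^ 2 ≤ (∑' z, B z) * I2 :=
    (sum_le_hasSum s (fun n _ => mul_nonneg (hWpos n) (sq_nonneg _)) hS1r).trans
      ((Complex.re_le_norm S).trans hSn)
  have hs2 : ∑ n ∈ s, ‖c n‖ ^ 2 ≤ c0⁻¹ * ((∑' z, B z) * I2) := by
    have h1 : c0 * ∑ n ∈ s, ‖c n‖ ^ 2 ≤ ∑ n ∈ s, WW om lam r (zv n) * ‖c n‖ ^ 2 := by
      rw [Finset.mul_sum]
      exact Finset.sum_le_sum fun n hn => mul_le_mul_of_nonneg_right (hW n hn) (sq_nonneg _)
    have h2 := h1.trans hs1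
    rw [inv_mul_eq_div, le_div_iff₀ hc0]
    linarith
  -- `I2 = ∑ a_n c_n`
  have hint : ∀ n : Fin (k + 1) → ℤ, IntegrableOn (fun q => ex (zv n) (X q) * conj (u q)) D := by
    intro n
    have h1 : Continuous fun q => ex (zv n) (X q) * conj (u q) :=
      ((continuous_ex _).comp hX).mul (by fun_prop)
    exact (h1.continuousOn.integrableOn_compact (isCompact_closedBall (0 : EE k) R)).mono_set hDR
  have hI : (I2 : ℂ) = ∑ n ∈ s, a n * c n := by
    have h1 : ∀ n ∈ s, a n * c n = ∫ q in D, a n * (ex (zv n) (X q) * conj (u q)) := fun n _ =>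
      (integral_const_mul _ _).symm
    rw [Finset.sum_congr rfl h1, ← integral_finsetSum s fun n _ => (hint n).const_mul (a n), hI2,
      ← integral_complex_ofReal]
    refine integral_congr_ae (Filter.Eventually.of_forall fun q => ?_)
    simp only
    rw [← Complex.normSq_eq_norm_sq, ← Complex.mul_conj]
    have h2 : u q = ∑ n ∈ s, a n * ex (zv n) (X q) := rfl
    nth_rewrite 1 [h2]
    rw [Finset.sum_mul]
    exact Finset.sum_congr rfl fun n _ => by ring
  -- Cauchy-Schwarz
  have hI' : I2 ≤ ∑ n ∈ s, ‖a n‖ * ‖c n‖ := by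
    have h1 : I2 = ‖(I2 : ℂ)‖ := by rw [Complex.norm_real, Real.norm_of_nonneg hI0]
    rw [h1, hI]
    refine (norm_sum_le _ _).trans (le_of_eq ?_)
    exact Finset.sum_congr rfl fun n _ => norm_mul _ _
  have hcs : I2 ^ 2 ≤ (∑ n ∈ s, ‖a n‖ ^ 2) * ∑ n ∈ s, ‖c n‖ ^ 2 :=
    (pow_le_pow_left₀ hI0 hI' 2).trans (Finset.sum_mul_sq_le_sq_mul_sq s _ _)
  have ha0 : 0 ≤ ∑ n ∈ s, ‖a n‖ ^ 2 := Finset.sum_nonneg fun n _ => sq_nonneg _
  have hfinal : I2 ^ 2 ≤ (c0⁻¹ * (∑' z, B z) * ∑ n ∈ s, ‖a n‖ ^ 2) * I2 := by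
    refine hcs.trans ((mul_le_mul_of_nonneg_left hs2 ha0).trans (le_of_eq ?_))
    ring
  rcases hI0.eq_or_lt with h0 | h0
  · rw [← h0]
    positivity
  · rw [sq] at hfinal
    exact le_of_mul_le_mul_right hfinal h0

end Pool.Agent.Lib.MP_a8dae7_an.CV.DUM
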