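import Pool.Agent.Lib.MP_a8dae7_an.CV.Spec

/-!
# MP_a8dae7_an, CV: SC, the Schur test
-/

set_option autoImplicit false

open MeasureTheory
open scoped ContDiff

namespace Pool.Agent.Lib.MP_a8dae7_an.CV.SCM

/-- optimising the parameter of the inequality of the arithmetic and geometric means -/
theorem opt {x B F G : ℝ} (hB : 0 ≤ B) (hF : 0 ≤ F) (hG : 0 ≤ G)
    (h : ∀ s : ℝ, 0 < s → x ≤ B * (s / 2 * F + (2 * s)⁻¹ * G)) :
    x ≤ B * (Real.sqrt F * Real.sqrt G) := by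
  obtain ⟨a, ha, rfl⟩ : ∃ a : ℝ, 0 ≤ a ∧ F = a ^ 2 := ⟨Real.sqrt F, Real.sqrt_nonneg _, (Real.sq_sqrt hF).symm⟩
  obtain ⟨b, hb, rfl⟩ : ∃ b : ℝ, 0 ≤ b ∧ G = b ^ 2 := ⟨Real.sqrt G, Real.sqrt_nonneg _, (Real.sq_sqrt hG).symm⟩
  rw [Real.sqrt_sq ha, Real.sqrt_sq hb]
  have key : ∀ e : ℝ, 0 < e → x ≤ B * ((a + e) * (b + e)) := by
    intro e he
    have hae : 0 < a + e := by positivity
    have hbe : 0 < b + e := by positivity
    have hs : 0 < (b + e) / (a + e) := by positivity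
    refine (h _ hs).trans (mul_le_mul_of_nonneg_left ?_ hB)
    have h1 : (b + e) / (a + e) / 2 * a ^ 2 ≤ (a + e) * (b + e) / 2 := by
      have : (a + e) * (b + e) / 2 = (b + e) / (a + e) / 2 * (a + e) ^ 2 := by
        field_simp
      rw [this]
      refine mul_le_mul_of_nonneg_left ?_ (by positivity)
      exact pow_le_pow_left₀ ha (by linarith) 2
    have h2 : (2 * ((b + e) / (a + e)))⁻¹ * b ^ 2 ≤ (a + e) * (b + e) / 2 := by
      have : (a + e) * (b + e) / 2 = (2 * ((b + e) / (a + e)))⁻¹ * (b + e) ^ 2 := by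
        field_simp
      rw [this]
      refine mul_le_mul_of_nonneg_left ?_ (by positivity)
      exact pow_le_pow_left₀ hb (by linarith) 2
    linarith
  have hc : Filter.Tendsto (fun e : ℝ => B * ((a + e) * (b + e))) (nhdsWithin 0 (Set.Ioi 0))
      (nhds (B * ((a + 0) * (b + 0)))) := by
    refine Filter.Tendsto.mono_left ?_ nhdsWithin_le_nhds
    have : Continuous (fun e : ℝ => B * ((a + e) * (b + e))) := by fun_prop
    exact this.tendsto 0
  have := ge_of_tendsto hc (Filter.eventually_of_mem self_mem_nhdsWithin fun e he => key e he)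
  simpa using this

/-- the Schur test on a finite measure space, bounded kernel and bounded functions -/
theorem schur {α : Type*} [MeasurableSpace α] (μ : Measure α) [IsFiniteMeasure μ] (K : α → α → ℂ)
    (hK : AEStronglyMeasurable (Function.uncurry K) (μ.prod μ)) {M : ℝ}
    (hM : ∀ᵐ p ∂(μ.prod μ), ‖K p.1 p.2‖ ≤ M) {B : ℝ} (hB : 0 ≤ B)
    (h1 : ∀ᵐ a ∂μ, ∫ b, ‖K a b‖ ∂μ ≤ B) (h2 : ∀ᵐ b ∂μ, ∫ a, ‖K a b‖ ∂μ ≤ B)
    {f g : α → ℂ} (hf : Measurable f) (hg : Measurable g) {Mf Mg : ℝ}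
    (hMf : ∀ a, ‖f a‖ ≤ Mf) (hMg : ∀ a, ‖g a‖ ≤ Mg) :
    ‖∫ a, ∫ b, K a b * (f a * g b) ∂μ ∂μ‖ ≤
      B * (Real.sqrt (∫ a, ‖f a‖ ^ 2 ∂μ) * Real.sqrt (∫ a, ‖g a‖ ^ 2 ∂μ)) := by
  have hf1 : AEStronglyMeasurable (fun p : α × α => f p.1) (μ.prod μ) :=
    (hf.comp measurable_fst).aestronglyMeasurable
  have hg2 : AEStronglyMeasurable (fun p : α × α => g p.2) (μ.prod μ) :=
    (hg.comp measurable_snd).aestronglyMeasurable
  have hK' : AEStronglyMeasurable (fun p : α × α => K p.1 p.2) (μ.prod μ) := hK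
  -- integrability
  have hI : Integrable (fun p : α × α => K p.1 p.2 * (f p.1 * g p.2)) (μ.prod μ) := by
    refine Integrable.of_bound (hK'.mul (hf1.mul hg2)) (M * (Mf * Mg)) ?_
    filter_upwards [hM] with p hp
    have h0 : 0 ≤ M := (norm_nonneg _).trans hp
    have hf0 : 0 ≤ Mf := (norm_nonneg _).trans (hMf p.1)
    rw [norm_mul, norm_mul]
    exact mul_le_mul hp (mul_le_mul (hMf _) (hMg _) (norm_nonneg _) hf0) (by positivity) h0
  have hI1 : Integrable (fun p : α × α => ‖K p.1 p.2‖ * ‖f p.1‖ ^ 2) (μ.prod μ) := by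
    refine Integrable.of_bound (hK'.norm.mul (hf1.norm.pow 2)) (M * Mf ^ 2) ?_
    filter_upwards [hM] with p hp
    have h0 : 0 ≤ M := (norm_nonneg _).trans hp
    rw [Real.norm_of_nonneg (by positivity)]
    exact mul_le_mul hp (pow_le_pow_left₀ (norm_nonneg _) (hMf _) 2) (by positivity) h0
  have hI2 : Integrable (fun p : α × α => ‖K p.1 p.2‖ * ‖g p.2‖ ^ 2) (μ.prod μ) := by
    refine Integrable.of_bound (hK'.norm.mul (hg2.norm.pow 2)) (M * Mg ^ 2) ?_
    filter_upwards [hM] with p hp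
    have h0 : 0 ≤ M := (norm_nonneg _).trans hp
    rw [Real.norm_of_nonneg (by positivity)]
    exact mul_le_mul hp (pow_le_pow_left₀ (norm_nonneg _) (hMg _) 2) (by positivity) h0
  have hF2 : Integrable (fun a => ‖f a‖ ^ 2) μ := by
    refine Integrable.of_bound (hf.norm.pow_const 2).aestronglyMeasurable (Mf ^ 2)
      (Filter.Eventually.of_forall fun a => ?_)
    rw [Real.norm_of_nonneg (by positivity)]
    exact pow_le_pow_left₀ (norm_nonneg _) (hMf _) 2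
  have hG2 : Integrable (fun a => ‖g a‖ ^ 2) μ := by
    refine Integrable.of_bound (hg.norm.pow_const 2).aestronglyMeasurable (Mg ^ 2)
      (Filter.Eventually.of_forall fun a => ?_)
    rw [Real.norm_of_nonneg (by positivity)]
    exact pow_le_pow_left₀ (norm_nonneg _) (hMg _) 2
  -- the two quadratic bounds
  have hA : ∫ p, ‖K p.1 p.2‖ * ‖f p.1‖ ^ 2 ∂(μ.prod μ) ≤ B * ∫ a, ‖f a‖ ^ 2 ∂μ := by
    rw [integral_prod _ hI1, ← integral_const_mul]
    refine integral_mono_ae hI1.integral_prod_left (hF2.const_mul B) ?_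
    filter_upwards [h1] with a ha
    rw [integral_mul_const]
    exact mul_le_mul_of_nonneg_right ha (by positivity)
  have hA' : ∫ p, ‖K p.1 p.2‖ * ‖g p.2‖ ^ 2 ∂(μ.prod μ) ≤ B * ∫ a, ‖g a‖ ^ 2 ∂μ := by
    rw [integral_prod_symm _ hI2, ← integral_const_mul]
    refine integral_mono_ae hI2.integral_prod_right (hG2.const_mul B) ?_
    filter_upwards [h2] with a ha
    rw [integral_mul_const]
    exact mul_le_mul_of_nonneg_right ha (by positivity)
  refine opt hB (integral_nonneg fun a => by positivity) (integral_nonneg fun a => by positivity) ?_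
  intro s hs
  have e1 : ∫ a, ∫ b, K a b * (f a * g b) ∂μ ∂μ = ∫ p, K p.1 p.2 * (f p.1 * g p.2) ∂(μ.prod μ) :=
    (integral_prod _ hI).symm
  rw [e1]
  calc ‖∫ p, K p.1 p.2 * (f p.1 * g p.2) ∂(μ.prod μ)‖
      ≤ ∫ p, ‖K p.1 p.2 * (f p.1 * g p.2)‖ ∂(μ.prod μ) := norm_integral_le_integral_norm _
    _ ≤ ∫ p, (s / 2 * (‖K p.1 p.2‖ * ‖f p.1‖ ^ 2) + (2 * s)⁻¹ * (‖K p.1 p.2‖ * ‖g p.2‖ ^ 2)) ∂(μ.prod μ) := by
        refine integral_mono hI.norm ((hI1.const_mul _).add (hI2.const_mul _)) fun p => ?_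
        simp only
        rw [norm_mul, norm_mul]
        have h0 : ‖f p.1‖ * ‖g p.2‖ ≤ s / 2 * ‖f p.1‖ ^ 2 + (2 * s)⁻¹ * ‖g p.2‖ ^ 2 := by
          have e2 : s / 2 * ‖f p.1‖ ^ 2 + (2 * s)⁻¹ * ‖g p.2‖ ^ 2 - ‖f p.1‖ * ‖g p.2‖ =
              (2 * s)⁻¹ * (s * ‖f p.1‖ - ‖g p.2‖) ^ 2 := by
            field_simp
            ring
          have e3 : 0 ≤ (2 * s)⁻¹ * (s * ‖f p.1‖ - ‖g p.2‖) ^ 2 := by positivity
          linarith
        calc ‖K p.1 p.2‖ * (‖f p.1‖ * ‖g p.2‖)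
            ≤ ‖K p.1 p.2‖ * (s / 2 * ‖f p.1‖ ^ 2 + (2 * s)⁻¹ * ‖g p.2‖ ^ 2) :=
              mul_le_mul_of_nonneg_left h0 (norm_nonneg _)
          _ = s / 2 * (‖K p.1 p.2‖ * ‖f p.1‖ ^ 2) + (2 * s)⁻¹ * (‖K p.1 p.2‖ * ‖g p.2‖ ^ 2) := by ring
    _ = s / 2 * (∫ p, ‖K p.1 p.2‖ * ‖f p.1‖ ^ 2 ∂(μ.prod μ)) +
        (2 * s)⁻¹ * (∫ p, ‖K p.1 p.2‖ * ‖g p.2‖ ^ 2 ∂(μ.prod μ)) := by
        rw [integral_add (hI1.const_mul _) (hI2.const_mul _), integral_const_mul, integral_const_mul]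
    _ ≤ s / 2 * (B * ∫ a, ‖f a‖ ^ 2 ∂μ) + (2 * s)⁻¹ * (B * ∫ a, ‖g a‖ ^ 2 ∂μ) :=
        add_le_add (mul_le_mul_of_nonneg_left hA (by positivity))
          (mul_le_mul_of_nonneg_left hA' (by positivity))
    _ = B * (s / 2 * (∫ a, ‖f a‖ ^ 2 ∂μ) + (2 * s)⁻¹ * ∫ a, ‖g a‖ ^ 2 ∂μ) := by ring

/-- integrals over the whole space of functions vanishing off the ball -/
theorem dbl {m : ℕ} {R : ℝ} (F : EE m → EE m → ℂ)
    (h : ∀ b b', (R < ‖b‖ ∨ R < ‖b'‖) → F b b' = 0) :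
    ∫ b, ∫ b', F b b' = ∫ b in Metric.closedBall (0 : EE m) R, ∫ b' in Metric.closedBall (0 : EE m) R, F b b' := by
  have e1 : ∀ b, ∫ b' in Metric.closedBall (0 : EE m) R, F b b' = ∫ b', F b b' := by
    intro b
    refine setIntegral_eq_integral_of_forall_compl_eq_zero fun b' hb' => h b b' (Or.inr ?_)
    simpa [Metric.mem_closedBall, dist_zero_right] using hb'
  simp only [e1]
  refine (setIntegral_eq_integral_of_forall_compl_eq_zero fun b hb => ?_).symm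
  have hb' : R < ‖b‖ := by simpa [Metric.mem_closedBall, dist_zero_right] using hb
  simp [fun b' => h b b' (Or.inl hb')]

theorem sgl {m : ℕ} {R : ℝ} {f : EE m → ℂ} (h : ∀ b, R < ‖b‖ → f b = 0) :
    ∫ b, ‖f b‖ ^ 2 = ∫ b in Metric.closedBall (0 : EE m) R, ‖f b‖ ^ 2 := by
  refine (setIntegral_eq_integral_of_forall_compl_eq_zero fun b hb => ?_).symm
  have hb' : R < ‖b‖ := by simpa [Metric.mem_closedBall, dist_zero_right] using hb
  simp [h b hb']

instance finBall {m : ℕ} (R : ℝ) : IsFiniteMeasure (volume.restrict (Metric.closedBall (0 : EE m) R)) :=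
  ⟨by
    rw [Measure.restrict_apply MeasurableSet.univ, Set.univ_inter]
    exact measure_closedBall_lt_top⟩

/-- a continuous kernel is bounded almost everywhere on the product of two balls -/
theorem bdd {m n : ℕ} {R R' : ℝ} {K : EE m → EE n → ℂ} (hK : Continuous (fun p : EE m × EE n => K p.1 p.2)) :
    ∃ M : ℝ, 0 ≤ M ∧ ∀ b b', ‖b‖ ≤ R → ‖b'‖ ≤ R' → ‖K b b'‖ ≤ M := by
  have hc : IsCompact (Metric.closedBall (0 : EE m) R ×ˢ Metric.closedBall (0 : EE n) R') :=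
    (isCompact_closedBall _ _).prod (isCompact_closedBall _ _)
  obtain ⟨M, hM⟩ := hc.exists_bound_of_continuousOn hK.continuousOn
  refine ⟨max M 0, le_max_right _ _, fun b b' hb hb' => (hM (b, b') ?_).trans (le_max_left _ _)⟩
  simp [Metric.mem_closedBall, dist_zero_right, hb, hb']

theorem bddae {m n : ℕ} {R R' : ℝ} {K : EE m → EE n → ℂ} {M : ℝ}
    (hM : ∀ b b', ‖b‖ ≤ R → ‖b'‖ ≤ R' → ‖K b b'‖ ≤ M) :
    ∀ᵐ p ∂((volume.restrict (Metric.closedBall (0 : EE m) R)).prod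
      (volume.restrict (Metric.closedBall (0 : EE n) R'))), ‖K p.1 p.2‖ ≤ M := by
  rw [Measure.prod_restrict]
  refine (ae_restrict_iff' (measurableSet_closedBall.prod measurableSet_closedBall)).2
    (Filter.Eventually.of_forall fun p hp => ?_)
  have h1 : ‖p.1‖ ≤ R := by simpa [Metric.mem_closedBall, dist_zero_right] using hp.1
  have h2 : ‖p.2‖ ≤ R' := by simpa [Metric.mem_closedBall, dist_zero_right] using hp.2
  exact hM _ _ h1 h2

end SCM

/-- **SC** -/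
theorem SCM.specSC : SpecSC := by
  intro m R B K hK hB h1 h2 f g hf hg ⟨Mf, hMf⟩ ⟨Mg, hMg⟩ hf0 hg0
  obtain ⟨M, hM0, hM⟩ := SCM.bdd (R := R) (R' := R) hK
  rw [SCM.dbl (R := R) _ (by
    rintro b b' (hb | hb)
    · simp [hf0 b hb]
    · simp [hg0 b' hb]), SCM.sgl hf0, SCM.sgl hg0]
  refine SCM.schur (volume.restrict (Metric.closedBall (0 : EE m) R)) K hK.aestronglyMeasurable
    (SCM.bddae hM) hB ?_ ?_ hf hg hMf hMg
  · refine (ae_restrict_iff' measurableSet_closedBall).2 (Filter.Eventually.of_forall fun b hb => h1 b ?_)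
    simpa [Metric.mem_closedBall, dist_zero_right] using hb
  · refine (ae_restrict_iff' measurableSet_closedBall).2 (Filter.Eventually.of_forall fun b hb => h2 b ?_)
    simpa [Metric.mem_closedBall, dist_zero_right] using hb

end Pool.Agent.Lib.MP_a8dae7_an.CV
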