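import Pool.Agent.Lib.MP_a8dae7_an.CV.Spec

/-!
# MP_a8dae7_an, CV: module KN, the norm of the kernel
-/

set_option autoImplicit false

namespace Pool.Agent.Lib.MP_a8dae7_an.CV.KNM

open Pool.Agent.Lib.MP_a8dae7_an.CV

/-- real part of `A(t)` -/
theorem AA_re (lam r t : ℝ) : (AA lam r t).re = 1 / r ^ 2 := by
  unfold AA
  rw [Complex.add_re, Complex.ofReal_re, Complex.mul_re, Complex.I_re, Complex.I_im,
    Complex.ofReal_re, Complex.ofReal_im]
  ring

/-- imaginary part of `A(t)` -/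
theorem AA_im (lam r t : ℝ) : (AA lam r t).im = t / (2 * lam) := by
  unfold AA
  rw [Complex.add_im, Complex.ofReal_im, Complex.mul_im, Complex.I_re, Complex.I_im,
    Complex.ofReal_re, Complex.ofReal_im]
  ring

/-- the first lower bound of `|A(t)|` -/
theorem le_norm_one (lam r t : ℝ) : 1 / r ^ 2 ≤ ‖AA lam r t‖ := by
  have h := Complex.re_le_norm (AA lam r t)
  rwa [AA_re] at h

/-- the second lower bound of `|A(t)|` -/
theorem le_norm_two (lam r t : ℝ) (hl : 0 < lam) : |t| / (2 * lam) ≤ ‖AA lam r t‖ := by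
  have h := Complex.abs_im_le_norm (AA lam r t)
  rw [AA_im, abs_div, abs_of_pos (by positivity : (0:ℝ) < 2 * lam)] at h
  exact h

/-- the real part of `1/(4 A(t))` -/
theorem re_inv (lam r t : ℝ) (hl : 0 < lam) (hr : 0 < r) :
    ((4 * AA lam r t)⁻¹).re = r ^ 2 / (4 + (t * r ^ 2 / lam) ^ 2) := by
  have h4re : (4 * AA lam r t).re = 4 / r ^ 2 := by
    rw [Complex.mul_re, AA_re, AA_im]
    norm_num
    ring
  have h4im : (4 * AA lam r t).im = 2 * t / lam := by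
    rw [Complex.mul_im, AA_re, AA_im]
    norm_num
    field_simp
    ring
  rw [Complex.inv_re, Complex.normSq_apply, h4re, h4im]
  have h1 : (0:ℝ) < 4 + (t * r ^ 2 / lam) ^ 2 := by positivity
  have h2 : (0:ℝ) < 4 / r ^ 2 * (4 / r ^ 2) + 2 * t / lam * (2 * t / lam) := by
    have : (0:ℝ) < 4 / r ^ 2 * (4 / r ^ 2) := by positivity
    nlinarith [mul_self_nonneg (2 * t / lam)]
  rw [div_eq_div_iff h2.ne' h1.ne']
  field_simp
  ring

/-- the real part of the logarithm of the kernel -/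
theorem re_FF {k : ℕ} (om : EE (k + 1)) (lam r : ℝ) (x : EE (k + 1)) (hl : 0 < lam) (hr : 0 < r) :
    (FF om lam r x).re =
      -MM om lam r x - (k : ℝ) / 2 * Real.log ‖AA lam r (inner ℝ om x)‖ := by
  have h1 : ((k : ℂ) / 2 * Complex.log (AA lam r (inner ℝ om x))).re =
      (k : ℝ) / 2 * Real.log ‖AA lam r (inner ℝ om x)‖ := by
    have e : ((k : ℂ) / 2) = (((k : ℝ) / 2 : ℝ) : ℂ) := by push_cast; ring
    rw [e, Complex.re_ofReal_mul, Complex.log_re]
  have h2 : (((pq om x : ℝ) : ℂ) / (4 * AA lam r (inner ℝ om x))).re =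
      pq om x * (r ^ 2 / (4 + (inner ℝ om x * r ^ 2 / lam) ^ 2)) := by
    rw [div_eq_mul_inv, Complex.re_ofReal_mul, re_inv lam r _ hl hr]
  unfold FF MM
  rw [Complex.sub_re, Complex.sub_re, h1, h2, Complex.neg_re, Complex.ofReal_re]
  ring

/-- the norm of the kernel -/
theorem norm_Kf {k : ℕ} (om : EE (k + 1)) (lam r : ℝ) (x : EE (k + 1)) (hl : 0 < lam) (hr : 0 < r) :
    ‖Kf om lam r x‖ = Real.sqrt Real.pi * Real.pi ^ ((k : ℝ) / 2) * (r / lam) *
      (‖AA lam r (inner ℝ om x)‖⁻¹ ^ ((k : ℝ) / 2)) * Real.exp (-MM om lam r x) := by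
  have hA : 0 < ‖AA lam r (inner ℝ om x)‖ :=
    lt_of_lt_of_le (by positivity) (le_norm_one lam r (inner ℝ om x))
  have hp : (0:ℝ) ≤ Real.sqrt Real.pi * r / lam * Real.pi ^ ((k : ℝ) / 2) := by
    have := Real.pi_pos
    positivity
  have h1 : ‖Complex.exp (Complex.I * ((lam * inner ℝ om x : ℝ) : ℂ))‖ = 1 := by
    rw [mul_comm, Complex.norm_exp_ofReal_mul_I]
  have h2 : ‖Complex.exp (FF om lam r x)‖ =
      ‖AA lam r (inner ℝ om x)‖⁻¹ ^ ((k : ℝ) / 2) * Real.exp (-MM om lam r x) := by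
    rw [Complex.norm_exp, re_FF om lam r x hl hr, Real.rpow_def_of_pos (inv_pos.mpr hA),
      ← Real.exp_add, Real.log_inv]
    congr 1
    ring
  unfold Kf
  rw [norm_mul, norm_mul, h1, h2, Complex.norm_real, Real.norm_eq_abs, abs_of_nonneg hp]
  ring

/-- **KN** -/
theorem specKN : SpecKN := by
  intro k
  have hpi := Real.pi_pos
  refine ⟨Real.sqrt Real.pi * Real.pi ^ ((k : ℝ) / 2) * 2 ^ ((k : ℝ) / 2), by positivity, ?_⟩
  intro om lam r x _ hl hr
  have hk : (0:ℝ) ≤ (k : ℝ) / 2 := by positivity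
  have hA : 0 < ‖AA lam r (inner ℝ om x)‖ :=
    lt_of_lt_of_le (by positivity) (le_norm_one lam r (inner ℝ om x))
  have htwo : (1:ℝ) ≤ 2 ^ ((k : ℝ) / 2) := Real.one_le_rpow (by norm_num) hk
  rw [norm_Kf om lam r x hl hr]
  refine ⟨?_, ?_⟩
  · have h1 : ‖AA lam r (inner ℝ om x)‖⁻¹ ^ ((k : ℝ) / 2) ≤ r ^ k := by
      have h2 : ‖AA lam r (inner ℝ om x)‖⁻¹ ≤ r ^ 2 := by
        have h3 := inv_anti₀ (by positivity) (le_norm_one lam r (inner ℝ om x))
        simpa using h3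
      calc ‖AA lam r (inner ℝ om x)‖⁻¹ ^ ((k : ℝ) / 2) ≤ (r ^ 2) ^ ((k : ℝ) / 2) :=
            Real.rpow_le_rpow (inv_nonneg.mpr hA.le) h2 hk
        _ = r ^ k := by
            rw [← Real.rpow_natCast r 2, ← Real.rpow_mul hr.le, ← Real.rpow_natCast r k]
            congr 1
            push_cast
            ring
    have h4 : ‖AA lam r (inner ℝ om x)‖⁻¹ ^ ((k : ℝ) / 2) ≤ 2 ^ ((k : ℝ) / 2) * r ^ k := by
      have : (0:ℝ) ≤ r ^ k := by positivity
      nlinarith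
    calc Real.sqrt Real.pi * Real.pi ^ ((k : ℝ) / 2) * (r / lam) *
          ‖AA lam r (inner ℝ om x)‖⁻¹ ^ ((k : ℝ) / 2) * Real.exp (-MM om lam r x)
        ≤ Real.sqrt Real.pi * Real.pi ^ ((k : ℝ) / 2) * (r / lam) *
          (2 ^ ((k : ℝ) / 2) * r ^ k) * Real.exp (-MM om lam r x) := by gcongr
      _ = _ := by ring
  · intro ht
    have hta : 0 < |inner ℝ om x| := abs_pos.mpr ht
    have h1 : ‖AA lam r (inner ℝ om x)‖⁻¹ ^ ((k : ℝ) / 2) ≤
        2 ^ ((k : ℝ) / 2) * (lam / |inner ℝ om x|) ^ ((k : ℝ) / 2) := by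
      have h2 : ‖AA lam r (inner ℝ om x)‖⁻¹ ≤ 2 * (lam / |inner ℝ om x|) := by
        have h3 := inv_anti₀ (by positivity) (le_norm_two lam r (inner ℝ om x) hl)
        rw [inv_div] at h3
        calc ‖AA lam r (inner ℝ om x)‖⁻¹ ≤ 2 * lam / |inner ℝ om x| := h3
          _ = 2 * (lam / |inner ℝ om x|) := by ring
      calc ‖AA lam r (inner ℝ om x)‖⁻¹ ^ ((k : ℝ) / 2)
          ≤ (2 * (lam / |inner ℝ om x|)) ^ ((k : ℝ) / 2) :=
            Real.rpow_le_rpow (inv_nonneg.mpr hA.le) h2 hk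
        _ = _ := Real.mul_rpow (by norm_num) (by positivity)
    calc Real.sqrt Real.pi * Real.pi ^ ((k : ℝ) / 2) * (r / lam) *
          ‖AA lam r (inner ℝ om x)‖⁻¹ ^ ((k : ℝ) / 2) * Real.exp (-MM om lam r x)
        ≤ Real.sqrt Real.pi * Real.pi ^ ((k : ℝ) / 2) * (r / lam) *
          (2 ^ ((k : ℝ) / 2) * (lam / |inner ℝ om x|) ^ ((k : ℝ) / 2)) *
            Real.exp (-MM om lam r x) := by gcongr
      _ = _ := by ring

end Pool.Agent.Lib.MP_a8dae7_an.CV.KNM
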