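import Pool.Agent.Lib.MP_a8dae7_an.CV.Defs

/-!
# CURVED, module IF, first half: the parametrisation by normals

`gr g` is the gradient of `g`; `exists_param`: near a point `p` where `Sg` is positively curved there
is a smooth `X` with `nu - J q` normal at `X q` and `⟨J v, DX(q) v⟩ ≥ c |v|²`, covering `Sg`.
-/

set_option autoImplicit false

open MeasureTheory Filter Topology
open scoped ContDiff

namespace Pool.Agent.Lib.MP_a8dae7_an.CV.IFM

variable {k : ℕ}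

/-- the gradient of `g` -/
noncomputable def gr (g : EE k → ℝ) (y : EE k) : EE k :=
  WithLp.toLp 2 fun i => fderiv ℝ g y (EuclideanSpace.single i 1)

theorem inner_gr (g : EE k → ℝ) (y v : EE k) : inner ℝ (gr g y) v = fderiv ℝ g y v := by
  have h1 : v = ∑ i, v i • EuclideanSpace.single i (1 : ℝ) := by
    ext j
    rw [WithLp.ofLp_sum, Finset.sum_apply]
    simp
  conv_rhs => rw [h1, map_sum]
  rw [PiLp.inner_apply]
  refine Finset.sum_congr rfl fun i _ => ?_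
  rw [map_smul, smul_eq_mul]
  simp [gr]

theorem gr_contDiff {g : EE k → ℝ} (hg : ContDiff ℝ ∞ g) : ContDiff ℝ ∞ (gr g) := by
  rw [contDiff_euclidean]
  intro i
  have h1 : ContDiff ℝ ∞ (fderiv ℝ g) := hg.fderiv_right (by norm_num)
  exact h1.clm_apply contDiff_const

/-- the derivative of the gradient -/
theorem inner_fderiv_gr {g : EE k → ℝ} (hg : ContDiff ℝ ∞ g) (y w v : EE k) :
    inner ℝ (fderiv ℝ (gr g) y w) v = fderiv ℝ (fderiv ℝ g) y w v := by
  have hd : DifferentiableAt ℝ (gr g) y := (gr_contDiff hg).differentiable (by norm_num) y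
  have h1 : ContDiff ℝ ∞ (fderiv ℝ g) := hg.fderiv_right (by norm_num)
  have hd2 : DifferentiableAt ℝ (fderiv ℝ g) y := h1.differentiable (by norm_num) y
  have e1 : HasFDerivAt (fun y => inner ℝ v (gr g y))
      ((innerSL ℝ v).comp (fderiv ℝ (gr g) y)) y :=
    (innerSL ℝ v).hasFDerivAt.comp y hd.hasFDerivAt
  have e2 : HasFDerivAt (fun y => fderiv ℝ g y v)
      ((ContinuousLinearMap.apply ℝ ℝ v).comp (fderiv ℝ (fderiv ℝ g) y)) y :=
    (ContinuousLinearMap.apply ℝ ℝ v).hasFDerivAt.comp y hd2.hasFDerivAt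
  have e3 : (fun y => inner ℝ v (gr g y)) = fun y => fderiv ℝ g y v := by
    funext z
    rw [real_inner_comm, inner_gr]
  rw [e3] at e1
  have e4 := e1.unique e2
  have e5 := congrArg (fun L : EE k →L[ℝ] ℝ => L w) e4
  simp only [ContinuousLinearMap.comp_apply, innerSL_apply_apply,
    ContinuousLinearMap.apply_apply] at e5
  rw [real_inner_comm]
  exact e5

/-- a positive definite form is bounded below -/
theorem exists_pos (B : EE k →L[ℝ] EE k) (hB : ∀ w, w ≠ 0 → 0 < inner ℝ (B w) w) :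
    ∃ c : ℝ, 0 < c ∧ ∀ w, c * ‖w‖ ^ 2 ≤ inner ℝ (B w) w := by
  rcases (Metric.sphere (0 : EE k) 1).eq_empty_or_nonempty with h | h
  · refine ⟨1, one_pos, fun w => ?_⟩
    by_cases hw : w = 0
    · rw [hw]
      simp
    · exfalso
      have h1 : (‖w‖⁻¹ • w) ∈ Metric.sphere (0 : EE k) 1 := by
        rw [mem_sphere_zero_iff_norm, norm_smul, norm_inv, norm_norm,
          inv_mul_cancel₀ (norm_ne_zero_iff.2 hw)]
      rw [h] at h1
      exact h1
  · have hc : ContinuousOn (fun w => inner ℝ (B w) w) (Metric.sphere (0 : EE k) 1) :=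
      (B.continuous.inner continuous_id).continuousOn
    obtain ⟨w₀, hw₀, hmin⟩ := (isCompact_sphere (0 : EE k) 1).exists_isMinOn h hc
    have hw₀' : w₀ ≠ 0 := by
      rintro rfl
      rw [mem_sphere_zero_iff_norm, norm_zero] at hw₀
      exact zero_ne_one hw₀
    refine ⟨inner ℝ (B w₀) w₀, hB w₀ hw₀', fun w => ?_⟩
    by_cases hw : w = 0
    · rw [hw]
      simp
    · have hn : ‖w‖ ≠ 0 := norm_ne_zero_iff.2 hw
      have h1 : (‖w‖⁻¹ • w) ∈ Metric.sphere (0 : EE k) 1 := by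
        rw [mem_sphere_zero_iff_norm, norm_smul, norm_inv, norm_norm,
          inv_mul_cancel₀ hn]
      have h2 := hmin h1
      simp only [map_smul, inner_smul_left, inner_smul_right, Set.mem_setOf_eq] at h2
      have h3 : ‖w‖ ^ 2 * (‖w‖⁻¹ * (‖w‖⁻¹ * inner ℝ (B w) w)) = inner ℝ (B w) w := by
        field_simp
      have h4 : 0 ≤ ‖w‖ ^ 2 := sq_nonneg _
      have h5 := mul_le_mul_of_nonneg_left h2 h4
      simp only [conj_trivial] at h5
      rw [h3] at h5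
      linarith

/-- the derivative of the gradient near `0` -/
theorem exists_near {g : EE k → ℝ} (hg : ContDiff ℝ ∞ g)
    (hpos : ∀ v : EE k, v ≠ 0 → 0 < fderiv ℝ (fderiv ℝ g) 0 v v) :
    ∃ c C r : ℝ, 0 < c ∧ 0 < C ∧ 0 < r ∧ ∀ y, ‖y‖ < r → ∀ w,
      c * ‖w‖ ^ 2 ≤ inner ℝ (fderiv ℝ (gr g) y w) w ∧ ‖fderiv ℝ (gr g) y w‖ ≤ C * ‖w‖ := by
  obtain ⟨c, hc, hcw⟩ := exists_pos (fderiv ℝ (gr g) 0) (fun w hw => by
    rw [inner_fderiv_gr hg]
    exact hpos w hw)
  have hcont : Continuous (fderiv ℝ (gr g)) := (gr_contDiff hg).continuous_fderiv (by norm_num)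
  have h1 := Metric.continuous_iff.1 hcont 0 (c / 2) (by positivity)
  obtain ⟨r, hr, hr2⟩ := h1
  refine ⟨c / 2, ‖fderiv ℝ (gr g) 0‖ + c / 2, r, by positivity, by positivity, hr, ?_⟩
  intro y hy w
  have h2 := hr2 y (by rwa [dist_zero_right])
  rw [dist_eq_norm] at h2
  have h3 : ‖fderiv ℝ (gr g) y w - fderiv ℝ (gr g) 0 w‖ ≤ c / 2 * ‖w‖ := by
    have h4 := (fderiv ℝ (gr g) y - fderiv ℝ (gr g) 0).le_opNorm w
    rw [ContinuousLinearMap.sub_apply] at h4
    exact h4.trans (mul_le_mul_of_nonneg_right h2.le (norm_nonneg _))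
  constructor
  · have h4 : inner ℝ (fderiv ℝ (gr g) y w) w = inner ℝ (fderiv ℝ (gr g) 0 w) w +
        inner ℝ (fderiv ℝ (gr g) y w - fderiv ℝ (gr g) 0 w) w := by
      rw [inner_sub_left]
      ring
    have h5 : -(c / 2 * ‖w‖ * ‖w‖) ≤
        inner ℝ (fderiv ℝ (gr g) y w - fderiv ℝ (gr g) 0 w) w := by
      have h6 := abs_real_inner_le_norm (fderiv ℝ (gr g) y w - fderiv ℝ (gr g) 0 w) w
      have h7 := neg_abs_le (inner ℝ (fderiv ℝ (gr g) y w - fderiv ℝ (gr g) 0 w) w)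
      have h8 := mul_le_mul_of_nonneg_right h3 (norm_nonneg w)
      linarith
    have h6 := hcw w
    rw [h4]
    nlinarith
  · have h4 : fderiv ℝ (gr g) y w = fderiv ℝ (gr g) 0 w +
        (fderiv ℝ (gr g) y w - fderiv ℝ (gr g) 0 w) := by abel
    rw [h4]
    refine (norm_add_le _ _).trans ?_
    have h5 := (fderiv ℝ (gr g) 0).le_opNorm w
    linarith

/-- an injective endomorphism as an equivalence -/
theorem exists_equiv (B : EE k →L[ℝ] EE k) {c : ℝ} (hc : 0 < c)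
    (hB : ∀ w, c * ‖w‖ ^ 2 ≤ inner ℝ (B w) w) :
    ∃ e : EE k ≃L[ℝ] EE k, (e : EE k →L[ℝ] EE k) = B := by
  have hinj : Function.Injective (B : EE k →ₗ[ℝ] EE k) := by
    rw [← LinearMap.ker_eq_bot, LinearMap.ker_eq_bot']
    intro w hw
    have h1 := hB w
    have h2 : B w = 0 := hw
    rw [h2, inner_zero_left] at h1
    have h3 : ‖w‖ ^ 2 ≤ 0 := by
      by_contra h
      push Not at h
      have := mul_pos hc h
      linarith
    have h4 : ‖w‖ = 0 := by nlinarith [norm_nonneg w]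
    exact norm_eq_zero.1 h4
  refine ⟨(LinearEquiv.ofInjectiveEndo _ hinj).toContinuousLinearEquiv, ?_⟩
  ext1 w
  rfl

/-- the local inverse `Y` of the gradient, made global by a cutoff -/
theorem exists_inverse {g : EE k → ℝ} (hg : ContDiff ℝ ∞ g) (h0 : fderiv ℝ g 0 = 0)
    (hpos : ∀ v : EE k, v ≠ 0 → 0 < fderiv ℝ (fderiv ℝ g) 0 v v) :
    ∃ (Y : EE k → EE k) (c r : ℝ), ContDiff ℝ ∞ Y ∧ 0 < c ∧ 0 < r ∧
      (∀ q, ‖q‖ ≤ r → gr g (Y q) = q) ∧
      (∀ q v, ‖q‖ ≤ r → c * ‖v‖ ^ 2 ≤ inner ℝ v (fderiv ℝ Y q v)) ∧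
      ∀ δ > 0, ∃ ρ > 0, ∀ y : EE k, ‖y‖ < ρ → ‖gr g y‖ ≤ δ ∧ Y (gr g y) = y := by
  obtain ⟨c, C, r₁, hc, hC, hr₁, hnear⟩ := exists_near hg hpos
  have hsm := gr_contDiff hg
  have hdiff : ∀ y, HasFDerivAt (gr g) (fderiv ℝ (gr g) y) y := fun y =>
    (hsm.differentiable (by norm_num) y).hasFDerivAt
  have hgr0 : gr g 0 = 0 := by
    rw [← norm_eq_zero, ← sq_eq_zero_iff, ← real_inner_self_eq_norm_sq, inner_gr, h0]
    rfl
  obtain ⟨e₀, he₀⟩ := exists_equiv (fderiv ℝ (gr g) 0) hc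
    (fun w => (hnear 0 (by rwa [norm_zero]) w).1)
  have hf' : HasFDerivAt (gr g) (e₀ : EE k →L[ℝ] EE k) 0 := by
    rw [he₀]
    exact hdiff 0
  have hf : ContDiffAt ℝ ∞ (gr g) 0 := hsm.contDiffAt
  have hn : (∞ : WithTop ℕ∞) ≠ 0 := by norm_num
  obtain ⟨φ, hφc, h0s⟩ : ∃ φ : OpenPartialHomeomorph (EE k) (EE k), (φ : EE k → EE k) = gr g ∧
      (0 : EE k) ∈ φ.source :=
    ⟨hf.toOpenPartialHomeomorph (gr g) hf' hn, hf.toOpenPartialHomeomorph_coe hf' hn,
      hf.mem_toOpenPartialHomeomorph_source hf' hn⟩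
  have h0t : (0 : EE k) ∈ φ.target := by
    have h1 := φ.map_source h0s
    rwa [hφc, hgr0] at h1
  have hs0 : φ.symm 0 = 0 := by
    have h1 := φ.left_inv h0s
    rwa [hφc, hgr0] at h1
  -- the good set
  have hU : φ.target ∩ φ.symm ⁻¹' Metric.ball 0 r₁ ∈ 𝓝 (0 : EE k) := by
    refine (φ.isOpen_inter_preimage_symm Metric.isOpen_ball).mem_nhds ⟨h0t, ?_⟩
    rw [Set.mem_preimage, hs0]
    exact Metric.mem_ball_self hr₁
  obtain ⟨r₂, hr₂, hball⟩ := Metric.mem_nhds_iff.1 hU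
  have hgood : ∀ q : EE k, ‖q‖ < r₂ → q ∈ φ.target ∧ ‖φ.symm q‖ < r₁ := by
    intro q hq
    have h1 := hball (mem_ball_zero_iff.2 hq)
    exact ⟨h1.1, mem_ball_zero_iff.1 h1.2⟩
  -- the derivative of the inverse
  have hequiv : ∀ q : EE k, ‖q‖ < r₂ → ∃ e : EE k ≃L[ℝ] EE k,
      (e : EE k →L[ℝ] EE k) = fderiv ℝ (gr g) (φ.symm q) := fun q hq =>
    exists_equiv _ hc (fun w => (hnear _ (hgood q hq).2 w).1)
  have hYd : ∀ q : EE k, ‖q‖ < r₂ → ContDiffAt ℝ ∞ φ.symm q := by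
    intro q hq
    obtain ⟨e, he⟩ := hequiv q hq
    refine φ.contDiffAt_symm (hgood q hq).1 (f₀' := e) ?_ ?_
    · rw [hφc, he]
      exact hdiff _
    · rw [hφc]
      exact hsm.contDiffAt
  have hYm : ∀ q : EE k, ‖q‖ < r₂ → ∀ v, c / C ^ 2 * ‖v‖ ^ 2 ≤
      inner ℝ v (fderiv ℝ φ.symm q v) := by
    intro q hq v
    obtain ⟨e, he⟩ := hequiv q hq
    have h1 : HasFDerivAt φ.symm (e.symm : EE k →L[ℝ] EE k) q := by
      refine φ.hasFDerivAt_symm (hgood q hq).1 ?_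
      rw [hφc, he]
      exact hdiff _
    rw [h1.fderiv]
    obtain ⟨w, hw⟩ : ∃ w, w = e.symm v := ⟨_, rfl⟩
    have h2 : fderiv ℝ (gr g) (φ.symm q) w = v := by
      rw [← he, hw]
      exact e.apply_symm_apply v
    have h3 := hnear _ (hgood q hq).2 w
    rw [h2] at h3
    have h4 : (e.symm : EE k →L[ℝ] EE k) v = w := by
      rw [hw]
      rfl
    rw [h4]
    have h5 : ‖v‖ ^ 2 ≤ C ^ 2 * ‖w‖ ^ 2 := by
      rw [← mul_pow]
      exact pow_le_pow_left₀ (norm_nonneg _) h3.2 2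
    calc c / C ^ 2 * ‖v‖ ^ 2 ≤ c / C ^ 2 * (C ^ 2 * ‖w‖ ^ 2) :=
          mul_le_mul_of_nonneg_left h5 (by positivity)
      _ = c * ‖w‖ ^ 2 := by field_simp
      _ ≤ _ := h3.1
  -- the cutoff
  let χ : ContDiffBump (0 : EE k) := ⟨r₂ / 3, r₂ / 2, by positivity, by linarith⟩
  have hχ1 : ∀ q : EE k, ‖q‖ < r₂ / 3 → (fun q => χ q • φ.symm q) =ᶠ[𝓝 q] φ.symm := by
    intro q hq
    have h1 : Metric.ball (0 : EE k) (r₂ / 3) ∈ 𝓝 q :=
      Metric.isOpen_ball.mem_nhds (mem_ball_zero_iff.2 hq)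
    filter_upwards [h1] with q' hq'
    rw [χ.one_of_mem_closedBall (Metric.ball_subset_closedBall hq'), one_smul]
  refine ⟨fun q => χ q • φ.symm q, c / C ^ 2, r₂ / 4, ?_, by positivity, by positivity, ?_, ?_, ?_⟩
  · rw [contDiff_iff_contDiffAt]
    intro q
    by_cases hq : ‖q‖ < r₂
    · exact χ.contDiff.contDiffAt.smul (hYd q hq)
    · have h1 : q ∉ tsupport χ := by
        rw [χ.tsupport_eq, mem_closedBall_zero_iff]
        intro h
        have h2 : ‖q‖ ≤ r₂ / 2 := h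
        linarith
      have h2 : (fun q => χ q • φ.symm q) =ᶠ[𝓝 q] fun _ => 0 := by
        filter_upwards [notMem_tsupport_iff_eventuallyEq.1 h1] with q' hq'
        rw [hq', Pi.zero_apply, zero_smul]
      exact contDiffAt_const.congr_of_eventuallyEq h2
  · intro q hq
    have h1 := (hχ1 q (by linarith)).self_of_nhds
    rw [h1]
    have h2 := φ.right_inv (hgood q (by linarith)).1
    rwa [hφc] at h2
  · intro q v hq
    rw [(hχ1 q (by linarith)).fderiv_eq]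
    exact hYm q (by linarith) v
  · intro δ hδ
    have h1 : ∀ᶠ y in 𝓝 (0 : EE k), y ∈ φ.source := φ.open_source.mem_nhds h0s
    have h2 : ∀ᶠ y in 𝓝 (0 : EE k), ‖gr g y‖ < min δ (r₂ / 3) := by
      have h3 : Tendsto (fun y => ‖gr g y‖) (𝓝 0) (𝓝 0) := by
        have h4 := (hsm.continuous.norm).tendsto 0
        rwa [hgr0, norm_zero] at h4
      exact h3.eventually_lt_const (by positivity)
    obtain ⟨ρ, hρ, hρ2⟩ := Metric.eventually_nhds_iff.1 (h1.and h2)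
    refine ⟨ρ, hρ, fun y hy => ?_⟩
    obtain ⟨h3, h4⟩ := hρ2 (show dist y 0 < ρ by rwa [dist_zero_right])
    refine ⟨(h4.trans_le (min_le_left _ _)).le, ?_⟩
    have h5 := (hχ1 (gr g y) (h4.trans_le (min_le_right _ _))).self_of_nhds
    rw [h5]
    have h6 := φ.left_inv h3
    rwa [hφc] at h6

/-- the parametrisation by normals near `p` -/
theorem exists_param {Sg : Set (EE (k + 1))} {p : EE (k + 1)} (h : PosAt Sg p) :
    ∃ (X : EE k → EE (k + 1)) (nu : EE (k + 1)) (J : EE k →ₗᵢ[ℝ] EE (k + 1)) (c r : ℝ),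
      ContDiff ℝ ∞ X ∧ ‖nu‖ = 1 ∧ (∀ v, inner ℝ nu (J v) = 0) ∧ 0 < c ∧ 0 < r ∧
      (∀ q v, ‖q‖ ≤ r → inner ℝ (nu - J q) (fderiv ℝ X q v) = 0) ∧
      (∀ q v, ‖q‖ ≤ r → c * ‖v‖ ^ 2 ≤ inner ℝ (J v) (fderiv ℝ X q v)) ∧
      ∀ δ > 0, ∃ ρ > 0, ∀ x ∈ Sg, ‖x - p‖ < ρ → ∃ q, ‖q‖ ≤ δ ∧ X q = x := by
  obtain ⟨J, nu, g, rho, hnu, hperp, hg, hg0, hg1, hpos, hrho, hS⟩ := h
  obtain ⟨Y, c, r, hY, hc, hr, hinv, hmono, hcov⟩ := exists_inverse hg hg1 hpos
  have hX : ContDiff ℝ ∞ (fun q => p + J (Y q) + g (Y q) • nu) := by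
    refine (contDiff_const.add (J.contDiff.comp hY)).add ?_
    exact (hg.comp hY).smul contDiff_const
  have hXd : ∀ q v, fderiv ℝ (fun q => p + J (Y q) + g (Y q) • nu) q v =
      J (fderiv ℝ Y q v) + (fderiv ℝ g (Y q) (fderiv ℝ Y q v)) • nu := by
    intro q v
    have h1 : HasFDerivAt Y (fderiv ℝ Y q) q := (hY.differentiable (by norm_num) q).hasFDerivAt
    have h2 : HasFDerivAt g (fderiv ℝ g (Y q)) (Y q) :=
      (hg.differentiable (by norm_num) _).hasFDerivAt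
    have h3 : HasFDerivAt (fun q => J (Y q)) (J.toContinuousLinearMap.comp (fderiv ℝ Y q)) q :=
      J.toContinuousLinearMap.hasFDerivAt.comp q h1
    have h4 : HasFDerivAt (fun q => g (Y q)) ((fderiv ℝ g (Y q)).comp (fderiv ℝ Y q)) q :=
      h2.comp q h1
    have h5 := (h3.const_add p).add (h4.smul_const nu)
    have h6 := h5.fderiv
    have h7 : (fun q => p + J (Y q) + g (Y q) • nu) =
        (fun q => p + J (Y q)) + fun q => g (Y q) • nu := rfl
    rw [h7, h6]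
    rfl
  have hJJ : ∀ a b, inner ℝ (J a) (J b) = inner ℝ a b := fun a b => J.inner_map_map a b
  have hnn : inner ℝ nu nu = (1 : ℝ) := by
    rw [real_inner_self_eq_norm_sq, hnu, one_pow]
  refine ⟨fun q => p + J (Y q) + g (Y q) • nu, nu, J, c, r, hX, hnu, hperp, hc, hr, ?_, ?_, ?_⟩
  · intro q v hq
    rw [hXd, inner_sub_left, inner_add_right, inner_add_right, hperp, inner_smul_right,
      inner_smul_right, hnn, hJJ, real_inner_comm nu (J q), hperp]
    have h1 := inner_gr g (Y q) (fderiv ℝ Y q v)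
    rw [hinv q hq] at h1
    rw [← h1]
    ring
  · intro q v hq
    rw [hXd, inner_add_right, inner_smul_right, hJJ, real_inner_comm nu (J v), hperp, mul_zero,
      add_zero]
    exact hmono q v hq
  · intro δ hδ
    obtain ⟨ρ, hρ, hρ2⟩ := hcov δ hδ
    refine ⟨min ρ rho, lt_min hρ hrho, fun x hx hxp => ?_⟩
    obtain ⟨y, hy⟩ := hS x hx (hxp.trans_le (min_le_right _ _))
    have h1 : ‖y‖ ≤ ‖x - p‖ := by
      have h2 : inner ℝ (x - p) (J y) = ‖y‖ ^ 2 := by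
        have h3 : x - p = J y + g y • nu := by
          rw [hy]
          abel
        rw [h3, inner_add_left, inner_smul_left, hperp, hJJ, real_inner_self_eq_norm_sq]
        simp
      have h3 := real_inner_le_norm (x - p) (J y)
      rw [h2, J.norm_map] at h3
      by_contra h4
      push Not at h4
      have h5 : 0 < ‖y‖ := (norm_nonneg _).trans_lt h4
      nlinarith
    obtain ⟨h2, h3⟩ := hρ2 y (h1.trans_lt (hxp.trans_le (min_le_left _ _)))
    refine ⟨gr g y, h2, ?_⟩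
    show p + J (Y (gr g y)) + g (Y (gr g y)) • nu = x
    rw [h3, hy]

end Pool.Agent.Lib.MP_a8dae7_an.CV.IFM
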