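import Pool.Agent.Lib.MP_a8dae7_an.CV.Spec

/-!
# The majorant of a cap and its Fourier transform (section 4.1)

`E` is a finite dimensional real inner product space, `om` a unit vector of `E`, `r, lam, T > 0`.
`W ξ = exp (-p / r ^ 2 - T ^ 2 (a - lam + p / (2 lam)) ^ 2)`, `a = ⟪om, ξ⟫`, `p = ‖ξ‖ ^ 2 - a ^ 2`.
-/

set_option autoImplicit false

open MeasureTheory Module
open scoped RealInnerProductSpace

namespace Pool.Agent.Lib.MP_a8dae7_an.CV

namespace FTM

variable {E : Type*} [NormedAddCommGroup E] [InnerProductSpace ℝ E]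

/-- The square of the distance to the line of the unit vector `om`. -/
noncomputable def pp (om x : E) : ℝ := ‖x‖ ^ 2 - ⟪om, x⟫ ^ 2

lemma pp_nonneg {om : E} (h : ‖om‖ = 1) (x : E) : 0 ≤ pp om x := by
  unfold pp
  have h1 := abs_real_inner_le_norm om x
  rw [h, one_mul] at h1
  have h2 := sq_le_sq' (by linarith [abs_le.1 h1 |>.1]) (abs_le.1 h1).2
  linarith

/-- The majorant. -/
noncomputable def W (om : E) (r lam T : ℝ) (ξ : E) : ℝ :=
  Real.exp (-(pp om ξ / r ^ 2) - T ^ 2 * (⟪om, ξ⟫ - lam + pp om ξ / (2 * lam)) ^ 2)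

lemma W_pos (om : E) (r lam T : ℝ) (ξ : E) : 0 < W om r lam T ξ := Real.exp_pos _

lemma W_le_one {om : E} (h : ‖om‖ = 1) (r lam T : ℝ) (ξ : E) : W om r lam T ξ ≤ 1 := by
  unfold W
  rw [Real.exp_le_one_iff]
  have h1 := pp_nonneg h ξ
  have h2 : 0 ≤ pp om ξ / r ^ 2 := by positivity
  have h3 : 0 ≤ T ^ 2 * (⟪om, ξ⟫ - lam + pp om ξ / (2 * lam)) ^ 2 := by positivity
  linarith

lemma pp_cont (om : E) : Continuous (pp om) := by
  unfold pp
  fun_prop

lemma W_cont (om : E) (r lam T : ℝ) : Continuous (W om r lam T) := by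
  unfold W
  have := pp_cont om
  fun_prop

variable [FiniteDimensional ℝ E] [MeasurableSpace E] [BorelSpace E]

/-- `E` is the product of the line of `om` and of its orthogonal complement. -/
noncomputable def spl {om : E} (h : ‖om‖ = 1) : E ≃ᵐ ℝ × (ℝ ∙ om)ᗮ :=
  (ℝ ∙ om).orthogonalDecomposition.toHomeomorph.toMeasurableEquiv.trans
    ((MeasurableEquiv.toLp 2 _).symm.trans
      (MeasurableEquiv.prodCongr
        (LinearIsometryEquiv.toSpanUnitSingleton om h).symm.toHomeomorph.toMeasurableEquiv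
        (MeasurableEquiv.refl _)))

lemma spl_symm {om : E} (h : ‖om‖ = 1) (p : ℝ × (ℝ ∙ om)ᗮ) :
    (spl h).symm p = p.1 • om + (p.2 : E) := by
  obtain ⟨a, v⟩ := p
  simp [spl, MeasurableEquiv.prodCongr]

lemma spl_mp {om : E} (h : ‖om‖ = 1) : MeasurePreserving (spl h) volume volume := by
  unfold spl
  refine (ℝ ∙ om).orthogonalDecomposition.measurePreserving.trans ?_
  refine (WithLp.volume_preserving_ofLp _ _).trans ?_
  exact (LinearIsometryEquiv.toSpanUnitSingleton om h).symm.measurePreserving.prod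
    (MeasurePreserving.id _)

lemma integral_spl {om : E} (h : ‖om‖ = 1) {F : Type*} [NormedAddCommGroup F] [NormedSpace ℝ F]
    (f : E → F) : ∫ x, f x = ∫ p : ℝ × (ℝ ∙ om)ᗮ, f (p.1 • om + (p.2 : E)) := by
  rw [← (spl_mp h).symm.integral_comp' f]
  refine integral_congr_ae (Filter.Eventually.of_forall fun p => ?_)
  show f _ = f _
  rw [spl_symm]

lemma integrable_spl {om : E} (h : ‖om‖ = 1) {F : Type*} [NormedAddCommGroup F] (f : E → F) :
    Integrable f ↔ Integrable (fun p : ℝ × (ℝ ∙ om)ᗮ => f (p.1 • om + (p.2 : E))) := by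
  rw [← (spl_mp h).symm.integrable_comp_emb (spl h).symm.measurableEmbedding]
  have : f ∘ (spl h).symm = fun p : ℝ × (ℝ ∙ om)ᗮ => f (p.1 • om + (p.2 : E)) := by
    funext p
    show f _ = f _
    rw [spl_symm]
  rw [this]

omit [FiniteDimensional ℝ E] [MeasurableSpace E] [BorelSpace E] in
lemma inner_om {om : E} (h : ‖om‖ = 1) (a : ℝ) (v : (ℝ ∙ om)ᗮ) :
    ⟪om, a • om + (v : E)⟫ = a := by
  have h1 : ⟪om, (v : E)⟫ = 0 := Submodule.mem_orthogonal_singleton_iff_inner_right.1 v.2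
  rw [inner_add_right, h1, inner_smul_right, real_inner_self_eq_norm_sq, h]
  ring

omit [FiniteDimensional ℝ E] [MeasurableSpace E] [BorelSpace E] in
lemma pp_om {om : E} (h : ‖om‖ = 1) (a : ℝ) (v : (ℝ ∙ om)ᗮ) :
    pp om (a • om + (v : E)) = ‖v‖ ^ 2 := by
  have h1 : ⟪om, (v : E)⟫ = 0 := Submodule.mem_orthogonal_singleton_iff_inner_right.1 v.2
  unfold pp
  rw [inner_om h, norm_add_sq_real, inner_smul_left, h1, norm_smul, h, mul_one, Real.norm_eq_abs,
    sq_abs]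
  simp

omit [FiniteDimensional ℝ E] [MeasurableSpace E] [BorelSpace E] in
lemma W_om {om : E} (h : ‖om‖ = 1) (r lam T a : ℝ) (v : (ℝ ∙ om)ᗮ) :
    W om r lam T (a • om + (v : E)) =
      Real.exp (-(‖v‖ ^ 2 / r ^ 2)) * Real.exp (-T ^ 2 * (a - (lam - ‖v‖ ^ 2 / (2 * lam))) ^ 2) := by
  unfold W
  rw [inner_om h, pp_om h, ← Real.exp_add]
  congr 1
  ring

/-- A Gaussian integral with a translation. -/
lemma gauss1 {T : ℝ} (hT : 0 < T) (c t : ℝ) :
    ∫ a : ℝ, ((Real.exp (-T ^ 2 * (a - c) ^ 2) : ℝ) : ℂ) * Complex.exp (Complex.I * (a * t : ℝ)) =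
      Complex.exp (Complex.I * (c * t : ℝ)) * ((√Real.pi / T * Real.exp (-(t ^ 2 / (4 * T ^ 2))) : ℝ) : ℂ) := by
  have h1 := integral_sub_right_eq_self (μ := (volume : Measure ℝ)) (fun a : ℝ =>
    ((Real.exp (-T ^ 2 * a ^ 2) : ℝ) : ℂ) * Complex.exp (Complex.I * ((a + c) * t : ℝ))) c
  have h2 : (fun a : ℝ => ((Real.exp (-T ^ 2 * (a - c) ^ 2) : ℝ) : ℂ) *
      Complex.exp (Complex.I * ((a - c + c) * t : ℝ))) =
      fun a : ℝ => ((Real.exp (-T ^ 2 * (a - c) ^ 2) : ℝ) : ℂ) *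
        Complex.exp (Complex.I * (a * t : ℝ)) := by
    funext a
    rw [sub_add_cancel]
  rw [h2] at h1
  rw [h1]
  have h3 := fourierIntegral_gaussian (b := ((T ^ 2 : ℝ) : ℂ))
    (by rw [Complex.ofReal_re]; positivity) (t : ℂ)
  have h4 : (fun a : ℝ => ((Real.exp (-T ^ 2 * a ^ 2) : ℝ) : ℂ) *
      Complex.exp (Complex.I * ((a + c) * t : ℝ))) =
      fun a : ℝ => Complex.exp (Complex.I * (c * t : ℝ)) *
        (Complex.exp (Complex.I * t * a) * Complex.exp (-((T ^ 2 : ℝ) : ℂ) * a ^ 2)) := by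
    funext a
    push_cast
    rw [← Complex.exp_add, ← Complex.exp_add, ← Complex.exp_add]
    congr 1
    ring
  rw [h4, integral_const_mul, h3]
  congr 1
  push_cast
  have h5 : ((Real.pi : ℂ) / (T : ℂ) ^ 2) ^ (1 / 2 : ℂ) = (√Real.pi : ℂ) / T := by
    have h6 : ((Real.pi : ℂ) / (T : ℂ) ^ 2) = ((Real.pi / T ^ 2 : ℝ) : ℂ) := by push_cast; rfl
    have h7 : (1 / 2 : ℂ) = ((1 / 2 : ℝ) : ℂ) := by push_cast; rfl
    rw [h6, h7, ← Complex.ofReal_cpow (by positivity), ← Real.sqrt_eq_rpow,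
      Real.sqrt_div Real.pi_pos.le, Real.sqrt_sq hT.le]
    push_cast
    rfl
  rw [h5]
  congr 2
  ring

lemma gauss2 {T : ℝ} (hT : 0 < T) (c : ℝ) :
    Integrable fun a : ℝ => Real.exp (-T ^ 2 * (a - c) ^ 2) :=
  (integrable_exp_neg_mul_sq (b := T ^ 2) (by positivity)).comp_sub_right c

lemma gauss3 {T : ℝ} (c : ℝ) :
    ∫ a : ℝ, Real.exp (-T ^ 2 * (a - c) ^ 2) = √(Real.pi / T ^ 2) := by
  rw [integral_sub_right_eq_self (fun a : ℝ => Real.exp (-T ^ 2 * a ^ 2)) c]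
  exact integral_gaussian (T ^ 2)

lemma gauss4 {V : Type*} [NormedAddCommGroup V] [InnerProductSpace ℝ V] [FiniteDimensional ℝ V]
    [MeasurableSpace V] [BorelSpace V] {r : ℝ} (hr : 0 < r) :
    Integrable fun v : V => Real.exp (-(‖v‖ ^ 2 / r ^ 2)) := by
  have h1 := GaussianFourier.integrable_cexp_neg_mul_sq_norm_add (V := V)
    (b := ((1 / r ^ 2 : ℝ) : ℂ)) (by rw [Complex.ofReal_re]; positivity) 0 0
  refine (h1.norm).congr (Filter.Eventually.of_forall fun v => ?_)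
  simp only [Complex.norm_exp]
  congr 1
  have : (-((1 / r ^ 2 : ℝ) : ℂ) * (‖v‖ : ℂ) ^ 2 + 0 * ((⟪(0 : V), v⟫ : ℝ) : ℂ)) =
      ((-(‖v‖ ^ 2 / r ^ 2) : ℝ) : ℂ) := by
    push_cast
    ring
  rw [this, Complex.ofReal_re]

lemma W_integrable {om : E} (h : ‖om‖ = 1) {r lam T : ℝ} (hr : 0 < r) (hT : 0 < T) :
    Integrable (W om r lam T) := by
  rw [integrable_spl h, Measure.volume_eq_prod, integrable_prod_iff']
  · constructor
    · refine Filter.Eventually.of_forall fun v => ?_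
      simp only [W_om h]
      exact (gauss2 hT _).const_mul _
    · have : (fun v : (ℝ ∙ om)ᗮ => ∫ a : ℝ, ‖W om r lam T (a • om + (v : E))‖) =
          fun v : (ℝ ∙ om)ᗮ => Real.exp (-(‖v‖ ^ 2 / r ^ 2)) * √(Real.pi / T ^ 2) := by
        funext v
        simp only [Real.norm_eq_abs, abs_of_pos (W_pos om r lam T _)]
        simp only [W_om h]
        rw [integral_const_mul, gauss3]
      rw [this]
      exact (gauss4 hr).mul_const _
  · refine Continuous.aestronglyMeasurable ?_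
    refine (W_cont om r lam T).comp ?_
    fun_prop

omit [FiniteDimensional ℝ E] [MeasurableSpace E] [BorelSpace E] in
lemma exp_I_cont (x : E) : Continuous fun ξ : E => Complex.exp (Complex.I * (⟪ξ, x⟫ : ℝ)) := by
  fun_prop

lemma norm_exp_I (a : ℝ) : ‖Complex.exp (Complex.I * (a : ℂ))‖ = 1 := by
  rw [mul_comm]
  exact Complex.norm_exp_ofReal_mul_I a

lemma WI_integrable {om : E} (h : ‖om‖ = 1) {r lam T : ℝ} (hr : 0 < r) (hT : 0 < T) (x : E) :
    Integrable fun ξ : E => ((W om r lam T ξ : ℝ) : ℂ) * Complex.exp (Complex.I * (⟪ξ, x⟫ : ℝ)) := by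
  refine (W_integrable h hr hT).ofReal.mul_bdd (c := 1) (exp_I_cont x).aestronglyMeasurable ?_
  exact Filter.Eventually.of_forall fun ξ => (norm_exp_I _).le

lemma AA_re (lam r t : ℝ) : (AA lam r t).re = 1 / r ^ 2 := by
  unfold AA
  rw [Complex.add_re, Complex.ofReal_re, Complex.mul_re, Complex.ofReal_im, Complex.I_re]
  ring

lemma AA_im (lam r t : ℝ) : (AA lam r t).im = t / (2 * lam) := by
  unfold AA
  rw [Complex.add_im, Complex.ofReal_im, Complex.mul_im, Complex.ofReal_re, Complex.I_re, Complex.I_im]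
  ring

lemma AA_re_pos {r : ℝ} (hr : 0 < r) (lam t : ℝ) : 0 < (AA lam r t).re := by
  rw [AA_re]
  positivity

/-- The Fourier transform of the majorant. -/
noncomputable def FT (k : ℕ) (om : E) (r lam T : ℝ) (x : E) : ℂ :=
  (Complex.exp (Complex.I * (lam * ⟪om, x⟫ : ℝ)) *
    ((√Real.pi / T * Real.exp (-(⟪om, x⟫ ^ 2 / (4 * T ^ 2))) : ℝ) : ℂ)) *
    ((Real.pi / AA lam r ⟪om, x⟫) ^ (k / 2 : ℂ) *
    Complex.exp (-(pp om x : ℂ) / (4 * AA lam r ⟪om, x⟫)))

theorem FT_eq {om : E} (h : ‖om‖ = 1) {k : ℕ} (hk : finrank ℝ E = k + 1) {r lam T : ℝ}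
    (hr : 0 < r) (hT : 0 < T) (x : E) :
    ∫ ξ : E, ((W om r lam T ξ : ℝ) : ℂ) * Complex.exp (Complex.I * (⟪ξ, x⟫ : ℝ)) =
      FT k om r lam T x := by
  have hint := (integrable_spl h _).1 (WI_integrable h (lam := lam) hr hT x)
  rw [integral_spl h]
  rw [Measure.volume_eq_prod] at hint ⊢
  rw [integral_prod_symm _ hint]
  set t : ℝ := ⟪om, x⟫ with ht
  set y : (ℝ ∙ om)ᗮ := ((spl h) x).2 with hy
  have hxy : x = ((spl h) x).1 • om + (y : E) := by
    rw [hy, ← spl_symm h, MeasurableEquiv.symm_apply_apply]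
  have ht2 : ((spl h) x).1 = t := by
    rw [ht]
    conv_rhs => rw [hxy]
    rw [inner_om h]
  rw [ht2] at hxy
  have hfin : finrank ℝ (ℝ ∙ om)ᗮ = k := by
    have h1 := (ℝ ∙ om).finrank_add_finrank_orthogonal
    have h2 : finrank ℝ (ℝ ∙ om) = 1 := finrank_span_singleton (by
      intro h0
      rw [h0, norm_zero] at h
      exact zero_ne_one h)
    omega
  have h1 : ∀ v : (ℝ ∙ om)ᗮ, ∫ a : ℝ, ((W om r lam T (a • om + (v : E)) : ℝ) : ℂ) *
      Complex.exp (Complex.I * (⟪a • om + (v : E), x⟫ : ℝ)) =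
      (Complex.exp (Complex.I * (lam * t : ℝ)) *
        ((√Real.pi / T * Real.exp (-(t ^ 2 / (4 * T ^ 2))) : ℝ) : ℂ)) *
        Complex.exp (-(AA lam r t) * (‖v‖ : ℂ) ^ 2 + Complex.I * (⟪y, v⟫ : ℝ)) := by
    intro v
    have h2 : ∀ a : ℝ, ((W om r lam T (a • om + (v : E)) : ℝ) : ℂ) *
        Complex.exp (Complex.I * (⟪a • om + (v : E), x⟫ : ℝ)) =
        (((Real.exp (-(‖v‖ ^ 2 / r ^ 2)) : ℝ) : ℂ) * Complex.exp (Complex.I * (⟪y, v⟫ : ℝ))) *
        (((Real.exp (-T ^ 2 * (a - (lam - ‖v‖ ^ 2 / (2 * lam))) ^ 2) : ℝ) : ℂ) *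
          Complex.exp (Complex.I * (a * t : ℝ))) := by
      intro a
      have h3 : ⟪a • om + (v : E), x⟫ = a * t + ⟪y, v⟫ := by
        have h4 : ⟪(v : E), om⟫ = 0 := Submodule.mem_orthogonal_singleton_iff_inner_left.1 v.2
        rw [inner_add_left, inner_smul_left]
        conv_lhs => rw [hxy]
        rw [inner_om h, inner_add_right, inner_smul_right, h4, Submodule.coe_inner, real_inner_comm]
        simp
      rw [h3, W_om h]
      push_cast
      rw [mul_add, Complex.exp_add]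
      ring
    simp only [h2]
    rw [integral_const_mul, gauss1 hT]
    have h5 : ((Real.exp (-(‖v‖ ^ 2 / r ^ 2)) : ℝ) : ℂ) *
        Complex.exp (Complex.I * (((lam - ‖v‖ ^ 2 / (2 * lam)) * t : ℝ) : ℂ)) =
        Complex.exp (Complex.I * (lam * t : ℝ)) * Complex.exp (-(AA lam r t) * (‖v‖ : ℂ) ^ 2) := by
      rw [Complex.ofReal_exp, ← Complex.exp_add, ← Complex.exp_add]
      congr 1
      unfold AA
      push_cast
      ring
    rw [Complex.exp_add]
    calc _ = (((Real.exp (-(‖v‖ ^ 2 / r ^ 2)) : ℝ) : ℂ) *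
        Complex.exp (Complex.I * (((lam - ‖v‖ ^ 2 / (2 * lam)) * t : ℝ) : ℂ))) *
        (Complex.exp (Complex.I * (⟪y, v⟫ : ℝ)) *
          ((√Real.pi / T * Real.exp (-(t ^ 2 / (4 * T ^ 2))) : ℝ) : ℂ)) := by ring
      _ = _ := by rw [h5]; ring
  simp only [h1]
  rw [integral_const_mul, GaussianFourier.integral_cexp_neg_mul_sq_norm_add]
  · rw [hfin]
    unfold FT
    rw [← ht]
    have h6 : Complex.I ^ 2 * (‖y‖ : ℂ) ^ 2 = -(pp om x : ℂ) := by
      have : pp om x = ‖y‖ ^ 2 := by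
        conv_lhs => rw [hxy]
        exact pp_om h t y
      rw [this, Complex.I_sq]
      push_cast
      ring
    rw [h6]
  · exact AA_re_pos hr lam t

lemma cpow_AA {r : ℝ} (hr : 0 < r) (lam t : ℝ) (k : ℕ) :
    (Real.pi / AA lam r t) ^ (k / 2 : ℂ) =
      ((Real.pi ^ ((k : ℝ) / 2) : ℝ) : ℂ) * Complex.exp (-((k : ℂ) / 2 * Complex.log (AA lam r t))) := by
  have h1 := AA_re_pos hr lam t
  have h2 : AA lam r t ≠ 0 := by
    intro h0
    rw [h0] at h1
    simp at h1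
  have h3 : (AA lam r t).arg ≠ Real.pi := by
    intro h0
    have h4 := Complex.arg_eq_pi_iff.1 h0
    linarith [h4.1]
  have h5 : (Real.pi : ℂ) / AA lam r t ≠ 0 :=
    div_ne_zero (by exact_mod_cast Real.pi_pos.ne') h2
  rw [Complex.cpow_def_of_ne_zero h5, div_eq_mul_inv, Complex.log_ofReal_mul Real.pi_pos (inv_ne_zero h2),
    Complex.log_inv _ h3, Complex.ofReal_cpow Real.pi_pos.le,
    Complex.cpow_def_of_ne_zero (by exact_mod_cast Real.pi_pos.ne'), ← Complex.exp_add]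
  congr 1
  rw [Complex.ofReal_log Real.pi_pos.le]
  push_cast
  ring

end FTM

open FTM in
theorem specFT : SpecFT := by
  intro k om lam r h hl hr
  have hT : 0 < lam / r := by positivity
  have h1 : WW om lam r = W om r lam (lam / r) := by
    funext ξ
    rfl
  rw [h1]
  refine ⟨W_integrable h hr hT, fun x => ?_⟩
  have h2 := FT_eq h (k := k) (by simp) (lam := lam) hr hT x
  unfold ex
  rw [h2]
  unfold FT Kf FF
  rw [cpow_AA hr]
  rw [show pp om x = pq om x from rfl]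
  rw [sub_eq_add_neg, sub_eq_add_neg, Complex.exp_add, Complex.exp_add, neg_div]
  have h3 : ((√Real.pi / (lam / r) * Real.exp (-(⟪om, x⟫ ^ 2 / (4 * (lam / r) ^ 2))) : ℝ) : ℂ) =
      ((√Real.pi * r / lam : ℝ) : ℂ) *
        Complex.exp (-((⟪om, x⟫ ^ 2 * r ^ 2 / (4 * lam ^ 2) : ℝ) : ℂ)) := by
    rw [Complex.ofReal_mul, Complex.ofReal_exp]
    congr 1
    · congr 1
      field_simp
    · congr 1
      rw [← Complex.ofReal_neg]
      congr 2
      field_simp
  rw [h3]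
  push_cast
  ring

end Pool.Agent.Lib.MP_a8dae7_an.CV
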