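import Pool.Agent.Lib.MP_a8dae7_an.CV.Spec

/-!
# MP_a8dae7_an, CV, module HM: Hausdorff measure of a Lipschitz image

`H^k` restricted to `X '' B` is at most a constant times the image under `X` of the Lebesgue measure on `B`.
-/

set_option autoImplicit false

open MeasureTheory Measure
open scoped ContDiff

namespace Pool.Agent.Lib.MP_a8dae7_an.CV.HMM

open Pool.Agent.Lib.MP_a8dae7_an.CV

/-- the restriction of `H^k` to the image of the ball, against the image of the volume -/
theorem restrict_le (k : ℕ) (X : EE k → EE (k + 1)) (R : ℝ) (hX : ContDiff ℝ ∞ X) :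
    ∃ C : ℝ, 0 < C ∧ (hausdorffMeasure (k : ℝ) : Measure (EE (k + 1))).restrict (X '' Metric.closedBall 0 R) ≤
      ENNReal.ofReal C • (((volume : Measure (EE k)).restrict (Metric.closedBall 0 R)).map X) := by
  have hc : Continuous X := hX.continuous
  obtain ⟨K, hK⟩ := ContDiffOn.exists_lipschitzOnWith (s := Metric.closedBall (0 : EE k) R) (f := X) (n := ∞)
    hX.contDiffOn (by simp) (convex_closedBall _ _) (isCompact_closedBall _ _)
  have hsm := isAddLeftInvariant_eq_smul (hausdorffMeasure (k : ℝ) : Measure (EE k)) (volume : Measure (EE k))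
  set c := addHaarScalarFactor (hausdorffMeasure (k : ℝ) : Measure (EE k)) (volume : Measure (EE k)) with hcdef
  refine ⟨((K ^ k * c : NNReal) : ℝ) + 1, by positivity, ?_⟩
  rw [Measure.le_iff]
  intro A hA
  rw [Measure.restrict_apply hA, Measure.smul_apply, Measure.map_apply hc.measurable hA,
    Measure.restrict_apply (hc.measurable hA), smul_eq_mul]
  have h1 : A ∩ X '' Metric.closedBall 0 R ⊆ X '' (X ⁻¹' A ∩ Metric.closedBall 0 R) := by
    rintro y ⟨hy, q, hq, rfl⟩
    exact ⟨q, ⟨hy, hq⟩, rfl⟩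
  have h2 := (hK.mono (Set.inter_subset_right (s := X ⁻¹' A))).hausdorffMeasure_image_le
    (d := (k : ℝ)) (by positivity)
  have h3 : (hausdorffMeasure (k : ℝ) : Measure (EE k)) (X ⁻¹' A ∩ Metric.closedBall 0 R) =
      (c : ENNReal) * volume (X ⁻¹' A ∩ Metric.closedBall 0 R) := by
    rw [hsm]; rfl
  calc (hausdorffMeasure (k : ℝ) : Measure (EE (k + 1))) (A ∩ X '' Metric.closedBall 0 R)
      ≤ (hausdorffMeasure (k : ℝ) : Measure (EE (k + 1))) (X '' (X ⁻¹' A ∩ Metric.closedBall 0 R)) :=
        measure_mono h1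
    _ ≤ (K : ENNReal) ^ (k : ℝ) * (hausdorffMeasure (k : ℝ) : Measure (EE k))
          (X ⁻¹' A ∩ Metric.closedBall 0 R) := h2
    _ = ((K ^ k * c : NNReal) : ENNReal) * volume (X ⁻¹' A ∩ Metric.closedBall 0 R) := by
        rw [h3, ENNReal.rpow_natCast, ← mul_assoc]
        push_cast
        rfl
    _ ≤ ENNReal.ofReal (((K ^ k * c : NNReal) : ℝ) + 1) * volume (X ⁻¹' A ∩ Metric.closedBall 0 R) := by
        gcongr
        rw [← ENNReal.ofReal_coe_nnreal]
        exact ENNReal.ofReal_le_ofReal (by linarith)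

theorem specHM : SpecHM := by
  intro k X R hX
  obtain ⟨C, hC, hle⟩ := restrict_le k X R hX
  refine ⟨C, hC, fun F hF => ?_⟩
  calc ∫⁻ x in X '' Metric.closedBall 0 R, F x ∂(Measure.hausdorffMeasure (k : ℝ))
      ≤ ∫⁻ x, F x ∂(ENNReal.ofReal C • (((volume : Measure (EE k)).restrict
          (Metric.closedBall 0 R)).map X)) := lintegral_mono' hle le_rfl
    _ = ENNReal.ofReal C * ∫⁻ q in Metric.closedBall 0 R, F (X q) := by
        rw [lintegral_smul_measure, lintegral_map hF hX.continuous.measurable, smul_eq_mul]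

end Pool.Agent.Lib.MP_a8dae7_an.CV.HMM
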