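import Pool.Agent.Lib.MP_a8dae7_an.CV.Spec
import Pool.Agent.Lib.MP_a8dae7_an.FP.ALL

/-!
# CV, Main: from `SpecFIN` to the statement with the torus integral
-/

set_option autoImplicit false

open scoped BigOperators ContDiff
open MeasureTheory

namespace Pool.Agent.Lib.MP_a8dae7_an.CV.MainM

open Pool.Agent.Lib.MP_a8dae7_an.CV

theorem es_eq {d : ℕ} (s : Finset (Fin d → ℤ)) (a : (Fin d → ℤ) → ℂ) (x : EE d) :
    es s a x = FP.wave s a (fun i => x i) := by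
  unfold es FP.wave ex
  refine Finset.sum_congr rfl fun n _ => ?_
  congr 4
  simp [zv, PiLp.inner_apply, mul_comm]

theorem norm_zv {d : ℕ} (n : Fin d → ℤ) {lam : ℝ} (hl : 0 ≤ lam)
    (h : ∑ i, (n i : ℝ) ^ 2 = lam ^ 2) : ‖zv n‖ = lam := by
  rw [EuclideanSpace.norm_eq]
  have : ∑ i, ‖(zv n) i‖ ^ 2 = lam ^ 2 := by
    rw [← h]
    refine Finset.sum_congr rfl fun i _ => ?_
    simp [zv]
  rw [this, Real.sqrt_sq hl]

theorem main (hF : SpecFIN) (k : ℕ) (hk : 1 ≤ k) (Sg : Set (EE (k + 1))) (hc : IsCompact Sg)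
    (hp : ∀ p ∈ Sg, PosAt Sg p) (eps : ℝ) (he : 0 < eps) :
    ∃ C : ℝ, 0 < C ∧ ∀ (lam : ℝ) (s : Finset (Fin (k + 1) → ℤ)) (a : (Fin (k + 1) → ℤ) → ℂ),
      1 ≤ lam → (∀ n ∈ s, ∑ i, (n i : ℝ) ^ 2 = lam ^ 2) →
      ∫⁻ x in Sg, ENNReal.ofReal (‖FP.wave s a (fun i => x i)‖ ^ 2)
        ∂(Measure.hausdorffMeasure (k : ℝ))
        ≤ ENNReal.ofReal (C * lam ^ eps *
          ∫ x in Set.pi Set.univ (fun _ : Fin (k + 1) => Set.Icc (0 : ℝ) (2 * Real.pi)),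
            ‖FP.wave s a x‖ ^ 2) := by
  obtain ⟨m, rfl⟩ := Nat.exists_eq_add_of_le' hk
  obtain ⟨C, hC, h⟩ := hF m Sg ⟨hc, hp⟩ eps he
  refine ⟨C, hC, fun lam s a hl hs => ?_⟩
  have h1 := h lam s a hl fun n hn => norm_zv n (by linarith) (hs n hn)
  have h2 := FP.specPAR (m + 1 + 1) s a
  simp only [es_eq] at h1
  refine h1.trans (ENNReal.ofReal_le_ofReal ?_)
  rw [h2]
  have h3 : (1 : ℝ) ≤ (2 * Real.pi) ^ (m + 1 + 1) :=
    one_le_pow₀ (by have := Real.pi_gt_three; linarith)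
  have h4 : 0 ≤ ∑ n ∈ s, ‖a n‖ ^ 2 := Finset.sum_nonneg fun n _ => by positivity
  have h5 : 0 ≤ C * lam ^ eps := by positivity
  have h6 : ∑ n ∈ s, ‖a n‖ ^ 2 ≤ (2 * Real.pi) ^ (m + 1 + 1) * ∑ n ∈ s, ‖a n‖ ^ 2 :=
    le_mul_of_one_le_left h4 h3
  exact mul_le_mul_of_nonneg_left h6 h5

end Pool.Agent.Lib.MP_a8dae7_an.CV.MainM
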