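import Pool.Agent.Lib.MP_a8dae7_an.CV.Spec

section
/-!
# Non-stationary phase (section 1 of the paper proof)

`ns`: for a fixed bump `ψ` supported in the unit ball, an amplitude `a` and a complex phase `Θ`
which are smooth at scale `ρ` on the ball `B(q₀, ρ)`, the integral of `ψ((q - q₀)/ρ) a e^Θ` is at
most `C A ρ^k |e^Θ(q₀)| H^(-N)`, where `H` is `ρ` times (a lower bound of) the norm of the
derivative of the imaginary part of `Θ` at `q₀`.
-/
set_option autoImplicit false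

open MeasureTheory Set Metric
open scoped ContDiff FourierTransform RealInnerProductSpace

namespace Pool.Agent.Lib.MP_a8dae7_an.CV.NSM

/-- constants in the bound of the derivatives of an exponential -/
noncomputable def expC (B : ℝ) : ℕ → ℝ
  | 0 => 1
  | n + 1 => expC B n + ∑ i : Fin (n + 1), (n.choose i : ℝ) * expC B i * B

lemma expC_pos {B : ℝ} (hB : 0 ≤ B) : ∀ n, 0 < expC B n := by
  intro n
  induction n using Nat.strong_induction_on with
  | _ n ih =>
    cases n with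
    | zero => simp [expC]
    | succ n =>
      rw [expC]
      have h1 := ih n (Nat.lt_succ_self n)
      have h2 : 0 ≤ ∑ i : Fin (n + 1), (n.choose i : ℝ) * expC B i * B :=
        Finset.sum_nonneg fun i _ => by
          have := (ih i i.2).le
          positivity
      linarith

lemma expC_mono {B : ℝ} (hB : 0 ≤ B) {m n : ℕ} (h : m ≤ n) : expC B m ≤ expC B n := by
  induction n, h using Nat.le_induction with
  | base => exact le_rfl
  | succ n _ ih =>
    refine ih.trans ?_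
    rw [expC]
    have : 0 ≤ ∑ i : Fin (n + 1), (n.choose i : ℝ) * expC B i * B :=
      Finset.sum_nonneg fun i _ => by
        have := (expC_pos hB i).le
        positivity
    linarith

section
variable {V : Type*} [NormedAddCommGroup V] [NormedSpace ℝ V]

/-- derivatives of `e^Φ`, pointwise -/
lemma exp_bd {Φ : V → ℂ} (hΦ : ContDiff ℝ ∞ Φ) {B : ℝ} (hB : 0 ≤ B) {N : ℕ} {x : V}
    (h : ∀ j, 1 ≤ j → j ≤ N → ‖iteratedFDeriv ℝ j Φ x‖ ≤ B) :
    ∀ j ≤ N, ‖iteratedFDeriv ℝ j (fun y => Complex.exp (Φ y)) x‖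
      ≤ expC B j * Real.exp (Φ x).re := by
  have hE : ContDiff ℝ ∞ (fun y => Complex.exp (Φ y)) := hΦ.cexp
  have hd : (fderiv ℝ fun y => Complex.exp (Φ y)) = fun y => Complex.exp (Φ y) • fderiv ℝ Φ y := by
    funext y
    exact ((hΦ.differentiable (by simp)) y).hasFDerivAt.cexp.fderiv
  intro j
  induction j using Nat.strong_induction_on with
  | _ j ih =>
    intro hj
    cases j with
    | zero => simp [expC, Complex.norm_exp]
    | succ n =>
      rw [← norm_iteratedFDeriv_fderiv, hd]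
      have hf : ContDiff ℝ ∞ (fderiv ℝ Φ) := hΦ.fderiv_right (by simp)
      refine (norm_iteratedFDeriv_smul_le hE hf x (n := n) (by exact_mod_cast le_top)).trans ?_
      have h1 : ∀ i ∈ Finset.range (n + 1), (n.choose i : ℝ)
          * ‖iteratedFDeriv ℝ i (fun y => Complex.exp (Φ y)) x‖
          * ‖iteratedFDeriv ℝ (n - i) (fderiv ℝ Φ) x‖
          ≤ (n.choose i : ℝ) * expC B i * B * Real.exp (Φ x).re := by
        intro i hi
        have hi' : i < n + 1 := Finset.mem_range.mp hi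
        have e1 := ih i hi' (by omega)
        have e2 : ‖iteratedFDeriv ℝ (n - i) (fderiv ℝ Φ) x‖ ≤ B := by
          rw [norm_iteratedFDeriv_fderiv]
          exact h _ (by omega) (by omega)
        have e3 := (expC_pos hB i).le
        calc (n.choose i : ℝ) * ‖iteratedFDeriv ℝ i (fun y => Complex.exp (Φ y)) x‖
              * ‖iteratedFDeriv ℝ (n - i) (fderiv ℝ Φ) x‖
            ≤ (n.choose i : ℝ) * (expC B i * Real.exp (Φ x).re) * B := by gcongr
          _ = _ := by ring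
      refine (Finset.sum_le_sum h1).trans ?_
      rw [← Finset.sum_mul, expC]
      refine mul_le_mul_of_nonneg_right ?_ (Real.exp_pos _).le
      rw [← Fin.sum_univ_eq_sum_range (fun i => (n.choose i : ℝ) * expC B i * B)]
      linarith [expC_pos hB n]

/-- product of two functions with bounded derivatives -/
lemma mul_bd {f g : V → ℂ} (hf : ContDiff ℝ ∞ f) (hg : ContDiff ℝ ∞ g) {M₁ M₂ : ℝ} {N : ℕ} {x : V}
    (h1 : ∀ j ≤ N, ‖iteratedFDeriv ℝ j f x‖ ≤ M₁) (h2 : ∀ j ≤ N, ‖iteratedFDeriv ℝ j g x‖ ≤ M₂) :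
    ∀ j ≤ N, ‖iteratedFDeriv ℝ j (fun y => f y * g y) x‖ ≤ 2 ^ j * (M₁ * M₂) := by
  intro j hj
  have hM1 : 0 ≤ M₁ := (norm_nonneg _).trans (h1 0 (Nat.zero_le _))
  refine (norm_iteratedFDeriv_mul_le hf hg x (n := j) (by exact_mod_cast le_top)).trans ?_
  calc ∑ i ∈ Finset.range (j + 1), (j.choose i : ℝ) * ‖iteratedFDeriv ℝ i f x‖
          * ‖iteratedFDeriv ℝ (j - i) g x‖
      ≤ ∑ i ∈ Finset.range (j + 1), (j.choose i : ℝ) * (M₁ * M₂) := by
        refine Finset.sum_le_sum fun i hi => ?_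
        have hi' : i < j + 1 := Finset.mem_range.mp hi
        have e1 := h1 i (by omega)
        have e2 := h2 (j - i) (by omega)
        calc (j.choose i : ℝ) * ‖iteratedFDeriv ℝ i f x‖ * ‖iteratedFDeriv ℝ (j - i) g x‖
            ≤ (j.choose i : ℝ) * M₁ * M₂ := by gcongr
          _ = _ := by ring
    _ = 2 ^ j * (M₁ * M₂) := by
        rw [← Finset.sum_mul]
        congr 1
        exact_mod_cast Nat.sum_range_choose j

/-- derivatives of a function of `q₀ + ρ x` -/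
lemma iter_affine {F : Type*} [NormedAddCommGroup F] [NormedSpace ℝ F] {g : V → F}
    (hg : ContDiff ℝ ∞ g) (q₀ : V) (ρ : ℝ) (j : ℕ) (x : V) :
    iteratedFDeriv ℝ j (fun y => g (q₀ + ρ • y)) x = ρ ^ j • iteratedFDeriv ℝ j g (q₀ + ρ • x) := by
  have h1 : ContDiff ℝ j (fun z => g (q₀ + z)) :=
    (hg.comp (contDiff_const.add contDiff_id)).of_le (by exact_mod_cast le_top)
  have h2 := iteratedFDeriv_comp_const_smul (𝕜 := ℝ) (i := j) (f := fun z => g (q₀ + z)) ρ h1
  have h3 := congrFun h2 x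
  rw [h3, iteratedFDeriv_comp_add_left]

end

section
variable {V : Type*} [NormedAddCommGroup V] [InnerProductSpace ℝ V] [FiniteDimensional ℝ V]
  [MeasurableSpace V] [BorelSpace V]

/-- decay of the Fourier integral of a smooth function supported in the unit ball -/
lemma four_bd {f : V → ℂ} (hf : ContDiff ℝ ∞ f) (hs : Function.support f ⊆ closedBall 0 1)
    {M : ℝ} {N : ℕ} (h : ∀ x ∈ closedBall (0 : V) 1, ∀ j ≤ N, ‖iteratedFDeriv ℝ j f x‖ ≤ M)
    (ξ : V) :
    ‖ξ‖ ^ N * ‖𝓕 f ξ‖ ≤ 2 ^ N * ((N + 1) * (volume.real (closedBall (0 : V) 1) * M)) := by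
  have hcs : HasCompactSupport f :=
    HasCompactSupport.of_support_subset_isCompact (isCompact_closedBall 0 1) hs
  have hts : tsupport f ⊆ closedBall 0 1 := closure_minimal hs isClosed_closedBall
  have hint : ∀ n : ℕ, Integrable (fun v => ‖iteratedFDeriv ℝ n f v‖) := fun n => by
    have h1 : Continuous (iteratedFDeriv ℝ n f) :=
      hf.continuous_iteratedFDeriv (by exact_mod_cast le_top)
    have h2 : HasCompactSupport (iteratedFDeriv ℝ n f) := hcs.iteratedFDeriv n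
    exact (h1.integrable_of_hasCompactSupport h2).norm
  have key := Real.pow_mul_norm_iteratedFDeriv_fourier_le (V := V) (E := ℂ) (f := f)
    (K := 0) (N := N) (hf.of_le (by exact_mod_cast le_top)) (by
      intro k n hk _
      have hk0 : k = 0 := by simpa using hk
      subst hk0
      simpa using hint n) (k := 0) (n := N) le_rfl le_rfl ξ
  have h1 : ∀ p, p ≤ N → ∫ v, ‖iteratedFDeriv ℝ p f v‖ ≤ volume.real (closedBall (0 : V) 1) * M := by
    intro p hp
    have e1 : ∫ v, ‖iteratedFDeriv ℝ p f v‖ = ∫ v in closedBall (0 : V) 1, ‖iteratedFDeriv ℝ p f v‖ := by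
      refine (setIntegral_eq_integral_of_forall_compl_eq_zero fun x hx => ?_).symm
      rw [norm_eq_zero]
      by_contra hne
      exact hx (hts (support_iteratedFDeriv_subset p hne))
    rw [e1]
    have e2 : ‖∫ v in closedBall (0 : V) 1, ‖iteratedFDeriv ℝ p f v‖‖
        ≤ M * volume.real (closedBall (0 : V) 1) := by
      refine norm_setIntegral_le_of_norm_le_const ?_ (fun x hx => ?_)
      · exact (isCompact_closedBall 0 1).measure_lt_top
      · rw [norm_norm]
        exact h x hx p hp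
    rw [mul_comm]
    exact (le_abs_self _).trans e2
  rw [norm_iteratedFDeriv_zero] at key
  refine key.trans ?_
  simp only [pow_zero, one_mul, Nat.cast_zero, mul_zero, zero_add]
  refine mul_le_mul_of_nonneg_left ?_ (by positivity)
  rw [Finset.range_one, Finset.sum_product, Finset.sum_singleton]
  simp only [pow_zero, one_mul]
  calc ∑ y ∈ Finset.range (N + 1), ∫ v, ‖iteratedFDeriv ℝ y f v‖
      ≤ ∑ y ∈ Finset.range (N + 1), volume.real (closedBall (0 : V) 1) * M :=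
        Finset.sum_le_sum fun p hp => h1 p (by simpa [Nat.lt_succ_iff] using hp)
    _ = _ := by simp

/-- the unscaled lemma: `f(x) e^{i L x}` with `f` supported in the unit ball -/
lemma osc_bd {f : V → ℂ} (hf : ContDiff ℝ ∞ f) (hs : Function.support f ⊆ closedBall 0 1)
    {M : ℝ} {N : ℕ} (h : ∀ x ∈ closedBall (0 : V) 1, ∀ j ≤ N, ‖iteratedFDeriv ℝ j f x‖ ≤ M)
    (L : V →L[ℝ] ℝ) {H : ℝ} (hH : 0 < H) (hL : ∃ v, ‖v‖ ≤ 1 ∧ H ≤ |L v|) :
    ‖∫ x, f x * Complex.exp ((L x : ℝ) * Complex.I)‖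
      ≤ (4 * Real.pi) ^ N * ((N + 1) * (volume.real (closedBall (0 : V) 1) * M)) * (H ^ N)⁻¹ := by
  obtain ⟨v, hv1, hv2⟩ := hL
  set w : V := (InnerProductSpace.toDual ℝ V).symm L with hw
  have hwL : ∀ x, L x = ⟪w, x⟫ := fun x => by
    rw [hw, InnerProductSpace.toDual_symm_apply]
  set ξ : V := (-(2 * Real.pi)⁻¹ : ℝ) • w with hξ
  have hfour : 𝓕 f ξ = ∫ x, f x * Complex.exp ((L x : ℝ) * Complex.I) := by
    rw [Real.fourier_eq']
    refine integral_congr_ae (Filter.Eventually.of_forall fun x => ?_)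
    simp only [smul_eq_mul]
    rw [mul_comm]
    congr 3
    rw [hwL, hξ, inner_smul_right, real_inner_comm]
    have := Real.pi_ne_zero
    field_simp
  have hnξ : H / (2 * Real.pi) ≤ ‖ξ‖ := by
    have h1 : H ≤ ‖w‖ := by
      calc H ≤ |L v| := hv2
        _ = |⟪w, v⟫| := by rw [hwL]
        _ ≤ ‖w‖ * ‖v‖ := abs_real_inner_le_norm _ _
        _ ≤ ‖w‖ * 1 := by gcongr
        _ = ‖w‖ := mul_one _
    rw [hξ, norm_smul, norm_neg, norm_inv, Real.norm_of_nonneg (by positivity)]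
    rw [div_eq_inv_mul]
    gcongr
  have key := four_bd hf hs h ξ
  rw [hfour] at key
  have hp : 0 < (H / (2 * Real.pi)) ^ N := by positivity
  have h2 : (H / (2 * Real.pi)) ^ N * ‖∫ x, f x * Complex.exp ((L x : ℝ) * Complex.I)‖
      ≤ 2 ^ N * ((N + 1) * (volume.real (closedBall (0 : V) 1) * M)) :=
    (mul_le_mul_of_nonneg_right (pow_le_pow_left₀ (by positivity) hnξ N) (norm_nonneg _)).trans key
  rw [← le_div_iff₀' hp] at h2
  refine h2.trans (le_of_eq ?_)
  have e4 : (4 * Real.pi) ^ N = 2 ^ N * (2 * Real.pi) ^ N := by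
    rw [← mul_pow]
    ring_nf
  rw [div_pow, e4, div_div_eq_mul_div]
  ring

/-- **Non-stationary phase**. -/
theorem ns {ψ : V → ℝ} (hψ : ContDiff ℝ ∞ ψ) (hψs : Function.support ψ ⊆ closedBall 0 1)
    (N : ℕ) {B₀ : ℝ} (hB₀ : 0 ≤ B₀) :
    ∃ C : ℝ, 0 ≤ C ∧ ∀ (q₀ : V) (ρ : ℝ), 0 < ρ → ∀ (a Θ : V → ℂ), ContDiff ℝ ∞ a → ContDiff ℝ ∞ Θ →
      ∀ A : ℝ,
      (∀ q ∈ closedBall q₀ ρ, ∀ j ≤ N, ‖iteratedFDeriv ℝ j a q‖ ≤ A * (ρ ^ j)⁻¹) →
      (∀ q ∈ closedBall q₀ ρ, ∀ j, 2 ≤ j → j ≤ N + 2 → ‖iteratedFDeriv ℝ j Θ q‖ ≤ B₀ * (ρ ^ j)⁻¹) →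
      (∀ v, |(fderiv ℝ Θ q₀ v).re| ≤ B₀ / ρ * ‖v‖) →
      ∀ H : ℝ, 0 < H → (∃ v, ‖v‖ ≤ 1 ∧ H ≤ ρ * |(fderiv ℝ Θ q₀ v).im|) →
      ‖∫ q, (ψ (ρ⁻¹ • (q - q₀)) : ℂ) * (a q * Complex.exp (Θ q))‖
        ≤ C * A * ρ ^ (Module.finrank ℝ V) * Real.exp (Θ q₀).re * (H ^ N)⁻¹ := by
  -- derivatives of the bump
  have hψc : ContDiff ℝ ∞ (fun x => (ψ x : ℂ)) := Complex.ofRealCLM.contDiff.comp hψ
  have hψs' : Function.support (fun x => (ψ x : ℂ)) ⊆ closedBall 0 1 := fun x hx =>
    hψs (fun h0 => hx (by simp [h0]))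
  have hcs : HasCompactSupport (fun x => (ψ x : ℂ)) :=
    HasCompactSupport.of_support_subset_isCompact (isCompact_closedBall 0 1) hψs'
  have hMj : ∀ j : ℕ, ∃ M : ℝ, ∀ x, ‖iteratedFDeriv ℝ j (fun x => (ψ x : ℂ)) x‖ ≤ M := fun j =>
    (hcs.iteratedFDeriv j).exists_bound_of_continuous
      (hψc.continuous_iteratedFDeriv (by exact_mod_cast le_top))
  choose Mj hMj using hMj
  set Mψ : ℝ := ∑ j ∈ Finset.range (N + 1), |Mj j| with hMψ
  have hψb : ∀ j ≤ N, ∀ x, ‖iteratedFDeriv ℝ j (fun x => (ψ x : ℂ)) x‖ ≤ Mψ := fun j hj x =>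
    ((hMj j x).trans (le_abs_self _)).trans (Finset.single_le_sum (f := fun j => |Mj j|)
      (fun i _ => abs_nonneg _) (Finset.mem_range.mpr (by omega)))
  have hMψ0 : 0 ≤ Mψ := Finset.sum_nonneg fun i _ => abs_nonneg _
  set E₀ : ℝ := expC (2 * B₀) N * Real.exp (2 * B₀) with hE₀
  have hE₀p : 0 < E₀ := mul_pos (expC_pos (by positivity) N) (Real.exp_pos _)
  refine ⟨(4 * Real.pi) ^ N * ((N + 1) * (volume.real (closedBall (0 : V) 1)
    * (2 ^ N * (Mψ * (2 ^ N * E₀))))), by positivity, ?_⟩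
  intro q₀ ρ hρ a Θ ha hΘ A hA hB hR H hH hL
  have hA0 : 0 ≤ A := by
    have := (norm_nonneg _).trans (hA q₀ (by simp [hρ.le]) 0 (Nat.zero_le _))
    simpa using this
  have hball : ∀ x ∈ closedBall (0 : V) 1, q₀ + ρ • x ∈ closedBall q₀ ρ := fun x hx => by
    rw [mem_closedBall, dist_eq_norm, add_sub_cancel_left, norm_smul, Real.norm_of_nonneg hρ.le]
    have : ‖x‖ ≤ 1 := by simpa using hx
    nlinarith [norm_nonneg x]
  -- the linear part
  set L : V →L[ℝ] ℝ := ρ • (Complex.imCLM.comp (fderiv ℝ Θ q₀)) with hLdef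
  have hLap : ∀ v, L v = ρ * (fderiv ℝ Θ q₀ v).im := fun v => by simp [hLdef]
  set g : V → ℂ := fun y => Θ (q₀ + ρ • y) with hg
  have hgs : ContDiff ℝ ∞ g := hΘ.comp (contDiff_const.add (contDiff_const.smul contDiff_id))
  set Lc : V →L[ℝ] ℂ := (Complex.ofRealCLM.comp L).smulRight Complex.I with hLc
  have hLcap : ∀ v, Lc v = (L v : ℂ) * Complex.I := fun v => by simp [hLc]
  set Φ : V → ℂ := fun y => g y - Θ q₀ - Lc y with hΦ
  have hΦs : ContDiff ℝ ∞ Φ := (hgs.sub contDiff_const).sub Lc.contDiff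
  have hgd : ∀ y, DifferentiableAt ℝ g y := fun y => (hgs.differentiable (by simp)) y
  have hfΦ : fderiv ℝ Φ = fun y => fderiv ℝ g y - Lc := by
    funext y
    have h1 : HasFDerivAt Φ (fderiv ℝ g y - Lc) y :=
      ((hgd y).hasFDerivAt.sub_const (Θ q₀)).sub Lc.hasFDerivAt
    exact h1.fderiv
  have hffΦ : fderiv ℝ (fderiv ℝ Φ) = fderiv ℝ (fderiv ℝ g) := by
    rw [hfΦ]
    funext y
    exact fderiv_sub_const Lc
  have hge2 : ∀ j, ∀ x, ‖iteratedFDeriv ℝ (j + 2) Φ x‖
      = ρ ^ (j + 2) * ‖iteratedFDeriv ℝ (j + 2) Θ (q₀ + ρ • x)‖ := fun j x => by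
    rw [← norm_iteratedFDeriv_fderiv, ← norm_iteratedFDeriv_fderiv, hffΦ,
      norm_iteratedFDeriv_fderiv, norm_iteratedFDeriv_fderiv, hg, iter_affine hΘ, norm_smul,
      Real.norm_of_nonneg (by positivity)]
  have hge2' : ∀ j, j ≤ N → ∀ x ∈ closedBall (0 : V) 1, ‖iteratedFDeriv ℝ (j + 2) Φ x‖ ≤ B₀ := by
    intro j hj x hx
    rw [hge2]
    have h1 := hB _ (hball x hx) (j + 2) (by omega) (by omega)
    calc ρ ^ (j + 2) * ‖iteratedFDeriv ℝ (j + 2) Θ (q₀ + ρ • x)‖
        ≤ ρ ^ (j + 2) * (B₀ * (ρ ^ (j + 2))⁻¹) := by gcongr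
      _ = B₀ := by field_simp
  -- the first derivative at 0
  have hfg0 : ∀ v, fderiv ℝ g 0 v = ρ * fderiv ℝ Θ q₀ v := by
    intro v
    have h1 : HasFDerivAt (fun y : V => q₀ + ρ • y) (ρ • ContinuousLinearMap.id ℝ V) 0 := by
      have := ((ContinuousLinearMap.id ℝ V).hasFDerivAt (x := (0 : V))).const_smul ρ
      exact this.const_add q₀
    have h2 : HasFDerivAt Θ (fderiv ℝ Θ q₀) ((fun y : V => q₀ + ρ • y) 0) := by
      simp only [smul_zero, add_zero]
      exact ((hΘ.differentiable (by simp)) q₀).hasFDerivAt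
    have h3 := (h2.comp (0 : V) h1).fderiv
    have h4 : fderiv ℝ g 0 = (fderiv ℝ Θ q₀).comp (ρ • ContinuousLinearMap.id ℝ V) := h3
    rw [h4]
    simp
  have hd0 : ‖fderiv ℝ Φ 0‖ ≤ B₀ := by
    refine ContinuousLinearMap.opNorm_le_bound _ hB₀ fun v => ?_
    have h1 : fderiv ℝ Φ 0 v = ((ρ * (fderiv ℝ Θ q₀ v).re : ℝ) : ℂ) := by
      rw [hfΦ]
      simp only [sub_apply, hfg0, hLcap, hLap]
      apply Complex.ext <;> simp
    rw [h1, Complex.norm_real, Real.norm_eq_abs, abs_mul, abs_of_pos hρ]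
    calc ρ * |(fderiv ℝ Θ q₀ v).re| ≤ ρ * (B₀ / ρ * ‖v‖) := by
          gcongr
          exact hR v
      _ = B₀ * ‖v‖ := by field_simp
  have hconv : Convex ℝ (closedBall (0 : V) 1) := convex_closedBall 0 1
  have h0mem : (0 : V) ∈ closedBall (0 : V) 1 := by simp
  have hd1 : ∀ x ∈ closedBall (0 : V) 1, ‖fderiv ℝ Φ x‖ ≤ 2 * B₀ := by
    intro x hx
    have hxn : ‖x‖ ≤ 1 := by simpa using hx
    have hdf : ContDiff ℝ ∞ (fderiv ℝ Φ) := hΦs.fderiv_right (by simp)
    have h1 := hconv.norm_image_sub_le_of_norm_fderiv_le (𝕜 := ℝ) (f := fderiv ℝ Φ) (C := B₀)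
      (fun y _ => (hdf.differentiable (by simp)) y)
      (fun y hy => by
        rw [← norm_iteratedFDeriv_one, norm_iteratedFDeriv_fderiv]
        exact hge2' 0 (Nat.zero_le _) y hy) h0mem hx
    have h2 : ‖fderiv ℝ Φ x‖ ≤ ‖fderiv ℝ Φ x - fderiv ℝ Φ 0‖ + ‖fderiv ℝ Φ 0‖ := by
      have := norm_add_le (fderiv ℝ Φ x - fderiv ℝ Φ 0) (fderiv ℝ Φ 0)
      rwa [sub_add_cancel] at this
    have h3 : B₀ * ‖x - 0‖ ≤ B₀ := by
      rw [sub_zero]
      nlinarith
    linarith
  have hΦ0 : Φ 0 = 0 := by simp [hΦ, hg]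
  have hΦb : ∀ x ∈ closedBall (0 : V) 1, (Φ x).re ≤ 2 * B₀ := by
    intro x hx
    have hxn : ‖x‖ ≤ 1 := by simpa using hx
    have h1 := hconv.norm_image_sub_le_of_norm_fderiv_le (𝕜 := ℝ) (f := Φ) (C := 2 * B₀)
      (fun y _ => (hΦs.differentiable (by simp)) y) hd1 h0mem hx
    rw [hΦ0, sub_zero, sub_zero] at h1
    have h2 : (Φ x).re ≤ ‖Φ x‖ := Complex.re_le_norm _
    nlinarith [norm_nonneg x]
  have hΦj : ∀ x ∈ closedBall (0 : V) 1, ∀ j, 1 ≤ j → j ≤ N →
      ‖iteratedFDeriv ℝ j Φ x‖ ≤ 2 * B₀ := by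
    intro x hx j h1 hj
    obtain rfl | h2 := Nat.eq_or_lt_of_le h1
    · rw [norm_iteratedFDeriv_one]
      exact hd1 x hx
    · obtain ⟨i, rfl⟩ := Nat.exists_eq_add_of_le h2
      rw [add_comm]
      exact (hge2' i (by omega) x hx).trans (by linarith)
  -- the function `f`
  set f : V → ℂ := fun x => (ψ x : ℂ) * (a (q₀ + ρ • x) * Complex.exp (Φ x)) with hf
  have has : ContDiff ℝ ∞ (fun x => a (q₀ + ρ • x)) :=
    ha.comp (contDiff_const.add (contDiff_const.smul contDiff_id))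
  have hes : ContDiff ℝ ∞ (fun x => Complex.exp (Φ x)) := hΦs.cexp
  have hfs : ContDiff ℝ ∞ f := hψc.mul (has.mul hes)
  have hfsupp : Function.support f ⊆ closedBall 0 1 := fun x hx =>
    hψs' (fun h0 => hx (by
      have h1 : (ψ x : ℂ) = 0 := h0
      simp only [hf]
      rw [h1, zero_mul]))
  have hfb : ∀ x ∈ closedBall (0 : V) 1, ∀ j ≤ N,
      ‖iteratedFDeriv ℝ j f x‖ ≤ 2 ^ N * (Mψ * (2 ^ N * E₀)) * A := by
    intro x hx
    have h1 : ∀ j ≤ N, ‖iteratedFDeriv ℝ j (fun y => a (q₀ + ρ • y)) x‖ ≤ A := by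
      intro j hj
      rw [iter_affine ha, norm_smul, Real.norm_of_nonneg (by positivity)]
      calc ρ ^ j * ‖iteratedFDeriv ℝ j a (q₀ + ρ • x)‖ ≤ ρ ^ j * (A * (ρ ^ j)⁻¹) := by
            gcongr
            exact hA _ (hball x hx) j hj
        _ = A := by field_simp
    have h2 : ∀ j ≤ N, ‖iteratedFDeriv ℝ j (fun y => Complex.exp (Φ y)) x‖ ≤ E₀ := by
      intro j hj
      refine (exp_bd hΦs (B := 2 * B₀) (by positivity) (hΦj x hx) j hj).trans ?_
      have e1 : expC (2 * B₀) j ≤ expC (2 * B₀) N := expC_mono (by positivity) hj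
      have e2 := (expC_pos (B := 2 * B₀) (by positivity) j).le
      have e3 : Real.exp (Φ x).re ≤ Real.exp (2 * B₀) := Real.exp_le_exp.mpr (hΦb x hx)
      exact mul_le_mul e1 e3 (Real.exp_pos _).le (e2.trans e1)
    have h3 : ∀ j ≤ N, ‖iteratedFDeriv ℝ j (fun y => a (q₀ + ρ • y) * Complex.exp (Φ y)) x‖
        ≤ 2 ^ N * (A * E₀) := by
      intro j hj
      refine (mul_bd has hes h1 h2 j hj).trans ?_
      have : (2 : ℝ) ^ j ≤ 2 ^ N := pow_le_pow_right₀ (by norm_num) hj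
      gcongr
    intro j hj
    refine (mul_bd hψc (has.mul hes) (fun j hj => hψb j hj x) h3 j hj).trans ?_
    have : (2 : ℝ) ^ j ≤ 2 ^ N := pow_le_pow_right₀ (by norm_num) hj
    calc (2 : ℝ) ^ j * (Mψ * (2 ^ N * (A * E₀))) ≤ 2 ^ N * (Mψ * (2 ^ N * (A * E₀))) := by gcongr
      _ = _ := by ring
  have hosc := osc_bd hfs hfsupp hfb L hH (by
    obtain ⟨v, hv1, hv2⟩ := hL
    refine ⟨v, hv1, ?_⟩
    rw [hLap, abs_mul, abs_of_pos hρ]
    exact hv2)
  -- change of variables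
  have hcv : ∫ q, (ψ (ρ⁻¹ • (q - q₀)) : ℂ) * (a q * Complex.exp (Θ q))
      = (ρ : ℂ) ^ (Module.finrank ℝ V) * ∫ x, (ψ x : ℂ) * (a (q₀ + ρ • x)
        * Complex.exp (Θ (q₀ + ρ • x))) := by
    set F : V → ℂ := fun q => (ψ (ρ⁻¹ • (q - q₀)) : ℂ) * (a q * Complex.exp (Θ q)) with hF
    have e1 : ∀ x, (ψ x : ℂ) * (a (q₀ + ρ • x) * Complex.exp (Θ (q₀ + ρ • x)))
        = (fun z => F (q₀ + z)) (ρ • x) := fun x => by
      simp only [hF]
      rw [add_sub_cancel_left, smul_smul, inv_mul_cancel₀ hρ.ne', one_smul]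
    simp_rw [e1]
    rw [Measure.integral_comp_smul volume (fun z => F (q₀ + z)) ρ, integral_add_left_eq_self F q₀,
      abs_of_pos (by positivity), Complex.real_smul, ← mul_assoc]
    push_cast
    rw [mul_inv_cancel₀ (by exact_mod_cast (pow_pos hρ _).ne'), one_mul]
  have hint : ∫ x, (ψ x : ℂ) * (a (q₀ + ρ • x) * Complex.exp (Θ (q₀ + ρ • x)))
      = Complex.exp (Θ q₀) * ∫ x, f x * Complex.exp ((L x : ℝ) * Complex.I) := by
    rw [← integral_const_mul]
    refine integral_congr_ae (Filter.Eventually.of_forall fun x => ?_)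
    simp only [hf]
    have e1 : Complex.exp (Θ (q₀ + ρ • x))
        = Complex.exp (Θ q₀) * Complex.exp (Φ x) * Complex.exp ((L x : ℝ) * Complex.I) := by
      rw [← Complex.exp_add, ← Complex.exp_add]
      congr 1
      simp only [hΦ, hg, hLcap]
      ring
    rw [e1]
    ring
  rw [hcv, hint, norm_mul, norm_mul, norm_pow, Complex.norm_real, Real.norm_of_nonneg hρ.le,
    Complex.norm_exp]
  calc ρ ^ Module.finrank ℝ V * (Real.exp (Θ q₀).re
        * ‖∫ x, f x * Complex.exp ((L x : ℝ) * Complex.I)‖)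
      ≤ ρ ^ Module.finrank ℝ V * (Real.exp (Θ q₀).re * ((4 * Real.pi) ^ N * ((N + 1)
        * (volume.real (closedBall (0 : V) 1) * (2 ^ N * (Mψ * (2 ^ N * E₀)) * A)))
          * (H ^ N)⁻¹)) := by gcongr
    _ = _ := by ring

/-- **Averaging**: if all localised integrals at scale `ρ` are at most `ρ^k b` and `F` lives in
`K`, the integral of `F` is at most `b` times the volume of the `ρ`-neighbourhood `K'` of `K`. -/
theorem avg {ψ : V → ℝ} (hψc : Continuous ψ) (hψs : Function.support ψ ⊆ closedBall 0 1)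
    (hψ1 : ∫ x, ψ x = 1) {F : V → ℂ} (hF : Continuous F) (hFs : HasCompactSupport F)
    {ρ : ℝ} (hρ : 0 < ρ) {K' : Set V} (hK'm : volume K' ≠ ⊤)
    (hK' : ∀ q₀, q₀ ∉ K' → ∀ q ∈ closedBall q₀ ρ, F q = 0) {b : ℝ}
    (h : ∀ q₀ ∈ K', ‖∫ q, (ψ (ρ⁻¹ • (q - q₀)) : ℂ) * F q‖ ≤ ρ ^ (Module.finrank ℝ V) * b) :
    ‖∫ q, F q‖ ≤ volume.real K' * b := by
  set g : V → ℂ := fun x => (ψ (-(ρ⁻¹ • x)) : ℂ) with hg
  have hρk : (0 : ℝ) < ρ ^ Module.finrank ℝ V := by positivity
  have hFi : Integrable F := hF.integrable_of_hasCompactSupport hFs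
  have hgc : Continuous g :=
    Complex.continuous_ofReal.comp (hψc.comp ((continuous_id.const_smul ρ⁻¹).neg))
  have hgs : HasCompactSupport g := by
    refine HasCompactSupport.of_support_subset_isCompact (isCompact_closedBall (0 : V) ρ)
      (fun x hx => ?_)
    have h1 : -(ρ⁻¹ • x) ∈ closedBall (0 : V) 1 := hψs (fun h0 => hx (by simp [hg, h0]))
    rw [mem_closedBall_zero_iff, norm_neg, norm_smul, norm_inv, Real.norm_of_nonneg hρ.le,
      inv_mul_le_iff₀ hρ, mul_one] at h1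
    rwa [mem_closedBall_zero_iff]
  have hgi : Integrable g := hgc.integrable_of_hasCompactSupport hgs
  have hg1 : ∫ x, g x = ((ρ ^ Module.finrank ℝ V : ℝ) : ℂ) := by
    have e1 : ∀ x, g x = (fun z : V => ((ψ (-z) : ℝ) : ℂ)) (ρ⁻¹ • x) := fun x => rfl
    simp_rw [e1]
    rw [Measure.integral_comp_smul volume (fun z : V => ((ψ (-z) : ℝ) : ℂ)) ρ⁻¹,
      integral_neg_eq_self (fun z : V => ((ψ z : ℝ) : ℂ)) volume, integral_complex_ofReal, hψ1]
    rw [inv_pow, inv_inv, abs_of_pos hρk]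
    simp
  have hconv := integral_convolution (L := ContinuousLinearMap.mul ℝ ℂ) (μ := volume)
    (ν := volume) hFi hgi
  rw [ContinuousLinearMap.mul_apply', hg1] at hconv
  have hI : ∀ q₀, (convolution F g (ContinuousLinearMap.mul ℝ ℂ) volume) q₀
      = ∫ q, (ψ (ρ⁻¹ • (q - q₀)) : ℂ) * F q := by
    intro q₀
    rw [convolution_def]
    refine integral_congr_ae (Filter.Eventually.of_forall fun q => ?_)
    simp only [ContinuousLinearMap.mul_apply', hg]
    rw [mul_comm, ← smul_neg, neg_sub]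
  have hz : ∀ q₀, q₀ ∉ K' → (∫ q, (ψ (ρ⁻¹ • (q - q₀)) : ℂ) * F q) = 0 := by
    intro q₀ hq₀
    rw [← integral_zero V ℂ (μ := volume)]
    refine integral_congr_ae (Filter.Eventually.of_forall fun q => ?_)
    by_cases hq : q ∈ closedBall q₀ ρ
    · simp [hK' q₀ hq₀ q hq]
    · have : ψ (ρ⁻¹ • (q - q₀)) = 0 := by
        by_contra hne
        have h1 := hψs hne
        rw [mem_closedBall_zero_iff, norm_smul, norm_inv, Real.norm_of_nonneg hρ.le,
          inv_mul_le_iff₀ hρ, mul_one] at h1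
        exact hq (by rwa [mem_closedBall, dist_eq_norm])
      simp [this]
  simp_rw [hI] at hconv
  have h1 : ‖∫ q₀, ∫ q, (ψ (ρ⁻¹ • (q - q₀)) : ℂ) * F q‖
      ≤ (ρ ^ (Module.finrank ℝ V) * b) * volume.real K' := by
    rw [← setIntegral_eq_integral_of_forall_compl_eq_zero (s := K') (fun x hx => hz x hx)]
    exact norm_setIntegral_le_of_norm_le_const (lt_top_iff_ne_top.mpr hK'm) h
  rw [hconv, norm_mul, Complex.norm_real, Real.norm_of_nonneg hρk.le] at h1
  have h2 : ρ ^ Module.finrank ℝ V * ‖∫ q, F q‖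
      ≤ ρ ^ Module.finrank ℝ V * (volume.real K' * b) := by nlinarith
  exact le_of_mul_le_mul_left h2 hρk

variable (V) in
/-- a smooth bump of integral one supported in the unit ball -/
lemma exists_bump : ∃ ψ : V → ℝ, ContDiff ℝ ∞ ψ ∧ Function.support ψ ⊆ closedBall 0 1 ∧
    (∫ x, ψ x = 1) ∧ ∀ x, 0 ≤ ψ x := by
  let φ : ContDiffBump (0 : V) := ⟨1 / 2, 1, by norm_num, by norm_num⟩
  refine ⟨φ.normed volume, φ.contDiff_normed, ?_, φ.integral_normed,
    fun x => φ.nonneg_normed x⟩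
  rw [φ.support_normed_eq]
  exact ball_subset_closedBall

end

/-- **NS**: non-stationary phase on one ball. -/
theorem specNS : SpecNS := by
  intro k N B
  have hψs : Function.support (fun x : EE k => bm k ((1 / 2 : ℝ) • x)) ⊆ closedBall 0 1 := by
    intro x hx
    have h1 : (1 / 2 : ℝ) • x ∈ Function.support (bm k) := hx
    rw [(bm k).support_eq, mem_ball_zero_iff, norm_smul, Real.norm_of_nonneg (by norm_num)] at h1
    have h2 : (bm k).rOut = 1 / 2 := rfl
    rw [h2] at h1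
    rw [mem_closedBall_zero_iff]
    linarith
  have hψ : ContDiff ℝ ∞ (fun x : EE k => bm k ((1 / 2 : ℝ) • x)) :=
    (bm k).contDiff.comp (contDiff_const_smul (1 / 2 : ℝ))
  obtain ⟨C, hC, h⟩ := ns hψ hψs N (abs_nonneg B)
  refine ⟨C * 2 ^ N + 1, by positivity, ?_⟩
  intro q0 rho A H a Th hrho hA hH ha hTh hbA hbT hre him
  have hr2 : 0 < rho / 2 := by positivity
  have hsub : ∀ q ∈ closedBall q0 (rho / 2), q ∈ ball q0 rho := fun q hq => by
    rw [mem_closedBall] at hq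
    rw [mem_ball]
    linarith
  have hpow : ∀ j : ℕ, (rho ^ j)⁻¹ ≤ ((rho / 2) ^ j)⁻¹ := fun j => by
    gcongr
    linarith
  have h1 := h q0 (rho / 2) hr2 a Th ha hTh A
    (fun q hq j hj => by
      have e1 := hbA q (hsub q hq) j hj
      have e2 : ‖iteratedFDeriv ℝ j a q‖ ≤ A * (rho ^ j)⁻¹ := by
        rw [← div_eq_mul_inv, le_div_iff₀ (by positivity)]
        exact e1
      exact e2.trans (mul_le_mul_of_nonneg_left (hpow j) hA))
    (fun q hq j hj1 hj2 => by
      have e1 := hbT q (hsub q hq) j hj1 hj2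
      have e2 : ‖iteratedFDeriv ℝ j Th q‖ ≤ |B| * (rho ^ j)⁻¹ := by
        rw [← div_eq_mul_inv, le_div_iff₀ (by positivity)]
        exact e1.trans (le_abs_self B)
      exact e2.trans (mul_le_mul_of_nonneg_left (hpow j) (abs_nonneg B)))
    (fun v => by
      have e1 := hre v
      have e2 : B * ‖v‖ ≤ |B| * ‖v‖ := mul_le_mul_of_nonneg_right (le_abs_self B) (norm_nonneg v)
      have e3 : |(fderiv ℝ Th q0 v).re| ≤ |B| / rho * ‖v‖ := by
        rw [div_mul_eq_mul_div, le_div_iff₀ hrho]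
        linarith
      have e4 : |B| / rho ≤ |B| / (rho / 2) := by
        gcongr
        linarith
      exact e3.trans (mul_le_mul_of_nonneg_right e4 (norm_nonneg v)))
    (H / 2) (by positivity)
    (by
      obtain ⟨v, hv1, hv2⟩ := him
      exact ⟨v, hv1, by linarith⟩)
  have e0 : ∀ q : EE k, (1 / 2 : ℝ) • ((rho / 2)⁻¹ • (q - q0)) = rho⁻¹ • (q - q0) := fun q => by
    rw [smul_smul]
    congr 1
    field_simp
  simp_rw [e0] at h1
  have e5 : Module.finrank ℝ (EE k) = k := finrank_euclideanSpace_fin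
  rw [e5] at h1
  rw [Complex.norm_exp]
  refine h1.trans ?_
  have hE := (Real.exp_pos (Th q0).re).le
  have e6 : (rho / 2) ^ k ≤ rho ^ k := pow_le_pow_left₀ hr2.le (by linarith) k
  have e7 : ((H / 2) ^ N)⁻¹ = 2 ^ N * H⁻¹ ^ N := by
    rw [div_pow, inv_div, inv_pow, div_eq_mul_inv]
  rw [e7]
  calc C * A * (rho / 2) ^ k * Real.exp (Th q0).re * (2 ^ N * H⁻¹ ^ N)
      ≤ C * A * rho ^ k * Real.exp (Th q0).re * (2 ^ N * H⁻¹ ^ N) := by gcongr
    _ = (C * 2 ^ N) * (A * rho ^ k * Real.exp (Th q0).re * H⁻¹ ^ N) := by ring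
    _ ≤ (C * 2 ^ N + 1) * (A * rho ^ k * Real.exp (Th q0).re * H⁻¹ ^ N) := by
        gcongr
        linarith
    _ = _ := by ring

end Pool.Agent.Lib.MP_a8dae7_an.CV.NSM
end

section
/-!
# MP_a8dae7_an, CV: OR. Almost orthogonality.
-/
set_option autoImplicit false

open MeasureTheory Finset
open scoped ContDiff ComplexConjugate

namespace Pool.Agent.Lib.MP_a8dae7_an.CV.ORM

/-- labels at distance at most `R` in every coordinate -/
def near {d : ℕ} (R : ℕ) (c c' : Fin d → ℤ) : Prop := ∀ i, |c i - c' i| ≤ (R : ℤ)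

instance {d : ℕ} (R : ℕ) (c c' : Fin d → ℤ) : Decidable (near R c c') := by
  unfold near; infer_instance

lemma near_comm {d : ℕ} {R : ℕ} {c c' : Fin d → ℤ} : near R c c' ↔ near R c' c := by
  simp only [near]
  exact forall_congr' fun i => by rw [abs_sub_comm]

/-- the number of labels near a given one -/
lemma card_near {d : ℕ} (R : ℕ) (S : Finset (Fin d → ℤ)) (c : Fin d → ℤ) :
    (#(S.filter fun c' => near R c c') : ℝ) ≤ (2 * R + 1 : ℝ) ^ d := by
  have h : S.filter (fun c' => near R c c') ⊆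
      Fintype.piFinset fun i => Finset.Icc (c i - R) (c i + R) := by
    intro c' hc'
    rw [mem_filter] at hc'
    rw [Fintype.mem_piFinset]
    intro i
    have h1 := hc'.2 i
    rw [abs_le] at h1
    rw [Finset.mem_Icc]
    constructor <;> linarith
  have h2 : #(S.filter fun c' => near R c c') ≤ (2 * R + 1) ^ d := by
    refine (card_le_card h).trans ?_
    rw [Fintype.card_piFinset]
    have h3 : ∀ i, #(Icc (c i - R) (c i + R)) = 2 * R + 1 := by
      intro i; rw [Int.card_Icc]; omega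
    simp [h3]
  exact_mod_cast h2

/-- the near pairs -/
lemma near_sum {d : ℕ} (R : ℕ) (S : Finset (Fin d → ℤ)) (F : (Fin d → ℤ) → ℂ) :
    (∑ c ∈ S, ∑ c' ∈ S, if near R c c' then F c * conj (F c') else 0).re ≤
      (2 * R + 1 : ℝ) ^ d * ∑ c ∈ S, ‖F c‖ ^ 2 := by
  have h1 : (∑ c ∈ S, ∑ c' ∈ S, if near R c c' then F c * conj (F c') else 0).re ≤
      ∑ c ∈ S, ∑ c' ∈ S, if near R c c' then (‖F c‖ ^ 2 + ‖F c'‖ ^ 2) / 2 else 0 := by
    rw [Complex.re_sum]
    refine sum_le_sum fun c _ => ?_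
    rw [Complex.re_sum]
    refine sum_le_sum fun c' _ => ?_
    split_ifs with h
    · refine (Complex.re_le_norm _).trans ?_
      rw [norm_mul, RCLike.norm_conj]
      nlinarith [sq_nonneg (‖F c‖ - ‖F c'‖)]
    · simp
  refine h1.trans ?_
  have h2 : ∑ c ∈ S, ∑ c' ∈ S, (if near R c c' then (‖F c‖ ^ 2 + ‖F c'‖ ^ 2) / 2 else 0) =
      ∑ c ∈ S, (#(S.filter fun c' => near R c c') : ℝ) * ‖F c‖ ^ 2 := by
    have h3 : ∑ c ∈ S, ∑ c' ∈ S, (if near R c c' then ‖F c'‖ ^ 2 / 2 else 0) =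
        ∑ c ∈ S, ∑ c' ∈ S, (if near R c c' then ‖F c‖ ^ 2 / 2 else 0) := by
      rw [sum_comm]
      refine sum_congr rfl fun c _ => sum_congr rfl fun c' _ => ?_
      rw [if_congr near_comm rfl rfl]
    have h4 : ∀ c ∈ S, ∑ c' ∈ S, (if near R c c' then (‖F c‖ ^ 2 + ‖F c'‖ ^ 2) / 2 else 0) =
        ∑ c' ∈ S, (if near R c c' then ‖F c‖ ^ 2 / 2 else 0) +
          ∑ c' ∈ S, (if near R c c' then ‖F c'‖ ^ 2 / 2 else 0) := by
      intro c _
      rw [← sum_add_distrib]
      refine sum_congr rfl fun c' _ => ?_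
      split_ifs <;> ring
    rw [sum_congr rfl h4, sum_add_distrib, h3, ← sum_add_distrib]
    refine sum_congr rfl fun c _ => ?_
    rw [← sum_filter, sum_const, nsmul_eq_mul]
    ring
  rw [h2, mul_sum]
  exact sum_le_sum fun c _ => mul_le_mul_of_nonneg_right (card_near R S c) (sq_nonneg _)

/-- fibres of the label map -/
lemma fibre_sum {d : ℕ} (R : ℕ) (s : Finset (Fin d → ℤ)) (D : (Fin d → ℤ) → (Fin d → ℤ))
    (H : (Fin d → ℤ) → ℂ) :
    ∑ n ∈ s, ∑ n' ∈ s, (if near R (D n) (D n') then H n * conj (H n') else 0) =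
      ∑ c ∈ s.image D, ∑ c' ∈ s.image D, if near R c c' then
        (∑ n ∈ s with D n = c, H n) * conj (∑ n ∈ s with D n = c', H n) else 0 := by
  have h1 : ∀ n ∈ s, ∑ n' ∈ s, (if near R (D n) (D n') then H n * conj (H n') else 0) =
      ∑ c' ∈ s.image D, if near R (D n) c' then
        H n * conj (∑ n ∈ s with D n = c', H n) else 0 := by
    intro n _
    rw [← sum_fiberwise_of_maps_to (fun n' hn' => mem_image_of_mem D hn')]
    refine sum_congr rfl fun c' _ => ?_
    have h2 : ∀ n' ∈ s.filter (fun n' => D n' = c'),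
        (if near R (D n) (D n') then H n * conj (H n') else 0) =
          if near R (D n) c' then H n * conj (H n') else 0 := by
      intro n' hn'
      rw [(mem_filter.1 hn').2]
    rw [sum_congr rfl h2]
    split_ifs
    · rw [map_sum, mul_sum]
    · simp
  rw [sum_congr rfl h1]
  rw [← sum_fiberwise_of_maps_to (fun n' hn' => mem_image_of_mem D hn')]
  refine sum_congr rfl fun c _ => ?_
  have h2 : ∀ n ∈ s.filter (fun n' => D n' = c),
      (∑ c' ∈ s.image D, if near R (D n) c' then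
        H n * conj (∑ n ∈ s with D n = c', H n) else 0) =
        ∑ c' ∈ s.image D, if near R c c' then
        H n * conj (∑ n ∈ s with D n = c', H n) else 0 := by
    intro n' hn'
    rw [(mem_filter.1 hn').2]
  rw [sum_congr rfl h2, sum_comm]
  refine sum_congr rfl fun c' _ => ?_
  split_ifs
  · rw [sum_mul]
  · simp

lemma sq_expand {d : ℕ} (R : ℕ) (s : Finset (Fin d → ℤ)) (D : (Fin d → ℤ) → (Fin d → ℤ))
    (H : (Fin d → ℤ) → ℂ) :
    ‖∑ n ∈ s, H n‖ ^ 2 ≤
      (2 * R + 1 : ℝ) ^ d * ∑ c ∈ s.image D, ‖∑ n ∈ s with D n = c, H n‖ ^ 2 +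
      ∑ n ∈ s, ∑ n' ∈ s, if near R (D n) (D n') then 0 else (H n * conj (H n')).re := by
  have h1 : ‖∑ n ∈ s, H n‖ ^ 2 = (∑ n ∈ s, ∑ n' ∈ s, H n * conj (H n')).re := by
    have h2 : ∑ n ∈ s, ∑ n' ∈ s, H n * conj (H n') = (∑ n ∈ s, H n) * conj (∑ n ∈ s, H n) := by
      rw [map_sum, sum_mul_sum]
    rw [h2, RCLike.mul_conj]
    norm_cast
  have h3 : ∑ n ∈ s, ∑ n' ∈ s, H n * conj (H n') =
      ∑ n ∈ s, ∑ n' ∈ s, (if near R (D n) (D n') then H n * conj (H n') else 0) +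
      ∑ n ∈ s, ∑ n' ∈ s, (if near R (D n) (D n') then 0 else H n * conj (H n')) := by
    rw [← sum_add_distrib]
    refine sum_congr rfl fun n _ => ?_
    rw [← sum_add_distrib]
    refine sum_congr rfl fun n' _ => ?_
    split_ifs <;> simp
  rw [h1, h3, Complex.add_re, fibre_sum]
  refine add_le_add (near_sum R _ fun c => ∑ n ∈ s with D n = c, H n) (le_of_eq ?_)
  rw [Complex.re_sum]
  refine sum_congr rfl fun n _ => ?_
  rw [Complex.re_sum]
  refine sum_congr rfl fun n' _ => ?_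
  split_ifs <;> simp

theorem specOR : SpecOR := by
  intro d k s a e D g chi R E he hg hchi hcs hchi0 hE hfar
  -- the functions
  have hint : ∀ F : EE k → ℝ, Continuous F → Integrable fun q => chi q * F q := by
    intro F hF
    exact (hchi.mul hF).integrable_of_hasCompactSupport (hcs.mul_right)
  set H : (Fin d → ℤ) → EE k → ℂ := fun n q => ((g (D n) q : ℝ) : ℂ) * (a n * e n q) with hH
  have hHc : ∀ n, Continuous (H n) := fun n =>
    (Complex.continuous_ofReal.comp (hg (D n))).mul (continuous_const.mul (he n))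
  have hG : ∀ c ∈ s.image D, ∀ q, ‖∑ n ∈ s with D n = c, H n q‖ ^ 2 =
      g c q ^ 2 * ‖∑ n ∈ s with D n = c, a n * e n q‖ ^ 2 := by
    intro c _ q
    have h1 : ∑ n ∈ s with D n = c, H n q =
        ((g c q : ℝ) : ℂ) * ∑ n ∈ s with D n = c, a n * e n q := by
      rw [mul_sum]
      refine sum_congr rfl fun n hn => ?_
      rw [hH]
      dsimp only
      rw [(mem_filter.1 hn).2]
    rw [h1, norm_mul, mul_pow, Complex.norm_real, Real.norm_eq_abs, sq_abs]
  have hFc : ∀ c, Continuous fun q => ∑ n ∈ s with D n = c, H n q := fun c =>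
    continuous_finsetSum _ fun n _ => hHc n
  -- pointwise bound
  have h1 : ∀ q, chi q * ‖∑ n ∈ s, H n q‖ ^ 2 ≤
      (2 * R + 1 : ℝ) ^ d * ∑ c ∈ s.image D, chi q * ‖∑ n ∈ s with D n = c, H n q‖ ^ 2 +
      ∑ n ∈ s, ∑ n' ∈ s, if near R (D n) (D n') then 0 else
        chi q * (H n q * conj (H n' q)).re := by
    intro q
    refine (mul_le_mul_of_nonneg_left (sq_expand R s D fun n => H n q) (hchi0 q)).trans
      (le_of_eq ?_)
    rw [mul_add]
    congr 1
    · rw [← mul_sum]; ring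
    · rw [mul_sum]
      refine sum_congr rfl fun n _ => ?_
      rw [mul_sum]
      refine sum_congr rfl fun n' _ => ?_
      split_ifs <;> simp
  have hI1 : ∀ c, Integrable fun q => chi q * ‖∑ n ∈ s with D n = c, H n q‖ ^ 2 := fun c =>
    hint _ ((hFc c).norm.pow 2)
  have hI2 : ∀ n n', Integrable fun q => if near R (D n) (D n') then (0 : ℝ) else
        chi q * (H n q * conj (H n' q)).re := by
    intro n n'
    by_cases h : near R (D n) (D n')
    · simp only [if_pos h]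
      exact integrable_zero _ _ _
    · simp only [if_neg h]
      exact hint _ (Complex.continuous_re.comp ((hHc n).mul (Complex.continuous_conj.comp (hHc n'))))
  have h2 : ∫ q, chi q * ‖∑ n ∈ s, H n q‖ ^ 2 ≤
      (2 * R + 1 : ℝ) ^ d * (∑ c ∈ s.image D,
        ∫ q, chi q * ‖∑ n ∈ s with D n = c, H n q‖ ^ 2) +
      ∑ n ∈ s, ∑ n' ∈ s, ∫ q, if near R (D n) (D n') then (0 : ℝ) else
        chi q * (H n q * conj (H n' q)).re := by
    refine (integral_mono (hint _ ((continuous_finsetSum _ fun n _ => hHc n).norm.pow 2)) ?_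
      h1).trans (le_of_eq ?_)
    · exact ((integrable_finsetSum _ fun c _ => hI1 c).const_mul _).add
        (integrable_finsetSum _ fun n _ => integrable_finsetSum _ fun n' _ => hI2 n n')
    · rw [integral_add ((integrable_finsetSum _ fun c _ => hI1 c).const_mul _)
        (integrable_finsetSum _ fun n _ => integrable_finsetSum _ fun n' _ => hI2 n n'),
        integral_const_mul, integral_finsetSum _ fun c _ => hI1 c,
        integral_finsetSum _ fun n _ => integrable_finsetSum _ fun n' _ => hI2 n n']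
      congr 1
      refine sum_congr rfl fun n _ => ?_
      exact integral_finsetSum s (fun n' _ => hI2 n n')
  -- far pairs
  have h3 : ∀ n ∈ s, ∀ n' ∈ s, ∫ q, (if near R (D n) (D n') then (0 : ℝ) else
        chi q * (H n q * conj (H n' q)).re) ≤ E * (‖a n‖ * ‖a n'‖) := by
    intro n hn n' hn'
    by_cases h : near R (D n) (D n')
    · simp only [if_pos h, integral_zero]
      positivity
    · simp only [if_neg h]
      have h4 : ∃ i, (R : ℤ) < |D n i - D n' i| := by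
        simpa only [near, not_forall, not_le] using h
      have h5 := hfar n hn n' hn' h4
      have h6 : ∀ q, chi q * (H n q * conj (H n' q)).re =
          ((a n * conj (a n')) * (((chi q * (g (D n) q * g (D n') q) : ℝ) : ℂ) *
            (e n q * (starRingEnd ℂ) (e n' q)))).re := by
        intro q
        rw [← Complex.re_ofReal_mul]
        congr 1
        rw [hH]
        dsimp only
        rw [map_mul, map_mul, Complex.conj_ofReal]
        push_cast
        ring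
      have hI3 : Integrable fun q => ((a n * conj (a n')) *
          (((chi q * (g (D n) q * g (D n') q) : ℝ) : ℂ) *
            (e n q * (starRingEnd ℂ) (e n' q)))) := by
        refine Continuous.integrable_of_hasCompactSupport ?_ ?_
        · have := hg (D n)
          have := hg (D n')
          have := he n
          have := he n'
          exact continuous_const.mul ((Complex.continuous_ofReal.comp
            (hchi.mul ((hg (D n)).mul (hg (D n'))))).mul
            ((he n).mul (Complex.continuous_conj.comp (he n'))))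
        · refine HasCompactSupport.intro hcs fun q hq => ?_
          have h7 : chi q = 0 := image_eq_zero_of_notMem_tsupport hq
          rw [h7]
          simp
      rw [integral_congr_ae (Filter.Eventually.of_forall h6)]
      have h8 : ∫ q, ((a n * conj (a n')) * (((chi q * (g (D n) q * g (D n') q) : ℝ) : ℂ) *
            (e n q * (starRingEnd ℂ) (e n' q)))).re =
          (∫ q, ((a n * conj (a n')) * (((chi q * (g (D n) q * g (D n') q) : ℝ) : ℂ) *
            (e n q * (starRingEnd ℂ) (e n' q))))).re := by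
        have := integral_re hI3
        simpa using this
      rw [h8]
      refine (Complex.re_le_norm _).trans ?_
      rw [integral_const_mul, norm_mul, norm_mul, RCLike.norm_conj, mul_comm]
      exact mul_le_mul_of_nonneg_right h5 (by positivity)
  have h4 : ∑ n ∈ s, ∑ n' ∈ s, (∫ q, if near R (D n) (D n') then (0 : ℝ) else
        chi q * (H n q * conj (H n' q)).re) ≤ E * s.card * ∑ n ∈ s, ‖a n‖ ^ 2 := by
    have h5 : ∑ n ∈ s, ∑ n' ∈ s, (∫ q, if near R (D n) (D n') then (0 : ℝ) else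
        chi q * (H n q * conj (H n' q)).re) ≤ E * (∑ n ∈ s, ‖a n‖) ^ 2 := by
      rw [sq, sum_mul_sum, mul_sum]
      refine sum_le_sum fun n hn => ?_
      rw [mul_sum]
      exact sum_le_sum fun n' hn' => h3 n hn n' hn'
    refine h5.trans ?_
    rw [mul_assoc]
    exact mul_le_mul_of_nonneg_left (sq_sum_le_card_mul_sum_sq) hE
  have h5 : ∑ c ∈ s.image D, ∫ q, chi q * ‖∑ n ∈ s with D n = c, H n q‖ ^ 2 =
      ∑ c ∈ s.image D, ∫ q, chi q *
        (g c q ^ 2 * ‖∑ n ∈ s with D n = c, a n * e n q‖ ^ 2) := by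
    refine sum_congr rfl fun c hc => ?_
    simp only [hG c hc]
  rw [← h5]
  exact h2.trans (add_le_add le_rfl h4)

end Pool.Agent.Lib.MP_a8dae7_an.CV.ORM
end

section
/-!
# MP_a8dae7_an, CV: module PSA. Clauses 1 and 2 of SpecPS.

Exponential decay of the majorant `WW` and of the kernel `Kf`, and the summability of `exp (-c ‖n‖)` over `ℤ^d`.
-/
set_option autoImplicit false

open MeasureTheory
open scoped ContDiff

namespace Pool.Agent.Lib.MP_a8dae7_an.CV

namespace PSAM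

/-! ## Sums over `ℤ^d` -/

theorem summable_nat {c : ℝ} (hc : 0 < c) : Summable fun x : ℕ => Real.exp (-(c * (x : ℝ))) := by
  have h1 : Summable fun x : ℕ => Real.exp (-c) ^ x :=
    summable_geometric_of_lt_one (Real.exp_pos _).le (by
      rw [Real.exp_lt_one_iff]; linarith)
  refine h1.congr fun x => ?_
  rw [← Real.exp_nat_mul]
  congr 1
  ring

theorem summable_int {c : ℝ} (hc : 0 < c) : Summable fun x : ℤ => Real.exp (-(c * |(x : ℝ)|)) := by
  apply Summable.of_nat_of_neg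
  · refine (summable_nat hc).congr (fun x => ?_)
    simp
  · refine (summable_nat hc).congr (fun x => ?_)
    simp

theorem summable_pi {f : ℤ → ℝ} (hf : Summable f) (h0 : ∀ x, 0 ≤ f x) (n : ℕ) :
    Summable fun x : Fin n → ℤ => ∏ i, f (x i) := by
  induction n with
  | zero => exact (hasSum_fintype _).summable
  | succ n ih =>
    have h1 := hf.mul_of_nonneg ih h0 (fun x => Finset.prod_nonneg fun i _ => h0 _)
    rw [← (Fin.consEquiv (fun _ => ℤ)).summable_iff]
    refine h1.congr (fun x => ?_)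
    simp [Fin.prod_univ_succ, Fin.consEquiv]

theorem coord_le {d : ℕ} (z : Fin d → ℤ) (i : Fin d) : |(z i : ℝ)| ≤ ‖zv z‖ := by
  have h := PiLp.norm_apply_le (zv z) i
  simpa [zv, Real.norm_eq_abs] using h

theorem sum_coord_le {d : ℕ} (z : Fin d → ℤ) : ∑ i, |(z i : ℝ)| ≤ (d + 1) * ‖zv z‖ := by
  calc ∑ i, |(z i : ℝ)| ≤ ∑ _i : Fin d, ‖zv z‖ := Finset.sum_le_sum fun i _ => coord_le z i
    _ = d * ‖zv z‖ := by simp
    _ ≤ (d + 1) * ‖zv z‖ := by nlinarith [norm_nonneg (zv z)]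

theorem summable_exp {d : ℕ} {c : ℝ} (hc : 0 < c) :
    Summable fun z : Fin d → ℤ => Real.exp (-(c * ‖zv z‖)) := by
  have hd : (0 : ℝ) < d + 1 := by positivity
  have h1 := summable_pi (summable_int (c := c / (d + 1)) (by positivity))
    (fun x => (Real.exp_pos _).le) d
  refine Summable.of_nonneg_of_le (fun x => (Real.exp_pos _).le) (fun z => ?_) h1
  rw [← Real.exp_sum]
  apply Real.exp_le_exp.mpr
  rw [Finset.sum_neg_distrib, ← Finset.mul_sum]
  have h2 := sum_coord_le z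
  have h3 : c / (d + 1) * ∑ i, |(z i : ℝ)| ≤ c / (d + 1) * ((d + 1) * ‖zv z‖) :=
    mul_le_mul_of_nonneg_left h2 (by positivity)
  have h4 : c / (d + 1) * ((d + 1) * ‖zv z‖) = c * ‖zv z‖ := by
    field_simp
  linarith

/-! ## Geometry -/

theorem pq_nonneg {d : ℕ} {om : EE d} (h : ‖om‖ = 1) (x : EE d) : 0 ≤ pq om x := by
  unfold pq
  have h1 : |inner ℝ om x| ≤ ‖x‖ := by
    have := abs_real_inner_le_norm om x
    rwa [h, one_mul] at this
  have h2 := sq_le_sq' (neg_le_of_abs_le h1) (le_of_abs_le h1)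
  linarith

theorem norm_le {d : ℕ} {om : EE d} (h : ‖om‖ = 1) (x : EE d) :
    ‖x‖ ≤ Real.sqrt (pq om x) + |inner ℝ om x| := by
  have h1 := pq_nonneg h x
  have h2 := Real.sq_sqrt h1
  have h3 := Real.sqrt_nonneg (pq om x)
  have h4 := abs_nonneg (inner ℝ om x : ℝ)
  have h5 := sq_abs (inner ℝ om x : ℝ)
  refine abs_le_of_sq_le_sq' ?_ (by positivity) |>.2
  have h6 : ‖x‖ ^ 2 = pq om x + inner ℝ om x ^ 2 := by unfold pq; ring
  nlinarith [mul_nonneg h3 h4]

/-! ## Decay of the majorant -/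

theorem WW_exp {d : ℕ} {om : EE d} {lam r : ℝ} (h : ‖om‖ = 1) (hl : 0 < lam) (hr : 0 < r) (xi : EE d) :
    min 1 lam / r ^ 2 * ‖xi‖ - (1 + lam ^ 2) / r ^ 2 ≤
      pq om xi / r ^ 2 + (lam / r) ^ 2 * (inner ℝ om xi - lam + pq om xi / (2 * lam)) ^ 2 := by
  have hp := pq_nonneg h xi
  have hn := norm_le h xi
  set p := pq om xi with hpdef
  set s : ℝ := inner ℝ om xi with hs
  set q := Real.sqrt p with hq
  have hq0 : 0 ≤ q := Real.sqrt_nonneg p
  have hq2 : q ^ 2 = p := Real.sq_sqrt hp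
  set X := s - lam + p / (2 * lam) with hX
  have hsX : |s| ≤ |X| + lam + p / (2 * lam) := by
    have e : s = X + lam - p / (2 * lam) := by rw [hX]; ring
    have h1 : |s| ≤ |X| + |lam| + |p / (2 * lam)| := by
      calc |s| = |X + lam - p / (2 * lam)| := by rw [← e]
        _ ≤ |X + lam| + |p / (2 * lam)| := abs_sub _ _
        _ ≤ |X| + |lam| + |p / (2 * lam)| := by linarith [abs_add_le X lam]
    rwa [abs_of_pos hl, abs_of_nonneg (by positivity : 0 ≤ p / (2 * lam))] at h1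
  have hX2 : |X| ^ 2 = X ^ 2 := sq_abs X
  have hX0 := abs_nonneg X
  have hs0 := abs_nonneg s
  rw [← sub_nonneg]
  have key : 0 ≤ (p + lam ^ 2 * X ^ 2) - (min 1 lam * ‖xi‖ - (1 + lam ^ 2)) := by
    have h1 : lam * |X| ≤ lam ^ 2 * X ^ 2 + 1 / 4 := by
      nlinarith [sq_nonneg (lam * |X| - 1 / 2)]
    have h2 : lam * |s| ≤ lam * |X| + lam ^ 2 + p / 2 := by
      have := mul_le_mul_of_nonneg_left hsX hl.le
      have e : lam * (|X| + lam + p / (2 * lam)) = lam * |X| + lam ^ 2 + p / 2 := by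
        field_simp
      linarith
    have h3 : q ≤ p / 2 + 1 / 2 := by nlinarith [sq_nonneg (q - 1)]
    have h4 : min 1 lam * ‖xi‖ ≤ q + lam * |s| := by
      have hm0 : 0 ≤ min 1 lam := le_min zero_le_one hl.le
      calc min 1 lam * ‖xi‖ ≤ min 1 lam * (q + |s|) := mul_le_mul_of_nonneg_left hn hm0
        _ = min 1 lam * q + min 1 lam * |s| := by ring
        _ ≤ 1 * q + lam * |s| := add_le_add (mul_le_mul_of_nonneg_right (min_le_left _ _) hq0)
            (mul_le_mul_of_nonneg_right (min_le_right _ _) hs0)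
        _ = q + lam * |s| := by ring
    linarith
  have e : p / r ^ 2 + (lam / r) ^ 2 * X ^ 2 - (min 1 lam / r ^ 2 * ‖xi‖ - (1 + lam ^ 2) / r ^ 2) =
      ((p + lam ^ 2 * X ^ 2) - (min 1 lam * ‖xi‖ - (1 + lam ^ 2))) / r ^ 2 := by
    field_simp
  rw [e]
  positivity

/-- exponential decay of the majorant -/
theorem WW_le {d : ℕ} {om : EE d} {lam r : ℝ} (h : ‖om‖ = 1) (hl : 0 < lam) (hr : 0 < r) (xi : EE d) :
    WW om lam r xi ≤ Real.exp ((1 + lam ^ 2) / r ^ 2) * Real.exp (-(min 1 lam / r ^ 2 * ‖xi‖)) := by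
  rw [← Real.exp_add]
  apply Real.exp_le_exp.mpr
  have := WW_exp h hl hr xi
  linarith

theorem WW_pos {d : ℕ} (om : EE d) (lam r : ℝ) (xi : EE d) : 0 < WW om lam r xi := Real.exp_pos _

/-- clause 1 of SpecPS -/
theorem summable_WW {d : ℕ} {om : EE d} {lam r : ℝ} (h : ‖om‖ = 1) (hl : 0 < lam) (hr : 0 < r) :
    Summable (fun n : Fin d → ℤ => WW om lam r (zv n)) := by
  have hc : 0 < min 1 lam / r ^ 2 := div_pos (lt_min one_pos hl) (by positivity)
  exact Summable.of_nonneg_of_le (fun n => (WW_pos om lam r _).le) (fun n => WW_le h hl hr _)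
    ((summable_exp hc).mul_left _)

/-- the shifts of an exponential are locally uniformly summable over `a • ℤ^d`, `1 ≤ a` -/
theorem exp_shift {d : ℕ} {c R a : ℝ} (hc : 0 < c) (ha : 1 ≤ a) (z : Fin d → ℤ) {x : EE d} (hx : ‖x‖ ≤ R) :
    Real.exp (-(c * ‖x + a • zv z‖)) ≤ Real.exp (c * R) * Real.exp (-(c * ‖zv z‖)) := by
  rw [← Real.exp_add]
  apply Real.exp_le_exp.mpr
  have h1 : ‖a • zv z‖ ≤ ‖x + a • zv z‖ + ‖x‖ := by
    have := norm_sub_le (x + a • zv z) x
    rwa [add_sub_cancel_left] at this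
  have h2 : ‖zv z‖ ≤ ‖a • zv z‖ := by
    rw [norm_smul, Real.norm_eq_abs, abs_of_pos (by linarith)]
    nlinarith [norm_nonneg (zv z)]
  have h3 : c * ‖zv z‖ ≤ c * (‖x + a • zv z‖ + R) := mul_le_mul_of_nonneg_left (by linarith) hc.le
  linarith

/-- locally uniform bound of the integer translates of the majorant (for Poisson) -/
theorem WW_loc {d : ℕ} {om : EE d} {lam r : ℝ} (h : ‖om‖ = 1) (hl : 0 < lam) (hr : 0 < r) (R : ℝ) :
    ∃ u : (Fin d → ℤ) → ℝ, Summable u ∧ ∀ (z : Fin d → ℤ) (x : EE d), ‖x‖ ≤ R →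
      WW om lam r (x + zv z) ≤ u z := by
  have hc : 0 < min 1 lam / r ^ 2 := div_pos (lt_min one_pos hl) (by positivity)
  refine ⟨fun z => Real.exp ((1 + lam ^ 2) / r ^ 2) *
    (Real.exp (min 1 lam / r ^ 2 * R) * Real.exp (-(min 1 lam / r ^ 2 * ‖zv z‖))),
    ((summable_exp hc).mul_left _).mul_left _, ?_⟩
  intro z x hx
  refine (WW_le h hl hr _).trans (mul_le_mul_of_nonneg_left ?_ (Real.exp_pos _).le)
  have := exp_shift hc le_rfl z hx
  rwa [one_smul] at this

/-! ## Decay of the kernel -/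

theorem MM_ge {d : ℕ} {om : EE d} {lam r : ℝ} (h : ‖om‖ = 1) (hl : 0 < lam) (hr : 0 < r) (x : EE d) :
    min 1 (r / lam) / 2 * ‖x‖ - (1 + 1 / r ^ 2) / 2 ≤ MM om lam r x := by
  have hp := pq_nonneg h x
  have hn := norm_le h x
  unfold MM
  set p := pq om x with hpdef
  set t : ℝ := inner ℝ om x with ht
  set q := Real.sqrt p with hq
  have hq0 : 0 ≤ q := Real.sqrt_nonneg p
  have hq2 : q ^ 2 = p := Real.sq_sqrt hp
  have ht0 := abs_nonneg t
  have hrl : 0 < r / lam := by positivity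
  set τ := |t| * (r / lam) with hτ
  have hτ0 : 0 ≤ τ := by positivity
  have hτ2 : τ ^ 2 = t ^ 2 * r ^ 2 / lam ^ 2 := by
    rw [hτ, mul_pow, sq_abs, div_pow]; ring
  have e1 : t ^ 2 * r ^ 2 / (4 * lam ^ 2) = τ ^ 2 / 4 := by
    rw [hτ2]; field_simp
  have e2 : (t * r ^ 2 / lam) ^ 2 = τ ^ 2 * r ^ 2 := by
    rw [hτ2]; field_simp
  rw [e1, e2, ← hq2]
  set D := 4 + τ ^ 2 * r ^ 2 with hD
  have hD0 : 0 < D := by positivity
  have h1 : q - 1 / r ^ 2 ≤ τ ^ 2 / 4 + q ^ 2 * r ^ 2 / D := by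
    have e3 : τ ^ 2 / 4 + q ^ 2 * r ^ 2 / D - (q - 1 / r ^ 2) = (D / (2 * r) - q * r) ^ 2 / D := by
      rw [hD]
      field_simp
      ring
    have e4 : 0 ≤ (D / (2 * r) - q * r) ^ 2 / D := by positivity
    linarith
  have h2 : τ - 1 ≤ τ ^ 2 / 4 + q ^ 2 * r ^ 2 / D := by
    have : 0 ≤ q ^ 2 * r ^ 2 / D := by positivity
    nlinarith [sq_nonneg (τ - 2)]
  have hm0 : 0 ≤ min 1 (r / lam) := le_min zero_le_one hrl.le
  have h4 : min 1 (r / lam) * ‖x‖ ≤ q + τ := by
    calc min 1 (r / lam) * ‖x‖ ≤ min 1 (r / lam) * (q + |t|) := mul_le_mul_of_nonneg_left hn hm0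
      _ = min 1 (r / lam) * q + min 1 (r / lam) * |t| := by ring
      _ ≤ 1 * q + (r / lam) * |t| := add_le_add (mul_le_mul_of_nonneg_right (min_le_left _ _) hq0)
          (mul_le_mul_of_nonneg_right (min_le_right _ _) ht0)
      _ = q + τ := by rw [hτ]; ring
  linarith

/-- exponential decay of the kernel, from the first clause of SpecKN -/
theorem Kf_le {k : ℕ} {om : EE (k + 1)} {lam r C : ℝ} (hC : 0 < C) (h : ‖om‖ = 1) (hl : 0 < lam) (hr : 0 < r)
    (x : EE (k + 1)) (hK : ‖Kf om lam r x‖ ≤ C * (r / lam) * r ^ k * Real.exp (-MM om lam r x)) :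
    ‖Kf om lam r x‖ ≤ C * (r / lam) * r ^ k * Real.exp ((1 + 1 / r ^ 2) / 2) *
      Real.exp (-(min 1 (r / lam) / 2 * ‖x‖)) := by
  refine hK.trans ?_
  rw [mul_assoc (C * (r / lam) * r ^ k), ← Real.exp_add]
  refine mul_le_mul_of_nonneg_left (Real.exp_le_exp.mpr ?_) (by positivity)
  have := MM_ge h hl hr x
  linarith

/-- clause 2 of SpecPS -/
theorem Kf_loc (hKN : SpecKN) {k : ℕ} {om : EE (k + 1)} {lam r : ℝ} (h : ‖om‖ = 1) (hl : 0 < lam) (hr : 0 < r)
    (R : ℝ) : ∃ u : (Fin (k + 1) → ℤ) → ℝ, Summable u ∧ ∀ (z : Fin (k + 1) → ℤ) (x : EE (k + 1)), ‖x‖ ≤ R →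
    ‖Kf om lam r (x + (2 * Real.pi) • zv z)‖ ≤ u z := by
  obtain ⟨C, hC, hK⟩ := hKN k
  have hc : 0 < min 1 (r / lam) / 2 := by
    have : 0 < min 1 (r / lam) := lt_min one_pos (by positivity)
    positivity
  refine ⟨fun z => C * (r / lam) * r ^ k * Real.exp ((1 + 1 / r ^ 2) / 2) *
    (Real.exp (min 1 (r / lam) / 2 * R) * Real.exp (-(min 1 (r / lam) / 2 * ‖zv z‖))),
    ((summable_exp hc).mul_left _).mul_left _, ?_⟩
  intro z x hx
  refine (Kf_le hC h hl hr _ (hK om lam r _ h hl hr).1).trans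
    (mul_le_mul_of_nonneg_left ?_ (by positivity))
  exact exp_shift hc (by linarith [Real.pi_gt_three]) z hx

end PSAM

end Pool.Agent.Lib.MP_a8dae7_an.CV
end

section
/-!
# Integration over slices (SL)
-/
set_option autoImplicit false

open MeasureTheory
open scoped ContDiff

namespace Pool.Agent.Lib.MP_a8dae7_an.CV.SLM

lemma int_bdd {α G : Type*} [MeasurableSpace α] [NormedAddCommGroup G] {μ : Measure α} {g : α → G}
    {S : Set α} (hμ : μ S ≠ ⊤) (hg : AEStronglyMeasurable g μ) (C : ℝ)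
    (hb : ∀ x, ‖g x‖ ≤ C) (h0 : ∀ x, x ∉ S → g x = 0) : Integrable g μ := by
  have h1 : IntegrableOn g S μ := Measure.integrableOn_of_bounded hμ hg (M := C) (ae_of_all _ hb)
  exact h1.integrable_of_forall_notMem_eq_zero h0

/-- Cauchy-Schwarz on an interval. -/
lemma cs_interval {n : ℝ → ℝ} {tau sg0 : ℝ} (htau : 0 ≤ tau) (hn : Integrable n)
    (hn2 : Integrable (fun s => n s ^ 2)) (h0 : ∀ s, ¬ |s - sg0| ≤ tau → n s = 0) :
    (∫ s, n s) ^ 2 ≤ 2 * tau * ∫ s, n s ^ 2 := by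
  set I : Set ℝ := Set.Icc (sg0 - tau) (sg0 + tau) with hI
  have hmem : ∀ s, s ∉ I → n s = 0 := by
    intro s hs
    refine h0 s fun hc => hs ?_
    rw [abs_le] at hc
    exact ⟨by linarith [hc.1], by linarith [hc.2]⟩
  have hvol : volume.real I = 2 * tau := by
    rw [hI, Real.volume_real_Icc_of_le (by linarith)]
    ring
  have e1 : ∫ s in I, n s = ∫ s, n s := setIntegral_eq_integral_of_forall_compl_eq_zero hmem
  have e2 : ∫ s in I, n s ^ 2 = ∫ s, n s ^ 2 :=
    setIntegral_eq_integral_of_forall_compl_eq_zero fun s hs => by rw [hmem s hs]; ring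
  rcases htau.eq_or_lt with h | h
  · have hz : volume I = 0 := by
      rw [hI, ← h]
      simp
    rw [← e1, Measure.restrict_eq_zero.2 hz]
    simp [← h]
  · set A := ∫ s, n s with hA
    have hconst : IntegrableOn (fun _ : ℝ => (1 : ℝ)) I := by
      rw [integrableOn_const_iff]
      right
      rw [hI]
      exact measure_Icc_lt_top
    have hpos : 0 ≤ ∫ s in I, (n s - A / (2 * tau)) ^ 2 :=
      integral_nonneg fun s => sq_nonneg _
    have hexp : ∫ s in I, (n s - A / (2 * tau)) ^ 2 =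
        (∫ s in I, n s ^ 2) - 2 * (A / (2 * tau)) * (∫ s in I, n s) +
          (A / (2 * tau)) ^ 2 * (2 * tau) := by
      have : ∀ s, (n s - A / (2 * tau)) ^ 2 =
          n s ^ 2 - 2 * (A / (2 * tau)) * n s + (A / (2 * tau)) ^ 2 * 1 := fun s => by ring
      simp_rw [this]
      rw [integral_add, integral_sub, integral_const_mul, integral_const_mul]
      · congr 2
        rw [integral_const, measureReal_restrict_apply_univ, hvol]
        simp
      · exact hn2.integrableOn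
      · exact (hn.integrableOn).const_mul _
      · exact (hn2.integrableOn).sub ((hn.integrableOn).const_mul _)
      · exact hconst.const_mul _
    rw [hexp, e1, e2] at hpos
    have h2t : (0 : ℝ) < 2 * tau := by linarith
    have : (A / (2 * tau)) ^ 2 * (2 * tau) = A ^ 2 / (2 * tau) := by
      field_simp
    have h3 : 2 * (A / (2 * tau)) * A = 2 * (A ^ 2 / (2 * tau)) := by ring
    rw [this, h3] at hpos
    have h4 : A ^ 2 / (2 * tau) ≤ ∫ s, n s ^ 2 := by linarith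
    rw [div_le_iff₀ h2t] at h4
    linarith

theorem specSL : SpecSL := by
  intro m e L K R tau sg0 B he heL hemb hmp hK hR htau hB hOB f hf
  -- notation
  set Φ : ℝ × EE m → EE (m + 1) := fun p => p.1 • e + L p.2 with hΦ
  set D : Set (EE (m + 1)) := {q | ‖q‖ ≤ R ∧ |inner ℝ e q - sg0| ≤ tau} with hD
  have hΦc : Continuous Φ := by
    rw [hΦ]
    exact (continuous_fst.smul continuous_const).add (L.continuous.comp continuous_snd)
  have hinner : ∀ p : ℝ × EE m, inner ℝ e (Φ p) = p.1 := by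
    intro p
    simp only [hΦ]
    rw [inner_add_right, heL, inner_smul_right, real_inner_self_eq_norm_sq, he]
    ring
  have hnorm : ∀ p : ℝ × EE m, ‖Φ p‖ ^ 2 = p.1 ^ 2 + ‖p.2‖ ^ 2 := by
    intro p
    simp only [hΦ]
    rw [norm_add_sq_real, inner_smul_left, heL, norm_smul, he, L.norm_map]
    simp
  have hDm : MeasurableSet D := by
    have h0 : Continuous fun q : EE (m + 1) => |inner ℝ e q - sg0| :=
      ((continuous_const.inner continuous_id).sub continuous_const).abs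
    have h1 : IsClosed {q : EE (m + 1) | ‖q‖ ≤ R} := isClosed_le continuous_norm continuous_const
    have h2 : IsClosed {q : EE (m + 1) | |inner ℝ e q - sg0| ≤ tau} :=
      isClosed_le h0 continuous_const
    exact (h1.inter h2).measurableSet
  set P : Set (ℝ × EE m) := Φ ⁻¹' D with hP
  have hPm : MeasurableSet P := hΦc.measurable hDm
  have hPmem : ∀ p, p ∈ P → |p.1| ≤ R ∧ ‖p.2‖ ≤ R ∧ |p.1 - sg0| ≤ tau := by
    intro p hp
    have hp' : ‖Φ p‖ ≤ R ∧ |inner ℝ e (Φ p) - sg0| ≤ tau := hp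
    have hs : ‖Φ p‖ ^ 2 ≤ R ^ 2 := by
      have := norm_nonneg (Φ p)
      nlinarith [hp'.1]
    rw [hnorm] at hs
    refine ⟨?_, ?_, ?_⟩
    · refine abs_le_of_sq_le_sq ?_ hR
      nlinarith [sq_nonneg ‖p.2‖]
    · refine (abs_le_of_sq_le_sq' (a := ‖p.2‖) ?_ hR).2
      nlinarith [sq_nonneg p.1]
    · rw [← hinner p]
      exact hp'.2
  -- the cut off function
  set F : ℝ × EE m → ℂ := P.indicator (fun p => f (Φ p)) with hF
  have hFm : Measurable F := (hf.comp hΦc).measurable.indicator hPm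
  have hF0 : ∀ p, p ∉ P → F p = 0 := fun p hp => Set.indicator_of_notMem hp _
  -- compact box
  set Q : Set (ℝ × EE m) := Set.Icc (-R) R ×ˢ Metric.closedBall (0 : EE m) R with hQ
  have hQc : IsCompact Q := isCompact_Icc.prod (isCompact_closedBall _ _)
  have hPQ : P ⊆ Q := by
    intro p hp
    obtain ⟨h1, h2, -⟩ := hPmem p hp
    exact ⟨abs_le.1 h1, by simpa using h2⟩
  obtain ⟨CF, hCF⟩ := hQc.exists_bound_of_continuousOn (f := fun p => f (Φ p))
    (hf.comp hΦc).continuousOn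
  have hFb : ∀ p, ‖F p‖ ≤ |CF| := by
    intro p
    by_cases hp : p ∈ P
    · rw [hF, Set.indicator_of_mem hp]
      exact (hCF p (hPQ hp)).trans (le_abs_self _)
    · rw [hF0 p hp, norm_zero]
      exact abs_nonneg _
  have hKc : Continuous (fun z : (ℝ × EE m) × (ℝ × EE m) => K (Φ z.1) (Φ z.2)) :=
    hK.comp ((hΦc.comp continuous_fst).prodMk (hΦc.comp continuous_snd))
  obtain ⟨CK, hCK⟩ := (hQc.prod hQc).exists_bound_of_continuousOn
    (f := fun z : (ℝ × EE m) × (ℝ × EE m) => K (Φ z.1) (Φ z.2)) hKc.continuousOn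
  -- the integrand
  set H : (ℝ × EE m) → (ℝ × EE m) → ℂ :=
    fun p p' => K (Φ p) (Φ p') * ((starRingEnd ℂ) (F p) * F p') with hH
  have hHm : Measurable (fun z : (ℝ × EE m) × (ℝ × EE m) => H z.1 z.2) := by
    refine hKc.measurable.mul (Measurable.mul ?_ (hFm.comp measurable_snd))
    exact Complex.continuous_conj.measurable.comp (hFm.comp measurable_fst)
  have hHb : ∀ p p', ‖H p p'‖ ≤ |CK| * (|CF| * |CF|) := by
    intro p p'
    by_cases hp : p ∈ P
    · by_cases hp' : p' ∈ P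
      · simp only [hH, norm_mul, RCLike.norm_conj]
        have h1 : ‖K (Φ p) (Φ p')‖ ≤ |CK| :=
          (hCK (p, p') ⟨hPQ hp, hPQ hp'⟩).trans (le_abs_self _)
        gcongr
        · exact hFb p
        · exact hFb p'
      · simp only [hH, hF0 p' hp', mul_zero, norm_zero]
        positivity
    · simp only [hH, hF0 p hp, map_zero, zero_mul, mul_zero, norm_zero]
      positivity
  have hH0 : ∀ p p', ¬ (p ∈ Q ∧ p' ∈ Q) → H p p' = 0 := by
    intro p p' h
    by_cases hp : p ∈ P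
    · have hp' : p' ∉ P := fun hc => h ⟨hPQ hp, hPQ hc⟩
      simp only [hH, hF0 p' hp', mul_zero]
    · simp only [hH, hF0 p hp, map_zero, zero_mul, mul_zero]
  have hQfin : (volume.prod volume : Measure (ℝ × EE m)) Q ≠ ⊤ := hQc.measure_lt_top.ne
  -- Step 1
  have step1 : ∫ q in D, ∫ q' in D, K q q' * ((starRingEnd ℂ) (f q) * f q') =
      ∫ p, ∫ p', H p p' ∂(volume.prod volume) ∂(volume.prod volume) := by
    have inner1 : ∀ q, ∫ q' in D, K q q' * ((starRingEnd ℂ) (f q) * f q') =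
        ∫ p', K q (Φ p') * ((starRingEnd ℂ) (f q) * F p') ∂(volume.prod volume) := by
      intro q
      rw [← hmp.setIntegral_preimage_emb hemb, ← integral_indicator hPm]
      refine integral_congr_ae (ae_of_all _ fun p' => ?_)
      by_cases hp' : p' ∈ P
      · simp only [hF]
        rw [Set.indicator_of_mem hp', Set.indicator_of_mem hp']
      · simp only [hF0 p' hp', mul_zero]
        exact Set.indicator_of_notMem hp' _
    simp_rw [inner1]
    rw [← hmp.setIntegral_preimage_emb hemb, ← integral_indicator hPm]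
    refine integral_congr_ae (ae_of_all _ fun p => ?_)
    by_cases hp : p ∈ P
    · rw [Set.indicator_of_mem hp]
      have : F p = f (Φ p) := by rw [hF, Set.indicator_of_mem hp]
      simp only [hH, this]
    · rw [Set.indicator_of_notMem hp]
      simp only [hH, hF0 p hp, map_zero, zero_mul, mul_zero, integral_zero]
  -- integrability
  have hHint : Integrable (fun z : (ℝ × EE m) × (ℝ × EE m) => H z.1 z.2)
      ((volume.prod volume).prod (volume.prod volume)) := by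
    refine int_bdd (S := Q ×ˢ Q) ?_ hHm.aestronglyMeasurable _ (fun z => hHb z.1 z.2) ?_
    · rw [Measure.prod_prod]
      exact ENNReal.mul_ne_top hQfin hQfin
    · intro z hz
      exact hH0 _ _ fun h => hz h
  have hHp : ∀ p, Integrable (fun p' => H p p') (volume.prod volume) := by
    intro p
    refine int_bdd (S := Q) hQfin (hHm.comp (measurable_const.prodMk measurable_id)).aestronglyMeasurable
      _ (fun p' => hHb p p') ?_
    intro p' hp'
    exact hH0 _ _ fun h => hp' h.2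
  have hball : (volume : Measure (EE m)) (Metric.closedBall (0 : EE m) R) ≠ ⊤ :=
    (isCompact_closedBall _ _).measure_lt_top.ne
  have hIcc : (volume : Measure ℝ) (Set.Icc (-R) R) ≠ ⊤ := isCompact_Icc.measure_lt_top.ne
  have step2 : ∫ p, ∫ p', H p p' ∂(volume.prod volume) ∂(volume.prod volume) =
      ∫ sg, ∫ sg', ∫ b, ∫ b', H (sg, b) (sg', b') := by
    rw [integral_prod _ hHint.integral_prod_left]
    refine integral_congr_ae (ae_of_all _ fun sg => ?_)
    have h3 : ∀ b, ∫ p', H (sg, b) p' ∂(volume.prod volume) =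
        ∫ sg', ∫ b', H (sg, b) (sg', b') := fun b => integral_prod _ (hHp (sg, b))
    simp_rw [h3]
    refine integral_integral_swap ?_
    -- integrability of `(b, sg') ↦ ∫ b', H`
    have hm3 : Measurable (fun z : (EE m × ℝ) × EE m => H (sg, z.1.1) (z.1.2, z.2)) := by
      refine hHm.comp (Measurable.prodMk ?_ ?_)
      · exact measurable_const.prodMk (measurable_fst.comp measurable_fst)
      · exact (measurable_snd.comp measurable_fst).prodMk measurable_snd
    have hi3 : Integrable (fun z : (EE m × ℝ) × EE m => H (sg, z.1.1) (z.1.2, z.2))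
        ((volume.prod volume).prod volume) := by
      refine int_bdd (S := (Metric.closedBall (0 : EE m) R ×ˢ Set.Icc (-R) R) ×ˢ
        Metric.closedBall (0 : EE m) R) ?_ hm3.aestronglyMeasurable _ (fun z => hHb _ _) ?_
      · rw [Measure.prod_prod, Measure.prod_prod]
        exact ENNReal.mul_ne_top (ENNReal.mul_ne_top hball hIcc) hball
      · intro z hz
        refine hH0 _ _ fun h => hz ?_
        exact ⟨⟨h.1.2, h.2.1⟩, h.2.2⟩
    exact hi3.integral_prod_left
  rw [step1, step2]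
  -- the slices
  set n : ℝ → ℝ := fun sg => Real.sqrt (∫ b, ‖F (sg, b)‖ ^ 2) with hn
  have hn0 : ∀ sg, 0 ≤ n sg := fun sg => Real.sqrt_nonneg _
  have hF2int : Integrable (fun p : ℝ × EE m => ‖F p‖ ^ 2) (volume.prod volume) := by
    refine int_bdd (S := Q) hQfin (hFm.norm.pow_const 2).aestronglyMeasurable (|CF| ^ 2) ?_ ?_
    · intro p
      rw [Real.norm_of_nonneg (by positivity)]
      have := hFb p
      gcongr
    · intro p hp
      rw [hF0 p fun hc => hp (hPQ hc)]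
      simp
  have hnsq : ∀ sg, n sg ^ 2 = ∫ b, ‖F (sg, b)‖ ^ 2 := fun sg =>
    Real.sq_sqrt (integral_nonneg fun b => by positivity)
  have hn2 : Integrable (fun sg => n sg ^ 2) := by
    simp_rw [hnsq]
    exact hF2int.integral_prod_left
  have hFz : ∀ sg, ¬ (|sg - sg0| ≤ tau ∧ |sg| ≤ R) → ∀ b, F (sg, b) = 0 := by
    intro sg h b
    refine hF0 _ fun hc => h ?_
    obtain ⟨h1, -, h3⟩ := hPmem _ hc
    exact ⟨h3, h1⟩
  have hnz : ∀ sg, ¬ (|sg - sg0| ≤ tau ∧ |sg| ≤ R) → n sg = 0 := by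
    intro sg h
    simp only [hn]
    simp_rw [hFz sg h]
    simp
  have hnm : AEStronglyMeasurable n := by
    have h1 : AEStronglyMeasurable (fun sg => ∫ b, ‖F (sg, b)‖ ^ 2) :=
      hF2int.integral_prod_left.aestronglyMeasurable
    exact Real.continuous_sqrt.comp_aestronglyMeasurable h1
  have hnint : Integrable n := by
    refine int_bdd (S := Set.Icc (-R) R) hIcc hnm
      (Real.sqrt (|CF| ^ 2 * (volume : Measure (EE m)).real (Metric.closedBall 0 R))) ?_ ?_
    · intro sg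
      rw [Real.norm_of_nonneg (hn0 sg)]
      refine Real.sqrt_le_sqrt ?_
      have h1 : ∫ b, ‖F (sg, b)‖ ^ 2 = ∫ b in Metric.closedBall (0 : EE m) R, ‖F (sg, b)‖ ^ 2 := by
        symm
        refine setIntegral_eq_integral_of_forall_compl_eq_zero fun b hb => ?_
        rw [hF0 (sg, b) fun hc => hb (by simpa using (hPmem _ hc).2.1)]
        simp
      rw [h1]
      have h2 := norm_setIntegral_le_of_norm_le_const (μ := (volume : Measure (EE m)))
        (s := Metric.closedBall (0 : EE m) R) (f := fun b => ‖F (sg, b)‖ ^ 2) (C := |CF| ^ 2)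
        (lt_top_iff_ne_top.2 hball) (fun b _ => by
          rw [Real.norm_of_nonneg (by positivity)]
          have := hFb (sg, b)
          gcongr)
      exact (le_abs_self _).trans h2
    · intro sg hsg
      refine hnz sg fun hc => hsg (abs_le.1 hc.2)
  have hpair : ∀ sg sg', ‖∫ b, ∫ b', H (sg, b) (sg', b')‖ ≤ B * (n sg * n sg') := by
    intro sg sg'
    by_cases h : |sg - sg0| ≤ tau ∧ |sg| ≤ R
    · by_cases h' : |sg' - sg0| ≤ tau ∧ |sg'| ≤ R
      · have := hOB sg sg' h.1 h'.1 h.2 h'.2 (fun b => (starRingEnd ℂ) (F (sg, b)))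
          (fun b => F (sg', b))
          (Complex.continuous_conj.measurable.comp (hFm.comp (measurable_const.prodMk measurable_id)))
          (hFm.comp (measurable_const.prodMk measurable_id))
          ⟨|CF|, fun b => by rw [RCLike.norm_conj]; exact hFb _⟩ ⟨|CF|, fun b => hFb _⟩
          (fun b hb => by
            rw [hF0 (sg, b) fun hc => absurd (hPmem _ hc).2.1 (not_le.2 hb)]
            simp)
          (fun b hb => hF0 (sg', b) fun hc => absurd (hPmem _ hc).2.1 (not_le.2 hb))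
        simp only [RCLike.norm_conj] at this
        exact this
      · have h0 : ∀ b b', H (sg, b) (sg', b') = 0 := by
          intro b b'
          simp only [hH, hFz sg' h' b', mul_zero]
        simp only [h0, integral_zero, norm_zero]
        exact mul_nonneg hB (mul_nonneg (hn0 _) (hn0 _))
    · have h0 : ∀ b b', H (sg, b) (sg', b') = 0 := by
        intro b b'
        simp only [hH, hFz sg h b, map_zero, zero_mul, mul_zero]
      simp only [h0, integral_zero, norm_zero]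
      exact mul_nonneg hB (mul_nonneg (hn0 _) (hn0 _))
  have h1 : ∀ sg, ‖∫ sg', ∫ b, ∫ b', H (sg, b) (sg', b')‖ ≤ B * (n sg * ∫ s, n s) := by
    intro sg
    refine (norm_integral_le_of_norm_le (g := fun sg' => B * (n sg * n sg'))
      ((hnint.const_mul _).const_mul _) (ae_of_all _ fun sg' => hpair sg sg')).trans (le_of_eq ?_)
    rw [integral_const_mul, integral_const_mul]
  have h2 : ‖∫ sg, ∫ sg', ∫ b, ∫ b', H (sg, b) (sg', b')‖ ≤ B * (∫ s, n s) ^ 2 := by
    refine (norm_integral_le_of_norm_le (g := fun sg => B * (n sg * ∫ s, n s))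
      ((hnint.mul_const _).const_mul _) (ae_of_all _ fun sg => h1 sg)).trans (le_of_eq ?_)
    rw [integral_const_mul, integral_mul_const]
    ring
  have h3 : (∫ s, n s) ^ 2 ≤ 2 * tau * ∫ s, n s ^ 2 :=
    cs_interval htau hnint hn2 fun s hs => hnz s fun hc => hs hc.1
  have h4 : ∫ s, n s ^ 2 = ∫ q in D, ‖f q‖ ^ 2 := by
    simp_rw [hnsq]
    rw [← integral_prod _ hF2int, ← hmp.setIntegral_preimage_emb hemb (fun q => ‖f q‖ ^ 2),
      ← integral_indicator hPm]
    refine integral_congr_ae (ae_of_all _ fun p => ?_)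
    by_cases hp : p ∈ P
    · change ‖F p‖ ^ 2 = P.indicator _ p
      rw [Set.indicator_of_mem hp, hF, Set.indicator_of_mem hp]
    · change ‖F p‖ ^ 2 = P.indicator _ p
      rw [Set.indicator_of_notMem hp, hF0 p hp]
      simp
  calc ‖∫ sg, ∫ sg', ∫ b, ∫ b', H (sg, b) (sg', b')‖ ≤ B * (∫ s, n s) ^ 2 := h2
    _ ≤ B * (2 * tau * ∫ s, n s ^ 2) := mul_le_mul_of_nonneg_left h3 hB
    _ = 2 * tau * B * ∫ q in D, ‖f q‖ ^ 2 := by rw [h4]; ring

end Pool.Agent.Lib.MP_a8dae7_an.CV.SLM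
end

section
/-!
# MP_a8dae7_an, CV: TR, trivial bounds
-/
set_option autoImplicit false

open MeasureTheory
open scoped ContDiff

namespace Pool.Agent.Lib.MP_a8dae7_an.CV.TRM

lemma norm_ex {d : ℕ} (n x : EE d) : ‖ex n x‖ = 1 := by
  unfold ex
  rw [mul_comm]
  exact Complex.norm_exp_ofReal_mul_I _

lemma tr1 (d : ℕ) (s : Finset (Fin d → ℤ)) (a : (Fin d → ℤ) → ℂ) (x : EE d) :
    ‖es s a x‖ ^ 2 ≤ s.card * ∑ n ∈ s, ‖a n‖ ^ 2 := by
  have h1 : ‖es s a x‖ ≤ ∑ n ∈ s, ‖a n‖ := by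
    unfold es
    refine (norm_sum_le _ _).trans ?_
    apply Finset.sum_le_sum
    intro n _
    rw [norm_mul, norm_ex, mul_one]
  calc ‖es s a x‖ ^ 2 ≤ (∑ n ∈ s, ‖a n‖) ^ 2 := pow_le_pow_left₀ (norm_nonneg _) h1 2
    _ ≤ s.card * ∑ n ∈ s, ‖a n‖ ^ 2 := sq_sum_le_card_mul_sum_sq

lemma card_Icc_le (c r : ℝ) (hr : 0 ≤ r) :
    ((Finset.Icc ⌈c - r⌉ ⌊c + r⌋).card : ℝ) ≤ 2 * r + 1 := by
  rw [Int.card_Icc]
  by_cases h : 0 ≤ ⌊c + r⌋ + 1 - ⌈c - r⌉
  · have : (((⌊c + r⌋ + 1 - ⌈c - r⌉).toNat : ℤ) : ℝ) = ((⌊c + r⌋ + 1 - ⌈c - r⌉ : ℤ) : ℝ) := by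
      rw [Int.toNat_of_nonneg h]
    have h2 : (((⌊c + r⌋ + 1 - ⌈c - r⌉).toNat : ℕ) : ℝ) = ((⌊c + r⌋ + 1 - ⌈c - r⌉ : ℤ) : ℝ) := by
      rw [← this]
      norm_cast
    rw [h2]
    push_cast
    have h3 := Int.floor_le (c + r)
    have h4 := Int.le_ceil (c - r)
    linarith
  · have : (⌊c + r⌋ + 1 - ⌈c - r⌉).toNat = 0 := by
      rw [Int.toNat_eq_zero]
      omega
    rw [this]
    push_cast
    linarith

lemma tr2 (d : ℕ) (s : Finset (Fin d → ℤ)) (n0 : EE d) (r : ℝ) (hr : 0 ≤ r)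
    (hs : ∀ n ∈ s, ‖zv n - n0‖ ≤ r) : (s.card : ℝ) ≤ (2 * r + 1) ^ d := by
  classical
  have hsub : s ⊆ Fintype.piFinset fun i : Fin d => Finset.Icc ⌈n0 i - r⌉ ⌊n0 i + r⌋ := by
    intro n hn
    rw [Fintype.mem_piFinset]
    intro i
    rw [Finset.mem_Icc]
    have h1 : |(n i : ℝ) - n0 i| ≤ r := by
      have h2 := PiLp.norm_apply_le (zv n - n0) i
      have h3 := hs n hn
      have h4 : (zv n - n0) i = (n i : ℝ) - n0 i := by
        simp [zv]
      rw [h4, Real.norm_eq_abs] at h2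
      exact h2.trans h3
    rw [abs_le] at h1
    constructor
    · rw [Int.ceil_le]
      linarith [h1.1]
    · rw [Int.le_floor]
      linarith [h1.2]
  have h1 : s.card ≤ (Fintype.piFinset fun i : Fin d => Finset.Icc ⌈n0 i - r⌉ ⌊n0 i + r⌋).card :=
    Finset.card_le_card hsub
  have h2 : (s.card : ℝ) ≤
      ((Fintype.piFinset fun i : Fin d => Finset.Icc ⌈n0 i - r⌉ ⌊n0 i + r⌋).card : ℝ) := by
    exact_mod_cast h1
  refine h2.trans ?_
  rw [Fintype.card_piFinset]
  push_cast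
  calc ∏ i : Fin d, ((Finset.Icc ⌈n0 i - r⌉ ⌊n0 i + r⌋).card : ℝ) ≤ ∏ _i : Fin d, (2 * r + 1) := by
        apply Finset.prod_le_prod
        · intro i _
          positivity
        · intro i _
          exact card_Icc_le _ _ hr
    _ = (2 * r + 1) ^ d := by
        rw [Finset.prod_const, Finset.card_univ, Fintype.card_fin]

/-- **TR** -/
theorem specTR : SpecTR := ⟨tr1, tr2⟩

end Pool.Agent.Lib.MP_a8dae7_an.CV.TRM
end

section
/-!
# MP_a8dae7_an, CV: WL, the majorant is bounded below on the cap of the sphere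
-/
set_option autoImplicit false

open MeasureTheory
open scoped ContDiff

namespace Pool.Agent.Lib.MP_a8dae7_an.CV.WLM

/-- the real inequality: `h` the height, `D = ‖n - n0‖²` -/
lemma real_ineq (lam r h D : ℝ) (hlam : 1 ≤ lam) (hr : 1 ≤ r) (hr3 : r ^ 3 ≤ lam ^ 2)
    (hD0 : 0 ≤ D) (hD : D ≤ r ^ 2) (hh : 2 * lam * (lam - h) = D) :
    -2 ≤ -((lam ^ 2 - h ^ 2) / r ^ 2) -
      (lam / r) ^ 2 * (h - lam + (lam ^ 2 - h ^ 2) / (2 * lam)) ^ 2 := by
  have hlam0 : 0 < lam := by linarith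
  have hr0 : 0 < r := by linarith
  set u : ℝ := lam - h with hu
  have hu0 : 0 ≤ u := by
    by_contra hneg
    have hneg' : u < 0 := not_le.mp hneg
    have : 2 * lam * u < 0 := mul_neg_of_pos_of_neg (by linarith) hneg'
    rw [hh] at this
    linarith
  have h1 : lam ^ 2 - h ^ 2 = D - u ^ 2 := by
    have : h = lam - u := by rw [hu]; ring
    rw [this, ← hh]
    ring
  have h2 : h - lam + (lam ^ 2 - h ^ 2) / (2 * lam) = -(u ^ 2 / (2 * lam)) := by
    rw [h1, ← hh]
    have : h = lam - u := by rw [hu]; ring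
    rw [this]
    field_simp
    ring
  have h3 : (lam ^ 2 - h ^ 2) / r ^ 2 ≤ 1 := by
    rw [h1, div_le_one (by positivity)]
    have := sq_nonneg u
    linarith
  have h4 : u * (2 * lam) ≤ r ^ 2 := by
    have : u * (2 * lam) = D := by rw [← hh]; ring
    rw [this]
    exact hD
  have h5 : (lam / r) ^ 2 * (h - lam + (lam ^ 2 - h ^ 2) / (2 * lam)) ^ 2 ≤ 1 := by
    rw [h2]
    have e1 : (lam / r) ^ 2 * (-(u ^ 2 / (2 * lam))) ^ 2 = (u ^ 2 / (2 * r)) ^ 2 := by
      field_simp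
    rw [e1]
    have h6 : u ^ 2 / (2 * r) ≤ 1 := by
      rw [div_le_one (by positivity)]
      have h7 : (u * (2 * lam)) ^ 2 ≤ (r ^ 2) ^ 2 := by
        apply pow_le_pow_left₀ (by positivity) h4
      have h8 : u ^ 2 * (4 * lam ^ 2) ≤ r * lam ^ 2 := by
        calc u ^ 2 * (4 * lam ^ 2) = (u * (2 * lam)) ^ 2 := by ring
          _ ≤ (r ^ 2) ^ 2 := h7
          _ = r * r ^ 3 := by ring
          _ ≤ r * lam ^ 2 := by
            apply mul_le_mul_of_nonneg_left hr3 hr0.le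
      have h9 : 0 < lam ^ 2 := by positivity
      have h10 : u ^ 2 * 4 ≤ r := by
        have : (u ^ 2 * 4) * lam ^ 2 ≤ r * lam ^ 2 := by
          calc (u ^ 2 * 4) * lam ^ 2 = u ^ 2 * (4 * lam ^ 2) := by ring
            _ ≤ r * lam ^ 2 := h8
        exact le_of_mul_le_mul_right this h9
      nlinarith [sq_nonneg u]
    have h60 : 0 ≤ u ^ 2 / (2 * r) := by positivity
    calc (u ^ 2 / (2 * r)) ^ 2 ≤ 1 ^ 2 := pow_le_pow_left₀ h60 h6 2
      _ = 1 := by norm_num
  linarith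

/-- **WL** -/
theorem specWL : SpecWL := by
  intro d n n0 lam r hlam hr hr3 hn hn0 hnn
  have hlam0 : 0 < lam := by linarith
  unfold WW pq
  apply Real.exp_le_exp.mpr
  have hin : inner ℝ (lam⁻¹ • n0) n = lam⁻¹ * inner ℝ n0 n := real_inner_smul_left _ _ _
  have hD : ‖n - n0‖ ^ 2 = 2 * lam * (lam - lam⁻¹ * inner ℝ n0 n) := by
    rw [@norm_sub_sq_real, hn, hn0, real_inner_comm]
    field_simp
    ring
  rw [hin, hn]
  apply real_ineq lam r _ (‖n - n0‖ ^ 2) hlam hr hr3 (by positivity) _ hD.symm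
  exact pow_le_pow_left₀ (norm_nonneg _) hnn 2

end Pool.Agent.Lib.MP_a8dae7_an.CV.WLM
end

section
/-!
# MP_a8dae7_an, CV: module ZN (negligible translates)
-/
set_option autoImplicit false

open MeasureTheory

namespace Pool.Agent.Lib.MP_a8dae7_an.CV.ZNM

open Pool.Agent.Lib.MP_a8dae7_an.CV

/-- the projection off `om` -/
noncomputable def Pj {d : ℕ} (om x : EE d) : EE d := x - (inner ℝ om x : ℝ) • om

lemma Pj_add {d : ℕ} (om x y : EE d) : Pj om (x + y) = Pj om x + Pj om y := by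
  unfold Pj
  rw [inner_add_right, add_smul]
  abel

lemma Pj_sq {d : ℕ} {om : EE d} (h : ‖om‖ = 1) (x : EE d) : ‖Pj om x‖ ^ 2 = pq om x := by
  unfold Pj pq
  have e1 : (inner ℝ x om : ℝ) = inner ℝ om x := real_inner_comm _ _
  rw [norm_sub_sq_real, norm_smul, inner_smul_right, h, mul_one, Real.norm_eq_abs, sq_abs, e1]
  ring

lemma Pj_le {d : ℕ} {om : EE d} (h : ‖om‖ = 1) (x : EE d) : ‖Pj om x‖ ≤ ‖x‖ := by
  apply le_of_sq_le_sq _ (norm_nonneg _)
  rw [Pj_sq h]
  unfold pq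
  nlinarith [sq_nonneg (inner ℝ om x : ℝ)]

lemma t_le {d : ℕ} {om : EE d} (h : ‖om‖ = 1) (x : EE d) : |(inner ℝ om x : ℝ)| ≤ ‖x‖ := by
  have := abs_real_inner_le_norm om x
  rwa [h, one_mul] at this

lemma zv_norm {d : ℕ} {z : Fin d → ℤ} (hz : z ≠ 0) : 1 ≤ ‖zv z‖ := by
  obtain ⟨i, hi⟩ := Function.ne_iff.1 hz
  have h1 : (1 : ℝ) ≤ ‖(zv z) i‖ := by
    have h2 : (1 : ℤ) ≤ |z i| := Int.one_le_abs hi
    have h3 : ((zv z) i : ℝ) = (z i : ℝ) := rfl
    rw [h3, Real.norm_eq_abs]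
    exact_mod_cast h2
  exact h1.trans (PiLp.norm_apply_le (zv z) i)

/-- growth of `MM` -/
lemma MM_growth {d : ℕ} {om : EE d} (h : ‖om‖ = 1) {lam r : ℝ} (hr : 1 ≤ r) (hrl : r ≤ lam)
    {x p : EE d} (hx : 3 / 4 * ‖p‖ ≤ ‖x‖) :
    ‖p‖ * r / (32 * lam) - 2 ≤ MM om lam r x := by
  have hr0 : 0 < r := by linarith
  have hl0 : 0 < lam := by linarith
  have hp := norm_nonneg p
  have hxn := norm_nonneg x
  set t : ℝ := inner ℝ om x with ht
  set q : ℝ := pq om x with hq
  have hqx : q = ‖x‖ ^ 2 - t ^ 2 := rfl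
  have hq0 : 0 ≤ q := by rw [hq, ← Pj_sq h]; positivity
  set s : ℝ := |t| * r / (2 * lam) with hs
  have hs0 : 0 ≤ s := by positivity
  have hs2 : t ^ 2 * r ^ 2 / (4 * lam ^ 2) = s ^ 2 := by
    rw [hs, div_pow, mul_pow, sq_abs]
    ring
  have hM : MM om lam r x = s ^ 2 + q * r ^ 2 / (4 + (t * r ^ 2 / lam) ^ 2) := by
    unfold MM
    rw [← ht, ← hq, hs2]
  have hrl1 : r / lam ≤ 1 := (div_le_one hl0).2 hrl
  have hpr : ‖p‖ * r / (32 * lam) = ‖p‖ * (r / lam) / 32 := by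
    field_simp
  rw [hM, hpr]
  have hrl0 : 0 ≤ r / lam := by positivity
  by_cases hc : ‖x‖ / 2 ≤ |t|
  · have h1 : 0 ≤ q * r ^ 2 / (4 + (t * r ^ 2 / lam) ^ 2) := by positivity
    have h2 : 2 * s - 1 ≤ s ^ 2 := by nlinarith [sq_nonneg (s - 1)]
    have h3 : ‖x‖ / 2 * (r / lam) ≤ 2 * s := by
      have : 2 * s = |t| * (r / lam) := by rw [hs]; field_simp
      rw [this]
      exact mul_le_mul_of_nonneg_right hc hrl0
    have h4 : 3 / 4 * ‖p‖ * (r / lam) ≤ ‖x‖ * (r / lam) := mul_le_mul_of_nonneg_right hx hrl0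
    have h5 : 0 ≤ ‖p‖ * (r / lam) := by positivity
    nlinarith
  · push Not at hc
    have ht2 : t ^ 2 ≤ ‖x‖ ^ 2 / 4 := by
      rw [← sq_abs t]
      nlinarith [abs_nonneg t]
    have hq1 : 3 / 4 * ‖x‖ ^ 2 ≤ q := by rw [hqx]; linarith
    have hden : 4 + (t * r ^ 2 / lam) ^ 2 ≤ 4 * r ^ 2 * (1 + s ^ 2) := by
      have e1 : (t * r ^ 2 / lam) ^ 2 = 4 * r ^ 2 * s ^ 2 := by
        rw [← hs2]
        field_simp
      rw [e1]
      nlinarith [sq_nonneg s]
    have hden0 : 0 < 4 + (t * r ^ 2 / lam) ^ 2 := by positivity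
    have h1 : 3 / 16 * ‖x‖ ^ 2 / (1 + s ^ 2) ≤ q * r ^ 2 / (4 + (t * r ^ 2 / lam) ^ 2) := by
      calc 3 / 16 * ‖x‖ ^ 2 / (1 + s ^ 2) = 3 / 4 * ‖x‖ ^ 2 * r ^ 2 / (4 * r ^ 2 * (1 + s ^ 2)) := by
            field_simp
            ring
        _ ≤ q * r ^ 2 / (4 * r ^ 2 * (1 + s ^ 2)) := by
            apply div_le_div_of_nonneg_right _ (by positivity)
            exact mul_le_mul_of_nonneg_right hq1 (by positivity)
        _ ≤ q * r ^ 2 / (4 + (t * r ^ 2 / lam) ^ 2) := by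
            apply div_le_div_of_nonneg_left (by positivity) hden0 hden
    have h2 : 3 / 4 * ‖x‖ - 1 ≤ s ^ 2 + 3 / 16 * ‖x‖ ^ 2 / (1 + s ^ 2) := by
      have hS : 0 < 1 + s ^ 2 := by positivity
      have e2 : s ^ 2 + 3 / 16 * ‖x‖ ^ 2 / (1 + s ^ 2) - (3 / 4 * ‖x‖ - 1) =
          ((1 + s ^ 2) ^ 2 + 3 / 16 * ‖x‖ ^ 2 - 3 / 4 * ‖x‖ * (1 + s ^ 2)) / (1 + s ^ 2) := by
        field_simp
        ring
      have h3 : 0 ≤ ((1 + s ^ 2) ^ 2 + 3 / 16 * ‖x‖ ^ 2 - 3 / 4 * ‖x‖ * (1 + s ^ 2)) / (1 + s ^ 2) := by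
        apply div_nonneg _ hS.le
        nlinarith [sq_nonneg ((1 + s ^ 2) - 3 / 8 * ‖x‖), sq_nonneg ‖x‖]
      linarith
    have h4 : ‖p‖ * (r / lam) ≤ ‖p‖ := by
      calc ‖p‖ * (r / lam) ≤ ‖p‖ * 1 := mul_le_mul_of_nonneg_left hrl1 hp
        _ = ‖p‖ := mul_one _
    linarith

/-- size of `MM` off the near set -/
lemma MM_big {d : ℕ} {om : EE d} (h : ‖om‖ = 1) {lam r L : ℝ} (hr : 1 ≤ r) (hrl : r ≤ lam)
    (hL : 1 ≤ L) (hLr : L ≤ r) (hL2 : L ^ 2 * r ^ 2 ≤ lam ^ 2)
    {x p : EE d} (hx : ‖x‖ ≤ 1 / 4) (hp : 6 + 1 / 4 ≤ ‖p‖)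
    (hn : ¬ (1 ≤ |(inner ℝ om p : ℝ)| ∧ |(inner ℝ om p : ℝ)| * r ≤ 2 * L * lam ∧
      pq om p ≤ (4 * L ^ 3) ^ 2)) :
    L ^ 2 / 8 ≤ MM om lam r (x + p) := by
  have hr0 : 0 < r := by linarith
  have hl0 : 0 < lam := by linarith
  have hL0 : 0 < L := by linarith
  set t : ℝ := inner ℝ om (x + p) with ht
  set tz : ℝ := inner ℝ om p with htz
  set q : ℝ := pq om (x + p) with hq
  have hq0 : 0 ≤ q := by rw [hq, ← Pj_sq h]; positivity
  have htt : |t - tz| ≤ 1 / 4 := by
    have : t - tz = inner ℝ om x := by rw [ht, htz, inner_add_right]; ring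
    rw [this]
    exact (t_le h x).trans hx
  have hM : MM om lam r (x + p) = t ^ 2 * r ^ 2 / (4 * lam ^ 2) +
      q * r ^ 2 / (4 + (t * r ^ 2 / lam) ^ 2) := rfl
  have hP : ‖Pj om p‖ - 1 / 4 ≤ ‖Pj om (x + p)‖ := by
    rw [Pj_add]
    have h1 := norm_sub_le (Pj om x + Pj om p) (Pj om x)
    rw [add_sub_cancel_left] at h1
    have h2 := (Pj_le h x).trans hx
    linarith
  have hA0 : 0 ≤ t ^ 2 * r ^ 2 / (4 * lam ^ 2) := by positivity
  have hB0 : 0 ≤ q * r ^ 2 / (4 + (t * r ^ 2 / lam) ^ 2) := by positivity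
  have hden0 : 0 < 4 + (t * r ^ 2 / lam) ^ 2 := by positivity
  have htabs : |t| ≤ |tz| + 1 / 4 := by
    have := abs_sub_abs_le_abs_sub t tz
    linarith
  rw [hM]
  by_cases h1 : 1 ≤ |tz|
  · by_cases h2 : |tz| * r ≤ 2 * L * lam
    · have h3 : (4 * L ^ 3) ^ 2 < pq om p := by
        by_contra h4
        exact hn ⟨h1, h2, not_lt.1 h4⟩
      have h4 : 4 * L ^ 3 < ‖Pj om p‖ := by
        rw [← Pj_sq h] at h3
        exact lt_of_pow_lt_pow_left₀ 2 (norm_nonneg _) h3
      have hL3 : 1 ≤ L ^ 3 := one_le_pow₀ hL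
      have h5 : 15 / 4 * L ^ 3 ≤ ‖Pj om (x + p)‖ := by linarith
      have h6 : 14 * L ^ 6 ≤ q := by
        rw [hq, ← Pj_sq h]
        have : (15 / 4 * L ^ 3) ^ 2 ≤ ‖Pj om (x + p)‖ ^ 2 := pow_le_pow_left₀ (by positivity) h5 2
        nlinarith [pow_pos hL0 6]
      have h7 : |t| * r ^ 2 / lam ≤ 9 / 4 * L * r := by
        rw [div_le_iff₀ hl0]
        have h8 : |t| * r ^ 2 ≤ (|tz| + 1 / 4) * r ^ 2 := mul_le_mul_of_nonneg_right htabs (by positivity)
        have h9 : |tz| * r ^ 2 ≤ 2 * L * lam * r := by nlinarith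
        have h10 : r ^ 2 ≤ L * r * lam := by nlinarith [mul_le_mul hL hrl hr0.le hL0.le]
        nlinarith
      have h8 : (t * r ^ 2 / lam) ^ 2 ≤ (9 / 4 * L * r) ^ 2 := by
        have e1 : (t * r ^ 2 / lam) ^ 2 = (|t| * r ^ 2 / lam) ^ 2 := by
          rw [div_pow, div_pow, mul_pow, mul_pow, sq_abs]
        rw [e1]
        exact pow_le_pow_left₀ (by positivity) h7 2
      have h9 : 4 + (t * r ^ 2 / lam) ^ 2 ≤ 10 * (L ^ 2 * r ^ 2) := by
        have : 1 ≤ L ^ 2 * r ^ 2 := by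
          have a1 : 1 ≤ L ^ 2 := one_le_pow₀ hL
          have a2 : 1 ≤ r ^ 2 := one_le_pow₀ hr
          nlinarith
        nlinarith
      have h10 : 14 * L ^ 6 * r ^ 2 / (10 * (L ^ 2 * r ^ 2)) ≤ q * r ^ 2 / (4 + (t * r ^ 2 / lam) ^ 2) := by
        apply div_le_div₀ (by positivity) (mul_le_mul_of_nonneg_right h6 (by positivity)) hden0 h9
      have h11 : 14 * L ^ 6 * r ^ 2 / (10 * (L ^ 2 * r ^ 2)) = 7 / 5 * L ^ 4 := by
        field_simp
        ring
      have h12 : L ^ 2 ≤ L ^ 4 := pow_le_pow_right₀ hL (by norm_num)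
      have h13 : 0 < L ^ 2 := by positivity
      rw [h11] at h10
      linarith
    · push Not at h2
      have h3 : 2 ≤ |tz| := by
        have a1 : 2 * r ≤ 2 * L * lam := by nlinarith
        have a2 : 2 * r < |tz| * r := lt_of_le_of_lt a1 h2
        exact (lt_of_mul_lt_mul_right a2 hr0.le).le
      have h4 : 7 / 8 * |tz| ≤ |t| := by
        have := abs_sub_abs_le_abs_sub tz t
        rw [abs_sub_comm] at this
        linarith
      have h5 : 7 / 4 * L * lam ≤ |t| * r := by nlinarith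
      have h6 : (7 / 4 * L * lam) ^ 2 ≤ t ^ 2 * r ^ 2 := by
        have := pow_le_pow_left₀ (by positivity) h5 2
        rwa [mul_pow |t| r, sq_abs] at this
      have h7 : L ^ 2 / 8 ≤ t ^ 2 * r ^ 2 / (4 * lam ^ 2) := by
        rw [le_div_iff₀ (by positivity)]
        nlinarith [mul_pos (pow_pos hL0 2) (pow_pos hl0 2)]
      linarith
  · push Not at h1
    have h2 : |t| ≤ 5 / 4 := by linarith
    have h3 : 38 ≤ pq om p := by
      unfold pq
      rw [← htz]
      have a1 : tz ^ 2 ≤ 1 := by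
        rw [← sq_abs]
        nlinarith [abs_nonneg tz]
      nlinarith
    have h4 : 6 ≤ ‖Pj om p‖ := by
      rw [← Pj_sq h] at h3
      nlinarith [norm_nonneg (Pj om p)]
    have h5 : 33 ≤ q := by
      rw [hq, ← Pj_sq h]
      nlinarith
    have h6 : (t * r ^ 2 / lam) ^ 2 ≤ 25 / 16 * (r ^ 4 / lam ^ 2) := by
      have a1 : t ^ 2 ≤ 25 / 16 := by
        rw [← sq_abs]
        nlinarith [abs_nonneg t]
      have e1 : (t * r ^ 2 / lam) ^ 2 = t ^ 2 * (r ^ 4 / lam ^ 2) := by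
        field_simp
      rw [e1]
      exact mul_le_mul_of_nonneg_right a1 (by positivity)
    have h7 : L ^ 2 / 8 ≤ q * r ^ 2 / (4 + (t * r ^ 2 / lam) ^ 2) := by
      rw [le_div_iff₀ hden0]
      have a1 : L ^ 2 ≤ r ^ 2 := pow_le_pow_left₀ hL0.le hLr 2
      have a2 : L ^ 2 * (r ^ 4 / lam ^ 2) ≤ r ^ 2 := by
        rw [← mul_div_assoc, div_le_iff₀ (by positivity)]
        nlinarith [pow_pos hr0 2]
      have a3 : 33 * r ^ 2 ≤ q * r ^ 2 := mul_le_mul_of_nonneg_right h5 (by positivity)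
      have a4 : L ^ 2 * (t * r ^ 2 / lam) ^ 2 ≤ L ^ 2 * (25 / 16 * (r ^ 4 / lam ^ 2)) :=
        mul_le_mul_of_nonneg_left h6 (by positivity)
      nlinarith
    linarith

theorem specZN (hKN : SpecKN) : SpecZN := by
  intro k
  obtain ⟨C, hC, hK⟩ := hKN k
  refine ⟨C * Real.exp 1, by positivity, ?_⟩
  intro om lam r eps x z hom he0 he1 hlam hLr hr3 hx hz hn
  have hl0 : 0 < lam := by linarith
  set L : ℝ := lam ^ eps with hL
  have hL1 : 1 ≤ L := Real.one_le_rpow hlam he0.le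
  have hr : 1 ≤ r := hL1.trans hLr
  have hr0 : 0 < r := by linarith
  have hrl : r ≤ lam := by
    by_contra hc
    push Not at hc
    have a1 : lam ^ 2 < r ^ 2 := pow_lt_pow_left₀ hc hl0.le (by norm_num)
    have a2 : r ^ 2 ≤ r ^ 3 := pow_le_pow_right₀ hr (by norm_num)
    linarith
  have hr23 : r ≤ lam ^ ((2 : ℝ) / 3) := by
    have a1 : (lam ^ ((2 : ℝ) / 3)) ^ 3 = lam ^ 2 := by
      rw [← Real.rpow_natCast, ← Real.rpow_mul hl0.le, ← Real.rpow_natCast]
      norm_num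
    rw [← a1] at hr3
    exact le_of_pow_le_pow_left₀ (by norm_num) (by positivity) hr3
  have hL2 : L ^ 2 * r ^ 2 ≤ lam ^ 2 := by
    have a1 : L * r ≤ lam := by
      calc L * r ≤ lam ^ eps * lam ^ ((2 : ℝ) / 3) := by
            rw [hL]
            exact mul_le_mul_of_nonneg_left hr23 (by positivity)
        _ = lam ^ (eps + 2 / 3) := (Real.rpow_add hl0 _ _).symm
        _ ≤ lam ^ (1 : ℝ) := Real.rpow_le_rpow_of_exponent_le hlam (by linarith)
        _ = lam := Real.rpow_one lam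
    rw [← mul_pow]
    exact pow_le_pow_left₀ (by positivity) a1 2
  have hL3 : lam ^ (3 * eps) = L ^ 3 := by
    rw [hL, ← Real.rpow_natCast, ← Real.rpow_mul hl0.le]
    norm_num
    ring_nf
  have hL22 : lam ^ (2 * eps) = L ^ 2 := by
    rw [hL, ← Real.rpow_natCast, ← Real.rpow_mul hl0.le]
    norm_num
    ring_nf
  set p : EE (k + 1) := (2 * Real.pi) • zv z with hp
  have hpn : 6 + 1 / 4 ≤ ‖p‖ := by
    rw [hp, norm_smul, Real.norm_eq_abs, abs_of_pos (by positivity)]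
    have a1 := zv_norm hz
    have a2 := Real.pi_gt_d2
    nlinarith
  have hn' : ¬ (1 ≤ |(inner ℝ om p : ℝ)| ∧ |(inner ℝ om p : ℝ)| * r ≤ 2 * L * lam ∧
      pq om p ≤ (4 * L ^ 3) ^ 2) := by
    rw [← hL3]
    exact hn
  have hbig := MM_big hom hr hrl hL1 hLr hL2 hx hpn hn'
  have hxp : 3 / 4 * ‖p‖ ≤ ‖x + p‖ := by
    have a1 := norm_sub_le (x + p) x
    rw [add_sub_cancel_left] at a1
    linarith
  have hgr := MM_growth hom hr hrl hxp
  have h1 := (hK om lam r (x + p) hom hl0 hr0).1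
  have h2 : Real.exp (-MM om lam r (x + p)) ≤ Real.exp 1 * (Real.exp (-(lam ^ (2 * eps) / 16)) *
      Real.exp (-(‖p‖ * r / (64 * lam)))) := by
    rw [← Real.exp_add, ← Real.exp_add, hL22]
    apply Real.exp_le_exp.2
    have e1 : ‖p‖ * r / (64 * lam) = (‖p‖ * r / (32 * lam)) / 2 := by
      field_simp
      ring
    rw [e1]
    linarith
  have h3 : r / lam * r ^ k ≤ lam ^ (k + 1) := by
    have a1 : r / lam ≤ 1 := (div_le_one hl0).2 hrl
    have a2 : r ^ k ≤ lam ^ k := pow_le_pow_left₀ hr0.le hrl k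
    have a3 : lam ^ k ≤ lam ^ (k + 1) := pow_le_pow_right₀ hlam (Nat.le_succ k)
    calc r / lam * r ^ k ≤ 1 * lam ^ k := mul_le_mul a1 a2 (by positivity) (by norm_num)
      _ ≤ lam ^ (k + 1) := by rw [one_mul]; exact a3
  calc ‖Kf om lam r (x + p)‖ ≤ C * (r / lam) * r ^ k * Real.exp (-MM om lam r (x + p)) := h1
    _ = C * (r / lam * r ^ k) * Real.exp (-MM om lam r (x + p)) := by ring
    _ ≤ C * lam ^ (k + 1) * (Real.exp 1 * (Real.exp (-(lam ^ (2 * eps) / 16)) *
      Real.exp (-(‖p‖ * r / (64 * lam))))) := by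
        apply mul_le_mul _ h2 (Real.exp_pos _).le (by positivity)
        exact mul_le_mul_of_nonneg_left h3 hC.le
    _ = C * Real.exp 1 * lam ^ (k + 1) * Real.exp (-(lam ^ (2 * eps) / 16)) *
      Real.exp (-(‖p‖ * r / (64 * lam))) := by ring

end Pool.Agent.Lib.MP_a8dae7_an.CV.ZNM
end

section
set_option autoImplicit false

open MeasureTheory

namespace Pool.Agent.Lib.MP_a8dae7_an.CV.ZSM

/-! ### one dimensional sums -/

lemma sum_inv_sqrt (J : ℕ) : ∑ j ∈ Finset.Icc 1 J, (√(j : ℝ))⁻¹ ≤ 2 * √(J : ℝ) := by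
  induction J with
  | zero => simp
  | succ J ih =>
    rw [Finset.sum_Icc_succ_top (by omega)]
    have h1 : 0 < √((J + 1 : ℕ) : ℝ) := Real.sqrt_pos.mpr (by positivity)
    have h2 : √(J : ℝ) ≤ √((J + 1 : ℕ) : ℝ) := Real.sqrt_le_sqrt (by push_cast; linarith)
    have h3 : √((J + 1 : ℕ) : ℝ) ^ 2 = J + 1 := by rw [Real.sq_sqrt (by positivity)]; push_cast; ring
    have h4 : √(J : ℝ) ^ 2 = J := Real.sq_sqrt (by positivity)
    have h5 : (√((J + 1 : ℕ) : ℝ))⁻¹ ≤ 2 * √((J + 1 : ℕ) : ℝ) - 2 * √(J : ℝ) := by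
      rw [inv_le_iff_one_le_mul₀ h1]
      nlinarith [Real.sqrt_nonneg (J : ℝ)]
    linarith

lemma geom_bound {a : ℝ} (ha : 0 < a) (N : ℕ) :
    ∑ j ∈ Finset.range N, Real.exp (-(a * j)) ≤ (1 + a) / a := by
  have h0 : Real.exp (-a) ≤ 1 / (1 + a) := by
    rw [Real.exp_neg, ← one_div]
    apply one_div_le_one_div_of_le (by positivity)
    have := Real.add_one_le_exp a
    linarith
  have h1 : Real.exp (-a) < 1 := by rw [Real.exp_lt_one_iff]; linarith
  have h2 : ∀ j : ℕ, Real.exp (-(a * j)) = Real.exp (-a) ^ j := by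
    intro j; rw [← Real.exp_nat_mul]; congr 1; ring
  simp_rw [h2]
  rw [geom_sum_eq h1.ne]
  rw [← neg_div_neg_eq, neg_sub, neg_sub, div_le_div_iff₀ (by linarith) ha]
  have h3 : 0 < Real.exp (-a) ^ N := by positivity
  have h4 : a / (1 + a) ≤ 1 - Real.exp (-a) := by
    have : a / (1 + a) = 1 - 1 / (1 + a) := by field_simp; ring
    rw [this]; linarith
  have h5 : a ≤ (1 + a) * (1 - Real.exp (-a)) := by
    rw [div_le_iff₀ (by positivity)] at h4; linarith
  nlinarith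

lemma sum_int_exp {a : ℝ} (ha : 0 < a) (N : ℕ) :
    ∑ n ∈ Finset.Icc (-(N : ℤ)) N, Real.exp (-(a * |(n : ℝ)|)) ≤ 2 * ((1 + a) / a) := by
  have h1 : ∑ n ∈ Finset.Icc (-(N : ℤ)) N, Real.exp (-(a * |(n : ℝ)|))
      ≤ ∑ j ∈ Finset.range (N + 1), 2 * Real.exp (-(a * j)) := by
    rw [← Finset.sum_fiberwise_of_maps_to (s := Finset.Icc (-(N : ℤ)) N) (t := Finset.range (N + 1))
      (g := Int.natAbs) (by
        intro n hn
        rw [Finset.mem_Icc] at hn
        rw [Finset.mem_range]; omega)]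
    apply Finset.sum_le_sum
    intro j _
    have h2 : ∀ n ∈ (Finset.Icc (-(N : ℤ)) N).filter (fun n => n.natAbs = j),
        Real.exp (-(a * |(n : ℝ)|)) = Real.exp (-(a * j)) := by
      intro n hn
      rw [Finset.mem_filter] at hn
      have : |(n : ℝ)| = j := by
        rw [← hn.2, Nat.cast_natAbs, Int.cast_abs]
      rw [this]
    rw [Finset.sum_congr rfl h2, Finset.sum_const, nsmul_eq_mul]
    apply mul_le_mul_of_nonneg_right _ (Real.exp_nonneg _)
    have h3 : (Finset.Icc (-(N : ℤ)) N).filter (fun n => n.natAbs = j) ⊆ {(j : ℤ), -(j : ℤ)} := by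
      intro n hn
      rw [Finset.mem_filter] at hn
      simp only [Finset.mem_insert, Finset.mem_singleton]
      omega
    have h4 := (Finset.card_le_card h3).trans Finset.card_le_two
    exact_mod_cast h4
  refine h1.trans ?_
  rw [← Finset.mul_sum]
  have := geom_bound ha (N + 1)
  linarith

/-! ### the negligible part -/

lemma sum_abs_le {k : ℕ} (z : Fin (k + 1) → ℤ) : ∑ i, |(z i : ℝ)| ≤ (k + 1) * ‖zv z‖ := by
  have h : ∀ i ∈ Finset.univ, |(z i : ℝ)| ≤ ‖zv z‖ := by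
    intro i _
    have := PiLp.norm_apply_le (zv z) i
    simpa [zv, Real.norm_eq_abs] using this
  refine (Finset.sum_le_sum h).trans ?_
  simp

lemma exp_sum {k : ℕ} {a : ℝ} (ha : 0 < a) (F : Finset (Fin (k + 1) → ℤ)) :
    ∑ z ∈ F, Real.exp (-(a * ∑ i, |(z i : ℝ)|)) ≤ (2 * ((1 + a) / a)) ^ (k + 1) := by
  obtain ⟨N, hN⟩ : ∃ N : ℕ, ∀ z ∈ F, ∀ i, (z i).natAbs ≤ N := by
    refine ⟨F.sup (fun z => Finset.univ.sup (fun i => (z i).natAbs)), ?_⟩
    intro z hz i
    have h1 : (z i).natAbs ≤ Finset.univ.sup (fun i => (z i).natAbs) :=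
      Finset.le_sup (f := fun i => (z i).natAbs) (Finset.mem_univ i)
    exact h1.trans (Finset.le_sup (f := fun z : Fin (k + 1) → ℤ => Finset.univ.sup (fun i => (z i).natAbs)) hz)
  have hsub : F ⊆ Fintype.piFinset (fun _ : Fin (k + 1) => Finset.Icc (-(N : ℤ)) N) := by
    intro z hz
    rw [Fintype.mem_piFinset]
    intro i
    have := hN z hz i
    rw [Finset.mem_Icc]
    omega
  refine (Finset.sum_le_sum_of_subset_of_nonneg hsub (fun _ _ _ => Real.exp_nonneg _)).trans ?_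
  have h1 : ∀ z : Fin (k + 1) → ℤ, Real.exp (-(a * ∑ i, |(z i : ℝ)|)) =
      ∏ i, Real.exp (-(a * |(z i : ℝ)|)) := by
    intro z
    rw [← Real.exp_sum, Finset.mul_sum, Finset.sum_neg_distrib]
  simp_rw [h1]
  rw [← Finset.prod_univ_sum (fun _ : Fin (k + 1) => Finset.Icc (-(N : ℤ)) N)
    (fun _ n => Real.exp (-(a * |(n : ℝ)|)))]
  rw [Finset.prod_const, Finset.card_univ, Fintype.card_fin]
  apply pow_le_pow_left₀ (Finset.sum_nonneg fun _ _ => Real.exp_nonneg _)
  exact sum_int_exp ha N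

lemma neg_part {k : ℕ} {lam r : ℝ} (hr : 1 ≤ r) (hrl : r ≤ lam) (F : Finset (Fin (k + 1) → ℤ)) :
    ∑ z ∈ F, Real.exp (-(‖(2 * Real.pi) • zv z‖ * r / (64 * lam))) ≤
      (2 + 32 * (k + 1)) ^ (k + 1) * lam ^ (k + 1) := by
  have hlam : 1 ≤ lam := hr.trans hrl
  set a : ℝ := r / (16 * (k + 1) * lam) with ha_def
  have ha : 0 < a := by positivity
  have h1 : ∀ z ∈ F, Real.exp (-(‖(2 * Real.pi) • zv z‖ * r / (64 * lam))) ≤
      Real.exp (-(a * ∑ i, |(z i : ℝ)|)) := by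
    intro z _
    apply Real.exp_le_exp.mpr
    apply neg_le_neg
    have h2 := sum_abs_le z
    have h3 : ‖(2 * Real.pi) • zv z‖ = 2 * Real.pi * ‖zv z‖ := by
      rw [norm_smul, Real.norm_eq_abs, abs_of_pos (by positivity)]
    have h4 := Real.pi_gt_three
    have h5 : a * ∑ i, |(z i : ℝ)| ≤ a * ((k + 1) * ‖zv z‖) := mul_le_mul_of_nonneg_left h2 ha.le
    refine h5.trans ?_
    have h6 : a * ((k + 1) * ‖zv z‖) = 4 * (‖zv z‖ * r / (64 * lam)) := by
      rw [ha_def]; field_simp; ring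
    have h7 : ‖(2 * Real.pi) • zv z‖ * r / (64 * lam) = 2 * Real.pi * (‖zv z‖ * r / (64 * lam)) := by
      rw [h3]; ring
    rw [h6, h7]
    apply mul_le_mul_of_nonneg_right (by linarith) (by positivity)
  refine (Finset.sum_le_sum h1).trans ((exp_sum ha F).trans ?_)
  rw [← mul_pow]
  apply pow_le_pow_left₀ (by positivity)
  have h8 : 2 * ((1 + a) / a) = 2 + 2 / a := by field_simp; ring
  have h9 : 1 / a = 16 * (k + 1) * lam / r := by rw [ha_def]; field_simp
  have h10 : 16 * (k + 1) * lam / r ≤ 16 * (k + 1) * lam := div_le_self (by positivity) hr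
  have h11 : 2 / a = 2 * (1 / a) := by ring
  rw [h8, h11, h9]
  nlinarith

/-! ### the near part -/

lemma near_dist {k : ℕ} {om x : EE (k + 1)} (hom : ‖om‖ = 1) {R sg j : ℝ} (hR : 1 ≤ R)
    (hsg : sg ^ 2 = 1) (hpq : pq om x ≤ (4 * R) ^ 2) (h1 : j ≤ sg * inner ℝ om x)
    (h2 : sg * inner ℝ om x ≤ j + 1) : ‖x - (sg * (j + 1 / 2)) • om‖ ≤ 5 * R := by
  refine (pow_le_pow_iff_left₀ (norm_nonneg _) (by positivity) (two_ne_zero)).mp ?_
  rw [norm_sub_sq_real, norm_smul, hom, mul_one, inner_smul_right, real_inner_comm om x]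
  rw [Real.norm_eq_abs, sq_abs]
  unfold pq at hpq
  have h3 : (sg * (j + 1 / 2)) ^ 2 = (j + 1 / 2) ^ 2 := by rw [mul_pow, hsg, one_mul]
  have h4 : (sg * inner ℝ om x - (j + 1 / 2)) ^ 2 ≤ 1 := by
    rw [sq_le_one_iff_abs_le_one, abs_le]
    constructor <;> linarith
  have h5 : (sg * inner ℝ om x) ^ 2 = inner ℝ om x ^ 2 := by rw [mul_pow, hsg, one_mul]
  nlinarith

lemma count_sign {k : ℕ} (hTR : SpecTR) {om : EE (k + 1)} (hom : ‖om‖ = 1) {R sg : ℝ} (hR : 1 ≤ R)
    (hsg : sg ^ 2 = 1) (j : ℝ) (F : Finset (Fin (k + 1) → ℤ))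
    (hpq : ∀ z ∈ F, pq om ((2 * Real.pi) • zv z) ≤ (4 * R) ^ 2)
    (h1 : ∀ z ∈ F, j ≤ sg * inner ℝ om ((2 * Real.pi) • zv z))
    (h2 : ∀ z ∈ F, sg * inner ℝ om ((2 * Real.pi) • zv z) ≤ j + 1) :
    (F.card : ℝ) ≤ (3 * R) ^ (k + 1) := by
  have h3 := hTR.2 (k + 1) F ((2 * Real.pi)⁻¹ • ((sg * (j + 1 / 2)) • om)) R (by linarith) (by
    intro z hz
    have h4 := near_dist hom hR hsg (hpq z hz) (h1 z hz) (h2 z hz)
    have h5 : zv z - (2 * Real.pi)⁻¹ • ((sg * (j + 1 / 2)) • om) =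
        (2 * Real.pi)⁻¹ • ((2 * Real.pi) • zv z - (sg * (j + 1 / 2)) • om) := by
      rw [smul_sub, inv_smul_smul₀ (by positivity)]
    rw [h5, norm_smul, Real.norm_eq_abs, abs_of_pos (by positivity)]
    have h6 := Real.pi_gt_three
    rw [inv_mul_le_iff₀ (by positivity)]
    nlinarith)
  refine h3.trans ?_
  apply pow_le_pow_left₀ (by linarith)
  linarith

lemma count_near {k : ℕ} (hTR : SpecTR) {om : EE (k + 1)} (hom : ‖om‖ = 1) {R : ℝ} (hR : 1 ≤ R)
    (j : ℕ) (F : Finset (Fin (k + 1) → ℤ))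
    (hpq : ∀ z ∈ F, pq om ((2 * Real.pi) • zv z) ≤ (4 * R) ^ 2)
    (hj : ∀ z ∈ F, ⌊|inner ℝ om ((2 * Real.pi) • zv z)|⌋₊ = j) :
    (F.card : ℝ) ≤ 2 * (3 * R) ^ (k + 1) := by
  classical
  set t : (Fin (k + 1) → ℤ) → ℝ := fun z => inner ℝ om ((2 * Real.pi) • zv z) with ht
  have hj1 : ∀ z ∈ F, (j : ℝ) ≤ |t z| := by
    intro z hz
    rw [← hj z hz]
    exact Nat.floor_le (abs_nonneg _)
  have hj2 : ∀ z ∈ F, |t z| ≤ j + 1 := by
    intro z hz
    rw [← hj z hz]
    exact (Nat.lt_floor_add_one _).le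
  have h1 := count_sign hTR hom (sg := 1) hR (by norm_num) j (F.filter (fun z => 0 ≤ t z))
    (fun z hz => hpq z (Finset.mem_filter.mp hz).1)
    (fun z hz => by
      rw [Finset.mem_filter] at hz
      have := hj1 z hz.1
      rw [abs_of_nonneg hz.2] at this
      rw [one_mul]; exact this)
    (fun z hz => by
      rw [Finset.mem_filter] at hz
      have := hj2 z hz.1
      rw [abs_of_nonneg hz.2] at this
      rw [one_mul]; exact this)
  have h2 := count_sign hTR hom (sg := -1) hR (by norm_num) j (F.filter (fun z => ¬ 0 ≤ t z))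
    (fun z hz => hpq z (Finset.mem_filter.mp hz).1)
    (fun z hz => by
      rw [Finset.mem_filter, not_le] at hz
      have := hj1 z hz.1
      rw [abs_of_neg hz.2] at this
      rw [neg_one_mul]; exact this)
    (fun z hz => by
      rw [Finset.mem_filter, not_le] at hz
      have := hj2 z hz.1
      rw [abs_of_neg hz.2] at this
      rw [neg_one_mul]; exact this)
  have h3 : F.card = (F.filter (fun z => 0 ≤ t z)).card + (F.filter (fun z => ¬ 0 ≤ t z)).card :=
    (Finset.card_filter_add_card_filter_not _).symm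
  rw [h3]
  push_cast
  linarith

lemma near_part {k : ℕ} (hTR : SpecTR) {om : EE (k + 1)} (hom : ‖om‖ = 1) {lam r eps : ℝ}
    (heps : 0 < eps) (hr : 1 ≤ r) (hrl : r ≤ lam) (F : Finset (Fin (k + 1) → ℤ))
    (hF : ∀ z ∈ F, Near om lam r eps z) :
    ∑ z ∈ F, (r / lam) * √(lam / |inner ℝ om ((2 * Real.pi) • zv z)|) ≤
      6 * 3 ^ (k + 1) * lam ^ ((3 * (k + 1) + 1) * eps) * √r := by
  classical
  have hlam : 1 ≤ lam := hr.trans hrl
  have hlam0 : 0 < lam := by linarith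
  have hr0 : 0 < r := by linarith
  set R : ℝ := lam ^ (3 * eps) with hRdef
  have hR : 1 ≤ R := Real.one_le_rpow hlam (by positivity)
  have hle : 1 ≤ lam ^ eps := Real.one_le_rpow hlam heps.le
  set t : (Fin (k + 1) → ℤ) → ℝ := fun z => inner ℝ om ((2 * Real.pi) • zv z) with ht
  set T : ℝ := 2 * lam ^ eps * lam / r with hT
  have hT0 : 0 ≤ T := by positivity
  have hmaps : ∀ z ∈ F, ⌊|t z|⌋₊ ∈ Finset.Icc 1 ⌊T⌋₊ := by
    intro z hz
    obtain ⟨h1, h2, -⟩ := hF z hz
    rw [Finset.mem_Icc]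
    constructor
    · rw [Nat.le_floor_iff (abs_nonneg _)]
      exact_mod_cast h1
    · apply Nat.floor_le_floor
      rw [hT, le_div_iff₀ hr0]
      exact h2
  rw [← Finset.sum_fiberwise_of_maps_to hmaps]
  have hfib : ∀ j ∈ Finset.Icc 1 ⌊T⌋₊, ∑ z ∈ F with ⌊|t z|⌋₊ = j, (r / lam) * √(lam / |t z|) ≤
      (r / lam) * (2 * (3 * R) ^ (k + 1)) * √lam * (√(j : ℝ))⁻¹ := by
    intro j hj
    rw [Finset.mem_Icc] at hj
    have hj0 : (0 : ℝ) < j := by exact_mod_cast hj.1
    have h1 : ∀ z ∈ F.filter (fun z => ⌊|t z|⌋₊ = j), (r / lam) * √(lam / |t z|) ≤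
        (r / lam) * (√lam * (√(j : ℝ))⁻¹) := by
      intro z hz
      rw [Finset.mem_filter] at hz
      have h2 : (j : ℝ) ≤ |t z| := by
        rw [← hz.2]; exact Nat.floor_le (abs_nonneg _)
      apply mul_le_mul_of_nonneg_left _ (by positivity)
      rw [← div_eq_mul_inv, ← Real.sqrt_div hlam0.le]
      apply Real.sqrt_le_sqrt
      apply div_le_div_of_nonneg_left hlam0.le hj0 h2
    refine (Finset.sum_le_sum h1).trans ?_
    rw [Finset.sum_const, nsmul_eq_mul]
    have h3 := count_near hTR hom hR j (F.filter (fun z => ⌊|t z|⌋₊ = j))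
      (fun z hz => (hF z (Finset.mem_filter.mp hz).1).2.2) (fun z hz => (Finset.mem_filter.mp hz).2)
    calc ((F.filter (fun z => ⌊|t z|⌋₊ = j)).card : ℝ) * ((r / lam) * (√lam * (√(j : ℝ))⁻¹))
        ≤ (2 * (3 * R) ^ (k + 1)) * ((r / lam) * (√lam * (√(j : ℝ))⁻¹)) :=
          mul_le_mul_of_nonneg_right h3 (by positivity)
      _ = _ := by ring
  refine (Finset.sum_le_sum hfib).trans ?_
  rw [← Finset.mul_sum]
  have h4 := sum_inv_sqrt ⌊T⌋₊
  have h5 : √((⌊T⌋₊ : ℕ) : ℝ) ≤ √T := Real.sqrt_le_sqrt (Nat.floor_le hT0)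
  have h6 : √lam * √T = √2 * √(lam ^ eps) * (lam / √r) := by
    rw [← Real.sqrt_mul hlam0.le]
    have : lam * T = 2 * lam ^ eps * (lam ^ 2 / r) := by rw [hT]; ring
    rw [this, Real.sqrt_mul (by positivity), Real.sqrt_mul (by norm_num), Real.sqrt_div (by positivity),
      Real.sqrt_sq hlam0.le]
  have h7 : √(lam ^ eps) ≤ lam ^ eps := by
    rw [Real.sqrt_le_left (by positivity)]
    nlinarith
  have h8 : √(2 : ℝ) ≤ 3 / 2 := by
    rw [Real.sqrt_le_left (by norm_num)]; norm_num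
  have h9 : (r / lam) * (lam / √r) = √r := by
    have : √r * √r = r := Real.mul_self_sqrt hr0.le
    have h10 : 0 < √r := Real.sqrt_pos.mpr hr0
    field_simp
    nlinarith
  have h11 : √2 * √(lam ^ eps) ≤ 3 / 2 * lam ^ eps :=
    mul_le_mul h8 h7 (Real.sqrt_nonneg _) (by norm_num)
  have h12 : R ^ (k + 1) * lam ^ eps = lam ^ ((3 * (k + 1) + 1) * eps) := by
    rw [hRdef, ← Real.rpow_natCast, ← Real.rpow_mul hlam0.le, ← Real.rpow_add hlam0]
    congr 1; push_cast; ring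
  calc (r / lam) * (2 * (3 * R) ^ (k + 1)) * √lam * ∑ j ∈ Finset.Icc 1 ⌊T⌋₊, (√(j : ℝ))⁻¹
      ≤ (r / lam) * (2 * (3 * R) ^ (k + 1)) * √lam * (2 * √T) := by
        apply mul_le_mul_of_nonneg_left (by linarith) (by positivity)
    _ = 4 * (3 * R) ^ (k + 1) * (√2 * √(lam ^ eps)) * ((r / lam) * (lam / √r)) := by
        rw [show (r / lam) * (2 * (3 * R) ^ (k + 1)) * √lam * (2 * √T) =
          4 * (3 * R) ^ (k + 1) * (r / lam) * (√lam * √T) by ring, h6]
        ring
    _ ≤ 4 * (3 * R) ^ (k + 1) * (3 / 2 * lam ^ eps) * ((r / lam) * (lam / √r)) := by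
        apply mul_le_mul_of_nonneg_right _ (by positivity)
        apply mul_le_mul_of_nonneg_left h11 (by positivity)
    _ = 6 * 3 ^ (k + 1) * (R ^ (k + 1) * lam ^ eps) * √r := by
        rw [h9, mul_pow]; ring
    _ = _ := by rw [h12]

/-! ### the theorem -/

theorem specZS (hTR : SpecTR) : SpecZS := by
  classical
  intro k
  refine ⟨6 * 3 ^ (k + 1) + (2 + 32 * (k + 1)) ^ (k + 1), 3 * (k + 1) + 1, by positivity, by positivity, ?_⟩
  intro om lam r eps B0 B1 B2 hom heps heps' hlam hr hrl hB0 hB1 hB2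
  have hlam0 : 0 < lam := by linarith
  have hr0 : 0 < r := by linarith
  set C1 : ℝ := 6 * 3 ^ (k + 1) with hC1
  set C2 : ℝ := (2 + 32 * (k + 1)) ^ (k + 1) with hC2
  have hC1' : 0 ≤ C1 := by positivity
  have hC2' : 0 ≤ C2 := by positivity
  have hnn : ∀ z, 0 ≤ bz om lam r eps B0 B1 B2 z := by
    intro z
    unfold bz
    split_ifs
    · exact hB0
    · positivity
    · positivity
  have hfin : ∀ F : Finset (Fin (k + 1) → ℤ), ∑ z ∈ F, bz om lam r eps B0 B1 B2 z ≤
      B0 + (C1 + C2) * lam ^ ((3 * (k + 1) + 1) * eps) * B1 * √r + (C1 + C2) * lam ^ (k + 1) * B2 := by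
    intro F
    have h1 : ∀ z ∈ F, bz om lam r eps B0 B1 B2 z ≤ (if z = 0 then B0 else 0) +
        ((if Near om lam r eps z then B1 * ((r / lam) * √(lam / |inner ℝ om ((2 * Real.pi) • zv z)|)) else 0) +
        B2 * Real.exp (-(‖(2 * Real.pi) • zv z‖ * r / (64 * lam)))) := by
      intro z _
      unfold bz
      have e1 : 0 ≤ B1 * ((r / lam) * √(lam / |inner ℝ om ((2 * Real.pi) • zv z)|)) := by positivity
      have e2 : 0 ≤ B2 * Real.exp (-(‖(2 * Real.pi) • zv z‖ * r / (64 * lam))) := by positivity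
      split_ifs <;> linarith
    refine (Finset.sum_le_sum h1).trans ?_
    rw [Finset.sum_add_distrib, Finset.sum_add_distrib]
    have h2 : ∑ z ∈ F, (if z = 0 then B0 else 0) ≤ B0 := by
      rw [Finset.sum_ite_eq' F 0 (fun _ => B0)]
      split_ifs
      · exact le_rfl
      · exact hB0
    have h3 : ∑ z ∈ F, (if Near om lam r eps z then
        B1 * ((r / lam) * √(lam / |inner ℝ om ((2 * Real.pi) • zv z)|)) else 0) ≤
        C1 * lam ^ ((3 * (k + 1) + 1) * eps) * B1 * √r := by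
      rw [← Finset.sum_filter, ← Finset.mul_sum]
      have h4 := near_part hTR hom heps hr hrl (F.filter (fun z => Near om lam r eps z))
        (fun z hz => (Finset.mem_filter.mp hz).2)
      have h5 := mul_le_mul_of_nonneg_left h4 hB1
      refine h5.trans (le_of_eq ?_)
      rw [hC1]; ring
    have h6 : ∑ z ∈ F, B2 * Real.exp (-(‖(2 * Real.pi) • zv z‖ * r / (64 * lam))) ≤
        C2 * lam ^ (k + 1) * B2 := by
      rw [← Finset.mul_sum]
      have h7 := mul_le_mul_of_nonneg_left (neg_part (k := k) hr hrl F) hB2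
      refine h7.trans (le_of_eq ?_)
      rw [hC2]; ring
    have e3 : 0 ≤ C2 * lam ^ ((3 * (k + 1) + 1) * eps) * B1 * √r := by positivity
    have e4 : 0 ≤ C1 * lam ^ (k + 1) * B2 := by positivity
    have e5 : (C1 + C2) * lam ^ ((3 * (k + 1) + 1) * eps) * B1 * √r =
      C1 * lam ^ ((3 * (k + 1) + 1) * eps) * B1 * √r + C2 * lam ^ ((3 * (k + 1) + 1) * eps) * B1 * √r := by ring
    have e6 : (C1 + C2) * lam ^ (k + 1) * B2 = C1 * lam ^ (k + 1) * B2 + C2 * lam ^ (k + 1) * B2 := by ring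
    linarith
  have hsum : Summable (bz om lam r eps B0 B1 B2) := summable_of_sum_le hnn hfin
  exact ⟨hsum, hsum.tsum_le_of_sum_le hfin⟩

end Pool.Agent.Lib.MP_a8dae7_an.CV.ZSM
end
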