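import Mathlib
import Pool.Agent.Lib.MP_a8dae7_an.CV.ZS

section
/-!
# MP_a8dae7_an, CV: Poisson summation in several variables (generic part, a copy from MP_cb8a44_nt/RC/POI)
-/
set_option autoImplicit false

namespace Pool.Agent.Lib.MP_a8dae7_an.CV

namespace POIM

open MeasureTheory Set

/-- Integer vectors as real vectors. -/
def ix {n : ℕ} (x : Fin n → ℤ) : Fin n → ℝ := fun i => (x i : ℝ)

lemma ix_add {n : ℕ} (x y : Fin n → ℤ) : ix (x + y) = ix x + ix y := by
  funext i
  simp [ix]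

/-- The exponential. -/
noncomputable def ek {n : ℕ} (k : Fin n → ℤ) (t : Fin n → ℝ) : ℂ :=
  Complex.exp (-(2 * Real.pi * Complex.I * ∑ i, (k i : ℂ) * (t i : ℂ)))

lemma ek_norm {n : ℕ} (k : Fin n → ℤ) (t : Fin n → ℝ) : ‖ek k t‖ = 1 := by
  have h : -(2 * (Real.pi : ℂ) * Complex.I * ∑ i, (k i : ℂ) * (t i : ℂ)) =
      ((-(2 * Real.pi * ∑ i, (k i : ℝ) * t i) : ℝ) : ℂ) * Complex.I := by
    push_cast
    ring
  unfold ek
  rw [h, Complex.norm_exp_ofReal_mul_I]

lemma ek_cont {n : ℕ} (k : Fin n → ℤ) : Continuous (ek k) := by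
  unfold ek
  fun_prop

lemma ek_add {n : ℕ} (k : Fin n → ℤ) (t : Fin n → ℝ) (m : Fin n → ℤ) :
    ek k (t + ix m) = ek k t := by
  unfold ek
  have h : -(2 * (Real.pi : ℂ) * Complex.I * ∑ i, (k i : ℂ) * (((t + ix m) i : ℝ) : ℂ)) =
      -(2 * (Real.pi : ℂ) * Complex.I * ∑ i, (k i : ℂ) * (t i : ℂ)) +
        ((-∑ i, k i * m i : ℤ) : ℂ) * (2 * Real.pi * Complex.I) := by
    simp only [Pi.add_apply, ix, Complex.ofReal_add, Complex.ofReal_intCast, mul_add,
      Finset.sum_add_distrib]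
    push_cast
    ring
  rw [h, Complex.exp_add, Complex.exp_int_mul_two_pi_mul_I, mul_one]

/-- The cubes. -/
def cb {n : ℕ} (m : Fin n → ℤ) : Set (Fin n → ℝ) := {x | ∀ i, x i ∈ Ioc (m i : ℝ) (m i + 1)}

lemma cb_meas {n : ℕ} (m : Fin n → ℤ) : MeasurableSet (cb m) := by
  have : cb m = Set.pi Set.univ fun i => Ioc (m i : ℝ) (m i + 1) := by
    ext x
    simp [cb]
  rw [this]
  exact MeasurableSet.univ_pi fun i => measurableSet_Ioc

lemma cb_disj {n : ℕ} : Pairwise (Function.onFun Disjoint (cb (n := n))) := by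
  intro m m' hmm
  rw [Function.onFun, Set.disjoint_left]
  intro x hx hx'
  apply hmm
  funext i
  obtain ⟨h1, h2⟩ := hx i
  obtain ⟨h3, h4⟩ := hx' i
  have h5 : (m i : ℝ) < m' i + 1 := lt_of_lt_of_le h1 h4
  have h6 : (m' i : ℝ) < m i + 1 := lt_of_lt_of_le h3 h2
  have h7 : m i < m' i + 1 := by exact_mod_cast h5
  have h8 : m' i < m i + 1 := by exact_mod_cast h6
  omega

lemma cb_union {n : ℕ} : (⋃ m : Fin n → ℤ, cb m) = univ := by
  rw [eq_univ_iff_forall]
  intro x
  rw [mem_iUnion]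
  refine ⟨fun i => ⌈x i⌉ - 1, fun i => ?_⟩
  constructor
  · have := Int.ceil_lt_add_one (x i)
    push_cast
    linarith
  · have := Int.le_ceil (x i)
    push_cast
    linarith

lemma cb_add {n : ℕ} (m : Fin n → ℤ) (x : Fin n → ℝ) : x + ix m ∈ cb m ↔ x ∈ cb (0 : Fin n → ℤ) := by
  unfold cb ix
  simp only [mem_ofPred_eq, Pi.add_apply, mem_Ioc, Pi.zero_apply, Int.cast_zero]
  refine forall_congr' fun i => ?_
  constructor
  · rintro ⟨h1, h2⟩
    constructor <;> linarith
  · rintro ⟨h1, h2⟩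
    constructor <;> linarith

lemma integral_cb {n : ℕ} {V : Type} [NormedAddCommGroup V] [NormedSpace ℝ V]
    (h : (Fin n → ℝ) → V) (m : Fin n → ℤ) :
    ∫ x in cb m, h x = ∫ x in cb (0 : Fin n → ℤ), h (x + ix m) := by
  rw [← integral_indicator (cb_meas m), ← integral_indicator (cb_meas 0),
    ← integral_add_right_eq_self _ (ix m)]
  congr 1
  funext x
  by_cases hx : x ∈ cb (0 : Fin n → ℤ)
  · rw [indicator_of_mem hx, indicator_of_mem ((cb_add m x).2 hx)]
  · rw [indicator_of_notMem hx, indicator_of_notMem (fun h => hx ((cb_add m x).1 h))]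

lemma hasSum_cb {n : ℕ} {V : Type} [NormedAddCommGroup V] [NormedSpace ℝ V]
    (h : (Fin n → ℝ) → V) (hi : Integrable h) :
    HasSum (fun m : Fin n → ℤ => ∫ x in cb (0 : Fin n → ℤ), h (x + ix m)) (∫ x, h x) := by
  have h1 := hasSum_integral_iUnion (f := h) (μ := volume) (fun m : Fin n → ℤ => cb_meas m) cb_disj
    (by rw [cb_union]; exact hi.integrableOn)
  rw [cb_union, setIntegral_univ] at h1
  have h2 : (fun m : Fin n → ℤ => ∫ x in cb m, h x) =
      fun m : Fin n → ℤ => ∫ x in cb (0 : Fin n → ℤ), h (x + ix m) := funext (integral_cb h)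
  rwa [h2] at h1

/-- The periodization. -/
noncomputable def per {n : ℕ} (g : (Fin n → ℝ) → ℂ) (t : Fin n → ℝ) : ℂ :=
  ∑' x : Fin n → ℤ, g (t + ix x)

lemma per_add {n : ℕ} (g : (Fin n → ℝ) → ℂ) (t : Fin n → ℝ) (m : Fin n → ℤ) :
    per g (t + ix m) = per g t := by
  unfold per
  rw [← (Equiv.addLeft m).tsum_eq (fun x : Fin n → ℤ => g (t + ix x))]
  refine tsum_congr fun x => ?_
  congr 1
  show t + ix m + ix x = t + ix (m + x)
  rw [ix_add, add_assoc]

lemma per_cont {n : ℕ} (g : (Fin n → ℝ) → ℂ) (hc : Continuous g)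
    (hloc : ∀ R : ℝ, ∃ u : (Fin n → ℤ) → ℝ, Summable u ∧ ∀ x t, ‖t‖ ≤ R → ‖g (t + ix x)‖ ≤ u x) :
    Continuous (per g) := by
  rw [continuous_iff_continuousAt]
  intro t
  obtain ⟨u, hu, hu'⟩ := hloc (‖t‖ + 1)
  have h1 : ContinuousOn (per g) (Metric.ball 0 (‖t‖ + 1)) := by
    refine continuousOn_tsum (fun x => ?_) hu (fun x s hs => hu' x s ?_)
    · exact (hc.comp (continuous_id.add continuous_const)).continuousOn
    · rw [mem_ball_zero_iff] at hs
      exact hs.le
  exact h1.continuousAt (Metric.isOpen_ball.mem_nhds (by rw [mem_ball_zero_iff]; linarith))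

/-- The projection to the torus. -/
def prj {n : ℕ} (t : Fin n → ℝ) : UnitAddTorus (Fin n) := fun i => (t i : UnitAddCircle)

lemma prj_quot {n : ℕ} : IsOpenQuotientMap (prj (n := n)) := by
  have := IsOpenQuotientMap.piMap (A := fun _ : Fin n => ℝ) (B := fun _ : Fin n => UnitAddCircle)
    (f := fun _ => (QuotientAddGroup.mk : ℝ → UnitAddCircle))
    (fun _ => QuotientAddGroup.isOpenQuotientMap_mk)
  exact this

lemma prj_eq {n : ℕ} {s t : Fin n → ℝ} (h : prj s = prj t) : ∃ m : Fin n → ℤ, s = t + ix m := by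
  have h1 : ∀ i, ∃ m : ℤ, s i = t i + m := by
    intro i
    have h2 : ((s i : ℝ) : UnitAddCircle) = ((t i : ℝ) : UnitAddCircle) := congrFun h i
    rw [eq_comm, QuotientAddGroup.eq] at h2
    obtain ⟨m, hm⟩ := AddSubgroup.mem_zmultiples_iff.1 h2
    refine ⟨m, ?_⟩
    rw [zsmul_one] at hm
    linarith
  choose m hm using h1
  exact ⟨m, funext hm⟩

lemma mFourier_prj {n : ℕ} (k : Fin n → ℤ) (t : Fin n → ℝ) :
    UnitAddTorus.mFourier (-k) (prj t) = ek k t := by
  show ∏ i, fourier ((-k) i) ((t i : ℝ) : UnitAddCircle) = _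
  have : ∀ i, fourier ((-k) i) ((t i : ℝ) : UnitAddCircle) =
      Complex.exp (-(2 * Real.pi * Complex.I * ((k i : ℂ) * (t i : ℂ)))) := by
    intro i
    rw [fourier_coe_apply]
    congr 1
    push_cast [Pi.neg_apply]
    ring
  rw [Finset.prod_congr rfl fun i _ => this i, ← Complex.exp_sum]
  unfold ek
  congr 1
  rw [Finset.sum_neg_distrib, Finset.mul_sum]

/-- Poisson summation in several variables. -/
theorem poisson {n : ℕ} (g : (Fin n → ℝ) → ℂ) (hc : Continuous g) (hi : Integrable g)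
    (hloc : ∀ R : ℝ, ∃ u : (Fin n → ℤ) → ℝ, Summable u ∧ ∀ x t, ‖t‖ ≤ R → ‖g (t + ix x)‖ ≤ u x)
    (hsum : Summable fun k : Fin n → ℤ => ∫ s, g s * ek k s) (t : Fin n → ℝ) :
    HasSum (fun k : Fin n → ℤ => (∫ s, g s * ek k s) * ek (-k) t) (per g t) := by
  have hpc := per_cont g hc hloc
  have hsurj : Function.Surjective (prj (n := n)) := prj_quot.surjective
  let f : UnitAddTorus (Fin n) → ℂ := fun θ => per g (Function.surjInv hsurj θ)
  have hf : ∀ s, f (prj s) = per g s := by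
    intro s
    obtain ⟨m, hm⟩ := prj_eq (Function.surjInv_eq hsurj (prj s))
    show per g (Function.surjInv hsurj (prj s)) = per g s
    rw [hm, per_add]
  have hfc : Continuous f := by
    rw [prj_quot.isQuotientMap.continuous_iff]
    have : f ∘ prj = per g := funext hf
    rw [this]
    exact hpc
  let fc : C(UnitAddTorus (Fin n), ℂ) := ⟨f, hfc⟩
  have hint : ∀ k : Fin n → ℤ, Integrable (fun s => g s * ek k s) := by
    intro k
    refine hi.mul_bdd (c := 1) (ek_cont k).aestronglyMeasurable ?_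
    exact Filter.Eventually.of_forall fun s => (ek_norm k s).le
  have hcoef : ∀ k : Fin n → ℤ, UnitAddTorus.mFourierCoeff fc k = ∫ s, g s * ek k s := by
    intro k
    rw [UnitAddTorus.mFourierCoeff_eq_integral _ _ 0]
    have hset : {x : Fin n → ℝ | ∀ i, x i ∈ Ioc ((0 : Fin n → ℝ) i) ((0 : Fin n → ℝ) i + 1)} =
        cb (0 : Fin n → ℤ) := by
      ext x
      simp [cb]
    rw [hset]
    have h1 : ∀ x : Fin n → ℝ, UnitAddTorus.mFourier (-k) (fun i => ((x i : ℝ) : UnitAddCircle)) •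
        fc (fun i => ((x i : ℝ) : UnitAddCircle)) =
        ∑' m : Fin n → ℤ, g (x + ix m) * ek k (x + ix m) := by
      intro x
      have h2 : UnitAddTorus.mFourier (-k) (fun i => ((x i : ℝ) : UnitAddCircle)) = ek k x :=
        mFourier_prj k x
      have h3 : fc (fun i => ((x i : ℝ) : UnitAddCircle)) = per g x := hf x
      rw [h2, h3, smul_eq_mul, mul_comm]
      unfold per
      rw [← tsum_mul_right]
      refine tsum_congr fun m => ?_
      rw [ek_add]
    rw [integral_congr_ae (Filter.Eventually.of_forall h1)]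
    have h4 := integral_tsum_of_summable_integral_norm (μ := volume.restrict (cb (0 : Fin n → ℤ)))
      (F := fun (m : Fin n → ℤ) (x : Fin n → ℝ) => g (x + ix m) * ek k (x + ix m))
      (fun m => ((hint k).comp_add_right (ix m)).integrableOn)
      (by
        have := (hasSum_cb (fun x => ‖g x * ek k x‖) (hint k).norm).summable
        exact this)
    rw [← h4]
    exact (hasSum_cb (fun x => g x * ek k x) (hint k)).tsum_eq
  have hsummable : Summable (UnitAddTorus.mFourierCoeff fc) := by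
    refine hsum.congr fun k => ?_
    exact (hcoef k).symm
  have h1 := UnitAddTorus.hasSum_mFourier_series_apply_of_summable hsummable (prj t)
  have h2 : fc (prj t) = per g t := hf t
  rw [h2] at h1
  have h3 : (fun k : Fin n → ℤ => UnitAddTorus.mFourierCoeff fc k •
      UnitAddTorus.mFourier k (prj t)) =
      fun k : Fin n → ℤ => (∫ s, g s * ek k s) * ek (-k) t := by
    funext k
    have h4 := mFourier_prj (-k) t
    rw [neg_neg] at h4
    rw [h4, hcoef k, smul_eq_mul]
  rwa [h3] at h1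

end POIM

end Pool.Agent.Lib.MP_a8dae7_an.CV
end

section
/-!
# MP_a8dae7_an, CV: module PS. Poisson summation for the majorant.
-/
set_option autoImplicit false

open MeasureTheory
open scoped ContDiff

namespace Pool.Agent.Lib.MP_a8dae7_an.CV

namespace PSM

theorem ex_norm {d : ℕ} (n x : EE d) : ‖ex n x‖ = 1 := by
  unfold ex
  rw [mul_comm, Complex.norm_exp_ofReal_mul_I]

theorem ex_mul {d : ℕ} (n x y : EE d) : ex n x * ex n y = ex n (x + y) := by
  unfold ex
  rw [← Complex.exp_add, inner_add_right]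
  congr 1
  push_cast
  ring

theorem ex_cont {d : ℕ} (x : EE d) : Continuous fun n : EE d => ex n x := by
  unfold ex
  fun_prop

theorem WW_cont {d : ℕ} (om : EE d) (lam r : ℝ) : Continuous (WW om lam r) := by
  unfold WW pq
  fun_prop

theorem toLp_ix {d : ℕ} (n : Fin d → ℤ) : (WithLp.toLp 2 (POIM.ix n) : EE d) = zv n := rfl

theorem ek_eq {d : ℕ} (m : Fin d → ℤ) (s : Fin d → ℝ) :
    POIM.ek m s = ex (WithLp.toLp 2 s) ((-(2 * Real.pi)) • zv m) := by
  unfold POIM.ek ex
  congr 1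
  rw [inner_smul_right, PiLp.inner_apply]
  simp only [zv, RCLike.inner_apply, conj_trivial]
  push_cast
  ring

theorem integral_toLp {d : ℕ} (F : EE d → ℂ) :
    ∫ s : Fin d → ℝ, F (WithLp.toLp 2 s) = ∫ xi, F xi :=
  (EuclideanSpace.volume_preserving_symm_measurableEquiv_toLp (Fin d)).symm.integral_comp' F

theorem specPS (hFT : SpecFT) (hKN : SpecKN) : SpecPS := by
  intro k om lam r hom hlam hr
  refine ⟨PSAM.summable_WW hom hlam hr, fun R => PSAM.Kf_loc hKN hom hlam hr R, fun x => ?_⟩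
  obtain ⟨hint, hF⟩ := hFT k om lam r hom hlam hr
  let G : EE (k + 1) → ℂ := fun xi => ((WW om lam r xi : ℝ) : ℂ) * ex xi x
  let g : (Fin (k + 1) → ℝ) → ℂ := fun s => G (WithLp.toLp 2 s)
  have hGc : Continuous G := by
    have h1 := WW_cont om lam r
    have h2 := ex_cont x
    exact (Complex.continuous_ofReal.comp h1).mul h2
  have hgc : Continuous g := hGc.comp (PiLp.continuous_toLp 2 _)
  have hGn : ∀ xi, ‖G xi‖ = WW om lam r xi := by
    intro xi
    show ‖((WW om lam r xi : ℝ) : ℂ) * ex xi x‖ = _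
    rw [norm_mul, ex_norm, mul_one, Complex.norm_real, Real.norm_of_nonneg (PSAM.WW_pos om lam r xi).le]
  have hGi : Integrable G := by
    refine hint.mono' hGc.aestronglyMeasurable (Filter.Eventually.of_forall fun xi => ?_)
    exact (hGn xi).le
  have hgi : Integrable g :=
    (EuclideanSpace.volume_preserving_symm_measurableEquiv_toLp (Fin (k + 1))).symm.integrable_comp_emb
      (MeasurableEquiv.toLp 2 (Fin (k + 1) → ℝ)).measurableEmbedding |>.2 hGi
  have hcoef : ∀ m : Fin (k + 1) → ℤ, ∫ s, g s * POIM.ek m s =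
      Kf om lam r (x + (2 * Real.pi) • zv (-m)) := by
    intro m
    have h1 : (fun s : Fin (k + 1) → ℝ => g s * POIM.ek m s) =
        fun s => (fun xi : EE (k + 1) => ((WW om lam r xi : ℝ) : ℂ) *
          ex xi (x + (-(2 * Real.pi)) • zv m)) (WithLp.toLp 2 s) := by
      funext s
      show ((WW om lam r (WithLp.toLp 2 s) : ℝ) : ℂ) * ex (WithLp.toLp 2 s) x * POIM.ek m s = _
      rw [ek_eq, mul_assoc, ex_mul]
    rw [h1]
    refine (integral_toLp (fun xi : EE (k + 1) => ((WW om lam r xi : ℝ) : ℂ) *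
      ex xi (x + (-(2 * Real.pi)) • zv m))).trans ((hF _).trans ?_)
    congr 2
    have h2 : zv (-m) = -zv m := by
      ext i
      simp [zv]
    rw [h2, smul_neg, neg_smul]
  obtain ⟨u, hu, hu'⟩ := PSAM.Kf_loc hKN hom hlam hr ‖x‖
  have hsum0 : Summable fun z : Fin (k + 1) → ℤ => Kf om lam r (x + (2 * Real.pi) • zv z) :=
    Summable.of_norm_bounded hu fun z => hu' z x le_rfl
  have hsum : Summable fun m : Fin (k + 1) → ℤ => ∫ s, g s * POIM.ek m s := by
    have h1 : (fun m : Fin (k + 1) → ℤ => ∫ s, g s * POIM.ek m s) =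
        (fun z : Fin (k + 1) → ℤ => Kf om lam r (x + (2 * Real.pi) • zv z)) ∘ (Equiv.neg _) := by
      funext m
      exact hcoef m
    rw [h1]
    exact (Equiv.neg (Fin (k + 1) → ℤ)).summable_iff.2 hsum0
  have hloc : ∀ R : ℝ, ∃ u : (Fin (k + 1) → ℤ) → ℝ, Summable u ∧ ∀ (z : Fin (k + 1) → ℤ) t, ‖t‖ ≤ R →
      ‖g (t + POIM.ix z)‖ ≤ u z := by
    intro R
    obtain ⟨v, hv, hv'⟩ := PSAM.WW_loc (d := k + 1) hom hlam hr (Real.sqrt (k + 1) * R)
    refine ⟨v, hv, fun z t ht => ?_⟩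
    show ‖G (WithLp.toLp 2 (t + POIM.ix z))‖ ≤ v z
    rw [hGn]
    refine hv' z (WithLp.toLp 2 t) ?_
    have h1 : ‖(WithLp.toLp 2 t : EE (k + 1))‖ ≤ Real.sqrt (k + 1) * ‖t‖ := by
      rw [EuclideanSpace.norm_eq, ← Real.sqrt_sq (norm_nonneg t), ← Real.sqrt_mul (by positivity)]
      apply Real.sqrt_le_sqrt
      calc ∑ i, ‖(WithLp.toLp 2 t : EE (k + 1)) i‖ ^ 2 ≤ ∑ _i : Fin (k + 1), ‖t‖ ^ 2 :=
            Finset.sum_le_sum fun i _ => pow_le_pow_left₀ (norm_nonneg _) (norm_le_pi_norm t i) 2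
        _ = (k + 1) * ‖t‖ ^ 2 := by simp
    exact h1.trans (mul_le_mul_of_nonneg_left ht (Real.sqrt_nonneg _))
  have hP := POIM.poisson g hgc hgi hloc hsum 0
  have h1 : POIM.per g 0 = ∑' n : Fin (k + 1) → ℤ, ((WW om lam r (zv n) : ℝ) : ℂ) * ex (zv n) x := by
    unfold POIM.per
    refine tsum_congr fun n => ?_
    rw [zero_add]
    rfl
  rw [← h1, ← hP.tsum_eq, ← (Equiv.neg (Fin (k + 1) → ℤ)).tsum_eq
    (fun z : Fin (k + 1) → ℤ => Kf om lam r (x + (2 * Real.pi) • zv z))]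
  refine tsum_congr fun m => ?_
  have h2 : POIM.ek (-m) (0 : Fin (k + 1) → ℝ) = 1 := by
    simp [POIM.ek]
  rw [h2, mul_one, hcoef m]
  rfl

end PSM

end Pool.Agent.Lib.MP_a8dae7_an.CV
end
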