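import Pool.Agent.Lib.MP_a8dae7_an.CV.Spec

/-!
# MP_a8dae7_an, CV: `SPL`, splitting off a unit vector
-/

set_option autoImplicit false

open MeasureTheory
open scoped ContDiff

namespace Pool.Agent.Lib.MP_a8dae7_an.CV.SPLM

/-- `b ↦ (0, b)` -/
noncomputable def iota (m : ℕ) : EE m →ₗᵢ[ℝ] EE (m + 1) where
  toFun b := WithLp.toLp 2 (Fin.cons 0 b.ofLp)
  map_add' x y := by
    ext i
    refine Fin.cases ?_ (fun j => ?_) i <;> simp
  map_smul' c x := by
    ext i
    refine Fin.cases ?_ (fun j => ?_) i <;> simp
  norm_map' x := by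
    rw [EuclideanSpace.norm_eq, EuclideanSpace.norm_eq, Fin.sum_univ_succ]
    simp

theorem iota_apply (m : ℕ) (b : EE m) : iota m b = WithLp.toLp 2 (Fin.cons 0 b.ofLp) := rfl

/-- `(t, b)` as a vector -/
theorem cons_eq (m : ℕ) (t : ℝ) (b : EE m) :
    (WithLp.toLp 2 (Fin.cons t b.ofLp) : EE (m + 1)) =
      t • EuclideanSpace.single 0 1 + iota m b := by
  ext i
  rw [iota_apply]
  refine Fin.cases ?_ (fun j => ?_) i <;> simp

/-- the splitting of `EE (m + 1)` -/
noncomputable def spe (m : ℕ) : ℝ × EE m ≃ᵐ EE (m + 1) :=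
  ((MeasurableEquiv.refl ℝ).prodCongr (MeasurableEquiv.toLp 2 (Fin m → ℝ)).symm).trans
    ((MeasurableEquiv.piFinSuccAbove (fun _ : Fin (m + 1) => ℝ) 0).symm.trans
      (MeasurableEquiv.toLp 2 (Fin (m + 1) → ℝ)))

theorem spe_apply (m : ℕ) (p : ℝ × EE m) :
    spe m p = WithLp.toLp 2 (Fin.cons p.1 p.2.ofLp) := by
  ext i
  refine Fin.cases ?_ (fun j => ?_) i <;>
    simp [spe, MeasurableEquiv.piFinSuccAbove, MeasurableEquiv.prodCongr]

theorem spe_mp (m : ℕ) : MeasurePreserving (spe m) (volume.prod volume) volume := by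
  have h1 : MeasurePreserving
      ((MeasurableEquiv.refl ℝ).prodCongr (MeasurableEquiv.toLp 2 (Fin m → ℝ)).symm)
      (volume.prod volume) (volume.prod volume) :=
    (MeasurePreserving.id volume).prod (EuclideanSpace.volume_preserving_symm_measurableEquiv_toLp _)
  have h2 := (volume_preserving_piFinSuccAbove (fun _ : Fin (m + 1) => ℝ) 0).symm
  have h3 := (EuclideanSpace.volume_preserving_symm_measurableEquiv_toLp (Fin (m + 1))).symm
  exact h3.comp (h2.comp h1)

end SPLM

open SPLM in
/-- **SPL** -/
theorem specSPL : SpecSPL := by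
  intro m e he
  have hv : Orthonormal ℝ (({0} : Set (Fin (m + 1))).domRestrict (fun _ => e)) := by
    constructor
    · intro i
      simpa using he
    · intro i j hij
      exact absurd (Subtype.ext (by rw [i.2, j.2])) hij
  obtain ⟨b, hb⟩ := hv.exists_orthonormalBasis_extension_of_card_eq
    (by simp : Module.finrank ℝ (EE (m + 1)) = Fintype.card (Fin (m + 1)))
  have hb0 : b 0 = e := hb 0 rfl
  have hbe : b.repr.symm (EuclideanSpace.single 0 1) = e := by
    rw [b.repr_symm_single, hb0]
  have key : ∀ p : ℝ × EE m, b.repr.symm (spe m p) =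
      p.1 • e + (b.repr.symm.toLinearIsometry.comp (iota m)) p.2 := by
    intro p
    rw [spe_apply, cons_eq, map_add, map_smul, hbe]
    rfl
  refine ⟨b.repr.symm.toLinearIsometry.comp (iota m), ?_, ?_, ?_, ?_⟩
  · intro x
    have : inner ℝ e ((b.repr.symm.toLinearIsometry.comp (iota m)) x) =
        inner ℝ (b.repr.symm (EuclideanSpace.single 0 1)) (b.repr.symm (iota m x)) := by
      rw [hbe]; rfl
    rw [this, LinearIsometryEquiv.inner_map_map, iota_apply]
    simp [EuclideanSpace.inner_single_left]
  · intro q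
    refine ⟨((spe m).symm (b.repr q)).2, ?_⟩
    have h1 := key ((spe m).symm (b.repr q))
    rw [MeasurableEquiv.apply_symm_apply, LinearIsometryEquiv.symm_apply_apply] at h1
    have h2 : ((spe m).symm (b.repr q)).1 = inner ℝ e q := by
      have h3 : inner ℝ e q = ((spe m).symm (b.repr q)).1 := by
        conv_lhs => rw [h1]
        rw [inner_add_right, inner_smul_right, real_inner_self_eq_norm_sq, he]
        have h4 : inner ℝ e ((b.repr.symm.toLinearIsometry.comp (iota m))
            ((spe m).symm (b.repr q)).2) = 0 := by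
          have : inner ℝ e ((b.repr.symm.toLinearIsometry.comp (iota m))
              ((spe m).symm (b.repr q)).2) =
            inner ℝ (b.repr.symm (EuclideanSpace.single 0 1))
              (b.repr.symm (iota m ((spe m).symm (b.repr q)).2)) := by
            rw [hbe]; rfl
          rw [this, LinearIsometryEquiv.inner_map_map, iota_apply]
          simp [EuclideanSpace.inner_single_left]
        rw [h4]; ring
      exact h3.symm
    rw [← h2]
    exact h1
  · have h1 : (fun p : ℝ × EE m => p.1 • e +
        (b.repr.symm.toLinearIsometry.comp (iota m)) p.2) = fun p => b.repr.symm (spe m p) := by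
      funext p; exact (key p).symm
    rw [h1]
    exact (b.repr.symm.toHomeomorph.measurableEmbedding).comp (spe m).measurableEmbedding
  · have h1 : (fun p : ℝ × EE m => p.1 • e +
        (b.repr.symm.toLinearIsometry.comp (iota m)) p.2) = fun p => b.repr.symm (spe m p) := by
      funext p; exact (key p).symm
    rw [h1]
    exact (b.measurePreserving_repr_symm).comp (spe_mp m)

end Pool.Agent.Lib.MP_a8dae7_an.CV
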