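import Pool.Agent.Lib.MP_a8dae7_an.CV.SC

/-!
# MP_a8dae7_an, CV: TT, the `TT*` argument
-/

set_option autoImplicit false

open MeasureTheory
open scoped ContDiff

namespace Pool.Agent.Lib.MP_a8dae7_an.CV.TTM

open SCM

/-- Cauchy-Schwarz for bounded functions on a finite measure space -/
theorem cs {α : Type*} [MeasurableSpace α] (μ : Measure α) [IsFiniteMeasure μ] {f g : α → ℂ}
    (hf : Measurable f) (hg : Measurable g) {Mf Mg : ℝ}
    (hMf : ∀ᵐ a ∂μ, ‖f a‖ ≤ Mf) (hMg : ∀ᵐ a ∂μ, ‖g a‖ ≤ Mg) :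
    ‖∫ a, f a * g a ∂μ‖ ≤ Real.sqrt (∫ a, ‖f a‖ ^ 2 ∂μ) * Real.sqrt (∫ a, ‖g a‖ ^ 2 ∂μ) := by
  have hF2 : Integrable (fun a => ‖f a‖ ^ 2) μ := by
    refine Integrable.of_bound (hf.norm.pow_const 2).aestronglyMeasurable (Mf ^ 2) ?_
    filter_upwards [hMf] with a ha
    rw [Real.norm_of_nonneg (by positivity)]
    exact pow_le_pow_left₀ (norm_nonneg _) ha 2
  have hG2 : Integrable (fun a => ‖g a‖ ^ 2) μ := by
    refine Integrable.of_bound (hg.norm.pow_const 2).aestronglyMeasurable (Mg ^ 2) ?_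
    filter_upwards [hMg] with a ha
    rw [Real.norm_of_nonneg (by positivity)]
    exact pow_le_pow_left₀ (norm_nonneg _) ha 2
  have hI : Integrable (fun a => f a * g a) μ := by
    refine Integrable.of_bound (hf.mul hg).aestronglyMeasurable (Mf * Mg) ?_
    filter_upwards [hMf, hMg] with a ha hb
    rw [norm_mul]
    exact mul_le_mul ha hb (norm_nonneg _) ((norm_nonneg _).trans ha)
  have := opt (x := ‖∫ a, f a * g a ∂μ‖) (B := 1) (F := ∫ a, ‖f a‖ ^ 2 ∂μ) (G := ∫ a, ‖g a‖ ^ 2 ∂μ)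
    zero_le_one (integral_nonneg fun a => by positivity) (integral_nonneg fun a => by positivity) ?_
  · simpa using this
  intro s hs
  calc ‖∫ a, f a * g a ∂μ‖ ≤ ∫ a, ‖f a * g a‖ ∂μ := norm_integral_le_integral_norm _
    _ ≤ ∫ a, (s / 2 * ‖f a‖ ^ 2 + (2 * s)⁻¹ * ‖g a‖ ^ 2) ∂μ := by
        refine integral_mono hI.norm ((hF2.const_mul _).add (hG2.const_mul _)) fun a => ?_
        simp only [norm_mul]
        have e2 : s / 2 * ‖f a‖ ^ 2 + (2 * s)⁻¹ * ‖g a‖ ^ 2 - ‖f a‖ * ‖g a‖ =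
            (2 * s)⁻¹ * (s * ‖f a‖ - ‖g a‖) ^ 2 := by
          field_simp
          ring
        have e3 : 0 ≤ (2 * s)⁻¹ * (s * ‖f a‖ - ‖g a‖) ^ 2 := by positivity
        linarith
    _ = 1 * (s / 2 * (∫ a, ‖f a‖ ^ 2 ∂μ) + (2 * s)⁻¹ * ∫ a, ‖g a‖ ^ 2 ∂μ) := by
        rw [integral_add (hF2.const_mul _) (hG2.const_mul _), integral_const_mul, integral_const_mul,
          one_mul]

/-- `TT*` on finite measure spaces: `∫ chi |∫ K f|² ≤ B ∫ |f|²` -/
theorem tts {α β : Type*} [MeasurableSpace α] [MeasurableSpace β] (μ : Measure α) (ν : Measure β)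
    [IsFiniteMeasure μ] [IsFiniteMeasure ν] (K : α → β → ℂ)
    (hK : Measurable (fun p : α × β => K p.1 p.2)) {M : ℝ} (hM0 : 0 ≤ M)
    (hM : ∀ b b', ‖K b b'‖ ≤ M)
    {chi : β → ℝ} (hchi : Measurable chi) (hchi0 : ∀ b, 0 ≤ chi b) {Mc : ℝ} (hMc : ∀ b, chi b ≤ Mc)
    {B : ℝ} (hB : 0 ≤ B)
    (hJ : ∀ᵐ b ∂μ, ∫ b'', ‖∫ b', ((chi b' : ℝ) : ℂ) * (K b b' * (starRingEnd ℂ) (K b'' b')) ∂ν‖ ∂μ ≤ B)
    {f : α → ℂ} (hf : Measurable f) {Mf : ℝ} (hMf0 : 0 ≤ Mf) (hMf : ∀ a, ‖f a‖ ≤ Mf) :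
    ∫ b', chi b' * ‖∫ b, K b b' * f b ∂μ‖ ^ 2 ∂ν ≤ B * ∫ b, ‖f b‖ ^ 2 ∂μ := by
  have hcj : Measurable (fun z : ℂ => (starRingEnd ℂ) z) := Complex.continuous_conj.measurable
  set J : α → α → ℂ := fun b b'' => ∫ b', ((chi b' : ℝ) : ℂ) * (K b b' * (starRingEnd ℂ) (K b'' b')) ∂ν
    with hJdef
  set G : β → α × α → ℂ := fun b' p =>
    ((chi b' : ℝ) : ℂ) * ((K p.1 b' * f p.1) * (starRingEnd ℂ) (K p.2 b' * f p.2)) with hG
  -- measurability
  have hK1 : Measurable (fun q : β × (α × α) => K q.2.1 q.1) :=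
    hK.comp ((measurable_fst.comp measurable_snd).prodMk measurable_fst)
  have hK2 : Measurable (fun q : β × (α × α) => K q.2.2 q.1) :=
    hK.comp ((measurable_snd.comp measurable_snd).prodMk measurable_fst)
  have hGm : Measurable (Function.uncurry G) := by
    have h1 : Measurable (fun q : β × (α × α) => ((chi q.1 : ℝ) : ℂ)) :=
      Complex.measurable_ofReal.comp (hchi.comp measurable_fst)
    have h2 : Measurable (fun q : β × (α × α) => K q.2.1 q.1 * f q.2.1) :=
      hK1.mul (hf.comp (measurable_fst.comp measurable_snd))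
    have h3 : Measurable (fun q : β × (α × α) => (starRingEnd ℂ) (K q.2.2 q.1 * f q.2.2)) :=
      hcj.comp (hK2.mul (hf.comp (measurable_snd.comp measurable_snd)))
    exact h1.mul (h2.mul h3)
  have hGi : Integrable (Function.uncurry G) (ν.prod (μ.prod μ)) := by
    refine Integrable.of_bound hGm.aestronglyMeasurable (Mc * ((M * Mf) * (M * Mf)))
      (Filter.Eventually.of_forall fun q => ?_)
    simp only [Function.uncurry, hG, norm_mul, RCLike.norm_conj, Complex.norm_real,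
      Real.norm_of_nonneg (hchi0 _)]
    have hMc0 : 0 ≤ Mc := (hchi0 q.1).trans (hMc q.1)
    have h1 : ‖K q.2.1 q.1‖ * ‖f q.2.1‖ ≤ M * Mf := mul_le_mul (hM _ _) (hMf _) (norm_nonneg _) hM0
    have h2 : ‖K q.2.2 q.1‖ * ‖f q.2.2‖ ≤ M * Mf := mul_le_mul (hM _ _) (hMf _) (norm_nonneg _) hM0
    exact mul_le_mul (hMc _) (mul_le_mul h1 h2 (by positivity) (by positivity)) (by positivity) hMc0
  -- step 1
  have s1 : ∀ b', (((chi b' * ‖∫ b, K b b' * f b ∂μ‖ ^ 2 : ℝ)) : ℂ) = ∫ p, G b' p ∂(μ.prod μ) := by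
    intro b'
    have e1 : ∫ p, G b' p ∂(μ.prod μ) = ((chi b' : ℝ) : ℂ) *
        ∫ p : α × α, (K p.1 b' * f p.1) * (starRingEnd ℂ) (K p.2 b' * f p.2) ∂(μ.prod μ) := by
      rw [← integral_const_mul]
    rw [e1, integral_prod_mul (fun a => K a b' * f a) (fun a => (starRingEnd ℂ) (K a b' * f a)),
      integral_conj, Complex.mul_conj']
    push_cast
    ring
  -- step 2
  have s2 : ((∫ b', chi b' * ‖∫ b, K b b' * f b ∂μ‖ ^ 2 ∂ν : ℝ) : ℂ) =
      ∫ p, ∫ b', G b' p ∂ν ∂(μ.prod μ) := by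
    rw [← integral_complex_ofReal]
    simp only [s1]
    exact integral_integral_swap hGi
  -- step 3
  have s3 : ∀ p : α × α, ∫ b', G b' p ∂ν = J p.1 p.2 * (f p.1 * (starRingEnd ℂ) (f p.2)) := by
    intro p
    rw [hJdef]
    simp only
    rw [← integral_mul_const]
    refine integral_congr_ae (Filter.Eventually.of_forall fun b' => ?_)
    simp only [hG, map_mul]
    ring
  have hJm : StronglyMeasurable (Function.uncurry J) := by
    have : StronglyMeasurable (fun q : (α × α) × β => ((chi q.2 : ℝ) : ℂ) *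
        (K q.1.1 q.2 * (starRingEnd ℂ) (K q.1.2 q.2))) := by
      refine Measurable.stronglyMeasurable ?_
      have h1 : Measurable (fun q : (α × α) × β => ((chi q.2 : ℝ) : ℂ)) :=
        Complex.measurable_ofReal.comp (hchi.comp measurable_snd)
      have h2 : Measurable (fun q : (α × α) × β => K q.1.1 q.2) :=
        hK.comp ((measurable_fst.comp measurable_fst).prodMk measurable_snd)
      have h3 : Measurable (fun q : (α × α) × β => (starRingEnd ℂ) (K q.1.2 q.2)) :=
        hcj.comp (hK.comp ((measurable_snd.comp measurable_fst).prodMk measurable_snd))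
      exact h1.mul (h2.mul h3)
    exact this.integral_prod_right' (ν := ν)
  have hJb : ∀ a b, ‖J a b‖ ≤ Mc * (M * M) * (ν.real Set.univ) := by
    intro a b
    refine norm_integral_le_of_norm_le_const (Filter.Eventually.of_forall fun b' => ?_)
    simp only [norm_mul, RCLike.norm_conj, Complex.norm_real, Real.norm_of_nonneg (hchi0 _)]
    have hMc0 : 0 ≤ Mc := (hchi0 b').trans (hMc b')
    exact mul_le_mul (hMc _) (mul_le_mul (hM _ _) (hM _ _) (by positivity) (by positivity))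
      (by positivity) hMc0
  have hJs : ∀ a b, ‖J a b‖ = ‖J b a‖ := by
    intro a b
    have : J a b = (starRingEnd ℂ) (J b a) := by
      rw [hJdef]
      simp only
      rw [← integral_conj]
      refine integral_congr_ae (Filter.Eventually.of_forall fun b' => ?_)
      simp only [map_mul, Complex.conj_conj, Complex.conj_ofReal]
      ring
    rw [this, RCLike.norm_conj]
  -- step 4
  have hi : Integrable (fun p : α × α => J p.1 p.2 * (f p.1 * (starRingEnd ℂ) (f p.2))) (μ.prod μ) := by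
    have := hGi.integral_prod_right
    refine this.congr (Filter.Eventually.of_forall fun p => ?_)
    exact s3 p
  have s4 : ((∫ b', chi b' * ‖∫ b, K b b' * f b ∂μ‖ ^ 2 ∂ν : ℝ) : ℂ) =
      ∫ a, ∫ b, J a b * (f a * (starRingEnd ℂ) (f b)) ∂μ ∂μ := by
    rw [s2]
    simp only [s3]
    exact integral_prod _ hi
  have s5 := schur μ J hJm.aestronglyMeasurable (M := Mc * (M * M) * (ν.real Set.univ))
    (Filter.Eventually.of_forall fun p => hJb _ _) hB hJ
    (by filter_upwards [hJ] with b hb; simpa only [hJs _ b] using hb) hf (hcj.comp hf) hMf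
    (fun a => by simpa [RCLike.norm_conj] using hMf a)
  rw [show (fun a => ∫ b, J a b * (f a * ((fun z : ℂ => (starRingEnd ℂ) z) ∘ f) b) ∂μ) =
    fun a => ∫ b, J a b * (f a * (starRingEnd ℂ) (f b)) ∂μ from rfl, ← s4] at s5
  have e3 : (∫ a, ‖((fun z : ℂ => (starRingEnd ℂ) z) ∘ f) a‖ ^ 2 ∂μ) = ∫ a, ‖f a‖ ^ 2 ∂μ := by
    simp [Function.comp]
  rw [e3, Real.mul_self_sqrt (integral_nonneg fun a => by positivity), Complex.norm_real] at s5
  exact (le_abs_self _).trans s5

end TTM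

open SCM TTM in
/-- **TT** -/
theorem TTM.specTT : SpecTT := by
  intro m R R' B K chi hK hchi hchin hchi0 hchi1 hB hJ f g hf hg ⟨Mf, hMf⟩ ⟨Mg, hMg⟩ hf0 hg0
  set μ : Measure (EE m) := volume.restrict (Metric.closedBall (0 : EE m) R) with hμ
  set ν : Measure (EE m) := volume.restrict (Metric.closedBall (0 : EE m) R') with hν
  have hmD : ∀ (S : ℝ) (b : EE m), b ∈ Metric.closedBall (0 : EE m) S ↔ ‖b‖ ≤ S := fun S b => by
    simp [Metric.mem_closedBall, dist_zero_right]
  obtain ⟨M, hM0, hM⟩ := bdd (R := R) (R' := max R R') hK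
  -- the truncated kernel
  set T : Set (EE m × EE m) := Metric.closedBall (0 : EE m) R ×ˢ Metric.closedBall (0 : EE m) (max R R')
    with hT
  have hTm : MeasurableSet T := measurableSet_closedBall.prod measurableSet_closedBall
  set K' : EE m → EE m → ℂ := fun b b' => T.indicator (fun p => K p.1 p.2) (b, b') with hK'
  have hK'm : Measurable (fun p : EE m × EE m => K' p.1 p.2) := by
    have : (fun p : EE m × EE m => K' p.1 p.2) = T.indicator (fun p => K p.1 p.2) := by
      ext p; rfl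
    rw [this]
    exact hK.measurable.indicator hTm
  have hK'b : ∀ b b', ‖K' b b'‖ ≤ M := by
    intro b b'
    rw [hK']
    simp only
    by_cases h : (b, b') ∈ T
    · rw [Set.indicator_of_mem h]
      exact hM b b' ((hmD _ _).1 h.1) ((hmD _ _).1 h.2)
    · rw [Set.indicator_of_notMem h, norm_zero]
      exact hM0
  have hKe : ∀ b b', ‖b‖ ≤ R → (‖b'‖ ≤ R ∨ ‖b'‖ ≤ R') → K' b b' = K b b' := by
    intro b b' hb hb'
    have h : (b, b') ∈ T := ⟨(hmD _ _).2 hb, (hmD _ _).2 (hb'.elim (fun h => h.trans (le_max_left _ _))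
      fun h => h.trans (le_max_right _ _))⟩
    rw [hK']
    simp only
    rw [Set.indicator_of_mem h]
  -- the function `h`
  set h : EE m → ℂ := fun b' => ∫ b, K' b b' * f b ∂μ with hh
  have hhm : Measurable h := by
    have : StronglyMeasurable (fun q : EE m × EE m => K' q.2 q.1 * f q.2) :=
      ((hK'm.comp (measurable_snd.prodMk measurable_fst)).mul (hf.comp measurable_snd)).stronglyMeasurable
    exact (this.integral_prod_right' (ν := μ)).measurable
  have hMf0 : 0 ≤ Mf := (norm_nonneg _).trans (hMf 0)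
  have hMg0 : 0 ≤ Mg := (norm_nonneg _).trans (hMg 0)
  have hhb : ∀ b', ‖h b'‖ ≤ M * Mf * μ.real Set.univ := fun b' =>
    norm_integral_le_of_norm_le_const (Filter.Eventually.of_forall fun b => by
      rw [norm_mul]
      exact mul_le_mul (hK'b _ _) (hMf _) (norm_nonneg _) hM0)
  -- a bound for `chi`
  obtain ⟨Mc, hMc⟩ : ∃ Mc : ℝ, ∀ b, chi b ≤ Mc := by
    obtain ⟨Mc, hMc⟩ := (isCompact_closedBall (0 : EE m) R').exists_bound_of_continuousOn
      hchi.continuousOn
    refine ⟨max Mc 0, fun b => ?_⟩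
    by_cases hb : ‖b‖ ≤ R'
    · exact ((le_abs_self _).trans (hMc b ((hmD _ _).2 hb))).trans (le_max_left _ _)
    · rw [hchin b (not_le.1 hb)]
      exact le_max_right _ _
  -- step 1: the integral is `∫ g h`
  have e1 : ∫ b, ∫ b', K b b' * (f b * g b') = ∫ b', g b' * h b' ∂μ := by
    rw [dbl (R := R) _ (by
      rintro b b' (hb | hb)
      · simp [hf0 b hb]
      · simp [hg0 b' hb])]
    have e2 : ∫ b in Metric.closedBall (0 : EE m) R, ∫ b' in Metric.closedBall (0 : EE m) R,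
        K b b' * (f b * g b') = ∫ b, ∫ b', K' b b' * (f b * g b') ∂μ ∂μ := by
      refine setIntegral_congr_fun measurableSet_closedBall fun b hb => ?_
      refine setIntegral_congr_fun measurableSet_closedBall fun b' hb' => ?_
      show K b b' * (f b * g b') = K' b b' * (f b * g b')
      rw [hKe b b' ((hmD _ _).1 hb) (Or.inl ((hmD _ _).1 hb'))]
    rw [e2, integral_integral_swap]
    · refine integral_congr_ae (Filter.Eventually.of_forall fun b' => ?_)
      simp only [hh]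
      rw [← integral_const_mul]
      refine integral_congr_ae (Filter.Eventually.of_forall fun b => ?_)
      simp only
      ring
    · refine Integrable.of_bound (Measurable.aestronglyMeasurable ?_) (M * (Mf * Mg))
        (Filter.Eventually.of_forall fun p => ?_)
      · exact hK'm.mul ((hf.comp measurable_fst).mul (hg.comp measurable_snd))
      · simp only [Function.uncurry, norm_mul]
        exact mul_le_mul (hK'b _ _) (mul_le_mul (hMf _) (hMg _) (norm_nonneg _) hMf0) (by positivity) hM0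
  -- step 2: the bound of `∫ |h|²`
  have e3 : ∫ b', ‖h b'‖ ^ 2 ∂μ ≤ ∫ b', chi b' * ‖h b'‖ ^ 2 ∂ν := by
    have i1 : ∫ b', ‖h b'‖ ^ 2 ∂μ = ∫ b' in Metric.closedBall (0 : EE m) R, chi b' * ‖h b'‖ ^ 2 := by
      refine setIntegral_congr_fun measurableSet_closedBall fun b' hb' => ?_
      show ‖h b'‖ ^ 2 = chi b' * ‖h b'‖ ^ 2
      rw [hchi1 b' ((hmD _ _).1 hb'), one_mul]
    have i2 : ∫ b', chi b' * ‖h b'‖ ^ 2 ∂ν = ∫ b', chi b' * ‖h b'‖ ^ 2 := by
      refine setIntegral_eq_integral_of_forall_compl_eq_zero fun b' hb' => ?_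
      rw [hmD, not_le] at hb'
      rw [hchin b' hb', zero_mul]
    have i3 : Integrable (fun b' => chi b' * ‖h b'‖ ^ 2) := by
      rw [← integrableOn_iff_integrable_of_support_subset (s := Metric.closedBall (0 : EE m) R')]
      · refine Integrable.of_bound ((hchi.measurable.mul (hhm.norm.pow_const 2)).aestronglyMeasurable)
          (Mc * (M * Mf * μ.real Set.univ) ^ 2) (Filter.Eventually.of_forall fun b' => ?_)
        have hMc0 : 0 ≤ Mc := (hchi0 b').trans (hMc b')
        rw [Real.norm_of_nonneg (mul_nonneg (hchi0 _) (by positivity))]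
        exact mul_le_mul (hMc _) (pow_le_pow_left₀ (norm_nonneg _) (hhb _) 2) (by positivity) hMc0
      · intro b' hb'
        rw [hmD]
        by_contra hcon
        exact hb' (by show chi b' * ‖h b'‖ ^ 2 = 0; rw [hchin b' (not_le.1 hcon), zero_mul])
    rw [i1, i2]
    exact setIntegral_le_integral i3 (Filter.Eventually.of_forall fun b' =>
      mul_nonneg (hchi0 _) (by positivity))
  have e4 : ∫ b', chi b' * ‖h b'‖ ^ 2 ∂ν ≤ B ^ 2 * ∫ b, ‖f b‖ ^ 2 ∂μ := by
    refine tts μ ν K' hK'm hM0 hK'b hchi.measurable hchi0 hMc (by positivity) ?_ hf hMf0 hMf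
    refine (ae_restrict_iff' measurableSet_closedBall).2 (Filter.Eventually.of_forall fun b hb => ?_)
    rw [hmD] at hb
    refine le_of_eq_of_le ?_ (hJ b hb)
    refine setIntegral_congr_fun measurableSet_closedBall fun b'' hb'' => ?_
    show ‖∫ b', ((chi b' : ℝ) : ℂ) * (K' b b' * (starRingEnd ℂ) (K' b'' b')) ∂ν‖ =
      ‖∫ b', ((chi b' : ℝ) : ℂ) * (K b b' * (starRingEnd ℂ) (K b'' b'))‖
    congr 1
    have e6 : ∫ b' in Metric.closedBall (0 : EE m) R', ((chi b' : ℝ) : ℂ) *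
        (K b b' * (starRingEnd ℂ) (K b'' b')) = ∫ b', ((chi b' : ℝ) : ℂ) *
        (K b b' * (starRingEnd ℂ) (K b'' b')) := by
      refine setIntegral_eq_integral_of_forall_compl_eq_zero fun b' hb' => ?_
      rw [hmD, not_le] at hb'
      rw [hchin b' hb', Complex.ofReal_zero, zero_mul]
    rw [← e6]
    refine setIntegral_congr_fun measurableSet_closedBall fun b' hb' => ?_
    show ((chi b' : ℝ) : ℂ) * (K' b b' * (starRingEnd ℂ) (K' b'' b')) =
      ((chi b' : ℝ) : ℂ) * (K b b' * (starRingEnd ℂ) (K b'' b'))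
    rw [hKe b b' hb (Or.inr ((hmD _ _).1 hb')), hKe b'' b' ((hmD _ _).1 hb'') (Or.inr ((hmD _ _).1 hb'))]
  rw [e1, sgl hf0, sgl hg0]
  refine (cs μ hg hhm (Mf := Mg) (Filter.Eventually.of_forall hMg) (Filter.Eventually.of_forall hhb)).trans ?_
  have e5 : Real.sqrt (∫ b', ‖h b'‖ ^ 2 ∂μ) ≤ B * Real.sqrt (∫ b, ‖f b‖ ^ 2 ∂μ) := by
    refine Real.sqrt_le_iff.2 ⟨by positivity, ?_⟩
    rw [mul_pow, Real.sq_sqrt (integral_nonneg fun a => by positivity)]
    exact e3.trans e4
  calc Real.sqrt (∫ b, ‖g b‖ ^ 2 ∂μ) * Real.sqrt (∫ b', ‖h b'‖ ^ 2 ∂μ)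
      ≤ Real.sqrt (∫ b, ‖g b‖ ^ 2 ∂μ) * (B * Real.sqrt (∫ b, ‖f b‖ ^ 2 ∂μ)) :=
        mul_le_mul_of_nonneg_left e5 (Real.sqrt_nonneg _)
    _ = B * (Real.sqrt (∫ b, ‖f b‖ ^ 2 ∂μ) * Real.sqrt (∫ b, ‖g b‖ ^ 2 ∂μ)) := by ring

end Pool.Agent.Lib.MP_a8dae7_an.CV
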