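import Pool.Agent.Lib.MP_a8dae7_an.CV.Spec

/-!
# MP_a8dae7_an, CV: module C. The trace inequality on a chart, from RD1 and RD2.
-/

set_option autoImplicit false

open MeasureTheory
open scoped ContDiff

namespace Pool.Agent.Lib.MP_a8dae7_an.CV

namespace CM

theorem specC (h1 : SpecRD1) (h2 : SpecRD2) : SpecC := by
  intro m ch eps heps
  obtain ⟨K1, hK1, h1⟩ := h1 (m + 1) ch
  obtain ⟨K2, hK2, h2⟩ := h2 m ch
  obtain ⟨e, he0, he1, he2⟩ : ∃ e : ℝ, 0 < e ∧ e ≤ 1 / 20 ∧ (K1 + K2) * e ≤ eps := by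
    refine ⟨min (1 / 20) (eps / (K1 + K2)), lt_min (by norm_num) (by positivity), min_le_left _ _, ?_⟩
    calc (K1 + K2) * min (1 / 20) (eps / (K1 + K2)) ≤ (K1 + K2) * (eps / (K1 + K2)) :=
          mul_le_mul_of_nonneg_left (min_le_right _ _) (by positivity)
      _ = eps := by field_simp
  obtain ⟨C1, hC1, h1⟩ := h1 e he0 (by linarith)
  obtain ⟨C2, hC2, h2⟩ := h2 e he0 he1
  refine ⟨C1 * C2 + C1, by positivity, ?_⟩
  intro lam s a hlam hs
  have hlam0 : 0 < lam := by linarith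
  have hA : 0 ≤ ∑ n ∈ s, ‖a n‖ ^ 2 := Finset.sum_nonneg fun _ _ => by positivity
  refine (h1 lam s a hlam hs).trans ?_
  have hsum : ∑ c ∈ s.image (cb (lam ^ (2 / 3 - e))),
      ∫ q in Metric.closedBall (0 : EE (m + 1)) (3 / 2 * ch.dl),
        ‖es (s.filter fun n => cb (lam ^ (2 / 3 - e)) n = c) a (ch.X q)‖ ^ 2 ≤
      C2 * lam ^ (K2 * e) * ∑ n ∈ s, ‖a n‖ ^ 2 := by
    calc ∑ c ∈ s.image (cb (lam ^ (2 / 3 - e))),
      ∫ q in Metric.closedBall (0 : EE (m + 1)) (3 / 2 * ch.dl),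
        ‖es (s.filter fun n => cb (lam ^ (2 / 3 - e)) n = c) a (ch.X q)‖ ^ 2
        ≤ ∑ c ∈ s.image (cb (lam ^ (2 / 3 - e))), C2 * lam ^ (K2 * e) *
          ∑ n ∈ s.filter (fun n => cb (lam ^ (2 / 3 - e)) n = c), ‖a n‖ ^ 2 := by
          refine Finset.sum_le_sum fun c _ => h2 lam _ a hlam ?_ ?_
          · intro n hn
            exact hs n (Finset.mem_filter.1 hn).1
          · intro n hn n' hn'
            rw [(Finset.mem_filter.1 hn).2, (Finset.mem_filter.1 hn').2]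
      _ = C2 * lam ^ (K2 * e) * ∑ n ∈ s, ‖a n‖ ^ 2 := by
          rw [← Finset.mul_sum]
          congr 1
          exact Finset.sum_fiberwise_of_maps_to (fun n hn => Finset.mem_image_of_mem _ hn) _
  have hp1 : (0 : ℝ) ≤ C1 * lam ^ (K1 * e) := by positivity
  have h3 := mul_le_mul_of_nonneg_left hsum hp1
  have hpow : lam ^ (K1 * e) * lam ^ (K2 * e) ≤ lam ^ eps := by
    rw [← Real.rpow_add hlam0]
    exact Real.rpow_le_rpow_of_exponent_le hlam (by linarith)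
  have hone : (1 : ℝ) ≤ lam ^ eps := Real.one_le_rpow hlam heps.le
  calc _ ≤ C1 * lam ^ (K1 * e) * (C2 * lam ^ (K2 * e) * ∑ n ∈ s, ‖a n‖ ^ 2) + C1 * ∑ n ∈ s, ‖a n‖ ^ 2 :=
        add_le_add h3 le_rfl
    _ = (C1 * C2 * (lam ^ (K1 * e) * lam ^ (K2 * e)) + C1) * ∑ n ∈ s, ‖a n‖ ^ 2 := by ring
    _ ≤ (C1 * C2 * lam ^ eps + C1 * lam ^ eps) * ∑ n ∈ s, ‖a n‖ ^ 2 := by
        refine mul_le_mul_of_nonneg_right (add_le_add ?_ ?_) hA
        · exact mul_le_mul_of_nonneg_left hpow (by positivity)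
        · nlinarith
    _ = (C1 * C2 + C1) * lam ^ eps * ∑ n ∈ s, ‖a n‖ ^ 2 := by ring

end CM

end Pool.Agent.Lib.MP_a8dae7_an.CV
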