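import Pool.Agent.Lib.MP_a8dae7_an.CV.Spec

/-!
# MP_a8dae7_an, CV: FP. Non-stationary phase for a pair of frequencies.
-/

set_option autoImplicit false

open MeasureTheory Metric Set
open scoped ContDiff

namespace Pool.Agent.Lib.MP_a8dae7_an.CV.FPM

noncomputable section

/-- the functional `x ↦ i ⟨eta, x⟩` -/
def Li {d : ℕ} (eta : EE d) : EE d →L[ℝ] ℂ :=
  (Complex.I : ℂ) • (Complex.ofRealCLM.comp (innerSL ℝ eta))

lemma Li_apply {d : ℕ} (eta x : EE d) : Li eta x = Complex.I * ((inner ℝ eta x : ℝ) : ℂ) := by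
  simp [Li]

lemma Li_norm {d : ℕ} (eta : EE d) : ‖Li eta‖ ≤ ‖eta‖ := by
  refine ContinuousLinearMap.opNorm_le_bound _ (norm_nonneg _) fun x => ?_
  rw [Li_apply, norm_mul, Complex.norm_I, one_mul, Complex.norm_real]
  exact norm_inner_le_norm _ _

lemma ex_eq {d : ℕ} (eta x : EE d) : ex eta x = Complex.exp (Li eta x) := by
  rw [Li_apply, ex]

/-- bounds of the derivatives of a smooth function on a ball -/
lemma deriv_bound {k n : ℕ} (X : EE k → EE n) (hX : ContDiff ℝ ∞ X) (N : ℕ) :
    ∃ M : ℝ, 1 ≤ M ∧ ∀ j ≤ N, ∀ q ∈ closedBall (0 : EE k) 4, ‖iteratedFDeriv ℝ j X q‖ ≤ M := by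
  have h1 : ∀ j : ℕ, ∃ M : ℝ, 0 ≤ M ∧ ∀ q ∈ closedBall (0 : EE k) 4,
      ‖iteratedFDeriv ℝ j X q‖ ≤ M := by
    intro j
    have h2 : Continuous (fun q => iteratedFDeriv ℝ j X q) :=
      hX.continuous_iteratedFDeriv (by exact_mod_cast le_top)
    obtain ⟨M, hM⟩ := (isCompact_closedBall (0 : EE k) 4).exists_bound_of_continuousOn
      h2.continuousOn
    exact ⟨max M 0, le_max_right _ _, fun q hq => (hM q hq).trans (le_max_left _ _)⟩
  choose M hM0 hM using h1
  refine ⟨1 + ∑ j ∈ Finset.range (N + 1), M j, ?_, ?_⟩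
  · have := Finset.sum_nonneg fun j (_ : j ∈ Finset.range (N + 1)) => hM0 j
    linarith
  · intro j hj q hq
    have h2 : M j ≤ ∑ j ∈ Finset.range (N + 1), M j :=
      Finset.single_le_sum (fun j _ => hM0 j) (Finset.mem_range.2 (by omega))
    linarith [hM j q hq]

lemma fderiv_lip {k n : ℕ} {X : EE k → EE n} (hX : ContDiff ℝ ∞ X) {M : ℝ}
    (hM : ∀ q ∈ closedBall (0 : EE k) 4, ‖iteratedFDeriv ℝ 2 X q‖ ≤ M) {q q' : EE k}
    (hq : q ∈ closedBall (0 : EE k) 4) (hq' : q' ∈ closedBall (0 : EE k) 4) :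
    ‖fderiv ℝ X q' - fderiv ℝ X q‖ ≤ M * ‖q' - q‖ := by
  have h1 : ∀ x ∈ closedBall (0 : EE k) 4, DifferentiableAt ℝ (fderiv ℝ X) x := by
    intro x _
    have h2 : ContDiff ℝ 1 (fderiv ℝ X) :=
      hX.fderiv_right (m := 1) (by
        rw [one_add_one_eq_two]
        exact WithTop.coe_le_coe.2 le_top)
    exact h2.differentiable (by norm_num) x
  refine (convex_closedBall (0 : EE k) 4).norm_image_sub_le_of_norm_fderiv_le h1 ?_ hq hq'
  intro x hx
  rw [← norm_iteratedFDeriv_one, norm_iteratedFDeriv_fderiv]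
  exact hM x hx

/-- **FP**, from NG -/
theorem specFP (hNG : SpecNG) : SpecFP := by
  intro k ch N A
  obtain ⟨M, hM1, hM⟩ := deriv_bound ch.X ch.smooth (N + 2)
  obtain ⟨C, hC, hng⟩ := hNG k N M
  set A' : ℝ := ∑ j ∈ Finset.range (N + 1), |A j| with hA'
  have hA'0 : 0 ≤ A' := Finset.sum_nonneg fun j _ => abs_nonneg _
  have hAj : ∀ j ≤ N, A j ≤ A' := fun j hj => (le_abs_self _).trans
    (Finset.single_le_sum (f := fun j => |A j|) (fun j _ => abs_nonneg _)
      (Finset.mem_range.2 (by omega)))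
  set v := volume.real (closedBall (0 : EE k) 1) with hv
  have hv0 : 0 ≤ v := measureReal_nonneg
  refine ⟨C * A' * 2 ^ N + A' * v * (2 * M) ^ N + 1, by positivity, ?_⟩
  intro eta chi h heta hh hchi hsupp hder hgrad
  have hdl : 3 * ch.dl ≤ 1 := by have := ch.dl_le; linarith
  have hsupp1 : ∀ q, 1 < ‖q‖ → chi q = 0 := fun q hq => hsupp q (by linarith)
  have hs0 : 1 ≤ Real.sqrt ‖eta‖ := Real.one_le_sqrt.2 heta
  have hsq : Real.sqrt ‖eta‖ * Real.sqrt ‖eta‖ = ‖eta‖ := Real.mul_self_sqrt (norm_nonneg _)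
  set S := Real.sqrt ‖eta‖ with hS
  have hS0 : 0 < S := by linarith
  have hinv : 0 < h⁻¹ := by positivity
  by_cases hcase : h < 2 * M
  · have h1 : ∀ q, ‖chi q‖ ≤ A' := by
      intro q
      have := hder 0 (Nat.zero_le _) q
      rw [norm_iteratedFDeriv_zero, pow_zero, mul_one] at this
      exact this.trans (hAj 0 (Nat.zero_le _))
    have h2 : ∫ q, ((chi q : ℝ) : ℂ) * ex eta (ch.X q) =
        ∫ q in closedBall (0 : EE k) 1, ((chi q : ℝ) : ℂ) * ex eta (ch.X q) := by
      symm
      apply setIntegral_eq_integral_of_forall_compl_eq_zero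
      intro q hq
      rw [mem_closedBall, dist_zero_right, not_le] at hq
      rw [hsupp1 q hq, Complex.ofReal_zero, zero_mul]
    rw [h2]
    refine (norm_setIntegral_le_of_norm_le_const (C := A')
      (isCompact_closedBall (0 : EE k) 1).measure_lt_top fun q _ => ?_).trans ?_
    · rw [norm_mul, Complex.norm_real, ex_eq, Li_apply, mul_comm Complex.I,
        Complex.norm_exp_ofReal_mul_I, mul_one]
      exact h1 q
    · have h3 : 1 ≤ (2 * M) ^ N * h⁻¹ ^ N := by
        rw [← mul_pow]
        apply one_le_pow₀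
        rw [← div_eq_mul_inv, one_le_div hh]
        exact hcase.le
      calc A' * v ≤ A' * v * ((2 * M) ^ N * h⁻¹ ^ N) :=
            le_mul_of_one_le_right (by positivity) h3
        _ = A' * v * (2 * M) ^ N * h⁻¹ ^ N := by ring
        _ ≤ _ := by
            gcongr
            have : 0 ≤ C * A' * 2 ^ N := by positivity
            linarith
  · rw [not_lt] at hcase
    have hTh : ContDiff ℝ ∞ (fun q => Li eta (ch.X q)) := (Li eta).contDiff.comp ch.smooth
    have ha : ContDiff ℝ ∞ (fun q => ((chi q : ℝ) : ℂ)) := Complex.ofRealCLM.contDiff.comp hchi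
    have hfd : ∀ q w, fderiv ℝ (fun q => Li eta (ch.X q)) q w =
        Complex.I * ((inner ℝ eta (fderiv ℝ ch.X q w) : ℝ) : ℂ) := by
      intro q w
      have h1 : HasFDerivAt (fun q => Li eta (ch.X q)) ((Li eta).comp (fderiv ℝ ch.X q)) q :=
        (Li eta).hasFDerivAt.comp q
          ((ch.smooth.differentiable (by simp)) q).hasFDerivAt
      rw [h1.fderiv, ContinuousLinearMap.comp_apply, Li_apply]
    have key := hng S⁻¹ A' (h / 2) 0 1 (fun q => ((chi q : ℝ) : ℂ)) (fun q => Li eta (ch.X q))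
      (by positivity) (inv_le_one_of_one_le₀ hs0) hA'0 (by positivity) le_rfl zero_le_one ha hTh
      (fun q hq => by rw [hsupp1 q hq, Complex.ofReal_zero]) ?_
    · simp only [ex_eq]
      refine key.trans ?_
      have h1 : (h / 2)⁻¹ ^ N = 2 ^ N * h⁻¹ ^ N := by
        rw [inv_div, div_eq_mul_inv, mul_pow]
      rw [h1]
      calc C * (A' * 1 * (2 ^ N * h⁻¹ ^ N) + 0) = C * A' * 2 ^ N * h⁻¹ ^ N := by ring
        _ ≤ _ := by
            gcongr
            have : 0 ≤ A' * v * (2 * M) ^ N := by positivity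
            linarith
    · intro q0 hq0
      by_cases hz : ∀ q ∈ ball q0 S⁻¹, chi q = 0
      · left
        intro q hq
        rw [hz q hq]
        simp
      · right
        push Not at hz
        obtain ⟨q1, hq1, hne⟩ := hz
        have hball : ∀ q ∈ ball q0 S⁻¹, q ∈ closedBall (0 : EE k) 4 := by
          intro q hq
          rw [mem_ball, dist_eq_norm] at hq
          rw [mem_closedBall, dist_zero_right]
          have h1 : S⁻¹ ≤ 1 := inv_le_one_of_one_le₀ hs0
          have h2 : ‖q‖ ≤ ‖q - q0‖ + ‖q0‖ := by simpa using norm_add_le (q - q0) q0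
          linarith
        refine ⟨?_, ?_, ?_, ?_, ?_⟩
        · intro q _ j hj
          have h1 : ‖iteratedFDeriv ℝ j (fun q => ((chi q : ℝ) : ℂ)) q‖ ≤
              ‖iteratedFDeriv ℝ j chi q‖ := by
            have h2 := Complex.ofRealCLM.norm_iteratedFDeriv_comp_left (𝕜 := ℝ) (x := q)
              (hchi.contDiffAt.of_le (by exact_mod_cast le_top) : ContDiffAt ℝ j chi q)
              (n := j) le_rfl
            refine h2.trans ?_
            rw [Complex.ofRealCLM_norm, one_mul]
          calc _ ≤ (A j * S ^ j) * S⁻¹ ^ j := by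
                gcongr
                exact h1.trans (hder j hj q)
            _ = A j := by
                rw [mul_assoc, ← mul_pow, mul_inv_cancel₀ hS0.ne', one_pow, mul_one]
            _ ≤ A' := hAj j hj
        · intro q hq j h2 hj
          have h1 := (Li eta).norm_iteratedFDeriv_comp_left (𝕜 := ℝ) (x := q)
            (ch.smooth.contDiffAt.of_le (by exact_mod_cast le_top) : ContDiffAt ℝ j ch.X q)
            (n := j) le_rfl
          have h3 : ‖iteratedFDeriv ℝ j (fun q => Li eta (ch.X q)) q‖ ≤ ‖eta‖ * M :=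
            h1.trans (mul_le_mul (Li_norm eta) (hM j (by omega) q (hball q hq)) (norm_nonneg _)
              (norm_nonneg _))
          have h4 : S⁻¹ ^ j ≤ S⁻¹ ^ 2 :=
            pow_le_pow_of_le_one (by positivity) (inv_le_one_of_one_le₀ hs0) h2
          calc _ ≤ (‖eta‖ * M) * S⁻¹ ^ 2 := by gcongr
            _ = M := by rw [← hsq]; field_simp
        · intro w
          rw [hfd]
          simp only [Complex.mul_re, Complex.I_re, Complex.ofReal_re, Complex.I_im,
            Complex.ofReal_im, zero_mul, mul_zero, sub_zero, abs_zero]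
          positivity
        · obtain ⟨w, hw, hw2⟩ := hgrad q1 hne
          refine ⟨w, hw, ?_⟩
          rw [hfd]
          have h1 : (Complex.I * ((inner ℝ eta (fderiv ℝ ch.X q0 w) : ℝ) : ℂ)).im =
              inner ℝ eta (fderiv ℝ ch.X q0 w) := by simp
          rw [h1]
          have hq0' : q0 ∈ closedBall (0 : EE k) 4 := by
            rw [mem_closedBall, dist_zero_right]; linarith
          have h2 := fderiv_lip ch.smooth (fun q hq => hM 2 (by omega) q hq) hq0' (hball q1 hq1)
          have h3 : |inner ℝ eta (fderiv ℝ ch.X q1 w)| ≤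
              |inner ℝ eta (fderiv ℝ ch.X q0 w)| + S * M := by
            have h4 : inner ℝ eta (fderiv ℝ ch.X q1 w) = inner ℝ eta (fderiv ℝ ch.X q0 w) +
                inner ℝ eta ((fderiv ℝ ch.X q1 - fderiv ℝ ch.X q0) w) := by
              rw [← inner_add_right]
              simp
            rw [h4]
            refine (abs_add_le _ _).trans ?_
            gcongr
            have h5 : ‖q1 - q0‖ ≤ S⁻¹ := by
              rw [← dist_eq_norm]; exact (mem_ball.1 hq1).le
            calc |inner ℝ eta ((fderiv ℝ ch.X q1 - fderiv ℝ ch.X q0) w)|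
                ≤ ‖eta‖ * ‖(fderiv ℝ ch.X q1 - fderiv ℝ ch.X q0) w‖ := abs_real_inner_le_norm _ _
              _ ≤ ‖eta‖ * (‖fderiv ℝ ch.X q1 - fderiv ℝ ch.X q0‖ * ‖w‖) := by
                  gcongr
                  exact ContinuousLinearMap.le_opNorm _ _
              _ ≤ ‖eta‖ * ((M * S⁻¹) * 1) := by
                  gcongr
                  exact h2.trans (by gcongr)
              _ = S * M := by rw [← hsq]; field_simp
          have h6 : h / 2 * S ≤ |inner ℝ eta (fderiv ℝ ch.X q0 w)| := by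
            nlinarith
          calc h / 2 = S⁻¹ * (h / 2 * S) := by field_simp
            _ ≤ _ := by gcongr
        · rw [Li_apply, mul_comm Complex.I, Complex.norm_exp_ofReal_mul_I]

end

end Pool.Agent.Lib.MP_a8dae7_an.CV.FPM
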