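import Pool.Agent.Lib.MP_a8dae7_an.CV.Spec

/-!
# MP_a8dae7_an, CV: module GA. Gradients of the phase.
-/

set_option autoImplicit false

open MeasureTheory
open scoped ContDiff

namespace Pool.Agent.Lib.MP_a8dae7_an.CV.GAM

/-- Coordinates with respect to `J` and `nu`. -/
theorem exists_coord {k : ℕ} (ch : Chart k) (x : EE (k + 1)) :
    ∃ (u : EE k) (a : ℝ), x = ch.J u + a • ch.nu := by
  let T : (EE k × ℝ) →ₗ[ℝ] EE (k + 1) :=
    ch.J.toLinearMap.coprod (LinearMap.toSpanSingleton ℝ _ ch.nu)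
  have hT : ∀ p, T p = ch.J p.1 + p.2 • ch.nu := fun p => by
    simp [T]
  have hinj : Function.Injective T := by
    rw [injective_iff_map_eq_zero]
    intro p hp
    rw [hT] at hp
    have h1 : inner ℝ ch.nu (ch.J p.1 + p.2 • ch.nu) = 0 := by rw [hp, inner_zero_right]
    rw [inner_add_right, ch.nu_perp, inner_smul_right, real_inner_self_eq_norm_sq, ch.nu_one] at h1
    have h2 : p.2 = 0 := by linarith
    rw [h2, zero_smul, add_zero] at hp
    have h3 : p.1 = 0 := by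
      have := ch.J.norm_map p.1
      rw [hp, norm_zero] at this
      exact norm_eq_zero.1 this.symm
    exact Prod.ext h3 h2
  have hfr : Module.finrank ℝ (EE k × ℝ) = Module.finrank ℝ (EE (k + 1)) := by
    simp [EE]
  have hsur := (LinearMap.injective_iff_surjective_of_finrank_eq_finrank hfr).1 hinj
  obtain ⟨p, hp⟩ := hsur x
  exact ⟨p.1, p.2, by rw [← hp, hT]⟩

variable {k : ℕ}

theorem inner_coord (ch : Chart k) (u v : EE k) (a b : ℝ) :
    inner ℝ (ch.J u + a • ch.nu) (ch.J v + b • ch.nu) = inner ℝ u v + a * b := by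
  rw [inner_add_left, inner_add_right, inner_add_right, ch.J.inner_map_map, inner_smul_left,
    inner_smul_left, inner_smul_right, inner_smul_right, ch.nu_perp,
    real_inner_comm (ch.nu) (ch.J u), ch.nu_perp, real_inner_self_eq_norm_sq, ch.nu_one]
  simp

theorem norm_coord (ch : Chart k) (u : EE k) (a : ℝ) :
    ‖ch.J u + a • ch.nu‖ ^ 2 = ‖u‖ ^ 2 + a ^ 2 := by
  rw [← real_inner_self_eq_norm_sq, inner_coord, real_inner_self_eq_norm_sq]
  ring

theorem sn_coord (ch : Chart k) (u q : EE k) (a : ℝ) :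
    sn ch (ch.J u + a • ch.nu) q = a - inner ℝ u q := by
  have : ch.nu - ch.J q = ch.J (-q) + (1 : ℝ) • ch.nu := by
    rw [map_neg, one_smul]
    abel
  rw [sn, this, inner_coord, inner_neg_right]
  ring

theorem phase (ch : Chart k) {q : EE k} (hq : ‖q‖ ≤ 4 * ch.dl) (u v : EE k) (a : ℝ) :
    inner ℝ (ch.J u + a • ch.nu) (fderiv ℝ ch.X q v) =
      inner ℝ (ch.J (u + a • q)) (fderiv ℝ ch.X q v) := by
  have h := ch.perp q v hq
  rw [inner_sub_left] at h
  rw [map_add, map_smul, inner_add_left, inner_add_left, inner_smul_left, inner_smul_left]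
  simp only [conj_trivial]
  rw [show inner ℝ ch.nu (fderiv ℝ ch.X q v) = inner ℝ (ch.J q) (fderiv ℝ ch.X q v) by linarith]

theorem exists_dir (ch : Chart k) {q : EE k} (hq : ‖q‖ ≤ 4 * ch.dl) (u : EE k) (a : ℝ) :
    ∃ v : EE k, ‖v‖ ≤ 1 ∧
      ch.c * ‖u + a • q‖ ≤ inner ℝ (ch.J u + a • ch.nu) (fderiv ℝ ch.X q v) := by
  set w := u + a • q with hw
  rcases eq_or_ne w 0 with h0 | h0
  · refine ⟨0, by simp, ?_⟩
    rw [h0]
    simp
  · have hwn : 0 < ‖w‖ := norm_pos_iff.2 h0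
    refine ⟨‖w‖⁻¹ • w, ?_, ?_⟩
    · rw [norm_smul, norm_inv, norm_norm, inv_mul_cancel₀ hwn.ne']
    · rw [phase ch hq, ← hw, map_smul, inner_smul_right]
      have h := ch.mono q w hq
      calc ch.c * ‖w‖ = ‖w‖⁻¹ * (ch.c * ‖w‖ ^ 2) := by field_simp
        _ ≤ _ := mul_le_mul_of_nonneg_left h (by positivity)

/-- **GA** -/
theorem specGA : SpecGA := by
  intro k ch n n' q hnn hq
  obtain ⟨u, a, hu⟩ := exists_coord ch n
  obtain ⟨u', a', hu'⟩ := exists_coord ch n'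
  have hsub : n - n' = ch.J (u - u') + (a - a') • ch.nu := by
    rw [hu, hu', map_sub, sub_smul]
    abel
  have hsn : sn ch n q = a - inner ℝ u q := by rw [hu, sn_coord]
  have hsn' : sn ch n' q = a' - inner ℝ u' q := by rw [hu', sn_coord]
  have hn2 : ‖n‖ ^ 2 = ‖u‖ ^ 2 + a ^ 2 := by rw [hu, norm_coord]
  have hn2' : ‖n'‖ ^ 2 = ‖u'‖ ^ 2 + a' ^ 2 := by rw [hu', norm_coord]
  have he2 : ‖n - n'‖ ^ 2 = ‖u - u'‖ ^ 2 + (a - a') ^ 2 := by rw [hsub, norm_coord]
  have hdl := ch.dl_le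
  have hq16 : ‖q‖ ≤ 1 / 16 := by linarith
  set b : ℝ := a - a' with hb
  set x : EE k := u - u' with hx
  set w : EE k := x + b • q with hw
  -- elementary inequalities
  have hX : 0 ≤ ‖x‖ := norm_nonneg _
  have hE : ‖n - n'‖ ≤ ‖x‖ + |b| := by
    apply abs_le_of_sq_le_sq' _ (by positivity) |>.2
    rw [he2]
    nlinarith [sq_abs b, abs_nonneg b, mul_nonneg hX (abs_nonneg b)]
  have hw1 : ‖x‖ ≤ ‖w‖ + |b| / 16 := by
    have h1 : x = w - b • q := by rw [hw]; abel
    calc ‖x‖ = ‖w - b • q‖ := by rw [← h1]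
      _ ≤ ‖w‖ + ‖b • q‖ := norm_sub_le _ _
      _ ≤ ‖w‖ + |b| * (1 / 16) := by
          rw [norm_smul, Real.norm_eq_abs]
          have := mul_le_mul_of_nonneg_left hq16 (abs_nonneg b)
          linarith
      _ = _ := by ring
  have hxq : |inner ℝ x q| ≤ ‖x‖ / 16 := by
    calc |inner ℝ x q| ≤ ‖x‖ * ‖q‖ := abs_real_inner_le_norm _ _
      _ ≤ ‖x‖ * (1 / 16) := mul_le_mul_of_nonneg_left hq16 hX
      _ = _ := by ring
  obtain ⟨v, hv, hvw⟩ := exists_dir ch hq x b
  rw [← hsub, ← hw] at hvw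
  have hc := ch.c_pos
  constructor
  · intro mu h1 h2 h3
    refine ⟨v, hv, le_trans ?_ hvw⟩
    have h4 : b = (sn ch n q - sn ch n' q) + inner ℝ x q := by
      rw [hsn, hsn', hx, inner_sub_left, hb]
      ring
    have h5 : |b| ≤ 2 * mu + ‖x‖ / 16 := by
      rw [h4]
      calc _ ≤ |sn ch n q - sn ch n' q| + |inner ℝ x q| := abs_add_le _ _
        _ ≤ (|sn ch n q| + |sn ch n' q|) + |inner ℝ x q| := by
            gcongr
            exact abs_sub _ _
        _ ≤ _ := by linarith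
    have h6 : ‖n - n'‖ ≤ 4 * ‖w‖ := by linarith [abs_nonneg b]
    calc ch.c / 4 * ‖n - n'‖ ≤ ch.c / 4 * (4 * ‖w‖) := by gcongr
      _ = ch.c * ‖w‖ := by ring
  · intro th hth0 hth1 hcase
    refine ⟨v, hv, le_trans ?_ hvw⟩
    suffices h : th * ‖n - n'‖ ≤ 4 * ‖w‖ by
      calc ch.c / 4 * th * ‖n - n'‖ = ch.c / 4 * (th * ‖n - n'‖) := by ring
        _ ≤ ch.c / 4 * (4 * ‖w‖) := by gcongr
        _ = ch.c * ‖w‖ := by ring
    -- the orthogonality relation
    have hort : inner ℝ (u + u') w = -(b * (sn ch n q + sn ch n' q)) := by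
      have h1 : ‖u‖ ^ 2 + a ^ 2 = ‖u'‖ ^ 2 + a' ^ 2 := by rw [← hn2, ← hn2', hnn]
      rw [hw, hx, hsn, hsn', hb, inner_add_right, inner_smul_right, inner_sub_right,
        inner_add_left, inner_add_left, inner_add_left, real_inner_self_eq_norm_sq,
        real_inner_self_eq_norm_sq, real_inner_comm u u']
      linear_combination h1
    have hS : 2 * (th * ‖n‖) ≤ |sn ch n q + sn ch n' q| := by
      rcases hcase with ⟨h1, h2⟩ | ⟨h1, h2⟩
      · exact le_trans (by linarith) (le_abs_self _)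
      · exact le_trans (by linarith) (neg_le_abs _)
    have hU : ‖u + u'‖ ≤ 2 * ‖n‖ := by
      have h1 : ‖u‖ ≤ ‖n‖ := by
        apply abs_le_of_sq_le_sq' _ (norm_nonneg _) |>.2
        rw [hn2]; nlinarith [sq_nonneg a]
      have h2 : ‖u'‖ ≤ ‖n‖ := by
        rw [hnn]
        apply abs_le_of_sq_le_sq' _ (norm_nonneg _) |>.2
        rw [hn2']; nlinarith [sq_nonneg a']
      calc _ ≤ ‖u‖ + ‖u'‖ := norm_add_le _ _
        _ ≤ _ := by linarith
    rcases (norm_nonneg n).eq_or_lt with h0 | h0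
    · have h1 : ‖n - n'‖ = 0 := by
        have e1 : n = 0 := norm_eq_zero.1 h0.symm
        have e2 : n' = 0 := norm_eq_zero.1 (by rw [← hnn]; exact h0.symm)
        rw [e1, e2]; simp
      rw [h1]
      have := norm_nonneg w
      linarith
    · have h7 : |b| * (2 * (th * ‖n‖)) ≤ 2 * ‖n‖ * ‖w‖ := by
        calc |b| * (2 * (th * ‖n‖)) ≤ |b| * |sn ch n q + sn ch n' q| := by gcongr
          _ = |inner ℝ (u + u') w| := by rw [hort, abs_neg, abs_mul]
          _ ≤ ‖u + u'‖ * ‖w‖ := abs_real_inner_le_norm _ _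
          _ ≤ _ := by gcongr
      have h8 : th * |b| ≤ ‖w‖ := by
        have h9 : (2 * ‖n‖) * (th * |b|) ≤ (2 * ‖n‖) * ‖w‖ := by linarith
        exact le_of_mul_le_mul_left h9 (by positivity)
      have h10 : th * ‖x‖ ≤ ‖w‖ + ‖w‖ / 16 := by
        calc th * ‖x‖ ≤ th * (‖w‖ + |b| / 16) := by gcongr
          _ = th * ‖w‖ + th * |b| / 16 := by ring
          _ ≤ 1 * ‖w‖ + ‖w‖ / 16 := by gcongr
          _ = _ := by ring
      calc th * ‖n - n'‖ ≤ th * (‖x‖ + |b|) := by gcongr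
        _ = th * ‖x‖ + th * |b| := by ring
        _ ≤ (‖w‖ + ‖w‖ / 16) + ‖w‖ := by linarith
        _ ≤ 4 * ‖w‖ := by linarith [norm_nonneg w]

end Pool.Agent.Lib.MP_a8dae7_an.CV.GAM
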