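import Pool.Agent.Lib.MP_a8dae7_an.CV.Defs

/-!
# CV/IFb: charts from the monotonicity of the derivative
-/

set_option autoImplicit false

open MeasureTheory
open scoped ContDiff

namespace Pool.Agent.Lib.MP_a8dae7_an.CV.IFM

/-- Cauchy-Schwarz for the form `⟨x,y⟩ - ⟨om,x⟩⟨om,y⟩` with a vector of norm one -/
theorem cs {d : ℕ} {om u x : EE d} (hom : ‖om‖ = 1) (hu : inner ℝ om u = 0) :
    inner ℝ u x ^ 2 ≤ ‖u‖ ^ 2 * (inner ℝ x x - inner ℝ om x * inner ℝ om x) := by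
  have h1 : inner ℝ u (x - (inner ℝ om x : ℝ) • om) = inner ℝ u x := by
    rw [inner_sub_right, inner_smul_right, real_inner_comm om u, hu, mul_zero, sub_zero]
  have h2 : ‖x - (inner ℝ om x : ℝ) • om‖ ^ 2 = inner ℝ x x - inner ℝ om x * inner ℝ om x := by
    rw [← real_inner_self_eq_norm_sq, inner_sub_left, inner_sub_right, inner_sub_right,
      inner_smul_left, inner_smul_right, inner_smul_left, inner_smul_right,
      real_inner_self_eq_norm_sq om, hom, real_inner_comm om x]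
    simp only [conj_trivial]
    ring
  rw [← h1, ← h2, ← mul_pow]
  exact sq_le_sq' (by linarith [neg_abs_le (inner ℝ u (x - (inner ℝ om x : ℝ) • om)),
    abs_real_inner_le_norm u (x - (inner ℝ om x : ℝ) • om)]) (real_inner_le_norm _ _)

/-- the gram inequality at one point -/
theorem gram_self {k : ℕ} {J : EE k →ₗᵢ[ℝ] EE (k + 1)} {v : EE k} {x om : EE (k + 1)} {c : ℝ}
    (hc : 0 < c) (hom : ‖om‖ = 1) (hJ : inner ℝ om (J v) = 0)
    (h : c * ‖v‖ ^ 2 ≤ inner ℝ (J v) x) :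
    c ^ 2 * ‖v‖ ^ 2 ≤ inner ℝ x x - inner ℝ om x * inner ℝ om x := by
  have h1 := cs (x := x) hom hJ
  rw [J.norm_map] at h1
  rcases (norm_nonneg v).eq_or_lt with h2 | h2
  · rw [← h2]
    have h3 : inner ℝ x x - inner ℝ om x * inner ℝ om x =
        ‖x - (inner ℝ om x : ℝ) • om‖ ^ 2 := by
      rw [← real_inner_self_eq_norm_sq, inner_sub_left, inner_sub_right, inner_sub_right,
        inner_smul_left, inner_smul_right, inner_smul_left, inner_smul_right,
        real_inner_self_eq_norm_sq om, hom, real_inner_comm om x]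
      simp only [conj_trivial]
      ring
    rw [h3]
    nlinarith [sq_nonneg ‖x - (inner ℝ om x : ℝ) • om‖]
  · have h3 : (c * ‖v‖ ^ 2) ^ 2 ≤ inner ℝ (J v) x ^ 2 :=
      pow_le_pow_left₀ (by positivity) h 2
    have h4 : ‖v‖ ^ 2 * (c ^ 2 * ‖v‖ ^ 2) ≤
        ‖v‖ ^ 2 * (inner ℝ x x - inner ℝ om x * inner ℝ om x) := by
      calc ‖v‖ ^ 2 * (c ^ 2 * ‖v‖ ^ 2) = (c * ‖v‖ ^ 2) ^ 2 := by ring
        _ ≤ _ := h3.trans h1
    exact le_of_mul_le_mul_left h4 (by positivity)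

theorem abs_form {d : ℕ} {om y z : EE d} (hom : ‖om‖ = 1) :
    |inner ℝ y z - inner ℝ om y * inner ℝ om z| ≤ 2 * (‖y‖ * ‖z‖) := by
  have h1 := abs_real_inner_le_norm y z
  have h2 := abs_real_inner_le_norm om y
  have h3 := abs_real_inner_le_norm om z
  rw [hom, one_mul] at h2 h3
  have h4 : |inner ℝ om y * inner ℝ om z| ≤ ‖y‖ * ‖z‖ := by
    rw [abs_mul]
    exact mul_le_mul h2 h3 (abs_nonneg _) (norm_nonneg _)
  have h5 := abs_sub (inner ℝ y z) (inner ℝ om y * inner ℝ om z)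
  linarith

/-- a chart from a map with monotone derivative -/
theorem chart_of {k : ℕ} {X : EE k → EE (k + 1)} {nu : EE (k + 1)}
    {J : EE k →ₗᵢ[ℝ] EE (k + 1)} {c r : ℝ} (hX : ContDiff ℝ ∞ X) (hnu : ‖nu‖ = 1)
    (hperp : ∀ v, inner ℝ nu (J v) = 0) (hc : 0 < c) (hr : 0 < r)
    (hX₁ : ∀ q v, ‖q‖ ≤ r → inner ℝ (nu - J q) (fderiv ℝ X q v) = 0)
    (hX₂ : ∀ q v, ‖q‖ ≤ r → c * ‖v‖ ^ 2 ≤ inner ℝ (J v) (fderiv ℝ X q v)) :
    ∃ ch : Chart k, ch.X = X := by
  obtain ⟨M, hM⟩ : ∃ M : ℝ, M = ‖fderiv ℝ X 0‖ := ⟨_, rfl⟩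
  have hM0 : 0 ≤ M := by rw [hM]; positivity
  obtain ⟨ε, hε⟩ : ∃ ε : ℝ, ε = min 1 (c ^ 2 / (2 * (4 * M + 2))) := ⟨_, rfl⟩
  have hε0 : 0 < ε := by
    rw [hε]
    refine lt_min one_pos (by positivity)
  have hε1 : ε ≤ 1 := by
    rw [hε]
    exact min_le_left _ _
  have hε2 : ε * (4 * M + 2) ≤ c ^ 2 / 2 := by
    have h1 : ε ≤ c ^ 2 / (2 * (4 * M + 2)) := by
      rw [hε]
      exact min_le_right _ _
    have h2 : ε * (4 * M + 2) ≤ c ^ 2 / (2 * (4 * M + 2)) * (4 * M + 2) :=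
      mul_le_mul_of_nonneg_right h1 (by positivity)
    have h3 : c ^ 2 / (2 * (4 * M + 2)) * (4 * M + 2) = c ^ 2 / 2 := by
      field_simp
    linarith
  have hdc : Continuous (fderiv ℝ X) := hX.continuous_fderiv (by simp)
  obtain ⟨δ₁, hδ₁, h₁⟩ := Metric.continuous_iff.1 hdc 0 ε hε0
  obtain ⟨δ₂, hδ₂, h₂⟩ := Metric.continuous_iff.1 hX.continuous 0 (1 / 8) (by norm_num)
  obtain ⟨dl, hdl⟩ : ∃ dl : ℝ, dl = min (1 / 64) (min (r / 4) (min (δ₁ / 5) (δ₂ / 5))) := ⟨_, rfl⟩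
  have hdl0 : 0 < dl := by
    rw [hdl]
    refine lt_min (by norm_num) (lt_min (by positivity) (lt_min (by positivity) (by positivity)))
  have hdl1 : dl ≤ 1 / 64 := by
    rw [hdl]
    exact min_le_left _ _
  have hdl2 : dl ≤ r / 4 := by
    rw [hdl]
    exact (min_le_right _ _).trans (min_le_left _ _)
  have hdl3 : dl ≤ δ₁ / 5 := by
    rw [hdl]
    exact (min_le_right _ _).trans ((min_le_right _ _).trans (min_le_left _ _))
  have hdl4 : dl ≤ δ₂ / 5 := by
    rw [hdl]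
    exact (min_le_right _ _).trans ((min_le_right _ _).trans (min_le_right _ _))
  have hD : ∀ q : EE k, ‖q‖ ≤ 4 * dl → ∀ v, ‖fderiv ℝ X q v - fderiv ℝ X 0 v‖ ≤ ε * ‖v‖ := by
    intro q hq v
    have h3 := h₁ q (by rw [dist_zero_right]; linarith)
    rw [dist_eq_norm] at h3
    rw [← sub_apply]
    exact (ContinuousLinearMap.le_opNorm _ _).trans
      (mul_le_mul_of_nonneg_right h3.le (norm_nonneg _))
  have hD0 : ∀ v, ‖fderiv ℝ X 0 v‖ ≤ M * ‖v‖ := by
    intro v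
    rw [hM]
    exact ContinuousLinearMap.le_opNorm _ _
  refine ⟨{ X := X
            nu := nu
            J := J
            c := min c (c ^ 2 / 2)
            dl := dl
            smooth := hX
            nu_one := hnu
            nu_perp := hperp
            c_pos := lt_min hc (by positivity)
            dl_pos := hdl0
            dl_le := hdl1
            perp := fun q v hq => hX₁ q v (by linarith)
            mono := ?_
            diam := ?_
            gram := ?_ }, rfl⟩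
  · intro q v hq
    exact (mul_le_mul_of_nonneg_right (min_le_left _ _) (by positivity)).trans
      (hX₂ q v (by linarith))
  · intro q q' hq hq'
    have h3 := h₂ q (by rw [dist_zero_right]; linarith)
    have h4 := h₂ q' (by rw [dist_zero_right]; linarith)
    have h5 := dist_triangle_right (X q) (X q') (X 0)
    rw [← dist_eq_norm]
    linarith
  · intro q q' v om hq hq' hom hJ
    refine (mul_le_mul_of_nonneg_right (min_le_right _ _) (by positivity)).trans ?_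
    obtain ⟨x, hx⟩ : ∃ x, x = fderiv ℝ X 0 v := ⟨_, rfl⟩
    obtain ⟨a, ha⟩ : ∃ a, a = fderiv ℝ X q v := ⟨_, rfl⟩
    obtain ⟨b, hb⟩ : ∃ b, b = fderiv ℝ X q' v := ⟨_, rfl⟩
    rw [← ha, ← hb]
    have h3 := gram_self (x := x) hc hom hJ (by rw [hx]; exact hX₂ 0 v (by rw [norm_zero]; exact hr.le))
    have h4 : ‖a - x‖ ≤ ε * ‖v‖ := by rw [ha, hx]; exact hD q hq v
    have h5 : ‖b - x‖ ≤ ε * ‖v‖ := by rw [hb, hx]; exact hD q' hq' v
    have h6 : ‖x‖ ≤ M * ‖v‖ := by rw [hx]; exact hD0 v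
    have h7 : ‖b‖ ≤ (M + ε) * ‖v‖ := by
      have h8 : b = x + (b - x) := by abel
      calc ‖b‖ = ‖x + (b - x)‖ := by rw [← h8]
        _ ≤ ‖x‖ + ‖b - x‖ := norm_add_le _ _
        _ ≤ M * ‖v‖ + ε * ‖v‖ := add_le_add h6 h5
        _ = (M + ε) * ‖v‖ := by ring
    have h8 := abs_form (y := a - x) (z := b) hom
    have h9 := abs_form (y := x) (z := b - x) hom
    have h10 : ‖a - x‖ * ‖b‖ ≤ ε * ‖v‖ * ((M + ε) * ‖v‖) :=
      mul_le_mul h4 h7 (norm_nonneg _) (by positivity)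
    have h11 : ‖x‖ * ‖b - x‖ ≤ M * ‖v‖ * (ε * ‖v‖) :=
      mul_le_mul h6 h5 (norm_nonneg _) (by positivity)
    have h12 : inner ℝ a b - inner ℝ om a * inner ℝ om b =
        (inner ℝ x x - inner ℝ om x * inner ℝ om x) +
        (inner ℝ (a - x) b - inner ℝ om (a - x) * inner ℝ om b) +
        (inner ℝ x (b - x) - inner ℝ om x * inner ℝ om (b - x)) := by
      simp only [inner_sub_left, inner_sub_right]
      ring
    rw [h12]
    have h13 := neg_le_of_abs_le h8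
    have h14 := neg_le_of_abs_le h9
    have h15 : ε * (4 * M + 2 * ε) ≤ c ^ 2 / 2 :=
      (mul_le_mul_of_nonneg_left (by linarith) hε0.le).trans hε2
    have h16 : ε * (4 * M + 2 * ε) * ‖v‖ ^ 2 ≤ c ^ 2 / 2 * ‖v‖ ^ 2 :=
      mul_le_mul_of_nonneg_right h15 (by positivity)
    have h17 : 2 * (ε * ‖v‖ * ((M + ε) * ‖v‖)) + 2 * (M * ‖v‖ * (ε * ‖v‖)) =
        ε * (4 * M + 2 * ε) * ‖v‖ ^ 2 := by ring
    linarith

end Pool.Agent.Lib.MP_a8dae7_an.CV.IFM
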