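import Pool.Agent.Lib.MP_a8dae7_an.CV.Spec
import Pool.Agent.Lib.MP_a8dae7_an.CV.IFa
import Pool.Agent.Lib.MP_a8dae7_an.CV.IFb

/-!
# CURVED, module IF: the chart by normals
-/

set_option autoImplicit false

namespace Pool.Agent.Lib.MP_a8dae7_an.CV.IFM

/-- a positively curved hypersurface is covered by charts -/
theorem specIF : SpecIF := by
  intro k Sg p h
  obtain ⟨X, nu, J, c, r, hX, hnu, hperp, hc, hr, hX₁, hX₂, hcov⟩ := exists_param h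
  obtain ⟨ch, hch⟩ := chart_of hX hnu hperp hc hr hX₁ hX₂
  obtain ⟨ρ, hρ, h1⟩ := hcov ch.dl ch.dl_pos
  refine ⟨ch, ρ, hρ, fun x hx hxp => ?_⟩
  obtain ⟨q, hq, hqx⟩ := h1 x hx hxp
  exact ⟨q, hq, by rw [hch]; exact hqx⟩

end Pool.Agent.Lib.MP_a8dae7_an.CV.IFM
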