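import Pool.Agent.Lib.MP_a8dae7_an.CV.JFa

/-!
# MP_a8dae7_an, CV, module JF: far bound of the `TT*` kernel

Factorisation of `JJ`, application of NG to the alternative `BallAlt` (module JFa), final exponents.
-/

set_option autoImplicit false

open MeasureTheory
open scoped ContDiff

namespace Pool.Agent.Lib.MP_a8dae7_an.CV.JFM

section
variable {m : ℕ} (ch : Chart (m + 1)) (om : EE (m + 2)) (lam r : ℝ) (e : EE (m + 1))
  (L : EE m →ₗᵢ[ℝ] EE (m + 1)) (zt : EE (m + 2)) (sg sg' : ℝ)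

/-- the phase `e^{i lam (t - t'')}` does not depend on `b'` -/
theorem prod_eq (b b'' b' : EE m) :
    ks ch om lam r e L zt sg sg' b b' * (starRingEnd ℂ) (ks ch om lam r e L zt sg sg' b'' b') =
      (((Real.sqrt Real.pi * r / lam * Real.pi ^ (((m + 1 : ℕ) : ℝ) / 2) : ℝ) : ℂ) ^ 2 *
        Complex.exp (((lam * inner ℝ om (ch.X (sl e L sg b) - ch.X (sl e L sg b'')) : ℝ) : ℂ) * Complex.I)) *
      Complex.exp (Th ch om lam r e L zt sg sg' b b'' b') := by
  unfold ks Kf Th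
  rw [map_mul, map_mul, Complex.conj_ofReal, ← Complex.exp_conj, ← Complex.exp_conj, map_mul,
    Complex.conj_I, Complex.conj_ofReal, Complex.exp_add]
  have h : Complex.exp (((lam * inner ℝ om (ch.X (sl e L sg b) - ch.X (sl e L sg b'')) : ℝ) : ℂ) * Complex.I) =
      Complex.exp (Complex.I * ((lam * inner ℝ om (xd ch e L zt sg sg' b b') : ℝ) : ℂ)) *
      Complex.exp (-Complex.I * ((lam * inner ℝ om (xd ch e L zt sg sg' b'' b') : ℝ) : ℂ)) := by
    rw [← Complex.exp_add]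
    congr 1
    unfold xd
    simp only [inner_add_right, inner_sub_right]
    push_cast
    ring
  rw [h]
  ring

theorem norm_JJ (b b'' : EE m) : ‖JJ ch om lam r e L zt sg sg' b b''‖ =
    (Real.sqrt Real.pi * r / lam * Real.pi ^ (((m + 1 : ℕ) : ℝ) / 2)) ^ 2 *
      ‖∫ b', ((cut ch m b' : ℝ) : ℂ) * Complex.exp (Th ch om lam r e L zt sg sg' b b'' b')‖ := by
  unfold JJ
  have h : (fun b' => ((cut ch m b' : ℝ) : ℂ) * (ks ch om lam r e L zt sg sg' b b' *
      (starRingEnd ℂ) (ks ch om lam r e L zt sg sg' b'' b'))) = fun b' =>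
      (((Real.sqrt Real.pi * r / lam * Real.pi ^ (((m + 1 : ℕ) : ℝ) / 2) : ℝ) : ℂ) ^ 2 *
        Complex.exp (((lam * inner ℝ om (ch.X (sl e L sg b) - ch.X (sl e L sg b'')) : ℝ) : ℂ) * Complex.I)) *
      (((cut ch m b' : ℝ) : ℂ) * Complex.exp (Th ch om lam r e L zt sg sg' b b'' b')) := by
    funext b'
    rw [prod_eq ch om lam r e L zt sg sg' b b'' b']
    ring
  rw [h, integral_const_mul, norm_mul, norm_mul, norm_pow, Complex.norm_real, Complex.norm_exp_ofReal_mul_I,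
    mul_one, Real.norm_eq_abs, sq_abs]

end

/-- lower bound of `H` -/
theorem H_lower (c0 c1 lam r La T rho dlt : ℝ) (hc0 : 0 < c0) (hc1 : 0 < c1) (hl : 1 ≤ lam) (hr : 1 ≤ r)
    (hLa : 1 ≤ La) (hT : 1 ≤ T) (hrT : r * T ≤ 2 * La * lam) (hd : 0 < dlt) (hK : La ^ 11 ≤ r * dlt)
    (hrho : rho = c0 * (La ^ 4)⁻¹ * min (r * T / lam) (Real.sqrt (T / (lam * dlt)))) :
    c0 * c1 / 2 * La ≤ c1 * rho * (lam / T) * dlt := by
  have hlam : 0 < lam := by linarith
  have hT0 : 0 < T := by linarith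
  have hLa0 : 0 < La := by linarith
  have hr0 : 0 < r := by linarith
  set g : ℝ := lam / T * dlt with hg
  have hg0 : 0 < g := by positivity
  have hL10 : La ^ 10 / 2 ≤ g := by
    have h1 : La ^ 10 / 2 * (T * (2 * La)) ≤ lam * dlt * (2 * La) := by
      calc La ^ 10 / 2 * (T * (2 * La)) = La ^ 11 * T := by ring
        _ ≤ r * dlt * T := mul_le_mul_of_nonneg_right hK hT0.le
        _ = (r * T) * dlt := by ring
        _ ≤ (2 * La * lam) * dlt := mul_le_mul_of_nonneg_right hrT hd.le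
        _ = lam * dlt * (2 * La) := by ring
    have h2 : La ^ 10 / 2 * T ≤ lam * dlt := by
      have : (La ^ 10 / 2 * T) * (2 * La) ≤ (lam * dlt) * (2 * La) := by linarith
      exact le_of_mul_le_mul_right this (by positivity)
    rw [hg, div_mul_eq_mul_div, le_div_iff₀ hT0]
    exact h2
  have hx : La ^ 5 / 2 ≤ r * T / lam * g := by
    have h1 : r * T / lam * g = r * dlt := by
      rw [hg]
      field_simp
    rw [h1]
    have h2 : La ^ 5 ≤ La ^ 11 := pow_le_pow_right₀ hLa (by norm_num)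
    have h3 : 0 < La ^ 5 := by positivity
    linarith
  have hy : La ^ 5 / 2 ≤ Real.sqrt (T / (lam * dlt)) * g := by
    have h1 : T / (lam * dlt) = g⁻¹ := by
      rw [hg]
      field_simp
    rw [h1]
    have h2 : (Real.sqrt g⁻¹ * g) ^ 2 = g := by
      rw [mul_pow, Real.sq_sqrt (by positivity)]
      field_simp
    have h3 : (La ^ 5 / 2) ^ 2 ≤ (Real.sqrt g⁻¹ * g) ^ 2 := by
      rw [h2]
      have h4 : (La ^ 5 / 2) ^ 2 = La ^ 10 / 4 := by ring
      rw [h4]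
      have h5 : 0 < La ^ 10 := by positivity
      linarith
    exact le_of_sq_le_sq h3 (by positivity)
  have hmin : La ^ 5 / 2 ≤ min (r * T / lam) (Real.sqrt (T / (lam * dlt))) * g := by
    rcases min_choice (r * T / lam) (Real.sqrt (T / (lam * dlt))) with h | h
    · rw [h]; exact hx
    · rw [h]; exact hy
  have h1 : c1 * rho * (lam / T) * dlt = c1 * c0 * (La ^ 4)⁻¹ *
      (min (r * T / lam) (Real.sqrt (T / (lam * dlt))) * g) := by
    rw [hrho, hg]
    ring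
  rw [h1]
  calc c0 * c1 / 2 * La = c1 * c0 * (La ^ 4)⁻¹ * (La ^ 5 / 2) := by
        field_simp
    _ ≤ c1 * c0 * (La ^ 4)⁻¹ * (min (r * T / lam) (Real.sqrt (T / (lam * dlt))) * g) :=
        mul_le_mul_of_nonneg_left hmin (by positivity)

/-- for `lam ≥ max(C,1)^5` the conditions `C ≤ lam`, `C La r ≤ lam` hold -/
theorem big_lam (C lam r eps : ℝ) (hl : 1 ≤ lam) (hr : 1 ≤ r) (hr3 : r ^ 3 ≤ lam ^ 2)
    (heps1 : eps ≤ 1 / 10) (hbig : (max C 1) ^ 5 ≤ lam) : C ≤ lam ∧ C * lam ^ eps * r ≤ lam := by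
  have hlam : 0 < lam := by linarith
  set M := max C 1 with hM
  have hM1 : 1 ≤ M := le_max_right _ _
  have hMC : C ≤ M := le_max_left _ _
  have h1 : M ≤ lam := (le_self_pow₀ hM1 (by norm_num)).trans hbig
  have hM5 : M ≤ lam ^ (1 / 5 : ℝ) := by
    have h2 : M = (M ^ 5) ^ (1 / 5 : ℝ) := by
      rw [← Real.rpow_natCast, ← Real.rpow_mul (by linarith)]
      norm_num
    rw [h2]
    exact Real.rpow_le_rpow (by positivity) hbig (by norm_num)
  have hrl : r ≤ lam ^ (2 / 3 : ℝ) := by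
    have h2 : r = (r ^ 3) ^ (1 / 3 : ℝ) := by
      rw [← Real.rpow_natCast, ← Real.rpow_mul (by linarith)]
      norm_num
    have h3 : lam ^ (2 / 3 : ℝ) = (lam ^ 2) ^ (1 / 3 : ℝ) := by
      rw [← Real.rpow_natCast, ← Real.rpow_mul hlam.le]
      norm_num
    rw [h2, h3]
    exact Real.rpow_le_rpow (by positivity) hr3 (by norm_num)
  have hLa : lam ^ eps ≤ lam ^ (1 / 10 : ℝ) := Real.rpow_le_rpow_of_exponent_le hl heps1
  refine ⟨hMC.trans h1, ?_⟩
  have hp : 0 < lam ^ eps := Real.rpow_pos_of_pos hlam _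
  calc C * lam ^ eps * r ≤ M * lam ^ eps * r := by
        refine mul_le_mul_of_nonneg_right (mul_le_mul_of_nonneg_right hMC hp.le) (by linarith)
    _ ≤ lam ^ (1 / 5 : ℝ) * lam ^ (1 / 10 : ℝ) * lam ^ (2 / 3 : ℝ) := by
        refine mul_le_mul (mul_le_mul hM5 hLa hp.le (by positivity)) hrl (by linarith) (by positivity)
    _ = lam ^ (29 / 30 : ℝ) := by
        rw [← Real.rpow_add hlam, ← Real.rpow_add hlam]
        norm_num
    _ ≤ lam ^ (1 : ℝ) := Real.rpow_le_rpow_of_exponent_le hl (by norm_num)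
    _ = lam := Real.rpow_one _

/-- the final exponents -/
theorem expo (N m N' : ℕ) (eps lam c1 : ℝ) (heps : 0 < eps) (hl : 1 ≤ lam) (hc1 : 0 < c1)
    (hN' : (N : ℝ) + m + 1 ≤ eps * N') :
    (lam ^ eps)⁻¹ ^ N' ≤ lam⁻¹ ^ (N + (m + 1)) ∧
    Real.exp (-(c1 * (lam ^ eps) ^ 2)) ≤ (N'.factorial * c1⁻¹ ^ N') * lam⁻¹ ^ (N + (m + 1)) := by
  have hlam : 0 < lam := by linarith
  have hLa : 1 ≤ lam ^ eps := Real.one_le_rpow hl heps.le
  have hLa0 : 0 < lam ^ eps := by linarith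
  have h1 : (lam ^ eps)⁻¹ ^ N' ≤ lam⁻¹ ^ (N + (m + 1)) := by
    rw [inv_pow, inv_pow]
    refine inv_anti₀ (by positivity) ?_
    rw [← Real.rpow_natCast (lam ^ eps), ← Real.rpow_mul hlam.le, ← Real.rpow_natCast lam]
    refine Real.rpow_le_rpow_of_exponent_le hl ?_
    push_cast
    linarith
  refine ⟨h1, ?_⟩
  set La := lam ^ eps with hLadef
  have h2 : (c1 * La ^ 2) ^ N' / N'.factorial ≤ Real.exp (c1 * La ^ 2) :=
    Real.pow_div_factorial_le_exp _ (by positivity) _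
  have h3 : Real.exp (-(c1 * La ^ 2)) ≤ N'.factorial * ((c1 * La ^ 2) ^ N')⁻¹ := by
    rw [Real.exp_neg]
    have h4 : 0 < (c1 * La ^ 2) ^ N' / N'.factorial := by positivity
    calc (Real.exp (c1 * La ^ 2))⁻¹ ≤ ((c1 * La ^ 2) ^ N' / N'.factorial)⁻¹ := inv_anti₀ h4 h2
      _ = N'.factorial * ((c1 * La ^ 2) ^ N')⁻¹ := by rw [inv_div]; ring
  refine h3.trans ?_
  have h5 : ((c1 * La ^ 2) ^ N')⁻¹ ≤ c1⁻¹ ^ N' * La⁻¹ ^ N' := by
    rw [mul_pow, mul_inv, inv_pow, inv_pow]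
    refine mul_le_mul_of_nonneg_left ?_ (by positivity)
    refine inv_anti₀ (by positivity) ?_
    refine pow_le_pow_left₀ hLa0.le ?_ _
    nlinarith
  calc (N'.factorial : ℝ) * ((c1 * La ^ 2) ^ N')⁻¹ ≤ N'.factorial * (c1⁻¹ ^ N' * La⁻¹ ^ N') :=
        mul_le_mul_of_nonneg_left h5 (by positivity)
    _ = N'.factorial * c1⁻¹ ^ N' * La⁻¹ ^ N' := by ring
    _ ≤ N'.factorial * c1⁻¹ ^ N' * lam⁻¹ ^ (N + (m + 1)) := mul_le_mul_of_nonneg_left h1 (by positivity)

theorem specJF_of (hNG : SpecNG) (hBA : BallAlt) (hJN : SpecJN) : SpecJF := by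
  intro m ch
  refine ⟨11, by norm_num, ?_⟩
  intro eps N heps heps1
  obtain ⟨N', hN'⟩ : ∃ N' : ℕ, (N : ℝ) + m + 1 ≤ eps * N' := by
    obtain ⟨N', h⟩ := exists_nat_ge (((N : ℝ) + m + 1) / eps)
    refine ⟨N', ?_⟩
    rw [div_le_iff₀ heps] at h
    linarith
  obtain ⟨c0, c1, A, B, C, hc0, hc01, hc1, hA, hC, hBA'⟩ := hBA m ch N'
  obtain ⟨C2, hC2, hNG'⟩ := hNG m N' B
  obtain ⟨C3, hC3, hJN'⟩ := hJN m ch
  set l0 : ℝ := (max C 1) ^ 5 with hl0
  have hl01 : 1 ≤ l0 := one_le_pow₀ (le_max_right _ _)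
  set P : ℝ := (Real.sqrt Real.pi * Real.pi ^ (((m + 1 : ℕ) : ℝ) / 2)) ^ 2 with hP
  set D1 : ℝ := P * (C2 * (A * C * (c0 * c1 / 2)⁻¹ ^ N' + C * (N'.factorial * c1⁻¹ ^ N'))) with hD1
  set D2 : ℝ := C3 * l0 ^ (m + 1) * (2 * l0) ^ m * l0 ^ N with hD2
  have hP0 : 0 < P := by positivity
  have hD10 : 0 < D1 := by positivity
  have hD20 : 0 < D2 := by positivity
  refine ⟨D1 + D2, by positivity, ?_⟩
  intro om e L hS lam r sg sg' zt b b'' hl hr hr3 hT h2l hrT hsg hsg' hb hb'' hK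
  have hlam : 0 < lam := by linarith
  have hr0 : 0 < r := by linarith
  set T : ℝ := |inner ℝ om zt| with hTdef
  have hT0 : 0 < T := by linarith
  have hLa : 1 ≤ lam ^ eps := Real.one_le_rpow hl heps.le
  set La := lam ^ eps with hLadef
  have hLa0 : 0 < La := by linarith
  have hrlam : r ≤ lam := by
    have h : r ^ 3 ≤ lam ^ 3 := hr3.trans (pow_le_pow_right₀ hl (by norm_num))
    exact le_of_pow_le_pow_left₀ (by norm_num) hlam.le h
  have hpow : (0 : ℝ) < lam⁻¹ ^ N := by positivity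
  rcases le_total l0 lam with hbig | hsmall
  · obtain ⟨hCl, hCLr⟩ := big_lam C lam r eps hl hr hr3 heps1 hbig
    have hK' : La ^ 11 ≤ r * ‖b - b''‖ := by
      refine le_trans (le_of_eq ?_) hK
      rw [hLadef, ← Real.rpow_natCast, ← Real.rpow_mul hlam.le]
      congr 1
      push_cast
      ring
    have hd : 0 < ‖b - b''‖ := by
      have h : 0 < r * ‖b - b''‖ := lt_of_lt_of_le (by positivity) hK'
      exact pos_of_mul_pos_right h hr0.le
    set rho : ℝ := c0 * (La ^ 4)⁻¹ * min (r * T / lam) (Real.sqrt (T / (lam * ‖b - b''‖))) with hrho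
    have hrho0 : 0 < rho := by
      have : 0 < min (r * T / lam) (Real.sqrt (T / (lam * ‖b - b''‖))) := lt_min (by positivity) (by positivity)
      positivity
    obtain ⟨hrho1, halt⟩ := hBA' om e L hS lam r La sg sg' T rho ‖b - b''‖ zt b b'' hCl hl hr hLa hCLr rfl
      hT (by linarith) (by linarith) hsg hsg' hb hb'' rfl hd hrho
    have hH := H_lower c0 c1 lam r La T rho ‖b - b''‖ hc0 hc1 hl hr hLa hT (by linarith) hd hK' hrho
    have hcL : 0 < c0 * c1 / 2 * La := by positivity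
    have hHpos : 0 < c1 * rho * (lam / T) * ‖b - b''‖ := by positivity
    have hint := hNG' rho A (c1 * rho * (lam / T) * ‖b - b''‖)
      (C * (lam / T) ^ (m + 1) * Real.exp (-(c1 * La ^ 2))) (C * (lam / T) ^ (m + 1))
      (fun q => ((cut ch m q : ℝ) : ℂ)) (Th ch om lam r e L zt sg sg' b b'') hrho0 hrho1 hA hHpos
      (by positivity) (by positivity) (Complex.ofRealCLM.contDiff.comp (cut ch m).contDiff)
      (contDiff_Th ch om lam r e L zt sg sg' b b'' hr0)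
      (by
        intro q hq
        have h : (cut ch m) q = 0 := by
          refine (cut ch m).zero_of_le_dist ?_
          have h1 := ch.dl_le
          have h2 : (cut ch m).rOut = 5 / 2 * ch.dl := rfl
          rw [h2, dist_zero_right]
          linarith
        rw [h]
        simp)
      (by
        intro q0 _
        exact halt q0)
    rw [norm_JJ]
    have hP' : (Real.sqrt Real.pi * r / lam * Real.pi ^ (((m + 1 : ℕ) : ℝ) / 2)) ^ 2 ≤ P := by
      have h : (Real.sqrt Real.pi * r / lam * Real.pi ^ (((m + 1 : ℕ) : ℝ) / 2)) ^ 2 = P * (r / lam) ^ 2 := by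
        rw [hP]
        ring
      rw [h]
      have h2 : (r / lam) ^ 2 ≤ 1 := by
        refine pow_le_one₀ (by positivity) ?_
        rw [div_le_one hlam]
        exact hrlam
      calc P * (r / lam) ^ 2 ≤ P * 1 := mul_le_mul_of_nonneg_left h2 hP0.le
        _ = P := mul_one _
    obtain ⟨hE1, hE2⟩ := expo N m N' eps lam c1 heps hl hc1 hN'
    have hbet : (lam / T) ^ (m + 1) ≤ lam ^ (m + 1) := by
      refine pow_le_pow_left₀ (by positivity) ?_ _
      exact div_le_self hlam.le hT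
    have hHinv : (c1 * rho * (lam / T) * ‖b - b''‖)⁻¹ ^ N' ≤
        (c0 * c1 / 2)⁻¹ ^ N' * lam⁻¹ ^ (N + (m + 1)) := by
      calc (c1 * rho * (lam / T) * ‖b - b''‖)⁻¹ ^ N' ≤ (c0 * c1 / 2 * La)⁻¹ ^ N' :=
            pow_le_pow_left₀ (by positivity) (inv_anti₀ hcL hH) _
        _ = (c0 * c1 / 2)⁻¹ ^ N' * La⁻¹ ^ N' := by rw [mul_inv, mul_pow]
        _ ≤ (c0 * c1 / 2)⁻¹ ^ N' * lam⁻¹ ^ (N + (m + 1)) := mul_le_mul_of_nonneg_left hE1 (by positivity)
    have hlamN : lam ^ (m + 1) * lam⁻¹ ^ (N + (m + 1)) = lam⁻¹ ^ N := by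
      have e0 : lam⁻¹ ^ (N + (m + 1)) = lam⁻¹ ^ N * lam⁻¹ ^ (m + 1) := pow_add _ _ _
      have e1 : lam ^ (m + 1) * lam⁻¹ ^ (m + 1) = 1 := by
        rw [← mul_pow, mul_inv_cancel₀ hlam.ne', one_pow]
      rw [e0]
      calc lam ^ (m + 1) * (lam⁻¹ ^ N * lam⁻¹ ^ (m + 1)) =
          lam⁻¹ ^ N * (lam ^ (m + 1) * lam⁻¹ ^ (m + 1)) := by ring
        _ = lam⁻¹ ^ N := by rw [e1, mul_one]
    have hfin : C2 * (A * (C * (lam / T) ^ (m + 1)) * (c1 * rho * (lam / T) * ‖b - b''‖)⁻¹ ^ N' +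
        C * (lam / T) ^ (m + 1) * Real.exp (-(c1 * La ^ 2))) ≤
        C2 * (A * C * (c0 * c1 / 2)⁻¹ ^ N' + C * (N'.factorial * c1⁻¹ ^ N')) * lam⁻¹ ^ N := by
      have e1 : A * (C * (lam / T) ^ (m + 1)) * (c1 * rho * (lam / T) * ‖b - b''‖)⁻¹ ^ N' ≤
          A * C * (c0 * c1 / 2)⁻¹ ^ N' * lam⁻¹ ^ N := by
        calc A * (C * (lam / T) ^ (m + 1)) * (c1 * rho * (lam / T) * ‖b - b''‖)⁻¹ ^ N' ≤
            A * (C * lam ^ (m + 1)) * ((c0 * c1 / 2)⁻¹ ^ N' * lam⁻¹ ^ (N + (m + 1))) := by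
              refine mul_le_mul ?_ hHinv (by positivity) (by positivity)
              exact mul_le_mul_of_nonneg_left (mul_le_mul_of_nonneg_left hbet hC.le) hA
          _ = A * C * (c0 * c1 / 2)⁻¹ ^ N' * (lam ^ (m + 1) * lam⁻¹ ^ (N + (m + 1))) := by ring
          _ = A * C * (c0 * c1 / 2)⁻¹ ^ N' * lam⁻¹ ^ N := by rw [hlamN]
      have e2 : C * (lam / T) ^ (m + 1) * Real.exp (-(c1 * La ^ 2)) ≤
          C * (N'.factorial * c1⁻¹ ^ N') * lam⁻¹ ^ N := by
        calc C * (lam / T) ^ (m + 1) * Real.exp (-(c1 * La ^ 2)) ≤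
            C * lam ^ (m + 1) * ((N'.factorial * c1⁻¹ ^ N') * lam⁻¹ ^ (N + (m + 1))) := by
              refine mul_le_mul ?_ hE2 (by positivity) (by positivity)
              exact mul_le_mul_of_nonneg_left hbet hC.le
          _ = C * (N'.factorial * c1⁻¹ ^ N') * (lam ^ (m + 1) * lam⁻¹ ^ (N + (m + 1))) := by ring
          _ = C * (N'.factorial * c1⁻¹ ^ N') * lam⁻¹ ^ N := by rw [hlamN]
      calc C2 * (A * (C * (lam / T) ^ (m + 1)) * (c1 * rho * (lam / T) * ‖b - b''‖)⁻¹ ^ N' +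
          C * (lam / T) ^ (m + 1) * Real.exp (-(c1 * La ^ 2))) ≤
          C2 * (A * C * (c0 * c1 / 2)⁻¹ ^ N' * lam⁻¹ ^ N + C * (N'.factorial * c1⁻¹ ^ N') * lam⁻¹ ^ N) :=
            mul_le_mul_of_nonneg_left (add_le_add e1 e2) hC2.le
        _ = C2 * (A * C * (c0 * c1 / 2)⁻¹ ^ N' + C * (N'.factorial * c1⁻¹ ^ N')) * lam⁻¹ ^ N := by ring
    calc (Real.sqrt Real.pi * r / lam * Real.pi ^ (((m + 1 : ℕ) : ℝ) / 2)) ^ 2 *
        ‖∫ b', ((cut ch m b' : ℝ) : ℂ) * Complex.exp (Th ch om lam r e L zt sg sg' b b'' b')‖ ≤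
        P * (C2 * (A * C * (c0 * c1 / 2)⁻¹ ^ N' + C * (N'.factorial * c1⁻¹ ^ N')) * lam⁻¹ ^ N) :=
          mul_le_mul hP' (hint.trans hfin) (norm_nonneg _) hP0.le
      _ = D1 * lam⁻¹ ^ N := by rw [hD1]; ring
      _ ≤ (D1 + D2) * lam⁻¹ ^ N := mul_le_mul_of_nonneg_right (by linarith) hpow.le
  · have h := hJN' om e L hS lam r sg sg' zt b b'' hl hr hT h2l hsg hsg' hb hb''
    refine h.trans ?_
    have h1 : (r / lam) ^ 2 ≤ 1 := by
      refine pow_le_one₀ (by positivity) ?_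
      rw [div_le_one hlam]
      exact hrlam
    have h2 : (lam / T) ^ (m + 1) ≤ l0 ^ (m + 1) := by
      refine pow_le_pow_left₀ (by positivity) ?_ _
      exact (div_le_self hlam.le hT).trans hsmall
    have h3 : (r * T / lam) ^ m ≤ (2 * l0) ^ m := by
      refine pow_le_pow_left₀ (by positivity) ?_ _
      rw [div_le_iff₀ hlam]
      have h4 : La ≤ lam := by
        calc La ≤ lam ^ (1 : ℝ) := Real.rpow_le_rpow_of_exponent_le hl (by linarith)
          _ = lam := Real.rpow_one _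
      calc r * T ≤ 2 * La * lam := hrT
        _ ≤ 2 * l0 * lam := by
            refine mul_le_mul_of_nonneg_right ?_ hlam.le
            linarith
    have h5 : 1 ≤ l0 ^ N * lam⁻¹ ^ N := by
      rw [← mul_pow]
      refine one_le_pow₀ ?_
      rw [← div_eq_mul_inv, one_le_div hlam]
      exact hsmall
    calc C3 * (r / lam) ^ 2 * (lam / T) ^ (m + 1) * (r * T / lam) ^ m ≤
        C3 * 1 * l0 ^ (m + 1) * (2 * l0) ^ m := by
          refine mul_le_mul (mul_le_mul (mul_le_mul_of_nonneg_left h1 hC3.le) h2 (by positivity)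
            (by positivity)) h3 (by positivity) (by positivity)
      _ = C3 * l0 ^ (m + 1) * (2 * l0) ^ m * 1 := by ring
      _ ≤ C3 * l0 ^ (m + 1) * (2 * l0) ^ m * (l0 ^ N * lam⁻¹ ^ N) :=
          mul_le_mul_of_nonneg_left h5 (by positivity)
      _ = D2 * lam⁻¹ ^ N := by rw [hD2]; ring
      _ ≤ (D1 + D2) * lam⁻¹ ^ N := mul_le_mul_of_nonneg_right (by linarith) hpow.le

/-- **JF**: the far bound of the `TT*` kernel -/
theorem specJF (hNG : SpecNG) (hDB : SpecDB) (hGB : SpecGB) (hJN : SpecJN) (hKN : SpecKN) : SpecJF :=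
  specJF_of hNG (ballAlt hKN hDB hGB) hJN

end Pool.Agent.Lib.MP_a8dae7_an.CV.JFM
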