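import Pool.Agent.Lib.MP_a8dae7_an.CV.Defs

/-!
# MP_a8dae7_an, CV: Specs (paper: /team-store/MP_a8dae7_an_CURVED_h81.md)

Every `SpecXXX` is a `def : Prop`; the module `XXX.lean` proves `theorem specXXX (...) : SpecXXX`, in its own
namespace `Pool.Agent.Lib.MP_a8dae7_an.CV.XXXM`, from the Specs named in the docstring (as hypotheses).
-/

set_option autoImplicit false

open MeasureTheory
open scoped ContDiff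

namespace Pool.Agent.Lib.MP_a8dae7_an.CV

/-! ## Part A: linear algebra, Fourier transform, Poisson, duality -/

/-- **SPL** (80). Splitting off a unit vector: `(sg, b) ↦ sg e + L b` is a measure preserving bijection.
Proof: an orthonormal basis of `EE (m+1)` whose first vector is `e` (`Orthonormal.exists_orthonormalBasis_extension_of_card_eq`
or similar), `LinearIsometryEquiv.measurePreserving`, `volume_preserving_piFinSuccAbove`,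
`EuclideanSpace.volume_preserving_measurableEquiv` (names vary). -/
def SpecSPL : Prop := ∀ (m : ℕ) (e : EE (m + 1)), ‖e‖ = 1 →
  ∃ L : EE m →ₗᵢ[ℝ] EE (m + 1), (∀ b, inner ℝ e (L b) = 0) ∧
    (∀ q : EE (m + 1), ∃ b, q = (inner ℝ e q : ℝ) • e + L b) ∧
    MeasurableEmbedding (fun p : ℝ × EE m => p.1 • e + L p.2) ∧
    MeasurePreserving (fun p : ℝ × EE m => p.1 • e + L p.2) (volume.prod volume) volume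

/-- **FT** (200), from SPL. The Fourier transform of the majorant. Proof: `xi = sg om + L eta`; first the integral in `sg`
(substitute `tau = sg - lam + |eta|²/(2 lam)`; `fourierIntegral_gaussian`), then in `eta`
(`GaussianFourier.integral_cexp_neg_mul_sq_norm_add`, `b = AA lam r t`, `Re b > 0`; `(π/b)^(k/2) = π^(k/2) exp(-(k/2) log b)`).
Write `x = t om + L y`. -/
def SpecFT : Prop := ∀ (k : ℕ) (om : EE (k + 1)) (lam r : ℝ), ‖om‖ = 1 → 0 < lam → 0 < r →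
  Integrable (WW om lam r) ∧
    ∀ x : EE (k + 1), ∫ xi, ((WW om lam r xi : ℝ) : ℂ) * ex xi x = Kf om lam r x

/-- **KN** (80). The norm of the kernel, and the two bounds used later.
`Re (1/(4 A(t))) = r²/(4 + (t r²/lam)²)`, `|A(t)| ≥ 1/r²`, `|A(t)| ≥ |t|/(2 lam)`. -/
def SpecKN : Prop := ∀ k : ℕ, ∃ C : ℝ, 0 < C ∧ ∀ (om : EE (k + 1)) (lam r : ℝ) (x : EE (k + 1)),
  ‖om‖ = 1 → 0 < lam → 0 < r →
    ‖Kf om lam r x‖ ≤ C * (r / lam) * r ^ k * Real.exp (-MM om lam r x) ∧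
    (inner ℝ om x ≠ 0 → ‖Kf om lam r x‖ ≤
      C * (r / lam) * (lam / |inner ℝ om x|) ^ ((k : ℝ) / 2) * Real.exp (-MM om lam r x))

/-- **PS** (200), from FT, KN. Poisson summation. Use `poisson` of `Pool/Agent/Lib/MP_cb8a44_nt/RC/POI.lean` (copy the
generic part, lines 1-245, into the module; functions on `Fin d → ℝ`, change of variables
`EuclideanSpace.volume_preserving_measurableEquiv`) with `g s = WW s * e^{i s·x}` at `t = 0`.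
Decay of `WW` (not uniform in `lam`, `r`): `exponent ≤ -c‖xi‖ + C`; decay of `Kf`: by KN, `MM ≥ c‖x‖ - C`
(if `|t| ≥ ‖x‖/2` from the first term; otherwise `pq ≥ 3‖x‖²/4`, and either `t² ≥ ‖x‖` or the second term is `≥ c‖x‖`). -/
def SpecPS : Prop := ∀ (k : ℕ) (om : EE (k + 1)) (lam r : ℝ), ‖om‖ = 1 → 0 < lam → 0 < r →
  Summable (fun n : Fin (k + 1) → ℤ => WW om lam r (zv n)) ∧
  (∀ R : ℝ, ∃ u : (Fin (k + 1) → ℤ) → ℝ, Summable u ∧ ∀ (z : Fin (k + 1) → ℤ) (x : EE (k + 1)), ‖x‖ ≤ R →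
    ‖Kf om lam r (x + (2 * Real.pi) • zv z)‖ ≤ u z) ∧
  ∀ x : EE (k + 1), ∑' n : Fin (k + 1) → ℤ, ((WW om lam r (zv n) : ℝ) : ℂ) * ex (zv n) x =
    ∑' z : Fin (k + 1) → ℤ, Kf om lam r (x + (2 * Real.pi) • zv z)

/-- **DU** (200), from PS. Duality. With `u = es s a ∘ X` on `D`: `(∫_D |u|²)² = |∑_s a_n ∫_D e^{i n X} ū|² ≤
∑|a|² ∑_{n∈s} |∫_D e^{i n X} ū|² ≤ c0⁻¹ ∑|a|² ∑_{n∈ℤ^d} WW(n) |..|² = c0⁻¹ ∑|a|² ∬ (∑_n WW(n) e^{i n (X q - X q')}) ū(q) u(q')`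
`= c0⁻¹ ∑|a|² ∑_z ∬ Kf(X q - X q' + 2πz) ū(q) u(q')`, then the hypothesis with `f = u`. -/
def SpecDU : Prop := ∀ (k : ℕ) (X : EE k → EE (k + 1)) (D : Set (EE k)) (R : ℝ) (om : EE (k + 1))
  (lam r c0 : ℝ) (s : Finset (Fin (k + 1) → ℤ)) (a : (Fin (k + 1) → ℤ) → ℂ) (B : (Fin (k + 1) → ℤ) → ℝ),
  Continuous X → MeasurableSet D → D ⊆ Metric.closedBall 0 R → ‖om‖ = 1 → 0 < lam → 0 < r → 0 < c0 →
  (∀ n ∈ s, c0 ≤ WW om lam r (zv n)) → Summable B → (∀ z, 0 ≤ B z) →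
  (∀ (z : Fin (k + 1) → ℤ) (f : EE k → ℂ), Continuous f →
    ‖∫ q in D, ∫ q' in D, Kf om lam r (X q - X q' + (2 * Real.pi) • zv z) *
      ((starRingEnd ℂ) (f q) * f q')‖ ≤ B z * ∫ q in D, ‖f q‖ ^ 2) →
  ∫ q in D, ‖es s a (X q)‖ ^ 2 ≤ c0⁻¹ * (∑' z, B z) * ∑ n ∈ s, ‖a n‖ ^ 2

/-- **WL** (60). The majorant on the sphere: with `om = n0/lam`, `x = pq/lam² ∈ [0,1]`, `⟨om,n⟩ = lam √(1-x)` (positive since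
`‖n - n0‖ ≤ r ≤ lam`), `|√(1-x) - 1 + x/2| ≤ x²/2`; the exponent is `≥ -1 - r⁶/(4 lam⁴) ≥ -2`. -/
def SpecWL : Prop := ∀ (d : ℕ) (n n0 : EE d) (lam r : ℝ), 1 ≤ lam → 1 ≤ r → r ^ 3 ≤ lam ^ 2 → ‖n‖ = lam →
  ‖n0‖ = lam → ‖n - n0‖ ≤ r → Real.exp (-2) ≤ WW (lam⁻¹ • n0) lam r n

/-- **TR** (80). Trivial bounds: Cauchy-Schwarz, and the number of integer points in a ball. -/
def SpecTR : Prop :=
  (∀ (d : ℕ) (s : Finset (Fin d → ℤ)) (a : (Fin d → ℤ) → ℂ) (x : EE d),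
    ‖es s a x‖ ^ 2 ≤ s.card * ∑ n ∈ s, ‖a n‖ ^ 2) ∧
  (∀ (d : ℕ) (s : Finset (Fin d → ℤ)) (n0 : EE d) (r : ℝ), 0 ≤ r → (∀ n ∈ s, ‖zv n - n0‖ ≤ r) →
    (s.card : ℝ) ≤ (2 * r + 1) ^ d)

/-! ## Part B: operators -/

/-- **SL** (200). Integration over slices: Fubini twice (`q = sg e + L b`), `OB` for the functions
`f(sg e + L ·)` cut off to the ball, and Cauchy-Schwarz in `sg` on an interval of length `2 tau`. -/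
def SpecSL : Prop := ∀ (m : ℕ) (e : EE (m + 1)) (L : EE m →ₗᵢ[ℝ] EE (m + 1))
  (K : EE (m + 1) → EE (m + 1) → ℂ) (R tau sg0 B : ℝ), ‖e‖ = 1 → (∀ b, inner ℝ e (L b) = 0) →
  MeasurableEmbedding (fun p : ℝ × EE m => p.1 • e + L p.2) →
  MeasurePreserving (fun p : ℝ × EE m => p.1 • e + L p.2) (volume.prod volume) volume →
  Continuous (fun p : EE (m + 1) × EE (m + 1) => K p.1 p.2) → 0 ≤ R → 0 ≤ tau → 0 ≤ B →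
  (∀ sg sg' : ℝ, |sg - sg0| ≤ tau → |sg' - sg0| ≤ tau → |sg| ≤ R → |sg'| ≤ R →
    OB m R (fun b b' => K (sl e L sg b) (sl e L sg' b')) B) →
  ∀ f : EE (m + 1) → ℂ, Continuous f →
    ‖∫ q in {q | ‖q‖ ≤ R ∧ |inner ℝ e q - sg0| ≤ tau}, ∫ q' in {q | ‖q‖ ≤ R ∧ |inner ℝ e q - sg0| ≤ tau},
      K q q' * ((starRingEnd ℂ) (f q) * f q')‖ ≤
    2 * tau * B * ∫ q in {q | ‖q‖ ≤ R ∧ |inner ℝ e q - sg0| ≤ tau}, ‖f q‖ ^ 2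

/-- **SC** (120). Schur test. -/
def SpecSC : Prop := ∀ (m : ℕ) (R B : ℝ) (K : EE m → EE m → ℂ),
  Continuous (fun p : EE m × EE m => K p.1 p.2) → 0 ≤ B →
  (∀ b, ‖b‖ ≤ R → ∫ b' in Metric.closedBall (0 : EE m) R, ‖K b b'‖ ≤ B) →
  (∀ b', ‖b'‖ ≤ R → ∫ b in Metric.closedBall (0 : EE m) R, ‖K b b'‖ ≤ B) → OB m R K B

/-- **TT** (180). `TT*`: `|∬ K f g|² ≤ ∫|g|² ∫ chi(b') |∫ K(b,b') f(b) db|² db'` and the last integral is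
`∬ J(b,b'') f(b) conj f(b'')`, Schur test for the hermitian kernel `J`. -/
def SpecTT : Prop := ∀ (m : ℕ) (R R' B : ℝ) (K : EE m → EE m → ℂ) (chi : EE m → ℝ),
  Continuous (fun p : EE m × EE m => K p.1 p.2) → Continuous chi → (∀ b, R' < ‖b‖ → chi b = 0) →
  (∀ b, 0 ≤ chi b) → (∀ b, ‖b‖ ≤ R → chi b = 1) → 0 ≤ B →
  (∀ b, ‖b‖ ≤ R → ∫ b'' in Metric.closedBall (0 : EE m) R,
    ‖∫ b', ((chi b' : ℝ) : ℂ) * (K b b' * (starRingEnd ℂ) (K b'' b'))‖ ≤ B ^ 2) →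
  OB m R K B

/-! ## Part C: the blocks -/

/-- **MO** (80). Monotonicity from `gram`: `q1 - q2 = L (b1 - b2)`, `X q1 - X q2 = ∫_0^1 DX(q2 + s(q1-q2)) (q1-q2) ds`
(or the mean value theorem for `s ↦ pi2 om (X(..)) w`). The hypotheses `|sg| ≤ 2dl`, `‖b‖ ≤ 3dl` give `‖q‖ ≤ 4dl`. -/
def SpecMO : Prop := ∀ (m : ℕ) (ch : Chart (m + 1)) (om : EE (m + 2)) (e : EE (m + 1))
  (L : EE m →ₗᵢ[ℝ] EE (m + 1)), Slice ch om e L → ∀ (sg : ℝ) (b1 b2 : EE m) (q3 : EE (m + 1)),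
  |sg| ≤ 2 * ch.dl → ‖b1‖ ≤ 3 * ch.dl → ‖b2‖ ≤ 3 * ch.dl → ‖q3‖ ≤ 4 * ch.dl →
  ch.c * ‖b1 - b2‖ ^ 2 ≤ pi2 om (ch.X (sl e L sg b1) - ch.X (sl e L sg b2))
    (fderiv ℝ ch.X q3 (L (b1 - b2)))

/-- **BL** (120), from MO. `b ↦ P X(sl sg b)` is bilipschitz on `‖b‖ ≤ 3dl` (`pi2 x y ≤ √(pq x) ‖y‖`, `‖DX‖` bounded), hence
`|v(b)| ≥ |v(b)-v(b0)|/2` for a minimum point `b0`, and the Gaussian integral. -/
def SpecBL : Prop := ∀ (m : ℕ) (ch : Chart (m + 1)), ∃ C : ℝ, 1 ≤ C ∧ ∀ (om : EE (m + 2)) (e : EE (m + 1))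
  (L : EE m →ₗᵢ[ℝ] EE (m + 1)), Slice ch om e L → ∀ sg : ℝ, |sg| ≤ 2 * ch.dl →
  (∀ b1 b2 : EE m, ‖b1‖ ≤ 3 * ch.dl → ‖b2‖ ≤ 3 * ch.dl →
    ‖b1 - b2‖ ^ 2 ≤ C * pq om (ch.X (sl e L sg b1) - ch.X (sl e L sg b2))) ∧
  ∀ (v : EE (m + 2)) (al : ℝ), 0 < al →
    ∫ b in Metric.closedBall (0 : EE m) (3 * ch.dl),
      Real.exp (-(al ^ 2 * pq om (v - ch.X (sl e L sg b)))) ≤ C * al⁻¹ ^ m

/-- **Z0** (180), from KN, SC, BL. The term `z = 0`: `|t| ≤ C(th + |y|)`, so `MM ≥ c min(|y|² r²/Λ, lam²/r²)`, and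
`lam²/r² ≥ r`. -/
def SpecZ0 : Prop := ∀ (m : ℕ) (ch : Chart (m + 1)), ∃ C : ℝ, 0 < C ∧ ∀ (om : EE (m + 2)) (e : EE (m + 1))
  (L : EE m →ₗᵢ[ℝ] EE (m + 1)), Slice ch om e L → ∀ lam r th La sg sg' : ℝ, 1 ≤ lam → 1 ≤ r →
  r ^ 3 ≤ lam ^ 2 → 0 < th → 1 ≤ La → th ^ 2 * r ≤ La → |sg| ≤ 2 * ch.dl → |sg'| ≤ 2 * ch.dl →
  |sg - sg'| ≤ 4 * th →
  OB m (2 * ch.dl) (ks ch om lam r e L 0 sg sg') (C * La ^ m * (r ^ 2 / lam))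

/-- **Z1** (100), from KN, SC, BL. `1 ≤ |t_z| ≤ 2 lam/r²`: `MM ≥ |y|² r²/11`, Schur. -/
def SpecZ1 : Prop := ∀ (m : ℕ) (ch : Chart (m + 1)), ∃ C : ℝ, 0 < C ∧ ∀ (om : EE (m + 2)) (e : EE (m + 1))
  (L : EE m →ₗᵢ[ℝ] EE (m + 1)), Slice ch om e L → ∀ (lam r sg sg' : ℝ) (zt : EE (m + 2)), 1 ≤ lam → 1 ≤ r →
  1 ≤ |inner ℝ om zt| → |inner ℝ om zt| * r ^ 2 ≤ 2 * lam → |sg| ≤ 2 * ch.dl → |sg'| ≤ 2 * ch.dl →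
  OB m (2 * ch.dl) (ks ch om lam r e L zt sg sg') (C * (r / lam) * Real.sqrt (lam / |inner ℝ om zt|))

/-- **DB** (350). Derivative bounds in `b'` of `FF(x(b,b'))`; `t_z = ⟨om,zt⟩`, `w = r|t_z|/lam`.
`x(b,b') = zt + X(..) - X(..)` has bounded derivatives (`L` is an isometry); `1/(4A(t)) = (lam/(2i)) /(t - i k0)`, `k0 = 2lam/r²`,
`|t| ≥ 3/4 |t_z|`; all derivatives of `FF` at `x` are `≤ C (lam/|t_z|)(1+|y|²)`; real parts: `Re 1/(4A) = (lam²/r²)/(t²+k0²)` and its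
derivatives are `≤ C w^{-2}`. (1): derivative of order `j+1` on the product space and mean value in `b`.
Mathlib: `norm_iteratedFDeriv_comp_le`, `ContinuousLinearMap.iteratedFDeriv_comp_right`. -/
def SpecDB : Prop := ∀ (m : ℕ) (ch : Chart (m + 1)) (N : ℕ), ∃ C : ℝ, 1 ≤ C ∧ ∀ (om : EE (m + 2)) (e : EE (m + 1))
  (L : EE m →ₗᵢ[ℝ] EE (m + 1)), Slice ch om e L → ∀ (lam r La sg sg' : ℝ) (zt : EE (m + 2)) (b1 b2 b' : EE m),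
  1 ≤ lam → 1 ≤ r → 1 ≤ La → 1 ≤ |inner ℝ om zt| → 2 * lam ≤ |inner ℝ om zt| * r ^ 2 →
  r * |inner ℝ om zt| ≤ 2 * La * lam → |sg| ≤ 2 * ch.dl → |sg'| ≤ 2 * ch.dl →
  ‖b1‖ ≤ 2 * ch.dl → ‖b2‖ ≤ 2 * ch.dl → ‖b'‖ ≤ 3 * ch.dl →
  pq om (xd ch e L zt sg sg' b1 b') ≤ (3 * La * (r * |inner ℝ om zt| / lam)) ^ 2 →
  pq om (xd ch e L zt sg sg' b2 b') ≤ (3 * La * (r * |inner ℝ om zt| / lam)) ^ 2 →
  (∀ j : ℕ, 1 ≤ j → j ≤ N → ‖iteratedFDeriv ℝ j (fun b => (FF om lam r (xd ch e L zt sg sg' b1 b)).im -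
    (FF om lam r (xd ch e L zt sg sg' b2 b)).im) b'‖ ≤ C * La ^ 4 * (lam / |inner ℝ om zt|) * ‖b1 - b2‖) ∧
  (∀ j : ℕ, 2 ≤ j → j ≤ N → ‖iteratedFDeriv ℝ j (fun b => (FF om lam r (xd ch e L zt sg sg' b1 b)).re) b'‖ ≤
    C * La ^ 6 * (lam / (r * |inner ℝ om zt|)) ^ 2) ∧
  ‖fderiv ℝ (fun b => (FF om lam r (xd ch e L zt sg sg' b1 b)).re) b'‖ ≤
    C * La ^ 4 * (lam / (r * |inner ℝ om zt|))

/-- **GB** (250), from MO. Lower bound of the gradient of the imaginary part in the direction `b1 - b2`.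
`Im FF = -(k/2) arg A(t) - pq Im(1/(4A))`, main term `2 ⟨y1-y2, P DX(q') v⟩ Im(1/(4A(t1)))`, `|Im 1/(4A)| ≥ lam/(8|t_z|)`; the other
terms carry a factor `|y|/|t| ≤ C La r/lam` or `1/lam`. -/
def SpecGB : Prop := ∀ (m : ℕ) (ch : Chart (m + 1)), ∃ C : ℝ, 1 ≤ C ∧ ∀ (om : EE (m + 2)) (e : EE (m + 1))
  (L : EE m →ₗᵢ[ℝ] EE (m + 1)), Slice ch om e L → ∀ (lam r La sg sg' : ℝ) (zt : EE (m + 2)) (b1 b2 b' : EE m),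
  C ≤ lam → 1 ≤ r → 1 ≤ La → C * La * r ≤ lam → 1 ≤ |inner ℝ om zt| → 2 * lam ≤ |inner ℝ om zt| * r ^ 2 →
  |sg| ≤ 2 * ch.dl → |sg'| ≤ 2 * ch.dl →
  ‖b1‖ ≤ 2 * ch.dl → ‖b2‖ ≤ 2 * ch.dl → ‖b'‖ ≤ 3 * ch.dl →
  pq om (xd ch e L zt sg sg' b1 b') ≤ (3 * La * (r * |inner ℝ om zt| / lam)) ^ 2 →
  pq om (xd ch e L zt sg sg' b2 b') ≤ (3 * La * (r * |inner ℝ om zt| / lam)) ^ 2 →
  lam / |inner ℝ om zt| * ‖b1 - b2‖ ^ 2 ≤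
    C * |fderiv ℝ (fun b => (FF om lam r (xd ch e L zt sg sg' b1 b)).im -
      (FF om lam r (xd ch e L zt sg sg' b2 b)).im) b' (b1 - b2)|

/-- **JN** (120), from KN, BL. Near bound of the `TT*` kernel (always): `|ks| ≤ C (r/lam)(lam/|t|)^{k/2} exp(-|y|²/(3w²))`. -/
def SpecJN : Prop := ∀ (m : ℕ) (ch : Chart (m + 1)), ∃ C : ℝ, 0 < C ∧ ∀ (om : EE (m + 2)) (e : EE (m + 1))
  (L : EE m →ₗᵢ[ℝ] EE (m + 1)), Slice ch om e L → ∀ (lam r sg sg' : ℝ) (zt : EE (m + 2)) (b b'' : EE m),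
  1 ≤ lam → 1 ≤ r → 1 ≤ |inner ℝ om zt| → 2 * lam ≤ |inner ℝ om zt| * r ^ 2 →
  |sg| ≤ 2 * ch.dl → |sg'| ≤ 2 * ch.dl → ‖b‖ ≤ 2 * ch.dl → ‖b''‖ ≤ 2 * ch.dl →
  ‖JJ ch om lam r e L zt sg sg' b b''‖ ≤
    C * (r / lam) ^ 2 * (lam / |inner ℝ om zt|) ^ (m + 1) * (r * |inner ℝ om zt| / lam) ^ m

/-- **NS** (250). Non-stationary phase on one ball. Rescale `q = q0 + rho x`; `f(x) = bm x * a * exp(Th(q0 + rho x) - Th(q0) -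
i rho Im DTh(q0) x)` has derivatives of order `≤ N` bounded by `C A`; decay of the Fourier transform
(`Real.pow_mul_norm_iteratedFDeriv_fourierIntegral_le`-type lemma, or `N` integrations by parts in a direction). -/
def SpecNS : Prop := ∀ (k N : ℕ) (B : ℝ), ∃ C : ℝ, 0 < C ∧ ∀ (q0 : EE k) (rho A H : ℝ) (a Th : EE k → ℂ),
  0 < rho → 0 ≤ A → 0 < H → ContDiff ℝ ∞ a → ContDiff ℝ ∞ Th →
  (∀ q ∈ Metric.ball q0 rho, ∀ j ≤ N, ‖iteratedFDeriv ℝ j a q‖ * rho ^ j ≤ A) →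
  (∀ q ∈ Metric.ball q0 rho, ∀ j : ℕ, 2 ≤ j → j ≤ N + 2 → ‖iteratedFDeriv ℝ j Th q‖ * rho ^ j ≤ B) →
  (∀ v, rho * |(fderiv ℝ Th q0 v).re| ≤ B * ‖v‖) →
  (∃ v : EE k, ‖v‖ ≤ 1 ∧ H ≤ rho * |(fderiv ℝ Th q0 v).im|) →
  ‖∫ q, ((bm k (rho⁻¹ • (q - q0)) : ℝ) : ℂ) * (a q * Complex.exp (Th q))‖ ≤
    C * A * rho ^ k * ‖Complex.exp (Th q0)‖ * H⁻¹ ^ N

/-- **NG** (150), from NS. Averaging over the balls: `∫ F = (∫ bm)⁻¹ rho^(-k) ∫ dq0 ∫ bm((q-q0)/rho) F(q) dq`; the support of `a` is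
in `‖q‖ ≤ 1`, so only `‖q0‖ ≤ 2` matters. -/
def SpecNG : Prop := ∀ (k N : ℕ) (B : ℝ), ∃ C : ℝ, 0 < C ∧ ∀ (rho A H E Mx : ℝ) (a Th : EE k → ℂ),
  0 < rho → rho ≤ 1 → 0 ≤ A → 0 < H → 0 ≤ E → 0 ≤ Mx → ContDiff ℝ ∞ a → ContDiff ℝ ∞ Th →
  (∀ q, 1 < ‖q‖ → a q = 0) →
  (∀ q0 : EE k, ‖q0‖ ≤ 2 → (∀ q ∈ Metric.ball q0 rho, ‖a q * Complex.exp (Th q)‖ ≤ E) ∨
    ((∀ q ∈ Metric.ball q0 rho, ∀ j ≤ N, ‖iteratedFDeriv ℝ j a q‖ * rho ^ j ≤ A) ∧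
    (∀ q ∈ Metric.ball q0 rho, ∀ j : ℕ, 2 ≤ j → j ≤ N + 2 → ‖iteratedFDeriv ℝ j Th q‖ * rho ^ j ≤ B) ∧
    (∀ v, rho * |(fderiv ℝ Th q0 v).re| ≤ B * ‖v‖) ∧
    (∃ v : EE k, ‖v‖ ≤ 1 ∧ H ≤ rho * |(fderiv ℝ Th q0 v).im|) ∧ ‖Complex.exp (Th q0)‖ ≤ Mx)) →
  ‖∫ q, a q * Complex.exp (Th q)‖ ≤ C * (A * Mx * H⁻¹ ^ N + E)

/-- **JF** (250), from NG, DB, GB, BL, KN. Far bound of the `TT*` kernel. `La = lam^eps`, `w = r|t_z|/lam`, `bet = lam/|t_z|`,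
`rho = c La^(-K1) min(w, (bet‖b-b''‖)^(-1/2))` (also `≤ dl/8`: the balls meeting the support of `cut` lie in `‖b'‖ ≤ 3dl`), `Th(b') = FF(x(b,b')) + conj FF(x(b'',b'))`, `a = cut`.  The factor
`e^{i lam (t - t'')}` does not depend on `b'`.  Balls where `pq ≥ (2 w La)²` at the centre for `b` or `b''` are negligible
(`exp(-|y|²/(3w²))`), the other ones satisfy DB, GB (`pq ≤ (3 w La)²` on the ball).  `C*La*r ≤ lam` for `lam ≥ lam0`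
(`r ≤ lam^(2/3)`, `eps ≤ 1/10`); for `lam ≤ lam0` the bound is trivial. -/
def SpecJF : Prop := ∀ (m : ℕ) (ch : Chart (m + 1)), ∃ K : ℝ, 1 ≤ K ∧ ∀ (eps : ℝ) (N : ℕ), 0 < eps → eps ≤ 1 / 10 →
  ∃ C : ℝ, 0 < C ∧ ∀ (om : EE (m + 2)) (e : EE (m + 1)) (L : EE m →ₗᵢ[ℝ] EE (m + 1)), Slice ch om e L →
  ∀ (lam r sg sg' : ℝ) (zt : EE (m + 2)) (b b'' : EE m),
  1 ≤ lam → 1 ≤ r → r ^ 3 ≤ lam ^ 2 → 1 ≤ |inner ℝ om zt| → 2 * lam ≤ |inner ℝ om zt| * r ^ 2 →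
  r * |inner ℝ om zt| ≤ 2 * lam ^ eps * lam →
  |sg| ≤ 2 * ch.dl → |sg'| ≤ 2 * ch.dl → ‖b‖ ≤ 2 * ch.dl → ‖b''‖ ≤ 2 * ch.dl →
  lam ^ (K * eps) ≤ r * ‖b - b''‖ →
  ‖JJ ch om lam r e L zt sg sg' b b''‖ ≤ C * lam⁻¹ ^ N

/-- **Z2** (120), from JN, JF, TT. `|t_z| ≥ max(1, 2lam/r²)`, `|t_z| ≤ 2 (lam/r) lam^eps`. -/
def SpecZ2 : Prop := ∀ (m : ℕ) (ch : Chart (m + 1)), ∃ K : ℝ, 1 ≤ K ∧ ∀ eps : ℝ, 0 < eps → eps ≤ 1 / 10 →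
  ∃ C : ℝ, 0 < C ∧ ∀ (om : EE (m + 2)) (e : EE (m + 1)) (L : EE m →ₗᵢ[ℝ] EE (m + 1)), Slice ch om e L →
  ∀ (lam r sg sg' : ℝ) (zt : EE (m + 2)),
  1 ≤ lam → 1 ≤ r → r ^ 3 ≤ lam ^ 2 → 1 ≤ |inner ℝ om zt| → 2 * lam ≤ |inner ℝ om zt| * r ^ 2 →
  r * |inner ℝ om zt| ≤ 2 * lam ^ eps * lam → |sg| ≤ 2 * ch.dl → |sg'| ≤ 2 * ch.dl →
  OB m (2 * ch.dl) (ks ch om lam r e L zt sg sg')
    (C * lam ^ (K * eps) * (r / lam) * Real.sqrt (lam / |inner ℝ om zt|))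

/-- the vectors `z` whose block is not negligible (besides `0`) -/
def Near {k : ℕ} (om : EE (k + 1)) (lam r eps : ℝ) (z : Fin (k + 1) → ℤ) : Prop :=
  1 ≤ |inner ℝ om ((2 * Real.pi) • zv z)| ∧
  |inner ℝ om ((2 * Real.pi) • zv z)| * r ≤ 2 * lam ^ eps * lam ∧
  pq om ((2 * Real.pi) • zv z) ≤ (4 * lam ^ (3 * eps)) ^ 2

/-- **ZN** (150), from KN. Negligible translates (paper 4.3). With `T = lam/r ≥ 1`, `x' = x + 2πz`, `‖x'‖ ≥ (3/4)‖2πz‖ ≥ 1`: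
`MM ≥ lam^(2eps)/8` in each of the three cases, and `e^{-MM/2} ≤ e · exp(-‖x'‖/(32T))`. -/
def SpecZN : Prop := ∀ k : ℕ, ∃ C : ℝ, 0 < C ∧ ∀ (om : EE (k + 1)) (lam r eps : ℝ) (x : EE (k + 1))
  (z : Fin (k + 1) → ℤ), ‖om‖ = 1 → 0 < eps → eps ≤ 1 / 10 → 1 ≤ lam → lam ^ eps ≤ r → r ^ 3 ≤ lam ^ 2 →
  ‖x‖ ≤ 1 / 4 → z ≠ 0 → ¬ Near om lam r eps z →
  ‖Kf om lam r (x + (2 * Real.pi) • zv z)‖ ≤ C * lam ^ (k + 1) * Real.exp (-(lam ^ (2 * eps) / 16)) *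
    Real.exp (-(‖(2 * Real.pi) • zv z‖ * r / (64 * lam)))

open Classical in
/-- the bound of the block `z` -/
noncomputable def bz {k : ℕ} (om : EE (k + 1)) (lam r eps B0 B1 B2 : ℝ) (z : Fin (k + 1) → ℤ) : ℝ :=
  if z = 0 then B0
  else if Near om lam r eps z then B1 * (r / lam) * Real.sqrt (lam / |inner ℝ om ((2 * Real.pi) • zv z)|)
  else B2 * Real.exp (-(‖(2 * Real.pi) • zv z‖ * r / (64 * lam)))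

/-- **ZS** (250), from TR. The sum over `z`: at most `C lam^(K eps)` near `z` with `|t_z| ∈ [j,j+1)`;
`∑_{j ≤ J} j^(-1/2) ≤ 2 √J`, `J = 2 lam^(1+eps)/r`; `∑_z exp(-‖2πz‖ r/(64 lam)) ≤ C (lam/r)^(k+1)` (product of one
dimensional sums, `‖z‖ ≥ ∑|z_i|/(k+1)`). -/
def SpecZS : Prop := ∀ k : ℕ, ∃ C K : ℝ, 0 < C ∧ 0 < K ∧ ∀ (om : EE (k + 1)) (lam r eps B0 B1 B2 : ℝ),
  ‖om‖ = 1 → 0 < eps → eps ≤ 1 / 10 → 1 ≤ lam → 1 ≤ r → r ≤ lam → 0 ≤ B0 → 0 ≤ B1 → 0 ≤ B2 →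
  Summable (bz om lam r eps B0 B1 B2) ∧
  ∑' z, bz om lam r eps B0 B1 B2 z ≤ B0 + C * lam ^ (K * eps) * B1 * Real.sqrt r + C * lam ^ (k + 1) * B2

/-- **P** (300), from SPL, DU, WL, TR, SL, Z0, Z1, Z2, ZN, ZS. Caps and slabs (paper, section 4).
Cases `r ≤ lam^eps`, `th ≥ 1/4`, `lam ≤ lam0`: TR. Otherwise `om = n0/lam`, `J^* om ≠ 0` (or the region is empty), `e = J^* om/|J^* om|`,
`|J^* om| ≥ 1/2`; the region is contained in `D = {‖q‖ ≤ 2dl, |⟨e,q⟩ - sg0| ≤ 2th}`; DU with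
`B z = 4 th * bz` (`SL` with `tau = 2 th`; for the negligible `z` the trivial bound of `OB` by sup times volume). -/
def SpecP : Prop := ∀ (m : ℕ) (ch : Chart (m + 1)), ∃ K : ℝ, 0 < K ∧ ∀ eps : ℝ, 0 < eps → eps ≤ 1 / 10 →
  ∃ C : ℝ, 0 < C ∧ ∀ (lam r th : ℝ) (n0 : EE (m + 2)) (s : Finset (Fin (m + 2) → ℤ)) (a : (Fin (m + 2) → ℤ) → ℂ),
  1 ≤ lam → 1 ≤ r → r ^ 3 ≤ lam ^ 2 → 0 < th → th ^ 2 * r ≤ lam ^ eps → ‖n0‖ = lam →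
  (∀ n ∈ s, ‖zv n‖ = lam) → (∀ n ∈ s, ‖zv n - n0‖ ≤ r) →
  ∫ q in {q | ‖q‖ ≤ 2 * ch.dl ∧ |sn ch n0 q| ≤ th * lam}, ‖es s a (ch.X q)‖ ^ 2 ≤
    C * lam ^ (K * eps) * ∑ n ∈ s, ‖a n‖ ^ 2

/-! ## Part D: far frequencies do not interact -/

/-- **GA** (100). Gradients of the phase (paper, section 2): `D(⟨eta,X⟩)(q) v = ⟨J w, DX(q) v⟩`, `w = J^* eta + ⟨eta,nu⟩ q`;
take `v = w/‖w‖`. -/
def SpecGA : Prop := ∀ (k : ℕ) (ch : Chart k) (n n' : EE (k + 1)) (q : EE k), ‖n‖ = ‖n'‖ → ‖q‖ ≤ 4 * ch.dl →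
  (∀ mu : ℝ, |sn ch n q| ≤ mu → |sn ch n' q| ≤ mu → 8 * mu ≤ ‖n - n'‖ →
    ∃ v : EE k, ‖v‖ ≤ 1 ∧ ch.c / 4 * ‖n - n'‖ ≤ inner ℝ (n - n') (fderiv ℝ ch.X q v)) ∧
  (∀ th : ℝ, 0 ≤ th → th ≤ 1 → ((th * ‖n‖ ≤ sn ch n q ∧ th * ‖n‖ ≤ sn ch n' q) ∨
      (sn ch n q ≤ -(th * ‖n‖) ∧ sn ch n' q ≤ -(th * ‖n‖))) →
    ∃ v : EE k, ‖v‖ ≤ 1 ∧ ch.c / 4 * th * ‖n - n'‖ ≤ inner ℝ (n - n') (fderiv ℝ ch.X q v))

/-- **FP** (150), from NG. `rho = ‖eta‖^(-1/2)`, `Th q = i⟨eta, X q⟩`. (If `h` is small the bound is trivial; a ball meeting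
the support of `chi` has gradient `≥ h√‖eta‖ - C√‖eta‖` at its centre.) -/
def SpecFP : Prop := ∀ (k : ℕ) (ch : Chart k) (N : ℕ) (A : ℕ → ℝ), ∃ C : ℝ, 0 < C ∧
  ∀ (eta : EE (k + 1)) (chi : EE k → ℝ) (h : ℝ), 1 ≤ ‖eta‖ → 0 < h → ContDiff ℝ ∞ chi →
  (∀ q, 3 * ch.dl < ‖q‖ → chi q = 0) →
  (∀ j ≤ N, ∀ q, ‖iteratedFDeriv ℝ j chi q‖ ≤ A j * Real.sqrt ‖eta‖ ^ j) →
  (∀ q, chi q ≠ 0 → ∃ v : EE k, ‖v‖ ≤ 1 ∧ h * Real.sqrt ‖eta‖ ≤ |inner ℝ eta (fderiv ℝ ch.X q v)|) →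
  ‖∫ q, ((chi q : ℝ) : ℂ) * ex eta (ch.X q)‖ ≤ C * h⁻¹ ^ N

/-- **OR** (180). Almost orthogonality: near labels by `|F_c F_c'| ≤ (|F_c|²+|F_c'|²)/2`, at most `(2R+1)^d` near labels; far
pairs by the hypothesis and Cauchy-Schwarz. -/
def SpecOR : Prop := ∀ (d k : ℕ) (s : Finset (Fin d → ℤ)) (a : (Fin d → ℤ) → ℂ) (e : (Fin d → ℤ) → EE k → ℂ)
  (D : (Fin d → ℤ) → (Fin d → ℤ)) (g : (Fin d → ℤ) → EE k → ℝ) (chi : EE k → ℝ) (R : ℕ) (E : ℝ),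
  (∀ n, Continuous (e n)) → (∀ c, Continuous (g c)) → Continuous chi → HasCompactSupport chi →
  (∀ q, 0 ≤ chi q) → 0 ≤ E →
  (∀ n ∈ s, ∀ n' ∈ s, (∃ i, (R : ℤ) < |D n i - D n' i|) →
    ‖∫ q, ((chi q * (g (D n) q * g (D n') q) : ℝ) : ℂ) * (e n q * (starRingEnd ℂ) (e n' q))‖ ≤ E) →
  ∫ q, chi q * ‖∑ n ∈ s, ((g (D n) q : ℝ) : ℂ) * (a n * e n q)‖ ^ 2 ≤
    (2 * R + 1 : ℝ) ^ d * (∑ c ∈ s.image D, ∫ q, chi q *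
      (g c q ^ 2 * ‖∑ n ∈ s with D n = c, a n * e n q‖ ^ 2)) + E * s.card * ∑ n ∈ s, ‖a n‖ ^ 2

/-- `0` for `s ≤ 1`, `1` for `s ≥ 2` -/
noncomputable def psP (s : ℝ) : ℝ := Real.smoothTransition (s - 1)

/-- `1` for `s ≤ -2`, `0` for `s ≥ -1` -/
noncomputable def psN (s : ℝ) : ℝ := psP (-s)

/-- supported in `|s| ≤ 2`; `psT + psP + psN = 1` -/
noncomputable def psT (s : ℝ) : ℝ := 1 - psP s - psN s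

/-- `1` on `[1,2]` (even `[1,3]`), `0` outside `[1/2,4]` -/
noncomputable def ph (s : ℝ) : ℝ := Real.smoothTransition (2 * s - 1) * Real.smoothTransition (4 - s)

/-- all derivatives are bounded -/
def BD (f : ℝ → ℝ) : Prop := ContDiff ℝ ∞ f ∧ ∀ j : ℕ, ∃ M : ℝ, ∀ s : ℝ, ‖iteratedFDeriv ℝ j f s‖ ≤ M

/-- **CT** (180). The cutoffs: elementary properties, and the derivative bounds of the products used in RD1, RA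
(`sn ch n` is affine with linear part of norm `≤ ‖n‖`; `1/th ≥ 1/4` absorbs the derivatives of `chi`). -/
def SpecCT : Prop :=
  BD psP ∧ BD psN ∧ BD psT ∧ BD ph ∧ BD (fun s => ph (-s)) ∧
  (∀ s, 0 ≤ psP s ∧ psP s ≤ 1 ∧ 0 ≤ psN s ∧ psN s ≤ 1 ∧ 0 ≤ psT s ∧ psT s ≤ 1 ∧ 0 ≤ ph s ∧ ph s ≤ 1) ∧
  (∀ s, psP s ≠ 0 → 1 < s) ∧ (∀ s, psN s ≠ 0 → s < -1) ∧ (∀ s, psT s ≠ 0 → |s| < 2) ∧
  (∀ s, 1 ≤ s → s ≤ 2 → ph s = 1) ∧ (∀ s, ph s ≠ 0 → 1 / 2 < s ∧ s < 4) ∧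
  ∀ (k : ℕ) (ch : Chart k) (chi : EE k → ℝ) (f g : ℝ → ℝ), ContDiff ℝ ∞ chi → HasCompactSupport chi → BD f → BD g →
    ∃ A : ℕ → ℝ, ∀ (n n' : EE (k + 1)) (th lam : ℝ), 0 < th → th ≤ 4 → 0 < lam → ‖n‖ ≤ lam → ‖n'‖ ≤ lam →
    ContDiff ℝ ∞ (fun q => chi q * (f (sn ch n q / (th * lam)) * g (sn ch n' q / (th * lam)))) ∧
    ∀ (j : ℕ) (q : EE k), ‖iteratedFDeriv ℝ j
      (fun q => chi q * (f (sn ch n q / (th * lam)) * g (sn ch n' q / (th * lam)))) q‖ ≤ A j * (1 / th) ^ j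

/-- **RD1** (250), from FP, GA, OR, TR, CT. First reduction (paper, section 3): cubes of side `lam^(2/3-eps)`.
Cutoffs `psi_T, psi_P, psi_N` (`Real.smoothTransition`) of `sn ch n_D q / lam^(2/3+eps)`; `lam ≤ lam0` by TR. -/
def SpecRD1 : Prop := ∀ (k : ℕ) (ch : Chart k), ∃ K : ℝ, 0 < K ∧ ∀ eps : ℝ, 0 < eps → eps ≤ 1 / 10 →
  ∃ C : ℝ, 0 < C ∧ ∀ (lam : ℝ) (s : Finset (Fin (k + 1) → ℤ)) (a : (Fin (k + 1) → ℤ) → ℂ), 1 ≤ lam →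
  (∀ n ∈ s, ‖zv n‖ = lam) →
  ∫ q in Metric.closedBall (0 : EE k) ch.dl, ‖es s a (ch.X q)‖ ^ 2 ≤
    C * lam ^ (K * eps) * (∑ c ∈ s.image (cb (lam ^ (2 / 3 - eps))),
      ∫ q in Metric.closedBall (0 : EE k) (3 / 2 * ch.dl),
        ‖es (s.filter fun n => cb (lam ^ (2 / 3 - eps)) n = c) a (ch.X q)‖ ^ 2) + C * ∑ n ∈ s, ‖a n‖ ^ 2

/-- **RA** (250), from FP, GA, OR, TR, CT, P. One angle: a cube of side `lam^(2/3-eps)`, the part of the chart where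
`sg * s_{n0} ∈ [th lam, 2 th lam]` (`sg = 1` or `-1`). Weight `chi(q) ph(sg s_{n0}(q)/(th lam))`, subcubes of side `max(1, th^(-2) lam^eps)`;
on the support `sg s_n ≥ th lam/4` for all `n ∈ s`; far pairs negligible by GA(b), FP; each subcube by P (with `2 eps`, angle
`5 th`, `n0` replaced by a point of the subcube). -/
def SpecRA : Prop := ∀ (m : ℕ) (ch : Chart (m + 1)), ∃ K : ℝ, 0 < K ∧ ∀ eps : ℝ, 0 < eps → eps ≤ 1 / 20 →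
  ∃ C : ℝ, 0 < C ∧ ∀ (lam th sg : ℝ) (s : Finset (Fin (m + 2) → ℤ)) (a : (Fin (m + 2) → ℤ) → ℂ)
    (n0 : Fin (m + 2) → ℤ), 1 ≤ lam → lam ^ (-(1 / 3) + eps) ≤ th → th ≤ 4 → (sg = 1 ∨ sg = -1) →
  (∀ n ∈ s, ‖zv n‖ = lam) → n0 ∈ s →
  (∀ n ∈ s, ∀ n' ∈ s, cb (lam ^ (2 / 3 - eps)) n = cb (lam ^ (2 / 3 - eps)) n') →
  ∫ q in {q | ‖q‖ ≤ 3 / 2 * ch.dl ∧ th * lam ≤ sg * sn ch (zv n0) q ∧ sg * sn ch (zv n0) q ≤ 2 * (th * lam)},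
    ‖es s a (ch.X q)‖ ^ 2 ≤ C * lam ^ (K * eps) * ∑ n ∈ s, ‖a n‖ ^ 2

/-- **RD2** (150), from RA, P, TR. Second reduction (paper, section 3) for one cube of side `lam^(2/3-eps)`: dyadic angles
`th = 2^i lam^(-1/3+eps)`, cubes of side `th^(-2) lam^eps`. -/
def SpecRD2 : Prop := ∀ (m : ℕ) (ch : Chart (m + 1)), ∃ K : ℝ, 0 < K ∧ ∀ eps : ℝ, 0 < eps → eps ≤ 1 / 20 →
  ∃ C : ℝ, 0 < C ∧ ∀ (lam : ℝ) (s : Finset (Fin (m + 2) → ℤ)) (a : (Fin (m + 2) → ℤ) → ℂ), 1 ≤ lam →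
  (∀ n ∈ s, ‖zv n‖ = lam) →
  (∀ n ∈ s, ∀ n' ∈ s, cb (lam ^ (2 / 3 - eps)) n = cb (lam ^ (2 / 3 - eps)) n') →
  ∫ q in Metric.closedBall (0 : EE (m + 1)) (3 / 2 * ch.dl), ‖es s a (ch.X q)‖ ^ 2 ≤
    C * lam ^ (K * eps) * ∑ n ∈ s, ‖a n‖ ^ 2

/-- **C** (60), from RD1, RD2. The trace inequality on a chart. -/
def SpecC : Prop := ∀ (m : ℕ) (ch : Chart (m + 1)) (eps : ℝ), 0 < eps →
  ∃ C : ℝ, 0 < C ∧ ∀ (lam : ℝ) (s : Finset (Fin (m + 2) → ℤ)) (a : (Fin (m + 2) → ℤ) → ℂ), 1 ≤ lam →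
  (∀ n ∈ s, ‖zv n‖ = lam) →
  ∫ q in Metric.closedBall (0 : EE (m + 1)) ch.dl, ‖es s a (ch.X q)‖ ^ 2 ≤ C * lam ^ eps * ∑ n ∈ s, ‖a n‖ ^ 2

/-! ## Part E: geometry -/

/-- **IF** (300). The chart by normals: `Y` a smooth local inverse of `grad g` at `0` (`ContDiffAt.toOpenPartialHomeomorph`,
symmetric positive definite derivative), made global by a cutoff; `X q = p + J (Y q) + g (Y q) nu`; `D(g ∘ Y)(q) v = ⟨q, DY(q) v⟩`;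
`mono`: `⟨J v, DX(q) v⟩ = ⟨v, DY(q) v⟩`; `gram` (paper, section 0) at `q = q' = 0` and then for small `dl` by continuity. -/
def SpecIF : Prop := ∀ (k : ℕ) (Sg : Set (EE (k + 1))) (p : EE (k + 1)), PosAt Sg p →
  ∃ (ch : Chart k) (rho : ℝ), 0 < rho ∧ ∀ x ∈ Sg, ‖x - p‖ < rho → ∃ q : EE k, ‖q‖ ≤ ch.dl ∧ ch.X q = x

/-- **HM** (100). Hausdorff measure of a Lipschitz image; only an inequality. (`X` smooth, so Lipschitz on the ball;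
`LipschitzOnWith.hausdorffMeasure_image_le`; on `EE k` the measure `μH[k]` is a finite multiple of `volume`.) -/
def SpecHM : Prop := ∀ (k : ℕ) (X : EE k → EE (k + 1)) (R : ℝ), ContDiff ℝ ∞ X → ∃ C : ℝ, 0 < C ∧
  ∀ F : EE (k + 1) → ENNReal, Measurable F →
  ∫⁻ x in X '' Metric.closedBall 0 R, F x ∂(Measure.hausdorffMeasure (k : ℝ)) ≤
    ENNReal.ofReal C * ∫⁻ q in Metric.closedBall 0 R, F (X q)

/-- **FIN** (150), from C, IF, HM. The final theorem (`d = m + 2`). -/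
def SpecFIN : Prop := ∀ (m : ℕ) (Sg : Set (EE (m + 2))), PosCurved Sg → ∀ eps : ℝ, 0 < eps →
  ∃ C : ℝ, 0 < C ∧ ∀ (lam : ℝ) (s : Finset (Fin (m + 2) → ℤ)) (a : (Fin (m + 2) → ℤ) → ℂ), 1 ≤ lam →
  (∀ n ∈ s, ‖zv n‖ = lam) →
  ∫⁻ x in Sg, ENNReal.ofReal (‖es s a x‖ ^ 2) ∂(Measure.hausdorffMeasure ((m + 1 : ℕ) : ℝ)) ≤
    ENNReal.ofReal (C * lam ^ eps * ∑ n ∈ s, ‖a n‖ ^ 2)

end Pool.Agent.Lib.MP_a8dae7_an.CV
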