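import Pool.Agent.Lib.MP_a8dae7_an.CV.Spec

/-!
# MP_a8dae7_an, CV: NG. Averaging the non-stationary phase over balls.
-/

set_option autoImplicit false

open MeasureTheory Metric Set
open scoped ContDiff

namespace Pool.Agent.Lib.MP_a8dae7_an.CV.NGM

noncomputable section

/-- the mass of the scaled bump functions -/
lemma bump_mass (k : ℕ) {rho : ℝ} (hr : 0 < rho) (q : EE k) :
    ∫ q0 : EE k, (bm k (rho⁻¹ • (q - q0)) : ℝ) = rho ^ k * ∫ x : EE k, (bm k x : ℝ) := by
  have h1 := integral_sub_left_eq_self (fun x : EE k => (bm k (rho⁻¹ • x) : ℝ)) volume q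
  rw [h1, Measure.integral_comp_inv_smul_of_nonneg _ _ hr.le]
  simp

/-- the support of the bump functions -/
lemma bump_zero (k : ℕ) {rho : ℝ} (hr : 0 < rho) {q q0 : EE k} (h : q ∉ ball q0 rho) :
    (bm k (rho⁻¹ • (q - q0)) : ℝ) = 0 := by
  apply (bm k).zero_of_le_dist
  rw [dist_zero_right, norm_smul, norm_inv, Real.norm_of_nonneg hr.le, ← dist_eq_norm]
  rw [mem_ball, not_lt] at h
  have : (bm k).rOut = 1 / 2 := rfl
  rw [this]
  have : 1 ≤ rho⁻¹ * dist q q0 := by
    rw [← inv_mul_cancel₀ hr.ne']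
    gcongr
  linarith

/-- averaging over balls -/
lemma avg (k : ℕ) {rho : ℝ} (hr : 0 < rho) (hr1 : rho ≤ 1) (F : EE k → ℂ) (hF : Continuous F)
    (h0 : ∀ q, 1 < ‖q‖ → F q = 0) {T : ℝ}
    (h : ∀ q0 : EE k, ‖q0‖ ≤ 2 →
      ‖∫ q, ((bm k (rho⁻¹ • (q - q0)) : ℝ) : ℂ) * F q‖ ≤ T * rho ^ k) :
    ‖∫ q, F q‖ ≤ (∫ x : EE k, (bm k x : ℝ))⁻¹ * volume.real (closedBall (0 : EE k) 2) * T := by
  have hc : 0 < ∫ x : EE k, (bm k x : ℝ) := (bm k).integral_pos
  have hcont : Continuous (fun p : EE k × EE k =>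
      ((bm k (rho⁻¹ • (p.1 - p.2)) : ℝ) : ℂ) * F p.1) := by
    have h1 : Continuous (fun x : EE k => (bm k x : ℝ)) := (bm k).continuous
    exact (Complex.continuous_ofReal.comp (h1.comp (by fun_prop))).mul (hF.comp continuous_fst)
  have hsupp : HasCompactSupport (fun p : EE k × EE k =>
      ((bm k (rho⁻¹ • (p.1 - p.2)) : ℝ) : ℂ) * F p.1) := by
    refine HasCompactSupport.intro
      ((isCompact_closedBall (0 : EE k) 1).prod (isCompact_closedBall (0 : EE k) 2)) ?_
    rintro ⟨q, q0⟩ hq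
    simp only [mem_prod, mem_closedBall, dist_zero_right, not_and_or, not_le] at hq
    dsimp only
    by_cases h1 : 1 < ‖q‖
    · rw [h0 q h1, mul_zero]
    · have h2 : 2 < ‖q0‖ := hq.resolve_left h1
      rw [bump_zero k hr, Complex.ofReal_zero, zero_mul]
      rw [mem_ball, not_lt]
      have h3 : ‖q0‖ ≤ ‖q‖ + dist q q0 := by
        have := norm_sub_norm_le q0 q
        rw [dist_comm, dist_eq_norm]
        linarith
      linarith [not_lt.1 h1]
  have hint : Integrable (fun p : EE k × EE k =>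
      ((bm k (rho⁻¹ • (p.1 - p.2)) : ℝ) : ℂ) * F p.1) (volume.prod volume) :=
    hcont.integrable_of_hasCompactSupport hsupp
  have h1 : (((rho ^ k * ∫ x : EE k, (bm k x : ℝ) : ℝ)) : ℂ) * ∫ q, F q =
      ∫ q0 : EE k, ∫ q : EE k, ((bm k (rho⁻¹ • (q - q0)) : ℝ) : ℂ) * F q := by
    rw [← integral_integral_swap hint, ← integral_const_mul]
    refine integral_congr_ae (Filter.Eventually.of_forall fun q => ?_)
    dsimp only
    rw [integral_mul_const, ← bump_mass k hr q, integral_complex_ofReal]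
  have h2 : ‖∫ q0 : EE k, ∫ q : EE k, ((bm k (rho⁻¹ • (q - q0)) : ℝ) : ℂ) * F q‖ ≤
      volume.real (closedBall (0 : EE k) 2) * (T * rho ^ k) := by
    have h3 : ∀ q0 : EE k, q0 ∉ closedBall (0 : EE k) 2 →
        ∫ q : EE k, ((bm k (rho⁻¹ • (q - q0)) : ℝ) : ℂ) * F q = 0 := by
      intro q0 hq0
      rw [mem_closedBall, dist_zero_right, not_le] at hq0
      rw [← integral_zero (EE k) ℂ (μ := volume)]
      refine integral_congr_ae (Filter.Eventually.of_forall fun q => ?_)
      dsimp only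
      by_cases h1 : 1 < ‖q‖
      · rw [h0 q h1, mul_zero]
      · rw [bump_zero k hr, Complex.ofReal_zero, zero_mul]
        rw [mem_ball, not_lt]
        have h3 : ‖q0‖ ≤ ‖q‖ + dist q q0 := by
          have := norm_sub_norm_le q0 q
          rw [dist_comm, dist_eq_norm]
          linarith
        linarith [not_lt.1 h1]
    rw [← setIntegral_eq_integral_of_forall_compl_eq_zero h3]
    refine (norm_setIntegral_le_of_norm_le_const (C := T * rho ^ k)
      (isCompact_closedBall (0 : EE k) 2).measure_lt_top (fun q0 hq0 => h q0 ?_)).trans ?_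
    · simpa using hq0
    · rw [mul_comm]
  rw [← h1, norm_mul, Complex.norm_real, Real.norm_of_nonneg (by positivity)] at h2
  have h5 : 0 < rho ^ k := by positivity
  have h6 : rho ^ k * ((∫ x : EE k, (bm k x : ℝ)) * ‖∫ q, F q‖) ≤
      rho ^ k * (volume.real (closedBall (0 : EE k) 2) * T) := by
    calc _ = rho ^ k * (∫ x : EE k, (bm k x : ℝ)) * ‖∫ q, F q‖ := by ring
      _ ≤ _ := h2
      _ = _ := by ring
  have h7 := le_of_mul_le_mul_left h6 h5
  rw [mul_assoc, inv_mul_eq_div, le_div_iff₀ hc]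
  linarith

/-- **NG**, from NS -/
theorem specNG (hNS : SpecNS) : SpecNG := by
  intro k N B
  obtain ⟨C, hC, hns⟩ := hNS k N B
  have hc : 0 < ∫ x : EE k, (bm k x : ℝ) := (bm k).integral_pos
  set c := ∫ x : EE k, (bm k x : ℝ) with hcdef
  set v2 := volume.real (closedBall (0 : EE k) 2) with hv2
  set v1 := volume.real (ball (0 : EE k) 1) with hv1
  have hv20 : 0 ≤ v2 := measureReal_nonneg
  have hv10 : 0 ≤ v1 := measureReal_nonneg
  refine ⟨c⁻¹ * v2 * (C + v1) + 1, by positivity, ?_⟩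
  intro rho A H E Mx a Th hr hr1 hA hH hE hMx ha hTh ha0 hyp
  have hF : Continuous (fun q => a q * Complex.exp (Th q)) :=
    ha.continuous.mul (Complex.continuous_exp.comp hTh.continuous)
  set T := C * (A * Mx * H⁻¹ ^ N) + v1 * E with hTdef
  have hT0 : 0 ≤ T := by positivity
  have key := avg k hr hr1 (fun q => a q * Complex.exp (Th q)) hF
    (fun q hq => by rw [ha0 q hq, zero_mul]) (T := T) ?_
  · refine key.trans ?_
    have hP : 0 ≤ A * Mx * H⁻¹ ^ N := by positivity
    have h1 : T ≤ (C + v1) * (A * Mx * H⁻¹ ^ N + E) := by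
      rw [hTdef]
      nlinarith [mul_nonneg hv10 hP, mul_nonneg hC.le hE]
    calc c⁻¹ * v2 * T ≤ c⁻¹ * v2 * ((C + v1) * (A * Mx * H⁻¹ ^ N + E)) := by gcongr
      _ ≤ (c⁻¹ * v2 * (C + v1) + 1) * (A * Mx * H⁻¹ ^ N + E) := by
          have : 0 ≤ A * Mx * H⁻¹ ^ N + E := by positivity
          nlinarith
  · intro q0 hq0
    rcases hyp q0 hq0 with h1 | ⟨h1, h2, h3, h4, h5⟩
    · have h2 : ∫ q, ((bm k (rho⁻¹ • (q - q0)) : ℝ) : ℂ) * (a q * Complex.exp (Th q)) =
          ∫ q in ball q0 rho, ((bm k (rho⁻¹ • (q - q0)) : ℝ) : ℂ) * (a q * Complex.exp (Th q)) := by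
        symm
        apply setIntegral_eq_integral_of_forall_compl_eq_zero
        intro q hq
        rw [bump_zero k hr hq, Complex.ofReal_zero, zero_mul]
      rw [h2]
      have h3 : ∀ q ∈ ball q0 rho,
          ‖((bm k (rho⁻¹ • (q - q0)) : ℝ) : ℂ) * (a q * Complex.exp (Th q))‖ ≤ E := by
        intro q hq
        rw [norm_mul, Complex.norm_real, Real.norm_of_nonneg ((bm k).nonneg)]
        calc _ ≤ 1 * E := by
              gcongr
              · exact (bm k).le_one
              · exact h1 q hq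
          _ = E := one_mul _
      refine (norm_setIntegral_le_of_norm_le_const measure_ball_lt_top h3).trans ?_
      have h4 : volume.real (ball q0 rho) = rho ^ k * v1 := by
        rw [hv1, Measure.real, Measure.real, Measure.addHaar_ball_of_pos _ _ hr, ENNReal.toReal_mul,
          ENNReal.toReal_ofReal (by positivity)]
        simp
      rw [h4, hTdef]
      have : 0 ≤ C * (A * Mx * H⁻¹ ^ N) * rho ^ k := by positivity
      nlinarith
    · have h6 := hns q0 rho A H a Th hr hA hH ha hTh h1 h2 h3 h4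
      refine h6.trans ?_
      calc C * A * rho ^ k * ‖Complex.exp (Th q0)‖ * H⁻¹ ^ N
          ≤ C * A * rho ^ k * Mx * H⁻¹ ^ N := by gcongr
        _ = (C * (A * Mx * H⁻¹ ^ N)) * rho ^ k := by ring
        _ ≤ T * rho ^ k := by
            gcongr
            rw [hTdef]
            have : 0 ≤ v1 * E := by positivity
            linarith

end

end Pool.Agent.Lib.MP_a8dae7_an.CV.NGM
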