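import Pool.Agent.Lib.MP_a8dae7_an.CV.Defs

/-!
# MP_a8dae7_an, CV: derivative bounds of cutoff functions (used by RD1, RD2)
-/

set_option autoImplicit false

open MeasureTheory
open scoped ContDiff

namespace Pool.Agent.Lib.MP_a8dae7_an.CV.CUTM

open Pool.Agent.Lib.MP_a8dae7_an.CV

/-- a smooth function of compact support has bounded derivatives -/
lemma exists_bound {E : Type*} [NormedAddCommGroup E] [NormedSpace ℝ E] {f : E → ℝ}
    (hf : ContDiff ℝ ∞ f) (hc : HasCompactSupport f) :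
    ∃ B : ℕ → ℝ, (∀ j, 0 ≤ B j) ∧ ∀ j x, ‖iteratedFDeriv ℝ j f x‖ ≤ B j := by
  have h : ∀ j : ℕ, ∃ C : ℝ, 0 ≤ C ∧ ∀ x, ‖iteratedFDeriv ℝ j f x‖ ≤ C := by
    intro j
    obtain ⟨C, hC⟩ := (hc.iteratedFDeriv (𝕜 := ℝ) j).exists_bound_of_continuous
      (hf.continuous_iteratedFDeriv (by exact_mod_cast le_top))
    exact ⟨C, (norm_nonneg _).trans (hC 0), hC⟩
  choose B hB0 hB using h
  exact ⟨B, hB0, fun j x => hB j x⟩

/-- derivatives of `φ (α + ℓ q)` -/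
lemma comp_affine {E : Type*} [NormedAddCommGroup E] [NormedSpace ℝ E] {φ : ℝ → ℝ}
    (hφ : ContDiff ℝ ∞ φ) {Φ : ℕ → ℝ} (hΦ : ∀ j x, ‖iteratedFDeriv ℝ j φ x‖ ≤ Φ j)
    (α : ℝ) (l : E →L[ℝ] ℝ) {M : ℝ} (hM : ‖l‖ ≤ M) (j : ℕ) (q : E) :
    ‖iteratedFDeriv ℝ j (fun q => φ (α + l q)) q‖ ≤ Φ j * M ^ j := by
  have h0 : 0 ≤ Φ j := (norm_nonneg _).trans (hΦ j 0)
  have h1 : ContDiff ℝ ∞ fun x : ℝ => φ (α + x) := hφ.comp (contDiff_const.add contDiff_id)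
  have h2 : (fun q => φ (α + l q)) = (fun x : ℝ => φ (α + x)) ∘ l := rfl
  rw [h2, l.iteratedFDeriv_comp_right h1 q (by exact_mod_cast le_top)]
  refine (ContinuousMultilinearMap.norm_compContinuousLinearMap_le _ _).trans ?_
  rw [Finset.prod_const, Finset.card_univ, Fintype.card_fin, iteratedFDeriv_comp_add_left]
  gcongr
  exact hΦ j _

/-- derivatives of the product of a cutoff and a function of an affine form -/
lemma cutoff_bound {E : Type*} [NormedAddCommGroup E] [NormedSpace ℝ E] {f : E → ℝ} {φ : ℝ → ℝ}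
    (hf : ContDiff ℝ ∞ f) (hφ : ContDiff ℝ ∞ φ) {B Φ : ℕ → ℝ}
    (hB : ∀ j x, ‖iteratedFDeriv ℝ j f x‖ ≤ B j) (hΦ : ∀ j x, ‖iteratedFDeriv ℝ j φ x‖ ≤ Φ j)
    (α : ℝ) (l : E →L[ℝ] ℝ) {M : ℝ} (hM : ‖l‖ ≤ M) (hM1 : 1 ≤ M) (j : ℕ) (q : E) :
    ‖iteratedFDeriv ℝ j (fun q => f q * φ (α + l q)) q‖ ≤
      (∑ i ∈ Finset.range (j + 1), (j.choose i : ℝ) * B i * Φ (j - i)) * M ^ j := by
  have h1 : ContDiff ℝ ∞ fun q => φ (α + l q) := hφ.comp (contDiff_const.add l.contDiff)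
  refine (norm_iteratedFDeriv_mul_le hf h1 q (by exact_mod_cast le_top)).trans ?_
  rw [Finset.sum_mul]
  refine Finset.sum_le_sum fun i hi => ?_
  have hi' : i ≤ j := Nat.lt_succ_iff.1 (Finset.mem_range.1 hi)
  have hB0 : 0 ≤ B i := (norm_nonneg _).trans (hB i 0)
  have hΦ0 : 0 ≤ Φ (j - i) := (norm_nonneg _).trans (hΦ _ 0)
  calc (j.choose i : ℝ) * ‖iteratedFDeriv ℝ i f q‖ *
        ‖iteratedFDeriv ℝ (j - i) (fun q => φ (α + l q)) q‖ ≤
        (j.choose i : ℝ) * B i * (Φ (j - i) * M ^ (j - i)) := by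
        gcongr
        · exact hB i q
        · exact comp_affine hφ hΦ α l hM _ q
    _ ≤ (j.choose i : ℝ) * B i * (Φ (j - i) * M ^ j) := by
        gcongr
        omega
    _ = _ := by ring

end Pool.Agent.Lib.MP_a8dae7_an.CV.CUTM
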