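import Pool.Agent.Lib.MP_a8dae7_an.CV.Spec
import Pool.Agent.Lib.MP_a8dae7_an.CV.CUT

/-!
# MP_a8dae7_an, CV: one dyadic angle (small cubes, far pairs are negligible)
-/

set_option autoImplicit false

open MeasureTheory
open scoped ContDiff

namespace Pool.Agent.Lib.MP_a8dae7_an.CV.RAM

open Pool.Agent.Lib.MP_a8dae7_an.CV
open Pool.Agent.Lib.MP_a8dae7_an.CV.CUTM

/-! ## elementary facts -/

lemma norm_nu_sub {k : ℕ} (ch : Chart k) {q : EE k} (hq : ‖q‖ ≤ 1) : ‖ch.nu - ch.J q‖ ≤ 2 := by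
  calc ‖ch.nu - ch.J q‖ ≤ ‖ch.nu‖ + ‖ch.J q‖ := norm_sub_le _ _
    _ ≤ 1 + 1 := by rw [ch.nu_one, ch.J.norm_map]; linarith
    _ = 2 := by norm_num

lemma sn_sub {k : ℕ} (ch : Chart k) (n n' : EE (k + 1)) {q : EE k} (hq : ‖q‖ ≤ 1) :
    |sn ch n q - sn ch n' q| ≤ 2 * ‖n - n'‖ := by
  unfold sn
  rw [← inner_sub_left]
  calc |inner ℝ (n - n') (ch.nu - ch.J q)| ≤ ‖n - n'‖ * ‖ch.nu - ch.J q‖ :=
        abs_real_inner_le_norm _ _
    _ ≤ ‖n - n'‖ * 2 := by gcongr; exact norm_nu_sub ch hq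
    _ = _ := by ring

lemma sn_le {k : ℕ} (ch : Chart k) (n : EE (k + 1)) {q : EE k} (hq : ‖q‖ ≤ 1) :
    |sn ch n q| ≤ 2 * ‖n‖ := by
  have h := sn_sub ch n 0 hq
  simpa [sn] using h

lemma continuous_sn {k : ℕ} (ch : Chart k) (n : EE (k + 1)) : Continuous (sn ch n) := by
  unfold sn
  exact continuous_const.inner (continuous_const.sub ch.J.continuous)

lemma zv_sub_le {d : ℕ} {n n' : Fin d → ℤ} {l : ℝ} (hl : 0 ≤ l)
    (h : ∀ i, |(n i : ℝ) - n' i| ≤ l) : ‖zv n - zv n'‖ ≤ d * l := by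
  rw [EuclideanSpace.norm_eq, Real.sqrt_le_left (by positivity)]
  calc ∑ i, ‖(zv n - zv n') i‖ ^ 2 ≤ ∑ _i : Fin d, l ^ 2 := by
        refine Finset.sum_le_sum fun i _ => ?_
        have e : (zv n - zv n') i = (n i : ℝ) - n' i := rfl
        rw [e, Real.norm_eq_abs]
        gcongr
        exact h i
    _ = d * l ^ 2 := by simp
    _ ≤ (d : ℝ) ^ 2 * l ^ 2 := by
        gcongr
        exact_mod_cast Nat.le_self_pow two_ne_zero d
    _ = (d * l) ^ 2 := by ring

lemma cube_dist {d : ℕ} {l : ℝ} (hl : 0 < l) {n n' : Fin d → ℤ} (h : cb l n = cb l n') :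
    ‖zv n - zv n'‖ ≤ d * l := by
  refine zv_sub_le hl.le fun i => ?_
  have h1 : ⌊(n i : ℝ) / l⌋ = ⌊(n' i : ℝ) / l⌋ := congrFun h i
  have h2 := (Int.abs_sub_lt_one_of_floor_eq_floor h1).le
  rw [← sub_div, abs_div, abs_of_pos hl, div_le_one hl] at h2
  exact h2

lemma far_dist {d : ℕ} {l : ℝ} (hl : 0 < l) {n n' : Fin d → ℤ}
    (h : ∃ i, (1 : ℤ) < |cb l n i - cb l n' i|) : l ≤ ‖zv n - zv n'‖ := by
  obtain ⟨i, hi⟩ := h
  have h1 : ‖(zv n - zv n') i‖ ≤ ‖zv n - zv n'‖ := PiLp.norm_apply_le _ i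
  have e : (zv n - zv n') i = (n i : ℝ) - n' i := rfl
  rw [e, Real.norm_eq_abs] at h1
  refine le_trans ?_ h1
  have hi' : (2 : ℤ) ≤ |⌊(n i : ℝ) / l⌋ - ⌊(n' i : ℝ) / l⌋| := hi
  have hi2 : (2 : ℝ) ≤ |(⌊(n i : ℝ) / l⌋ : ℝ) - ⌊(n' i : ℝ) / l⌋| := by exact_mod_cast hi'
  have h3 : (1 : ℝ) ≤ |(n i : ℝ) / l - n' i / l| := by
    have a1 := Int.floor_le ((n i : ℝ) / l)
    have a2 := Int.lt_floor_add_one ((n i : ℝ) / l)
    have a3 := Int.floor_le ((n' i : ℝ) / l)
    have a4 := Int.lt_floor_add_one ((n' i : ℝ) / l)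
    rcases le_abs.1 hi2 with h | h
    · refine le_abs.2 (Or.inl ?_)
      linarith
    · refine le_abs.2 (Or.inr ?_)
      linarith
  rw [← sub_div, abs_div, abs_of_pos hl, le_div_iff₀ hl, one_mul] at h3
  exact h3

lemma ex_mul_conj {d : ℕ} (n n' x : EE d) :
    ex n x * (starRingEnd ℂ) (ex n' x) = ex (n - n') x := by
  unfold ex
  rw [← Complex.exp_conj, ← Complex.exp_add, inner_sub_left]
  congr 1
  rw [map_mul, Complex.conj_I, Complex.conj_ofReal]
  push_cast
  ring

lemma continuous_ex {d : ℕ} (n : EE d) : Continuous (ex n) := by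
  unfold ex
  exact Complex.continuous_exp.comp (continuous_const.mul
    (Complex.continuous_ofReal.comp (continuous_const.inner continuous_id)))

lemma continuous_es {d k : ℕ} (s : Finset (Fin d → ℤ)) (a : (Fin d → ℤ) → ℂ) {X : EE k → EE d}
    (hX : Continuous X) : Continuous fun q => ‖es s a (X q)‖ ^ 2 := by
  unfold es
  refine (Continuous.norm ?_).pow 2
  exact continuous_finsetSum _ fun n _ => continuous_const.mul ((continuous_ex _).comp hX)

/-! ## the cutoff functions -/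

/-- `1` on `‖q‖ ≤ 3/2 dl`, `0` for `‖q‖ ≥ 2 dl` -/
noncomputable def psi {k : ℕ} (ch : Chart k) : ContDiffBump (0 : EE k) where
  rIn := 3 / 2 * ch.dl
  rOut := 2 * ch.dl
  rIn_pos := by have := ch.dl_pos; positivity
  rIn_lt_rOut := by have := ch.dl_pos; linarith

/-- `1` on `[1, 2]`, `0` outside `(1/2, 5/2)` -/
noncomputable def phi : ContDiffBump (3 / 2 : ℝ) where
  rIn := 1 / 2
  rOut := 1
  rIn_pos := by norm_num
  rIn_lt_rOut := by norm_num

/-- the cutoff at one dyadic angle -/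
noncomputable def chi {k : ℕ} (ch : Chart k) (n : EE (k + 1)) (t : ℝ) (q : EE k) : ℝ :=
  psi ch q * phi (t * sn ch n q)

section chi

variable {k : ℕ} (ch : Chart k)

/-- the linear part of `t * sn` -/
noncomputable def ll (n : EE (k + 1)) (t : ℝ) : EE k →L[ℝ] ℝ :=
  (-t) • ((innerSL ℝ n).comp ch.J.toContinuousLinearMap)

lemma ll_norm (n : EE (k + 1)) (t : ℝ) : ‖ll ch n t‖ ≤ |t| * ‖n‖ := by
  unfold ll
  rw [norm_smul, norm_neg, Real.norm_eq_abs]
  gcongr
  refine (ContinuousLinearMap.opNorm_comp_le _ _).trans ?_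
  rw [innerSL_apply_norm]
  calc ‖n‖ * ‖ch.J.toContinuousLinearMap‖ ≤ ‖n‖ * 1 := by
        gcongr
        exact ch.J.norm_toContinuousLinearMap_le
    _ = ‖n‖ := mul_one _

lemma chi_eq (n : EE (k + 1)) (t : ℝ) : chi ch n t =
    fun q => psi ch q * phi (t * inner ℝ n ch.nu + ll ch n t q) := by
  funext q
  unfold chi sn ll
  congr 2
  rw [inner_sub_right]
  simp only [smul_apply, ContinuousLinearMap.comp_apply, innerSL_apply_apply,
    LinearIsometry.coe_toContinuousLinearMap, smul_eq_mul]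
  ring

lemma chi_smooth (n : EE (k + 1)) (t : ℝ) : ContDiff ℝ ∞ (chi ch n t) := by
  rw [chi_eq]
  exact (psi ch).contDiff.mul (phi.contDiff.comp (contDiff_const.add (ll ch n t).contDiff))

lemma chi_nonneg (n : EE (k + 1)) (t : ℝ) (q : EE k) : 0 ≤ chi ch n t q :=
  mul_nonneg (psi ch).nonneg phi.nonneg

lemma chi_le_one (n : EE (k + 1)) (t : ℝ) (q : EE k) : chi ch n t q ≤ 1 := by
  unfold chi
  exact mul_le_one₀ (psi ch).le_one phi.nonneg phi.le_one

lemma chi_ne {n : EE (k + 1)} {t : ℝ} {q : EE k} (h : chi ch n t q ≠ 0) :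
    ‖q‖ < 2 * ch.dl ∧ 1 / 2 < t * sn ch n q ∧ t * sn ch n q < 5 / 2 := by
  unfold chi at h
  have h1 := left_ne_zero_of_mul h
  have h2 := right_ne_zero_of_mul h
  constructor
  · by_contra hc
    apply h1
    refine (psi ch).zero_of_le_dist ?_
    rw [dist_zero_right]
    exact not_lt.1 hc
  · by_contra hc
    apply h2
    refine phi.zero_of_le_dist ?_
    change (1 : ℝ) ≤ _
    rw [Real.dist_eq, le_abs]
    by_contra h3
    push Not at h3
    exact hc ⟨by linarith, by linarith⟩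

lemma chi_one {n : EE (k + 1)} {t : ℝ} {q : EE k} (hq : ‖q‖ ≤ 3 / 2 * ch.dl)
    (h1 : 1 ≤ t * sn ch n q) (h2 : t * sn ch n q ≤ 2) : chi ch n t q = 1 := by
  unfold chi
  have e1 : psi ch q = 1 := by
    refine (psi ch).one_of_mem_closedBall ?_
    rw [mem_closedBall_zero_iff]
    exact hq
  have e2 : phi (t * sn ch n q) = 1 := by
    refine phi.one_of_mem_closedBall ?_
    rw [Metric.mem_closedBall, Real.dist_eq]
    change _ ≤ (1 / 2 : ℝ)
    rw [abs_le]
    constructor <;> linarith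
  rw [e1, e2, mul_one]

lemma chi_compact (n : EE (k + 1)) (t : ℝ) : HasCompactSupport (chi ch n t) :=
  (psi ch).hasCompactSupport.mul_right

lemma chi_deriv : ∃ A : ℕ → ℝ, ∀ (n : EE (k + 1)) (t M : ℝ), |t| * ‖n‖ ≤ M → 1 ≤ M →
    ∀ (j : ℕ) (q : EE k), ‖iteratedFDeriv ℝ j (chi ch n t) q‖ ≤ A j * M ^ j := by
  obtain ⟨B, -, hB⟩ := exists_bound (psi ch).contDiff (psi ch).hasCompactSupport
  obtain ⟨Φ, -, hΦ⟩ := exists_bound phi.contDiff phi.hasCompactSupport
  refine ⟨fun j => ∑ i ∈ Finset.range (j + 1), (j.choose i : ℝ) * B i * Φ (j - i), ?_⟩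
  intro n t M h1 h2 j q
  rw [chi_eq]
  exact cutoff_bound (psi ch).contDiff phi.contDiff hB hΦ _ _ ((ll_norm ch n t).trans h1) h2 j q

end chi

/-! ## far pairs -/

lemma far_bound (hFP : SpecFP) (hGA : SpecGA) {k : ℕ} (ch : Chart k) (N : ℕ) :
    ∃ C : ℝ, 0 < C ∧ ∀ (n0 n n' : EE (k + 1)) (lam th l sg : ℝ), 0 < lam → ‖n0‖ = lam →
      ‖n‖ = lam → ‖n'‖ = lam → 0 < th → th ≤ 2 → 8 * ‖n - n0‖ ≤ th * lam →
      8 * ‖n' - n0‖ ≤ th * lam → 1 ≤ l → 1 ≤ th ^ 2 * l → l ≤ ‖n - n'‖ → |sg| = 1 →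
      ‖∫ q, ((chi ch n0 (sg / (th * lam)) q : ℝ) : ℂ) * ex (n - n') (ch.X q)‖ ≤
        C * (Real.sqrt (th ^ 2 * l))⁻¹ ^ N := by
  obtain ⟨A, hA⟩ := chi_deriv ch
  obtain ⟨C, hC, h⟩ := hFP k ch N A
  have hc := ch.c_pos
  have hdl := ch.dl_pos
  have hdl1 := ch.dl_le
  refine ⟨C * (16 / ch.c) ^ N, by positivity, ?_⟩
  intro n0 n n' lam th l sg hlam hn0 hn hn' hth hth2 hd1 hd2 hl hthl hl2 hsg
  set eta := n - n' with heta
  have heta1 : 1 ≤ ‖eta‖ := hl.trans hl2
  have hroot : 0 < Real.sqrt ‖eta‖ := Real.sqrt_pos.2 (by linarith)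
  have hthl2 : Real.sqrt (th ^ 2 * l) ≤ th * Real.sqrt ‖eta‖ := by
    rw [Real.sqrt_mul' _ (by linarith), Real.sqrt_sq hth.le]
    gcongr
  have hroot1 : 1 ≤ th * Real.sqrt ‖eta‖ := by
    refine le_trans ?_ hthl2
    rw [Real.one_le_sqrt]
    exact hthl
  -- the sign condition
  have hsign : ∀ q, chi ch n0 (sg / (th * lam)) q ≠ 0 → ∀ n1 : EE (k + 1), 8 * ‖n1 - n0‖ ≤ th * lam →
      th / 4 * lam ≤ sg * sn ch n1 q := by
    intro q hq n1 h1
    obtain ⟨a1, a2, -⟩ := chi_ne ch hq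
    have a3 := sn_sub ch n1 n0 (q := q) (by linarith)
    have a4 : th * lam / 2 < sg * sn ch n0 q := by
      rw [div_mul_eq_mul_div, lt_div_iff₀ (by positivity)] at a2
      linarith
    have a5 : |sg * sn ch n1 q - sg * sn ch n0 q| ≤ 2 * ‖n1 - n0‖ := by
      rw [← mul_sub, abs_mul, hsg, one_mul]
      exact a3
    have a6 := (abs_le.1 a5).1
    linarith
  have hmain := h eta (chi ch n0 (sg / (th * lam))) (ch.c / 16 * th * Real.sqrt ‖eta‖) heta1
    (by positivity) (chi_smooth ch _ _) (by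
      intro q hq
      by_contra hne
      have := (chi_ne ch hne).1
      linarith) (by
      intro j _ q
      refine hA n0 _ _ ?_ (Real.one_le_sqrt.2 heta1) j q
      rw [abs_div, hsg, abs_of_pos (by positivity), hn0, div_mul_eq_mul_div, one_mul,
        div_le_iff₀ (by positivity)]
      calc lam = 1 * lam := (one_mul _).symm
        _ ≤ (th * Real.sqrt ‖eta‖) * lam := by gcongr
        _ = _ := by ring) (by
      intro q hq
      have hq1 : ‖q‖ ≤ 4 * ch.dl := by
        have := (chi_ne ch hq).1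
        linarith
      have s1 := hsign q hq n hd1
      have s2 := hsign q hq n' hd2
      obtain ⟨-, hg⟩ := hGA k ch n n' q (hn.trans hn'.symm) hq1
      have hg' := hg (th / 4) (by positivity) (by linarith) (by
        rw [hn]
        have hs : sg = 1 ∨ sg = -1 := eq_or_eq_neg_of_abs_eq hsg
        rcases hs with hs | hs
        · left
          rw [hs, one_mul] at s1 s2
          exact ⟨s1, s2⟩
        · right
          rw [hs] at s1 s2
          constructor <;> linarith)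
      obtain ⟨v, hv, hv2⟩ := hg'
      refine ⟨v, hv, le_trans ?_ (le_abs_self _)⟩
      refine le_trans (le_of_eq ?_) hv2
      have e : Real.sqrt ‖eta‖ * Real.sqrt ‖eta‖ = ‖eta‖ := Real.mul_self_sqrt (by linarith)
      calc ch.c / 16 * th * Real.sqrt ‖eta‖ * Real.sqrt ‖eta‖ =
            ch.c / 16 * th * (Real.sqrt ‖eta‖ * Real.sqrt ‖eta‖) := by ring
        _ = _ := by rw [e]; ring)
  refine hmain.trans ?_
  have hpos : 0 < Real.sqrt (th ^ 2 * l) := Real.sqrt_pos.2 (by linarith)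
  have hinv : (ch.c / 16 * th * Real.sqrt ‖eta‖)⁻¹ ≤ 16 / ch.c * (Real.sqrt (th ^ 2 * l))⁻¹ := by
    have e : 16 / ch.c * (Real.sqrt (th ^ 2 * l))⁻¹ = (ch.c / 16 * Real.sqrt (th ^ 2 * l))⁻¹ := by
      rw [mul_inv, inv_div]
    rw [e]
    refine inv_anti₀ (by positivity) ?_
    rw [mul_assoc]
    gcongr
  calc C * (ch.c / 16 * th * Real.sqrt ‖eta‖)⁻¹ ^ N ≤
        C * (16 / ch.c * (Real.sqrt (th ^ 2 * l))⁻¹) ^ N := by gcongr
    _ = _ := by rw [mul_pow]; ring

lemma int_le {k : ℕ} {S : Set (EE k)} (hS : IsClosed S) {R : ℝ} (hSR : S ⊆ Metric.closedBall 0 R)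
    {c F : EE k → ℝ} (hc : Continuous c) (hcs : HasCompactSupport c) (hF : Continuous F)
    (hF0 : ∀ q, 0 ≤ F q) (hc1 : ∀ q, c q ≤ 1) (hS1 : ∀ q, c q ≠ 0 → q ∈ S) :
    ∫ q, c q * F q ≤ ∫ q in S, F q := by
  have hcomp : IsCompact S := (isCompact_closedBall 0 R).of_isClosed_subset hS hSR
  rw [← integral_indicator hS.measurableSet]
  refine integral_mono ?_ ?_ fun q => ?_
  · exact (hc.mul hF).integrable_of_hasCompactSupport hcs.mul_right
  · exact (integrable_indicator_iff hS.measurableSet).2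
      (hF.continuousOn.integrableOn_compact hcomp)
  · by_cases hq : q ∈ S
    · simp only [Set.indicator_of_mem hq]
      exact mul_le_of_le_one_left (hF0 q) (hc1 q)
    · have : c q = 0 := by
        by_contra h
        exact hq (hS1 q h)
      simp only [Set.indicator_of_notMem hq, this, zero_mul, le_refl]

lemma isClosed_region {k : ℕ} (ch : Chart k) (n : EE (k + 1)) (R x : ℝ) :
    IsClosed {q : EE k | ‖q‖ ≤ R ∧ |sn ch n q| ≤ x} :=
  (isClosed_le continuous_norm continuous_const).inter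
    (isClosed_le (continuous_sn ch n).abs continuous_const)

/-! ## one dyadic angle -/

lemma card_le (hTR : SpecTR) {d : ℕ} (s : Finset (Fin d → ℤ)) {lam : ℝ} (hlam : 1 ≤ lam)
    (hs : ∀ n ∈ s, ‖zv n‖ = lam) : (s.card : ℝ) ≤ (5 * lam) ^ d := by
  have h := hTR.2 d s 0 lam (by linarith) (by
    intro n hn
    rw [sub_zero, hs n hn])
  refine h.trans ?_
  gcongr
  linarith

lemma piece (hFP : SpecFP) (hGA : SpecGA) (hOR : SpecOR) (hTR : SpecTR) (hP : SpecP) (m : ℕ)
    (ch : Chart (m + 1)) : ∃ K : ℝ, 0 < K ∧ ∀ eps : ℝ, 0 < eps → eps ≤ 1 / 20 →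
    ∃ C : ℝ, 0 < C ∧ ∀ (lam : ℝ) (s : Finset (Fin (m + 2) → ℤ)) (a : (Fin (m + 2) → ℤ) → ℂ),
      1 ≤ lam → 9 * ((m + 2 : ℕ) : ℝ) ≤ lam ^ eps → (∀ n ∈ s, ‖zv n‖ = lam) → ∀ n0 ∈ s,
      (∀ n ∈ s, ‖zv n - zv n0‖ ≤ ((m + 2 : ℕ) : ℝ) * lam ^ (2 / 3 - eps)) →
      ∀ sg th : ℝ, |sg| = 1 → lam ^ (-1 / 3 + eps) ≤ th → th ≤ 2 →
      ∫ q, chi ch (zv n0) (sg / (th * lam)) q * ‖es s a (ch.X q)‖ ^ 2 ≤
        C * lam ^ (K * eps) * ∑ n ∈ s, ‖a n‖ ^ 2 := by
  obtain ⟨KP, hKP, hP1⟩ := hP m ch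
  refine ⟨2 * KP, by positivity, fun eps heps heps1 => ?_⟩
  obtain ⟨CP, hCP, hP2⟩ := hP1 (2 * eps) (by positivity) (by linarith)
  set N : ℕ := ⌈2 * ((m + 2 : ℕ) : ℝ) / eps⌉₊ with hN
  obtain ⟨CF, hCF, hF⟩ := far_bound hFP hGA ch N
  refine ⟨3 ^ (m + 2) * CP + CF * 5 ^ (m + 2), by positivity, ?_⟩
  intro lam s a hlam hx hs n0 hn0 hcl sg th hsg hth hth2
  have hlam0 : 0 < lam := by linarith
  have hdl := ch.dl_pos
  have hdl1 := ch.dl_le
  set d : ℝ := ((m + 2 : ℕ) : ℝ) with hd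
  have hd2 : 2 ≤ d := by
    rw [hd]
    push_cast
    have : (0 : ℝ) ≤ m := Nat.cast_nonneg _
    linarith
  set x : ℝ := lam ^ eps with hxdef
  have hx0 : 0 < x := by positivity
  have hx18 : 18 ≤ x := by linarith
  set u : ℝ := lam ^ (-1 / 3 + eps) with hu
  have hu0 : 0 < u := by positivity
  have hth0 : 0 < th := by linarith
  set L0 : ℝ := lam ^ (2 / 3 - eps) with hL0
  have hL00 : 0 < L0 := by positivity
  -- identities between the powers
  have e1 : u ^ 2 * L0 = x := by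
    rw [hu, hL0, hxdef, ← Real.rpow_natCast, ← Real.rpow_mul hlam0.le, ← Real.rpow_add hlam0]
    congr 1
    push_cast
    ring
  have e2 : u * lam = L0 * x ^ 2 := by
    rw [hu, hL0, hxdef, ← Real.rpow_natCast, ← Real.rpow_mul hlam0.le, ← Real.rpow_add hlam0,
      ← Real.rpow_add_one hlam0.ne']
    congr 1
    push_cast
    ring
  have e3 : L0 ^ 3 * x ^ 3 = lam ^ 2 := by
    rw [hL0, hxdef, ← Real.rpow_natCast, ← Real.rpow_natCast, ← Real.rpow_mul hlam0.le,
      ← Real.rpow_mul hlam0.le, ← Real.rpow_add hlam0, ← Real.rpow_natCast]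
    congr 1
    push_cast
    ring
  set l : ℝ := x / th ^ 2 with hl
  have hl0 : 0 < l := by positivity
  have hthl : th ^ 2 * l = x := by
    rw [hl]
    field_simp
  have hl1 : 1 ≤ l := by
    rw [hl, one_le_div (by positivity)]
    nlinarith
  have hlL : l ≤ L0 := by
    rw [hl, div_le_iff₀ (by positivity), ← e1, mul_comm]
    gcongr
  have hdd : (0 : ℝ) ≤ d := by linarith
  have h8 : 8 * (d * L0) ≤ th * lam := by
    calc 8 * (d * L0) ≤ L0 * (9 * d) := by nlinarith [mul_nonneg hdd hL00.le]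
      _ ≤ L0 * x ^ 2 := by
          gcongr
          nlinarith
      _ = u * lam := e2.symm
      _ ≤ th * lam := by gcongr
  have hnear : ∀ n ∈ s, 8 * ‖zv n - zv n0‖ ≤ th * lam := fun n hn => by
    have := hcl n hn
    linarith
  -- the far pairs
  set E : ℝ := CF * (lam ^ (m + 2))⁻¹ with hE
  have hpow : (Real.sqrt x)⁻¹ ^ N ≤ (lam ^ (m + 2))⁻¹ := by
    rw [inv_pow]
    refine inv_anti₀ (by positivity) ?_
    rw [Real.sqrt_eq_rpow, hxdef, ← Real.rpow_mul hlam0.le, ← Real.rpow_natCast,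
      ← Real.rpow_natCast, ← Real.rpow_mul hlam0.le]
    refine Real.rpow_le_rpow_of_exponent_le hlam ?_
    have h1 : 2 * d / eps ≤ N := Nat.le_ceil _
    rw [div_le_iff₀ heps] at h1
    rw [← hd]
    linarith
  have hfar : ∀ n ∈ s, ∀ n' ∈ s, (∃ i, ((1 : ℕ) : ℤ) < |cb l n i - cb l n' i|) →
      ‖∫ q, ((chi ch (zv n0) (sg / (th * lam)) q * (1 * 1) : ℝ) : ℂ) *
        (ex (zv n) (ch.X q) * (starRingEnd ℂ) (ex (zv n') (ch.X q)))‖ ≤ E := by
    intro n hn n' hn' hfr
    simp only [ex_mul_conj, mul_one]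
    refine (hF (zv n0) (zv n) (zv n') lam th l sg hlam0 (hs n0 hn0) (hs n hn) (hs n' hn') hth0 hth2
      (hnear n hn) (hnear n' hn') hl1 (by rw [hthl]; linarith)
      (far_dist hl0 (by exact_mod_cast hfr)) hsg).trans ?_
    rw [hthl, hE]
    gcongr
  have hor := hOR (m + 2) (m + 1) s a (fun n q => ex (zv n) (ch.X q)) (cb l) (fun _ _ => 1)
    (chi ch (zv n0) (sg / (th * lam))) 1 E
    (fun n => (continuous_ex _).comp ch.smooth.continuous) (fun _ => continuous_const)
    (chi_smooth ch _ _).continuous (chi_compact ch _ _) (chi_nonneg ch _ _) (by positivity) hfar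
  have hlhs : ∀ q, ‖∑ n ∈ s, (((1 : ℝ) : ℝ) : ℂ) * (a n * ex (zv n) (ch.X q))‖ ^ 2 =
      ‖es s a (ch.X q)‖ ^ 2 := by
    intro q
    simp [es]
  simp only [hlhs] at hor
  refine hor.trans ?_
  -- one small cube
  have hcube : ∀ c ∈ s.image (cb l), ∫ q, chi ch (zv n0) (sg / (th * lam)) q *
      ((1 : ℝ) ^ 2 * ‖∑ n ∈ s with cb l n = c, a n * ex (zv n) (ch.X q)‖ ^ 2) ≤
      CP * lam ^ (2 * KP * eps) * ∑ n ∈ s with cb l n = c, ‖a n‖ ^ 2 := by
    intro c hc
    obtain ⟨nc, hnc, rfl⟩ := Finset.mem_image.1 hc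
    set sc := s.filter fun n => cb l n = cb l nc with hsc
    have h3 := hP2 lam (d * l) (3 * th) (zv nc) sc a hlam (by nlinarith) (by
        calc (d * l) ^ 3 = l ^ 3 * d ^ 3 := by ring
          _ ≤ L0 ^ 3 * x ^ 3 := by
              gcongr
              linarith
          _ = lam ^ 2 := e3) (by positivity) (by
        calc (3 * th) ^ 2 * (d * l) = 9 * d * (th ^ 2 * l) := by ring
          _ = 9 * d * x := by rw [hthl]
          _ ≤ x * x := by gcongr
          _ = lam ^ (2 * eps) := by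
              rw [hxdef, ← Real.rpow_add hlam0]
              congr 1
              ring) (hs nc hnc) (fun n hn => hs n (Finset.mem_filter.1 hn).1)
      (fun n hn => cube_dist hl0 (Finset.mem_filter.1 hn).2)
    have h4 : KP * (2 * eps) = 2 * KP * eps := by ring
    rw [h4] at h3
    refine le_trans ?_ h3
    have h5 : ∀ q, (1 : ℝ) ^ 2 * ‖∑ n ∈ sc, a n * ex (zv n) (ch.X q)‖ ^ 2 =
        ‖es sc a (ch.X q)‖ ^ 2 := by
      intro q
      simp [es]
    simp only [h5]
    refine int_le (isClosed_region ch (zv nc) _ _) (R := 2 * ch.dl) ?_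
      (chi_smooth ch _ _).continuous (chi_compact ch _ _)
      (continuous_es sc a ch.smooth.continuous) (fun q => by positivity) (chi_le_one ch _ _) ?_
    · intro q hq
      rw [mem_closedBall_zero_iff]
      exact hq.1
    · intro q hq
      obtain ⟨a1, a2, a3⟩ := chi_ne ch hq
      refine ⟨a1.le, ?_⟩
      have a4 := sn_sub ch (zv nc) (zv n0) (q := q) (by linarith)
      have a5 : |sn ch (zv n0) q| ≤ 5 / 2 * (th * lam) := by
        have a6 : |sg / (th * lam) * sn ch (zv n0) q| ≤ 5 / 2 := by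
          rw [abs_le]
          constructor <;> linarith
        rw [abs_mul, abs_div, hsg, abs_of_pos (show 0 < th * lam by positivity),
          div_mul_eq_mul_div, one_mul, div_le_iff₀ (by positivity)] at a6
        exact a6
      have a6 := hnear nc hnc
      have a7 : |sn ch (zv nc) q| ≤ |sn ch (zv nc) q - sn ch (zv n0) q| + |sn ch (zv n0) q| := by
        have := abs_add_le (sn ch (zv nc) q - sn ch (zv n0) q) (sn ch (zv n0) q)
        rwa [sub_add_cancel] at this
      have a8 : 0 < th * lam := by positivity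
      have a9 : 3 * th * lam = 3 * (th * lam) := by ring
      rw [a9]
      linarith
  have hsum : ∑ c ∈ s.image (cb l), ∑ n ∈ s with cb l n = c, ‖a n‖ ^ 2 = ∑ n ∈ s, ‖a n‖ ^ 2 :=
    Finset.sum_fiberwise_of_maps_to (fun n hn => Finset.mem_image_of_mem _ hn) _
  have hS0 : 0 ≤ ∑ n ∈ s, ‖a n‖ ^ 2 := Finset.sum_nonneg fun _ _ => by positivity
  have hcard := card_le hTR s hlam hs
  have hlk : 1 ≤ lam ^ (2 * KP * eps) := Real.one_le_rpow hlam (by positivity)
  have hEs : E * s.card ≤ CF * 5 ^ (m + 2) * lam ^ (2 * KP * eps) := by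
    calc E * s.card ≤ CF * (lam ^ (m + 2))⁻¹ * (5 * lam) ^ (m + 2) := by rw [hE]; gcongr
      _ = CF * 5 ^ (m + 2) * 1 := by
          rw [mul_pow]
          field_simp
      _ ≤ CF * 5 ^ (m + 2) * lam ^ (2 * KP * eps) := by gcongr
  calc (2 * ((1 : ℕ) : ℝ) + 1) ^ (m + 2) * ∑ c ∈ s.image (cb l), (∫ q,
        chi ch (zv n0) (sg / (th * lam)) q *
          ((1 : ℝ) ^ 2 * ‖∑ n ∈ s with cb l n = c, a n * ex (zv n) (ch.X q)‖ ^ 2)) +
        E * s.card * ∑ n ∈ s, ‖a n‖ ^ 2 ≤
        3 ^ (m + 2) * ∑ c ∈ s.image (cb l),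
          CP * lam ^ (2 * KP * eps) * ∑ n ∈ s with cb l n = c, ‖a n‖ ^ 2 +
        CF * 5 ^ (m + 2) * lam ^ (2 * KP * eps) * ∑ n ∈ s, ‖a n‖ ^ 2 := by
        have e3 : (2 * ((1 : ℕ) : ℝ) + 1) = 3 := by norm_num
        rw [e3]
        gcongr with c hc
        exact hcube c hc
    _ = _ := by
        rw [← Finset.mul_sum, hsum]
        ring

/-! ## the theorem -/

theorem specRA (hFP : SpecFP) (hGA : SpecGA) (hOR : SpecOR) (hTR : SpecTR) (hP : SpecP) :
    SpecRA := by
  intro m ch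
  obtain ⟨K, hK, h1⟩ := piece hFP hGA hOR hTR hP m ch
  refine ⟨K, hK, fun eps heps heps1 => ?_⟩
  obtain ⟨C, hC, h2⟩ := h1 eps heps heps1
  set V : ℝ := (volume (Metric.closedBall (0 : EE (m + 1)) (3 / 2 * ch.dl))).toReal with hV
  have hV0 : 0 ≤ V := ENNReal.toReal_nonneg
  set lam0 : ℝ := (9 * ((m + 2 : ℕ) : ℝ)) ^ (1 / eps) with hlam0
  have hlam00 : 0 < lam0 := by positivity
  refine ⟨C + V * (5 * lam0) ^ (m + 2), by positivity, ?_⟩
  intro lam th sg s a n0 hlam hth hth4 hsg hs hn0 hcb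
  have hlamp : 0 < lam := by linarith
  have hdl := ch.dl_pos
  have hdl1 := ch.dl_le
  have hS0 : 0 ≤ ∑ n ∈ s, ‖a n‖ ^ 2 := Finset.sum_nonneg fun _ _ => by positivity
  have hlk : 1 ≤ lam ^ (K * eps) := Real.one_le_rpow hlam (by positivity)
  have hth0 : 0 < th := lt_of_lt_of_le (by positivity) hth
  set S : Set (EE (m + 1)) := {q | ‖q‖ ≤ 3 / 2 * ch.dl ∧ th * lam ≤ sg * sn ch (zv n0) q ∧
    sg * sn ch (zv n0) q ≤ 2 * (th * lam)} with hSdef
  have hSc : IsClosed S :=
    (isClosed_le continuous_norm continuous_const).inter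
      ((isClosed_le continuous_const (continuous_const.mul (continuous_sn ch _))).inter
        (isClosed_le (continuous_const.mul (continuous_sn ch _)) continuous_const))
  have hSb : S ⊆ Metric.closedBall 0 (3 / 2 * ch.dl) := fun q hq => by
    rw [mem_closedBall_zero_iff]
    exact hq.1
  have hScomp : IsCompact S := (isCompact_closedBall 0 _).of_isClosed_subset hSc hSb
  have hF := continuous_es s a ch.smooth.continuous
  have hsg1 : |sg| = 1 := by
    rcases hsg with h | h <;> rw [h] <;> simp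
  rcases le_or_gt (9 * ((m + 2 : ℕ) : ℝ)) (lam ^ eps) with hx | hx
  · rcases le_or_gt th 2 with hth2 | hth2
    · have h3 := h2 lam s a hlam hx hs n0 hn0
        (fun n hn => cube_dist (by positivity) (hcb n hn n0 hn0)) sg th hsg1
        (by rw [neg_div]; exact hth) hth2
      calc ∫ q in S, ‖es s a (ch.X q)‖ ^ 2 ≤
            ∫ q, chi ch (zv n0) (sg / (th * lam)) q * ‖es s a (ch.X q)‖ ^ 2 := by
            rw [← integral_indicator hSc.measurableSet]
            refine integral_mono ?_ ?_ fun q => ?_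
            · exact (integrable_indicator_iff hSc.measurableSet).2
                (hF.continuousOn.integrableOn_compact hScomp)
            · exact ((chi_smooth ch _ _).continuous.mul hF).integrable_of_hasCompactSupport
                (chi_compact ch _ _).mul_right
            · by_cases hq : q ∈ S
              · have e : chi ch (zv n0) (sg / (th * lam)) q = 1 := by
                  refine chi_one ch hq.1 ?_ ?_
                  · rw [div_mul_eq_mul_div, one_le_div (by positivity)]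
                    exact hq.2.1
                  · rw [div_mul_eq_mul_div, div_le_iff₀ (by positivity)]
                    exact hq.2.2
                simp only [Set.indicator_of_mem hq, e, one_mul, le_refl]
              · simp only [Set.indicator_of_notMem hq]
                exact mul_nonneg (chi_nonneg ch _ _ _) (by positivity)
        _ ≤ C * lam ^ (K * eps) * ∑ n ∈ s, ‖a n‖ ^ 2 := h3
        _ ≤ (C + V * (5 * lam0) ^ (m + 2)) * lam ^ (K * eps) * ∑ n ∈ s, ‖a n‖ ^ 2 := by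
            gcongr
            exact le_add_of_nonneg_right (by positivity)
    · -- the region is empty
      have hempty : S = ∅ := by
        rw [Set.eq_empty_iff_forall_notMem]
        intro q hq
        have a1 := hq.1
        have a2 := sn_le ch (zv n0) (q := q) (by linarith)
        rw [hs n0 hn0] at a2
        have a3 : |sg * sn ch (zv n0) q| ≤ 2 * lam := by
          rw [abs_mul, hsg1, one_mul]
          exact a2
        have a4 := (abs_le.1 a3).2
        have a5 := hq.2.1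
        nlinarith
      rw [hempty, setIntegral_empty]
      positivity
  · -- small `lam`
    have hl : lam ≤ lam0 := by
      have e : lam = (lam ^ eps) ^ (1 / eps) := by
        rw [← Real.rpow_mul hlamp.le, mul_one_div_cancel heps.ne', Real.rpow_one]
      rw [e, hlam0]
      exact Real.rpow_le_rpow (by positivity) hx.le (by positivity)
    have hb : ∀ q, ‖es s a (ch.X q)‖ ^ 2 ≤ (5 * lam0) ^ (m + 2) * ∑ n ∈ s, ‖a n‖ ^ 2 := by
      intro q
      refine (hTR.1 (m + 2) s a (ch.X q)).trans ?_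
      gcongr
      refine (card_le hTR s hlam hs).trans ?_
      gcongr
    calc ∫ q in S, ‖es s a (ch.X q)‖ ^ 2 ≤
          ∫ q in Metric.closedBall (0 : EE (m + 1)) (3 / 2 * ch.dl), ‖es s a (ch.X q)‖ ^ 2 := by
          refine setIntegral_mono_set
            (hF.continuousOn.integrableOn_compact (isCompact_closedBall _ _)) ?_
            (Filter.Eventually.of_forall hSb)
          exact Filter.Eventually.of_forall fun q => by positivity
      _ ≤ ∫ _q in Metric.closedBall (0 : EE (m + 1)) (3 / 2 * ch.dl),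
            (5 * lam0) ^ (m + 2) * ∑ n ∈ s, ‖a n‖ ^ 2 := by
          refine setIntegral_mono_on
            (hF.continuousOn.integrableOn_compact (isCompact_closedBall _ _)) ?_
            measurableSet_closedBall fun q _ => hb q
          exact continuousOn_const.integrableOn_compact (isCompact_closedBall _ _)
      _ = V * (5 * lam0) ^ (m + 2) * 1 * ∑ n ∈ s, ‖a n‖ ^ 2 := by
          rw [setIntegral_const, smul_eq_mul, Measure.real, ← hV]
          ring
      _ ≤ (C + V * (5 * lam0) ^ (m + 2)) * lam ^ (K * eps) * ∑ n ∈ s, ‖a n‖ ^ 2 := by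
          gcongr
          exact le_add_of_nonneg_left hC.le

end Pool.Agent.Lib.MP_a8dae7_an.CV.RAM
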