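import Pool.Agent.Lib.MP_a8dae7_an.CV.Spec

/-!
# MP_a8dae7_an, CV: far pairs in the first reduction (part of RD1)

The cube with label `c` and side `l` is represented by its corner `l • zv c`.
-/

set_option autoImplicit false

open MeasureTheory
open scoped ContDiff

namespace Pool.Agent.Lib.MP_a8dae7_an.CV.RD1M

/-- the corner of the cube of side `l` containing `n` is at distance at most `d l` -/
theorem corner_dist {d : ℕ} (l : ℝ) (hl : 0 < l) (n : Fin d → ℤ) :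
    ‖zv n - l • zv (cb l n)‖ ≤ d * l := by
  have h1 : ∀ i, |(zv n - l • zv (cb l n)) i| ≤ l := by
    intro i
    have e1 : (zv n - l • zv (cb l n)) i = (n i : ℝ) - l * (⌊(n i : ℝ) / l⌋ : ℝ) := by
      simp [zv, cb]
    have h2 : (⌊(n i : ℝ) / l⌋ : ℝ) ≤ (n i : ℝ) / l := Int.floor_le _
    have h3 : (n i : ℝ) / l < (⌊(n i : ℝ) / l⌋ : ℝ) + 1 := Int.lt_floor_add_one _
    rw [le_div_iff₀ hl] at h2
    rw [div_lt_iff₀ hl] at h3
    rw [e1, abs_le]
    constructor <;> nlinarith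
  have h2 : ‖zv n - l • zv (cb l n)‖ ^ 2 ≤ (d * l) ^ 2 := by
    rw [EuclideanSpace.norm_sq_eq]
    calc ∑ i, ‖(zv n - l • zv (cb l n)) i‖ ^ 2 ≤ ∑ _i : Fin d, l ^ 2 := by
          refine Finset.sum_le_sum fun i _ => ?_
          rw [Real.norm_eq_abs, sq_abs, ← sq_abs]
          exact pow_le_pow_left₀ (abs_nonneg _) (h1 i) 2
      _ = d * l ^ 2 := by simp
      _ ≤ (d * l) ^ 2 := by
          rcases Nat.eq_zero_or_pos d with h | h
          · subst h; simp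
          · have : (1 : ℝ) ≤ d := by exact_mod_cast h
            nlinarith [sq_nonneg l, mul_nonneg (sub_nonneg.2 this) (sq_nonneg l)]
  exact le_of_sq_le_sq h2 (by positivity)

/-- labels far in one coordinate: the points are far -/
theorem far_dist {d : ℕ} (l : ℝ) (hl : 0 < l) (n n' : Fin d → ℤ) (R : ℝ) (i : Fin d)
    (h : R < |((cb l n i - cb l n' i : ℤ) : ℝ)|) : (R - 1) * l ≤ ‖zv n - zv n'‖ := by
  have h0 : |(zv n - zv n') i| ≤ ‖zv n - zv n'‖ := by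
    have := EuclideanSpace.norm_sq_eq (zv n - zv n')
    have h3 : ‖(zv n - zv n') i‖ ^ 2 ≤ ‖zv n - zv n'‖ ^ 2 := by
      rw [this]
      exact Finset.single_le_sum (f := fun j => ‖(zv n - zv n') j‖ ^ 2) (fun j _ => by positivity)
        (Finset.mem_univ i)
    rw [← Real.norm_eq_abs]
    exact le_of_sq_le_sq h3 (norm_nonneg _)
  refine le_trans ?_ h0
  have e1 : (zv n - zv n') i = (n i : ℝ) - (n' i : ℝ) := by simp [zv]
  rw [e1]
  have h2 : (⌊(n i : ℝ) / l⌋ : ℝ) ≤ (n i : ℝ) / l := Int.floor_le _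
  have h3 : (n i : ℝ) / l < (⌊(n i : ℝ) / l⌋ : ℝ) + 1 := Int.lt_floor_add_one _
  have h2' : (⌊(n' i : ℝ) / l⌋ : ℝ) ≤ (n' i : ℝ) / l := Int.floor_le _
  have h3' : (n' i : ℝ) / l < (⌊(n' i : ℝ) / l⌋ : ℝ) + 1 := Int.lt_floor_add_one _
  rw [le_div_iff₀ hl] at h2 h2'
  rw [div_lt_iff₀ hl] at h3 h3'
  have e2 : ((cb l n i - cb l n' i : ℤ) : ℝ) = (⌊(n i : ℝ) / l⌋ : ℝ) - (⌊(n' i : ℝ) / l⌋ : ℝ) := by
    simp [cb]
  rw [e2] at h
  rcases lt_abs.1 h with h4 | h4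
  · refine le_trans ?_ (le_abs_self _)
    nlinarith
  · refine le_trans ?_ (neg_le_abs _)
    nlinarith

/-- `sn` is Lipschitz in the frequency -/
theorem sn_sub {k : ℕ} (ch : Chart k) (n n' : EE (k + 1)) (q : EE k) (hq : ‖q‖ ≤ 1) :
    |sn ch n q - sn ch n' q| ≤ 2 * ‖n - n'‖ := by
  unfold sn
  rw [← inner_sub_left]
  refine le_trans (abs_real_inner_le_norm _ _) ?_
  have h1 : ‖ch.nu - ch.J q‖ ≤ 2 := by
    refine le_trans (norm_sub_le _ _) ?_
    rw [ch.nu_one, ch.J.norm_map]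
    linarith
  nlinarith [norm_nonneg (n - n')]

/-- product of characters -/
theorem ex_mul_conj {d : ℕ} (n n' x : EE d) : ex n x * (starRingEnd ℂ) (ex n' x) = ex (n - n') x := by
  unfold ex
  rw [← Complex.exp_conj, ← Complex.exp_add]
  congr 1
  rw [inner_sub_left]
  simp
  ring

/-- the three types of supports -/
def Typ (psi : ℝ → ℝ) : Prop :=
  (∀ s, psi s ≠ 0 → |s| < 2) ∨ (∀ s, psi s ≠ 0 → 1 < s) ∨ (∀ s, psi s ≠ 0 → s < -1)

/-- the gradient bound on the support -/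
theorem grad_bound (hGA : SpecGA) (k : ℕ) (ch : Chart k) (psi : ℝ → ℝ) (hT : Typ psi) (lam eps : ℝ)
    (h0 : 0 < eps) (h1 : eps ≤ 1 / 10) (hlam : 1 ≤ lam) (hbig : 4 * ((k : ℝ) + 1) ≤ lam ^ (2 * eps))
    (n n' : Fin (k + 1) → ℤ) (hn : ‖zv n‖ = lam) (hn' : ‖zv n'‖ = lam)
    (heta : 24 * lam ^ (2 / 3 + eps) ≤ ‖zv n - zv n'‖) (q : EE k) (hq : ‖q‖ ≤ 4 * ch.dl)
    (hs : psi (sn ch (lam ^ (2 / 3 - eps) • zv (cb (lam ^ (2 / 3 - eps)) n)) q / lam ^ (2 / 3 + eps)) ≠ 0)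
    (hs' : psi (sn ch (lam ^ (2 / 3 - eps) • zv (cb (lam ^ (2 / 3 - eps)) n')) q / lam ^ (2 / 3 + eps)) ≠ 0) :
    ∃ v : EE k, ‖v‖ ≤ 1 ∧ ch.c / 8 * lam ^ eps * Real.sqrt ‖zv n - zv n'‖ ≤
      |inner ℝ (zv n - zv n') (fderiv ℝ ch.X q v)| := by
  have hl0 : 0 < lam := by linarith
  set l := lam ^ (2 / 3 - eps) with hl
  set mu := lam ^ (2 / 3 + eps) with hmu
  have hlp : 0 < l := Real.rpow_pos_of_pos hl0 _
  have hmup : 0 < mu := Real.rpow_pos_of_pos hl0 _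
  have hlmu : l * lam ^ (2 * eps) = mu := by
    rw [hl, hmu, ← Real.rpow_add hl0]; congr 1; ring
  have hdl : 4 * (((k + 1 : ℕ) : ℝ) * l) ≤ mu := by
    rw [← hlmu]; push_cast
    nlinarith
  have hq1 : ‖q‖ ≤ 1 := by linarith [ch.dl_le]
  have hc1 : |sn ch (zv n) q - sn ch (l • zv (cb l n)) q| ≤ mu / 2 := by
    have := sn_sub ch (zv n) (l • zv (cb l n)) q hq1
    have h2 := corner_dist l hlp n
    linarith
  have hc1' : |sn ch (zv n') q - sn ch (l • zv (cb l n')) q| ≤ mu / 2 := by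
    have := sn_sub ch (zv n') (l • zv (cb l n')) q hq1
    have h2 := corner_dist l hlp n'
    linarith
  rw [abs_le] at hc1 hc1'
  have hcpos := ch.c_pos
  have hmulam : mu ≤ lam := by
    calc mu ≤ lam ^ (1 : ℝ) := Real.rpow_le_rpow_of_exponent_le hlam (by linarith)
      _ = lam := Real.rpow_one lam
  set e := ‖zv n - zv n'‖ with he
  have he0 : 0 ≤ e := norm_nonneg _
  have hse : Real.sqrt e * Real.sqrt e = e := Real.mul_self_sqrt he0
  have hs0 : 0 ≤ Real.sqrt e := Real.sqrt_nonneg _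
  -- `√e ≥ lam^(1/3+eps/2)`
  have hse1 : lam ^ (1 / 3 + eps / 2) ≤ Real.sqrt e := by
    apply Real.le_sqrt_of_sq_le
    calc (lam ^ (1 / 3 + eps / 2)) ^ 2 = mu := by
          rw [← Real.rpow_natCast, ← Real.rpow_mul hl0.le, hmu]
          congr 1; push_cast; ring
      _ ≤ e := by linarith
  obtain ⟨hg1, hg2⟩ := hGA k ch (zv n) (zv n') q (by rw [hn, hn']) hq
  have key2 : ∀ v : EE k, ch.c / 4 * (mu / (2 * lam)) * e ≤ inner ℝ (zv n - zv n') (fderiv ℝ ch.X q v) →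
      ch.c / 8 * lam ^ eps * Real.sqrt e ≤ |inner ℝ (zv n - zv n') (fderiv ℝ ch.X q v)| := by
    intro v hv
    refine le_trans (le_trans ?_ hv) (le_abs_self _)
    have h3 : lam ^ eps ≤ mu / lam * Real.sqrt e := by
      have h4 : mu / lam = lam ^ (-(1 / 3) + eps) := by
        rw [div_eq_iff hl0.ne', ← Real.rpow_add_one hl0.ne', hmu]
        congr 1; ring
      calc lam ^ eps ≤ lam ^ (-(1 / 3) + eps) * lam ^ (1 / 3 + eps / 2) := by
            rw [← Real.rpow_add hl0]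
            exact Real.rpow_le_rpow_of_exponent_le hlam (by linarith)
        _ ≤ mu / lam * Real.sqrt e := by
            rw [h4]
            exact mul_le_mul_of_nonneg_left hse1 (Real.rpow_nonneg hl0.le _)
    calc ch.c / 8 * lam ^ eps * Real.sqrt e ≤ ch.c / 8 * (mu / lam * Real.sqrt e) * Real.sqrt e := by
          gcongr
      _ = ch.c / 4 * (mu / (2 * lam)) * (Real.sqrt e * Real.sqrt e) := by field_simp; ring
      _ = ch.c / 4 * (mu / (2 * lam)) * e := by rw [hse]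
  have hth0 : 0 ≤ mu / (2 * lam) := by positivity
  have hth1 : mu / (2 * lam) ≤ 1 := by
    rw [div_le_one (by positivity)]; linarith
  have hthn : mu / (2 * lam) * ‖zv n‖ = mu / 2 := by rw [hn]; field_simp
  rcases hT with hT | hT | hT
  · have a1 := hT _ hs
    have a2 := hT _ hs'
    rw [abs_lt, lt_div_iff₀ hmup, div_lt_iff₀ hmup] at a1 a2
    obtain ⟨v, hv1, hv2⟩ := hg1 (3 * mu) (by rw [abs_le]; constructor <;> linarith)
      (by rw [abs_le]; constructor <;> linarith) (by linarith)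
    refine ⟨v, hv1, le_trans (le_trans ?_ hv2) (le_abs_self _)⟩
    have h3 : lam ^ eps ≤ Real.sqrt e :=
      le_trans (Real.rpow_le_rpow_of_exponent_le hlam (by linarith)) hse1
    calc ch.c / 8 * lam ^ eps * Real.sqrt e ≤ ch.c / 8 * Real.sqrt e * Real.sqrt e := by gcongr
      _ = ch.c / 8 * e := by rw [mul_assoc, hse]
      _ ≤ ch.c / 4 * e := by nlinarith
  · have a1 := hT _ hs
    have a2 := hT _ hs'
    rw [lt_div_iff₀ hmup] at a1 a2
    obtain ⟨v, hv1, hv2⟩ := hg2 (mu / (2 * lam)) hth0 hth1 (Or.inl ⟨by rw [hthn]; linarith,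
      by rw [hthn]; linarith⟩)
    exact ⟨v, hv1, key2 v hv2⟩
  · have a1 := hT _ hs
    have a2 := hT _ hs'
    rw [div_lt_iff₀ hmup] at a1 a2
    obtain ⟨v, hv1, hv2⟩ := hg2 (mu / (2 * lam)) hth0 hth1 (Or.inr ⟨by rw [hthn]; linarith,
      by rw [hthn]; linarith⟩)
    exact ⟨v, hv1, key2 v hv2⟩

theorem zv_sub_norm_le {d : ℕ} (l : ℝ) (hl : 0 < l) (n : Fin d → ℤ) :
    ‖l • zv (cb l n)‖ ≤ ‖zv n‖ + d * l := by
  have h1 := corner_dist l hl n
  have h2 : l • zv (cb l n) = zv n - (zv n - l • zv (cb l n)) := by abel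
  rw [h2]
  exact le_trans (norm_sub_le _ _) (by linarith)

/-- far pairs, one cutoff -/
theorem far_one (hFP : SpecFP) (hGA : SpecGA) (hCT : SpecCT) (k : ℕ) (ch : Chart k) (chi : EE k → ℝ)
    (hchi : ContDiff ℝ ∞ chi) (hsup : ∀ q, 3 / 2 * ch.dl < ‖q‖ → chi q = 0) (eps : ℝ) (h0 : 0 < eps)
    (h1 : eps ≤ 1 / 10) (N : ℕ) (psi : ℝ → ℝ) (hT : Typ psi) (hBD : BD psi) :
    ∃ C : ℝ, 0 < C ∧ ∀ lam : ℝ, 1 ≤ lam → 4 * ((k : ℝ) + 1) ≤ lam ^ (2 * eps) →
      ∀ n n' : Fin (k + 1) → ℤ, ‖zv n‖ = lam → ‖zv n'‖ = lam →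
      (∃ i, 25 * lam ^ (2 * eps) <
        |((cb (lam ^ (2 / 3 - eps)) n i - cb (lam ^ (2 / 3 - eps)) n' i : ℤ) : ℝ)|) →
      ‖∫ q, ((chi q * (psi (sn ch (lam ^ (2 / 3 - eps) • zv (cb (lam ^ (2 / 3 - eps)) n)) q /
          lam ^ (2 / 3 + eps)) *
        psi (sn ch (lam ^ (2 / 3 - eps) • zv (cb (lam ^ (2 / 3 - eps)) n')) q /
          lam ^ (2 / 3 + eps))) : ℝ) : ℂ) *
        (ex (zv n) (ch.X q) * (starRingEnd ℂ) (ex (zv n') (ch.X q)))‖ ≤ C * lam⁻¹ ^ N := by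
  have hcomp : HasCompactSupport chi := by
    refine HasCompactSupport.intro (isCompact_closedBall (0 : EE k) (3 / 2 * ch.dl)) ?_
    intro q hq
    apply hsup
    simpa [Metric.mem_closedBall, dist_zero_right] using hq
  obtain ⟨A, hA⟩ := hCT.2.2.2.2.2.2.2.2.2.2.2 k ch chi psi psi hchi hcomp hBD hBD
  obtain ⟨M, hM⟩ := exists_nat_ge ((N : ℝ) / eps)
  obtain ⟨C, hC, hF⟩ := hFP k ch M (fun j => |A j| * 2 ^ j)
  refine ⟨C * (8 / ch.c) ^ M, by have := ch.c_pos; positivity, ?_⟩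
  intro lam hlam hbig n n' hn hn' hfar
  obtain ⟨i, hi⟩ := hfar
  have hl0 : 0 < lam := by linarith
  have hcpos := ch.c_pos
  set l := lam ^ (2 / 3 - eps) with hl
  set mu := lam ^ (2 / 3 + eps) with hmu
  have hlp : 0 < l := Real.rpow_pos_of_pos hl0 _
  have hmup : 0 < mu := Real.rpow_pos_of_pos hl0 _
  have hlmu : l * lam ^ (2 * eps) = mu := by
    rw [hl, hmu, ← Real.rpow_add hl0]; congr 1; ring
  have hmulam : mu ≤ lam := by
    calc mu ≤ lam ^ (1 : ℝ) := Real.rpow_le_rpow_of_exponent_le hlam (by linarith)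
      _ = lam := Real.rpow_one lam
  have hmu1 : 1 ≤ mu := Real.one_le_rpow hlam (by linarith)
  have hdl : 4 * (((k + 1 : ℕ) : ℝ) * l) ≤ mu := by
    rw [← hlmu]; push_cast
    nlinarith
  have h2e : 1 ≤ lam ^ (2 * eps) := Real.one_le_rpow hlam (by linarith)
  have heta : 24 * mu ≤ ‖zv n - zv n'‖ := by
    have := far_dist l hlp n n' _ i hi
    rw [← hlmu]
    nlinarith
  have hse2 : lam / mu ≤ Real.sqrt ‖zv n - zv n'‖ := by
    apply Real.le_sqrt_of_sq_le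
    have h4 : lam / mu = lam ^ (1 / 3 - eps) := by
      rw [div_eq_iff hmup.ne', hmu, ← Real.rpow_add hl0]
      conv_lhs => rw [← Real.rpow_one lam]
      congr 1; ring
    calc (lam / mu) ^ 2 = lam ^ (2 / 3 - 2 * eps) := by
          rw [h4, ← Real.rpow_natCast, ← Real.rpow_mul hl0.le]
          congr 1; push_cast; ring
      _ ≤ mu := Real.rpow_le_rpow_of_exponent_le hlam (by linarith)
      _ ≤ ‖zv n - zv n'‖ := by linarith
  have hcn : ‖l • zv (cb l n)‖ ≤ 2 * lam := by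
    have := zv_sub_norm_le l hlp n
    rw [hn] at this
    linarith
  have hcn' : ‖l • zv (cb l n')‖ ≤ 2 * lam := by
    have := zv_sub_norm_le l hlp n'
    rw [hn'] at this
    linarith
  obtain ⟨hsm, hder⟩ := hA (l • zv (cb l n)) (l • zv (cb l n')) (mu / (2 * lam)) (2 * lam)
    (by positivity) (by rw [div_le_iff₀ (by positivity)]; linarith) (by positivity) hcn hcn'
  have hml : mu / (2 * lam) * (2 * lam) = mu := by field_simp
  rw [hml] at hsm hder
  set W : EE k → ℝ := fun q => chi q * (psi (sn ch (l • zv (cb l n)) q / mu) *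
    psi (sn ch (l • zv (cb l n')) q / mu)) with hW
  have hfin := hF (zv n - zv n') W (ch.c / 8 * lam ^ eps) (by linarith) (by positivity) hsm
    (by
      intro q hq
      have : chi q = 0 := hsup q (by have := ch.dl_pos; linarith)
      simp [hW, this])
    (by
      intro j _ q
      refine le_trans (hder j q) ?_
      have e1 : 1 / (mu / (2 * lam)) = 2 * (lam / mu) := by field_simp
      rw [e1, mul_pow, ← mul_assoc]
      have h5 : A j * 2 ^ j ≤ |A j| * 2 ^ j := by gcongr; exact le_abs_self _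
      have h6 : 0 ≤ |A j| * 2 ^ j := by positivity
      calc A j * 2 ^ j * (lam / mu) ^ j ≤ |A j| * 2 ^ j * (lam / mu) ^ j := by gcongr
        _ ≤ |A j| * 2 ^ j * Real.sqrt ‖zv n - zv n'‖ ^ j := by gcongr)
    (by
      intro q hq
      have hq1 : chi q ≠ 0 := fun h => hq (by simp [hW, h])
      have hq2 : psi (sn ch (l • zv (cb l n)) q / mu) ≠ 0 := fun h => hq (by simp [hW, h])
      have hq3 : psi (sn ch (l • zv (cb l n')) q / mu) ≠ 0 := fun h => hq (by simp [hW, h])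
      have hq4 : ‖q‖ ≤ 4 * ch.dl := by
        by_contra h
        push Not at h
        exact hq1 (hsup q (by have := ch.dl_pos; linarith))
      exact grad_bound hGA k ch psi hT lam eps h0 h1 hlam hbig n n' hn hn' heta q hq4 hq2 hq3)
  have e3 : ∀ q, ((W q : ℝ) : ℂ) * (ex (zv n) (ch.X q) * (starRingEnd ℂ) (ex (zv n') (ch.X q))) =
      ((W q : ℝ) : ℂ) * ex (zv n - zv n') (ch.X q) := by
    intro q; rw [ex_mul_conj]
  have e4 : (∫ q, ((chi q * (psi (sn ch (l • zv (cb l n)) q / mu) *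
      psi (sn ch (l • zv (cb l n')) q / mu)) : ℝ) : ℂ) *
      (ex (zv n) (ch.X q) * (starRingEnd ℂ) (ex (zv n') (ch.X q)))) =
      ∫ q, ((W q : ℝ) : ℂ) * ex (zv n - zv n') (ch.X q) := integral_congr_ae
        (Filter.Eventually.of_forall e3)
  rw [e4]
  refine le_trans hfin ?_
  have e5 : (ch.c / 8 * lam ^ eps)⁻¹ ^ M = (8 / ch.c) ^ M * (lam ^ eps)⁻¹ ^ M := by
    rw [← mul_pow]; congr 1; field_simp
  rw [e5, ← mul_assoc]
  have e6 : (lam ^ eps)⁻¹ ^ M ≤ lam⁻¹ ^ N := by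
    rw [inv_pow, inv_pow]
    apply inv_anti₀ (by positivity)
    have e7 : (lam ^ eps) ^ M = lam ^ (eps * (M : ℝ)) := by
      rw [Real.rpow_mul hl0.le, Real.rpow_natCast]
    rw [e7, ← Real.rpow_natCast lam N]
    apply Real.rpow_le_rpow_of_exponent_le hlam
    rw [div_le_iff₀ h0] at hM
    linarith
  gcongr

/-- **the far pairs of RD1** -/
theorem far_pairs (hFP : SpecFP) (hGA : SpecGA) (hCT : SpecCT) (k : ℕ) (ch : Chart k) (chi : EE k → ℝ)
    (hchi : ContDiff ℝ ∞ chi) (hsup : ∀ q, 3 / 2 * ch.dl < ‖q‖ → chi q = 0) (eps : ℝ) (h0 : 0 < eps)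
    (h1 : eps ≤ 1 / 10) (N : ℕ) :
    ∃ C R0 lam0 : ℝ, 0 < C ∧ 1 ≤ R0 ∧ 1 ≤ lam0 ∧ ∀ lam : ℝ, lam0 ≤ lam →
      ∀ n n' : Fin (k + 1) → ℤ, ‖zv n‖ = lam → ‖zv n'‖ = lam →
      ∀ psi : ℝ → ℝ, (psi = psT ∨ psi = psP ∨ psi = psN) →
      (∃ i, R0 * lam ^ (2 * eps) <
        |((cb (lam ^ (2 / 3 - eps)) n i - cb (lam ^ (2 / 3 - eps)) n' i : ℤ) : ℝ)|) →
      ‖∫ q, ((chi q * (psi (sn ch (lam ^ (2 / 3 - eps) • zv (cb (lam ^ (2 / 3 - eps)) n)) q /
          lam ^ (2 / 3 + eps)) *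
        psi (sn ch (lam ^ (2 / 3 - eps) • zv (cb (lam ^ (2 / 3 - eps)) n')) q /
          lam ^ (2 / 3 + eps))) : ℝ) : ℂ) *
        (ex (zv n) (ch.X q) * (starRingEnd ℂ) (ex (zv n') (ch.X q)))‖ ≤ C * lam⁻¹ ^ N := by
  have hCT' := hCT
  obtain ⟨b1, b2, b3, _, _, _, s1, s2, s3, _, _, _⟩ := hCT'
  obtain ⟨C1, hC1, F1⟩ := far_one hFP hGA hCT k ch chi hchi hsup eps h0 h1 N psT (Or.inl s3) b3
  obtain ⟨C2, hC2, F2⟩ := far_one hFP hGA hCT k ch chi hchi hsup eps h0 h1 N psP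
    (Or.inr (Or.inl s1)) b1
  obtain ⟨C3, hC3, F3⟩ := far_one hFP hGA hCT k ch chi hchi hsup eps h0 h1 N psN
    (Or.inr (Or.inr s2)) b2
  refine ⟨C1 + C2 + C3, 25, (4 * ((k : ℝ) + 1)) ^ (1 / (2 * eps)), by positivity, by norm_num, ?_, ?_⟩
  · apply Real.one_le_rpow
    · have : (0 : ℝ) ≤ k := Nat.cast_nonneg k
      linarith
    · positivity
  intro lam hlam n n' hn hn' psi hpsi hfar
  have hk0 : (0 : ℝ) < 4 * ((k : ℝ) + 1) := by positivity
  have hk1 : (1 : ℝ) ≤ 4 * ((k : ℝ) + 1) := by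
    have : (0 : ℝ) ≤ k := Nat.cast_nonneg k
    linarith
  have hlam1 : 1 ≤ lam := le_trans (Real.one_le_rpow hk1 (by positivity)) hlam
  have hl0 : 0 < lam := by linarith
  have hbig : 4 * ((k : ℝ) + 1) ≤ lam ^ (2 * eps) := by
    calc 4 * ((k : ℝ) + 1) = ((4 * ((k : ℝ) + 1)) ^ (1 / (2 * eps))) ^ (2 * eps) := by
          rw [← Real.rpow_mul hk0.le]
          rw [one_div_mul_cancel (by positivity), Real.rpow_one]
      _ ≤ lam ^ (2 * eps) := Real.rpow_le_rpow (by positivity) hlam (by positivity)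
  have hpow : 0 ≤ lam⁻¹ ^ N := by positivity
  rcases hpsi with h | h | h
  · subst h
    refine le_trans (F1 lam hlam1 hbig n n' hn hn' hfar) ?_
    gcongr
    linarith
  · subst h
    refine le_trans (F2 lam hlam1 hbig n n' hn hn' hfar) ?_
    gcongr
    linarith
  · subst h
    refine le_trans (F3 lam hlam1 hbig n n' hn hn' hfar) ?_
    gcongr
    linarith

end Pool.Agent.Lib.MP_a8dae7_an.CV.RD1M
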