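import Pool.Agent.Lib.MP_a8dae7_an.CV.RD1
import Pool.Agent.Lib.MP_a8dae7_an.CV.RD1F

/-!
# MP_a8dae7_an, CV: the first reduction, assembled from RD1 and RD1F
-/

set_option autoImplicit false

namespace Pool.Agent.Lib.MP_a8dae7_an.CV.RD1M

theorem farPairs (hFP : SpecFP) (hGA : SpecGA) (hCT : SpecCT) : FarPairs := by
  intro k ch chi hchi hsup eps h0 h1 N
  obtain ⟨C, R0, lam0, hC, hR, hl, h⟩ := far_pairs hFP hGA hCT k ch chi hchi hsup eps h0 h1 N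
  exact ⟨C, R0, lam0, hC, hl, hR, h⟩

theorem specRD1 (hFP : SpecFP) (hGA : SpecGA) (hOR : SpecOR) (hTR : SpecTR) (hCT : SpecCT) : SpecRD1 :=
  rd1 (farPairs hFP hGA hCT) hOR hTR hCT

end Pool.Agent.Lib.MP_a8dae7_an.CV.RD1M
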