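import Pool.Agent.Lib.MP_a8dae7_an.CV.Spec

/-!
# MP_a8dae7_an, CV: module Z2, the blocks with large `t_z`
-/

set_option autoImplicit false

open MeasureTheory
open scoped ContDiff

namespace Pool.Agent.Lib.MP_a8dae7_an.CV.Z2M

open Pool.Agent.Lib.MP_a8dae7_an.CV

/-! ### Continuity of the kernel -/

theorem AA_re_pos (lam r t : ℝ) (hr : r ≠ 0) : 0 < (AA lam r t).re := by
  have : (AA lam r t).re = 1 / r ^ 2 := by
    unfold AA
    rw [Complex.add_re, Complex.ofReal_re, Complex.mul_re, Complex.I_re, Complex.I_im,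
      Complex.ofReal_re, Complex.ofReal_im]
    ring
  rw [this]
  positivity

theorem continuous_AA (lam r : ℝ) : Continuous (AA lam r) := by
  unfold AA
  fun_prop

theorem continuous_FF {k : ℕ} (om : EE (k + 1)) (lam r : ℝ) (hr : r ≠ 0) : Continuous (FF om lam r) := by
  have h0 : Continuous fun x : EE (k + 1) => AA lam r (inner ℝ om x) :=
    (continuous_AA lam r).comp (by fun_prop)
  have h1 : Continuous fun x : EE (k + 1) => Complex.log (AA lam r (inner ℝ om x)) :=
    h0.clog fun x => Or.inl (AA_re_pos lam r _ hr)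
  have h2 : Continuous fun x : EE (k + 1) => ((pq om x : ℝ) : ℂ) / (4 * AA lam r (inner ℝ om x)) := by
    refine Continuous.div ?_ (continuous_const.mul h0) fun x => ?_
    · unfold pq
      fun_prop
    · refine mul_ne_zero (by norm_num) fun h => ?_
      have := AA_re_pos lam r (inner ℝ om x) hr
      rw [h] at this
      simp at this
  unfold FF
  refine (Continuous.sub ?_ (continuous_const.mul h1)).sub h2
  fun_prop

theorem continuous_Kf {k : ℕ} (om : EE (k + 1)) (lam r : ℝ) (hr : r ≠ 0) : Continuous (Kf om lam r) := by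
  have := continuous_FF om lam r hr
  unfold Kf
  fun_prop

theorem continuous_ks {m : ℕ} (ch : Chart (m + 1)) (om : EE (m + 2)) (lam r : ℝ) (e : EE (m + 1))
    (L : EE m →ₗᵢ[ℝ] EE (m + 1)) (zt : EE (m + 2)) (sg sg' : ℝ) (hr : r ≠ 0) :
    Continuous (fun p : EE m × EE m => ks ch om lam r e L zt sg sg' p.1 p.2) := by
  unfold ks
  refine (continuous_Kf om lam r hr).comp ?_
  have hs : ∀ s : ℝ, Continuous (sl e L s) := by
    intro s
    unfold sl
    fun_prop
  unfold xd
  exact ((ch.smooth.continuous.comp ((hs sg).comp continuous_fst)).sub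
    (ch.smooth.continuous.comp ((hs sg').comp continuous_snd))).add continuous_const

/-- volumes of balls -/
theorem vol_ball (m : ℕ) : ∃ V : ℝ, 0 ≤ V ∧ ∀ (x : EE m) (rho : ℝ), 0 ≤ rho →
    (volume (Metric.closedBall x rho)).toReal = rho ^ m * V := by
  refine ⟨(volume (Metric.ball (0 : EE m) 1)).toReal, ENNReal.toReal_nonneg, fun x rho hrho => ?_⟩
  rw [Measure.addHaar_closedBall volume x hrho, ENNReal.toReal_mul, finrank_euclideanSpace_fin,
    ENNReal.toReal_ofReal (by positivity)]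

/-- **Z2** -/
theorem specZ2 (hJN : SpecJN) (hJF : SpecJF) (hTT : SpecTT) : SpecZ2 := by
  intro m ch
  obtain ⟨C1, hC1, hN⟩ := hJN m ch
  obtain ⟨K1, hK1, hF⟩ := hJF m ch
  obtain ⟨V, hV, hvol⟩ := vol_ball m
  have hm1 : (1 : ℝ) ≤ (m : ℝ) + 1 := by
    have : (0 : ℝ) ≤ m := Nat.cast_nonneg m
    linarith
  refine ⟨K1 * (m + 1), by nlinarith, ?_⟩
  intro eps he he'
  obtain ⟨C2, hC2, hF2⟩ := hF eps 3 he he'
  have hd := ch.dl_pos
  set C : ℝ := 1 + C1 * V + 2 * C2 * ((2 * ch.dl) ^ m * V) with hC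
  have hC' : 1 ≤ C := by
    have h1 : 0 ≤ C1 * V := by positivity
    have h2 : 0 ≤ 2 * C2 * ((2 * ch.dl) ^ m * V) := by positivity
    linarith
  refine ⟨C, by linarith, ?_⟩
  intro om e L hS lam r sg sg' zt hlam hr hr3 hz hz2 hz3 hsg hsg'
  set T : ℝ := |(inner ℝ om zt : ℝ)| with hT
  have hT0 : 0 < T := by linarith
  have hlam0 : 0 < lam := by linarith
  have hr0 : 0 < r := by linarith
  have hle1 : 1 ≤ lam ^ (K1 * (m + 1) * eps) := Real.one_le_rpow hlam (by positivity)
  have hcut0 : ∀ b : EE m, 3 * ch.dl < ‖b‖ → (cut ch m b : ℝ) = 0 := by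
    intro b hb
    refine (cut ch m).zero_of_le_dist ?_
    rw [dist_zero_right]
    change 5 / 2 * ch.dl ≤ ‖b‖
    linarith
  have hcut1 : ∀ b : EE m, ‖b‖ ≤ 2 * ch.dl → (cut ch m b : ℝ) = 1 := by
    intro b hb
    refine (cut ch m).one_of_mem_closedBall ?_
    rw [mem_closedBall_zero_iff]
    exact hb
  refine hTT m (2 * ch.dl) (3 * ch.dl) _ _ (fun b => (cut ch m b : ℝ))
    (continuous_ks ch om lam r e L zt sg sg' hr0.ne') (cut ch m).continuous hcut0
    (fun b => (cut ch m).nonneg) hcut1 (by positivity) ?_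
  intro b hb
  change ∫ b'' in Metric.closedBall (0 : EE m) (2 * ch.dl), ‖JJ ch om lam r e L zt sg sg' b b''‖ ≤ _
  set A1 : ℝ := C1 * (r / lam) ^ 2 * (lam / T) ^ (m + 1) * (r * T / lam) ^ m with hA1
  set A2 : ℝ := C2 * lam⁻¹ ^ 3 with hA2
  set de : ℝ := lam ^ (K1 * eps) / r with hde
  have hA10 : 0 ≤ A1 := by positivity
  have hA20 : 0 ≤ A2 := by positivity
  have hde0 : 0 ≤ de := by positivity
  -- pointwise bound
  have hpt : ∀ b'' ∈ Metric.closedBall (0 : EE m) (2 * ch.dl), ‖JJ ch om lam r e L zt sg sg' b b''‖ ≤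
      (Metric.closedBall b de).indicator (fun _ => A1) b'' + A2 := by
    intro b'' hb''
    rw [mem_closedBall_zero_iff] at hb''
    by_cases h : b'' ∈ Metric.closedBall b de
    · rw [Set.indicator_of_mem h]
      have := hN om e L hS lam r sg sg' zt b b'' hlam hr hz hz2 hsg hsg' hb hb''
      linarith
    · rw [Set.indicator_of_notMem h, zero_add]
      rw [Metric.mem_closedBall, not_le, dist_comm, dist_eq_norm, hde, div_lt_iff₀ hr0] at h
      refine hF2 om e L hS lam r sg sg' zt b b'' hlam hr hr3 hz hz2 hz3 hsg hsg' hb hb'' ?_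
      rw [mul_comm r]
      exact h.le
  have hfin : volume (Metric.closedBall (0 : EE m) (2 * ch.dl)) ≠ ⊤ := measure_closedBall_lt_top.ne
  have hint1 : Integrable ((Metric.closedBall b de).indicator (fun _ => A1))
      (volume.restrict (Metric.closedBall (0 : EE m) (2 * ch.dl))) :=
    (integrable_const_iff.mpr (Or.inr ⟨by
      rw [Measure.restrict_apply_univ]; exact measure_closedBall_lt_top⟩)).indicator
      Metric.isClosed_closedBall.measurableSet
  have hint2 : Integrable (fun _ : EE m => A2) (volume.restrict (Metric.closedBall (0 : EE m) (2 * ch.dl))) :=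
    integrable_const_iff.mpr (Or.inr ⟨by
      rw [Measure.restrict_apply_univ]; exact measure_closedBall_lt_top⟩)
  have hI : ∫ b'' in Metric.closedBall (0 : EE m) (2 * ch.dl), ‖JJ ch om lam r e L zt sg sg' b b''‖ ≤
      A1 * (de ^ m * V) + A2 * ((2 * ch.dl) ^ m * V) := by
    calc ∫ b'' in Metric.closedBall (0 : EE m) (2 * ch.dl), ‖JJ ch om lam r e L zt sg sg' b b''‖ ≤
        ∫ b'' in Metric.closedBall (0 : EE m) (2 * ch.dl), ((Metric.closedBall b de).indicator (fun _ => A1) b'' + A2) := by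
          refine integral_mono_of_nonneg (Filter.Eventually.of_forall fun _ => norm_nonneg _) (hint1.add hint2) ?_
          exact (ae_restrict_iff' Metric.isClosed_closedBall.measurableSet).mpr
            (Filter.Eventually.of_forall fun b'' hb'' => hpt b'' hb'')
      _ = (∫ b'' in Metric.closedBall (0 : EE m) (2 * ch.dl), (Metric.closedBall b de).indicator (fun _ => A1) b'') +
          ∫ _ in Metric.closedBall (0 : EE m) (2 * ch.dl), A2 := integral_add hint1 hint2
      _ ≤ A1 * (de ^ m * V) + A2 * ((2 * ch.dl) ^ m * V) := by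
          refine add_le_add ?_ ?_
          · rw [integral_indicator Metric.isClosed_closedBall.measurableSet, integral_const,
              smul_eq_mul, mul_comm]
            refine mul_le_mul_of_nonneg_left ?_ hA10
            rw [← hvol b de hde0]
            unfold Measure.real
            refine ENNReal.toReal_mono measure_closedBall_lt_top.ne ?_
            rw [Measure.restrict_apply_univ]
            exact Measure.restrict_apply_le _ _
          · rw [integral_const, smul_eq_mul, mul_comm]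
            refine mul_le_mul_of_nonneg_left ?_ hA20
            rw [← hvol 0 (2 * ch.dl) (by positivity)]
            unfold Measure.real
            rw [Measure.restrict_apply_univ]
  refine hI.trans ?_
  -- the near part
  have e1 : A1 * (de ^ m * V) = C1 * V * lam ^ (K1 * eps * m) * ((r / lam) ^ 2 * (lam / T)) := by
    have h1 : (lam ^ (K1 * eps)) ^ m = lam ^ (K1 * eps * m) := by
      rw [← Real.rpow_natCast, ← Real.rpow_mul hlam0.le]
    have h2 : (lam / T) ^ m * (r * T / lam) ^ m * (1 / r) ^ m = 1 := by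
      rw [← mul_pow, ← mul_pow]
      have : lam / T * (r * T / lam) * (1 / r) = 1 := by field_simp
      rw [this, one_pow]
    have h3 : de ^ m = lam ^ (K1 * eps * m) * (1 / r) ^ m := by
      rw [hde, div_eq_mul_one_div, mul_pow, h1]
    rw [hA1, h3]
    calc _ = C1 * V * lam ^ (K1 * eps * m) * ((r / lam) ^ 2 * (lam / T)) *
          ((lam / T) ^ m * (r * T / lam) ^ m * (1 / r) ^ m) := by ring
      _ = _ := by rw [h2, mul_one]
  -- the far part
  have e2 : lam⁻¹ ^ 3 ≤ 2 * ((r / lam) ^ 2 * (lam / T)) := by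
    have h1 : lam ^ eps ≤ lam := by
      calc lam ^ eps ≤ lam ^ (1 : ℝ) := Real.rpow_le_rpow_of_exponent_le hlam (by linarith)
        _ = lam := Real.rpow_one lam
    have h2 : T ≤ 2 * lam ^ 2 := by
      have : r * T ≤ 2 * lam * lam := hz3.trans (by gcongr)
      nlinarith
    have h3 : lam⁻¹ ^ 3 = 2 * ((1 / lam) ^ 2 * (lam / (2 * lam ^ 2))) := by
      field_simp
    rw [h3]
    gcongr
  have e3 : A2 * ((2 * ch.dl) ^ m * V) ≤ 2 * C2 * ((2 * ch.dl) ^ m * V) * ((r / lam) ^ 2 * (lam / T)) := by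
    rw [hA2]
    calc C2 * lam⁻¹ ^ 3 * ((2 * ch.dl) ^ m * V) ≤ C2 * (2 * ((r / lam) ^ 2 * (lam / T))) * ((2 * ch.dl) ^ m * V) := by
          gcongr
      _ = _ := by ring
  have e4 : lam ^ (K1 * eps * m) ≤ (lam ^ (K1 * (m + 1) * eps)) ^ 2 := by
    rw [← Real.rpow_natCast, ← Real.rpow_mul hlam0.le]
    refine Real.rpow_le_rpow_of_exponent_le hlam ?_
    push_cast
    have h1 : 0 ≤ K1 * eps := by positivity
    have h2 : (0 : ℝ) ≤ m := Nat.cast_nonneg m
    nlinarith [mul_nonneg h1 h2]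
  have e5 : (1 : ℝ) ≤ (lam ^ (K1 * (m + 1) * eps)) ^ 2 := one_le_pow₀ hle1
  have hP : 0 ≤ (r / lam) ^ 2 * (lam / T) := by positivity
  have e6 : (C * lam ^ (K1 * (m + 1) * eps) * (r / lam) * Real.sqrt (lam / T)) ^ 2 =
      C ^ 2 * (lam ^ (K1 * (m + 1) * eps)) ^ 2 * ((r / lam) ^ 2 * (lam / T)) := by
    rw [mul_pow, mul_pow, mul_pow, Real.sq_sqrt (by positivity)]
    ring
  rw [e6, e1]
  have hX : 0 ≤ (lam ^ (K1 * (m + 1) * eps)) ^ 2 := by positivity
  have e7 : C1 * V * lam ^ (K1 * eps * m) + 2 * C2 * ((2 * ch.dl) ^ m * V) ≤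
      C ^ 2 * (lam ^ (K1 * (m + 1) * eps)) ^ 2 := by
    have h1 : 0 ≤ C1 * V := by positivity
    have h2 : 0 ≤ 2 * C2 * ((2 * ch.dl) ^ m * V) := by positivity
    calc C1 * V * lam ^ (K1 * eps * m) + 2 * C2 * ((2 * ch.dl) ^ m * V) ≤
        C1 * V * (lam ^ (K1 * (m + 1) * eps)) ^ 2 +
          2 * C2 * ((2 * ch.dl) ^ m * V) * (lam ^ (K1 * (m + 1) * eps)) ^ 2 := by
          refine add_le_add (mul_le_mul_of_nonneg_left e4 h1) ?_
          exact le_mul_of_one_le_right h2 e5
      _ = (C1 * V + 2 * C2 * ((2 * ch.dl) ^ m * V)) * (lam ^ (K1 * (m + 1) * eps)) ^ 2 := by ring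
      _ ≤ C ^ 2 * (lam ^ (K1 * (m + 1) * eps)) ^ 2 := by
          refine mul_le_mul_of_nonneg_right ?_ hX
          nlinarith
  calc C1 * V * lam ^ (K1 * eps * m) * ((r / lam) ^ 2 * (lam / T)) + A2 * ((2 * ch.dl) ^ m * V) ≤
      C1 * V * lam ^ (K1 * eps * m) * ((r / lam) ^ 2 * (lam / T)) +
        2 * C2 * ((2 * ch.dl) ^ m * V) * ((r / lam) ^ 2 * (lam / T)) := by linarith [e3]
    _ = (C1 * V * lam ^ (K1 * eps * m) + 2 * C2 * ((2 * ch.dl) ^ m * V)) * ((r / lam) ^ 2 * (lam / T)) := by ring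
    _ ≤ C ^ 2 * (lam ^ (K1 * (m + 1) * eps)) ^ 2 * ((r / lam) ^ 2 * (lam / T)) :=
      mul_le_mul_of_nonneg_right e7 hP

end Pool.Agent.Lib.MP_a8dae7_an.CV.Z2M
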