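import Pool.Agent.Lib.MP_a8dae7_an.CV.SPL
import Pool.Agent.Lib.MP_a8dae7_an.CV.FT
import Pool.Agent.Lib.MP_a8dae7_an.CV.KN
import Pool.Agent.Lib.MP_a8dae7_an.CV.PS
import Pool.Agent.Lib.MP_a8dae7_an.CV.DU
import Pool.Agent.Lib.MP_a8dae7_an.CV.ZS
import Pool.Agent.Lib.MP_a8dae7_an.CV.SC
import Pool.Agent.Lib.MP_a8dae7_an.CV.TT
import Pool.Agent.Lib.MP_a8dae7_an.CV.MO
import Pool.Agent.Lib.MP_a8dae7_an.CV.JFa
import Pool.Agent.Lib.MP_a8dae7_an.CV.Z0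
import Pool.Agent.Lib.MP_a8dae7_an.CV.Z1
import Pool.Agent.Lib.MP_a8dae7_an.CV.GB
import Pool.Agent.Lib.MP_a8dae7_an.CV.Z2
import Pool.Agent.Lib.MP_a8dae7_an.CV.NG
import Pool.Agent.Lib.MP_a8dae7_an.CV.P
import Pool.Agent.Lib.MP_a8dae7_an.CV.GA
import Pool.Agent.Lib.MP_a8dae7_an.CV.FP
import Pool.Agent.Lib.MP_a8dae7_an.CV.CT
import Pool.Agent.Lib.MP_a8dae7_an.CV.RD1S
import Pool.Agent.Lib.MP_a8dae7_an.CV.RA
import Pool.Agent.Lib.MP_a8dae7_an.CV.RD2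
import Pool.Agent.Lib.MP_a8dae7_an.CV.C
import Pool.Agent.Lib.MP_a8dae7_an.CV.IF
import Pool.Agent.Lib.MP_a8dae7_an.CV.HM
import Pool.Agent.Lib.MP_a8dae7_an.CV.Main
import Pool.Agent.Lib.MP_a8dae7_an.CV.JF

/-!
# CV, ALL: the theorem for positively curved hypersurfaces from the modules
-/

set_option autoImplicit false

open MeasureTheory
open scoped ContDiff

namespace Pool.Agent.Lib.MP_a8dae7_an.CV

theorem all_specFIN (hJF : SpecJF) : SpecFIN := by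
  have hKN := KNM.specKN
  have hFT := specFT
  have hPS := PSM.specPS hFT hKN
  have hDU := DUM.specDU hPS
  have hWL := WLM.specWL
  have hTR := TRM.specTR
  have hSL := SLM.specSL
  have hSC := SCM.specSC
  have hTT := TTM.specTT
  have hBL := BLM.specBL
  have hZ0 := Z0M.specZ0 hKN hSC hBL
  have hZ1 := Z1M.specZ1 hKN hSC hBL
  have hJN := JNM.specJN hKN hBL
  have hZ2 := Z2M.specZ2 hJN hJF hTT
  have hNG := NGM.specNG NSM.specNS
  have hZN := ZNM.specZN hKN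
  have hZS := ZSM.specZS hTR
  have hP := PM.specP specSPL hDU hWL hTR hSL hSC hZ0 hZ1 hZ2 hZN hZS
  have hGA := GAM.specGA
  have hFP := FPM.specFP hNG
  have hOR := ORM.specOR
  have hCT := CTM.specCT
  have hRD1 := RD1M.specRD1 hFP hGA hOR hTR hCT
  have hRA := RAM.specRA hFP hGA hOR hTR hP
  have hRD2 := RD2M.specRD2 hRA hP hTR
  have hC := CM.specC hRD1 hRD2
  exact FINM.specFIN hC IFM.specIF HMM.specHM

theorem all_specJF : SpecJF :=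
  JFM.specJF (NGM.specNG NSM.specNS) DBM.specDB (GBM.specGB MOM.specMO)
    (JNM.specJN KNM.specKN BLM.specBL) KNM.specKN

theorem main (k : ℕ) (hk : 1 ≤ k) (Sg : Set (EE (k + 1))) (hc : IsCompact Sg)
    (hp : ∀ p ∈ Sg, PosAt Sg p) (eps : ℝ) (he : 0 < eps) :
    ∃ C : ℝ, 0 < C ∧ ∀ (lam : ℝ) (s : Finset (Fin (k + 1) → ℤ)) (a : (Fin (k + 1) → ℤ) → ℂ),
      1 ≤ lam → (∀ n ∈ s, ∑ i, (n i : ℝ) ^ 2 = lam ^ 2) →
      ∫⁻ x in Sg, ENNReal.ofReal (‖FP.wave s a (fun i => x i)‖ ^ 2)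
        ∂(Measure.hausdorffMeasure (k : ℝ))
        ≤ ENNReal.ofReal (C * lam ^ eps *
          ∫ x in Set.pi Set.univ (fun _ : Fin (k + 1) => Set.Icc (0 : ℝ) (2 * Real.pi)),
            ‖FP.wave s a x‖ ^ 2) :=
  MainM.main (all_specFIN all_specJF) k hk Sg hc hp eps he

end Pool.Agent.Lib.MP_a8dae7_an.CV
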