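import Mathlib

/-!
# MP_a8dae7_an, CV: trace inequality for positively curved hypersurfaces. Definitions.

Paper: /team-store/MP_a8dae7_an_CURVED_h81.md
-/

set_option autoImplicit false

open MeasureTheory
open scoped ContDiff

namespace Pool.Agent.Lib.MP_a8dae7_an.CV

/-- Euclidean space -/
abbrev EE (n : ℕ) : Type := EuclideanSpace ℝ (Fin n)

/-- an integer vector as a Euclidean vector -/
noncomputable def zv {d : ℕ} (n : Fin d → ℤ) : EE d := WithLp.toLp 2 fun i => (n i : ℝ)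

/-- the character `e^{i n·x}` -/
noncomputable def ex {d : ℕ} (n x : EE d) : ℂ := Complex.exp (Complex.I * ((inner ℝ n x : ℝ) : ℂ))

/-- the exponential sum `∑ a_n e^{i n·x}` -/
noncomputable def es {d : ℕ} (s : Finset (Fin d → ℤ)) (a : (Fin d → ℤ) → ℂ) (x : EE d) : ℂ :=
  ∑ n ∈ s, a n * ex (zv n) x

/-- A chart by normals of a positively curved hypersurface of `ℝ^(k+1)`: `nu - J q` is normal at `X q`. -/
structure Chart (k : ℕ) where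
  X : EE k → EE (k + 1)
  nu : EE (k + 1)
  J : EE k →ₗᵢ[ℝ] EE (k + 1)
  c : ℝ
  dl : ℝ
  smooth : ContDiff ℝ ∞ X
  nu_one : ‖nu‖ = 1
  nu_perp : ∀ v, inner ℝ nu (J v) = 0
  c_pos : 0 < c
  dl_pos : 0 < dl
  dl_le : dl ≤ 1 / 64
  perp : ∀ q v, ‖q‖ ≤ 4 * dl → inner ℝ (nu - J q) (fderiv ℝ X q v) = 0
  mono : ∀ q v, ‖q‖ ≤ 4 * dl → c * ‖v‖ ^ 2 ≤ inner ℝ (J v) (fderiv ℝ X q v)
  diam : ∀ q q', ‖q‖ ≤ 4 * dl → ‖q'‖ ≤ 4 * dl → ‖X q - X q'‖ ≤ 1 / 4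
  gram : ∀ q q' v (om : EE (k + 1)), ‖q‖ ≤ 4 * dl → ‖q'‖ ≤ 4 * dl → ‖om‖ = 1 →
    inner ℝ om (J v) = 0 →
    c * ‖v‖ ^ 2 ≤ inner ℝ (fderiv ℝ X q v) (fderiv ℝ X q' v) -
      inner ℝ om (fderiv ℝ X q v) * inner ℝ om (fderiv ℝ X q' v)

/-- `sn ch n q = ⟨n, nu(q)⟩`, affine in `q` -/
noncomputable def sn {k : ℕ} (ch : Chart k) (n : EE (k + 1)) (q : EE k) : ℝ :=
  inner ℝ n (ch.nu - ch.J q)

/-! ## The Gaussian majorant and its Fourier transform.  `om` a unit vector, `t = ⟨om, x⟩`,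
`|y|² = ‖x‖² - t²`. -/

/-- `|P x|²`, `P` the projection off `om` -/
noncomputable def pq {d : ℕ} (om x : EE d) : ℝ := ‖x‖ ^ 2 - inner ℝ om x ^ 2

/-- `⟨P x, P y⟩` -/
noncomputable def pi2 {d : ℕ} (om x y : EE d) : ℝ := inner ℝ x y - inner ℝ om x * inner ℝ om y

/-- `A(t) = 1/r² + i t/(2 lam)` -/
noncomputable def AA (lam r t : ℝ) : ℂ := ((1 / r ^ 2 : ℝ) : ℂ) + Complex.I * ((t / (2 * lam) : ℝ) : ℂ)

/-- the majorant -/
noncomputable def WW {d : ℕ} (om : EE d) (lam r : ℝ) (xi : EE d) : ℝ :=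
  Real.exp (-(pq om xi / r ^ 2) -
    (lam / r) ^ 2 * (inner ℝ om xi - lam + pq om xi / (2 * lam)) ^ 2)

/-- the logarithm of the kernel without the factor `e^{i lam t}` -/
noncomputable def FF {k : ℕ} (om : EE (k + 1)) (lam r : ℝ) (x : EE (k + 1)) : ℂ :=
  -((inner ℝ om x ^ 2 * r ^ 2 / (4 * lam ^ 2) : ℝ) : ℂ) -
    (k : ℂ) / 2 * Complex.log (AA lam r (inner ℝ om x)) -
    ((pq om x : ℝ) : ℂ) / (4 * AA lam r (inner ℝ om x))

/-- the Fourier transform of the majorant -/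
noncomputable def Kf {k : ℕ} (om : EE (k + 1)) (lam r : ℝ) (x : EE (k + 1)) : ℂ :=
  ((Real.sqrt Real.pi * r / lam * Real.pi ^ ((k : ℝ) / 2) : ℝ) : ℂ) *
    Complex.exp (Complex.I * ((lam * inner ℝ om x : ℝ) : ℂ)) * Complex.exp (FF om lam r x)

/-- minus the real exponent -/
noncomputable def MM {d : ℕ} (om : EE d) (lam r : ℝ) (x : EE d) : ℝ :=
  inner ℝ om x ^ 2 * r ^ 2 / (4 * lam ^ 2) +
    pq om x * r ^ 2 / (4 + (inner ℝ om x * r ^ 2 / lam) ^ 2)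

/-! ## Operator bounds and slices -/

/-- the kernel `K` is bounded by `B` on `L²` of the ball of radius `R` -/
def OB (m : ℕ) (R : ℝ) (K : EE m → EE m → ℂ) (B : ℝ) : Prop :=
  ∀ f g : EE m → ℂ, Measurable f → Measurable g → (∃ M : ℝ, ∀ b, ‖f b‖ ≤ M) →
    (∃ M : ℝ, ∀ b, ‖g b‖ ≤ M) → (∀ b, R < ‖b‖ → f b = 0) → (∀ b, R < ‖b‖ → g b = 0) →
    ‖∫ b, ∫ b', K b b' * (f b * g b')‖ ≤
      B * (Real.sqrt (∫ b, ‖f b‖ ^ 2) * Real.sqrt (∫ b, ‖g b‖ ^ 2))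

/-- the slice `q = sg e + L b` -/
noncomputable def sl {m : ℕ} (e : EE (m + 1)) (L : EE m →ₗᵢ[ℝ] EE (m + 1)) (sg : ℝ) (b : EE m) :
    EE (m + 1) := sg • e + L b

/-- slices adapted to `om` -/
structure Slice {m : ℕ} (ch : Chart (m + 1)) (om : EE (m + 2)) (e : EE (m + 1))
    (L : EE m →ₗᵢ[ℝ] EE (m + 1)) : Prop where
  om_one : ‖om‖ = 1
  e_one : ‖e‖ = 1
  eL : ∀ b, inner ℝ e (L b) = 0
  omL : ∀ b, inner ℝ om (ch.J (L b)) = 0

/-- the difference `x(b,b') = X(sg e + L b) - X(sg' e + L b') + zt` -/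
noncomputable def xd {m : ℕ} (ch : Chart (m + 1)) (e : EE (m + 1)) (L : EE m →ₗᵢ[ℝ] EE (m + 1))
    (zt : EE (m + 2)) (sg sg' : ℝ) (b b' : EE m) : EE (m + 2) :=
  ch.X (sl e L sg b) - ch.X (sl e L sg' b') + zt

/-- the sliced kernel -/
noncomputable def ks {m : ℕ} (ch : Chart (m + 1)) (om : EE (m + 2)) (lam r : ℝ) (e : EE (m + 1))
    (L : EE m →ₗᵢ[ℝ] EE (m + 1)) (zt : EE (m + 2)) (sg sg' : ℝ) (b b' : EE m) : ℂ :=
  Kf om lam r (xd ch e L zt sg sg' b b')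

/-- a smooth cutoff on `EE m`: `1` on `‖b‖ ≤ 2 dl`, `0` for `‖b‖ ≥ 5/2 dl` -/
noncomputable def cut {k : ℕ} (ch : Chart k) (m : ℕ) : ContDiffBump (0 : EE m) where
  rIn := 2 * ch.dl
  rOut := 5 / 2 * ch.dl
  rIn_pos := by have := ch.dl_pos; positivity
  rIn_lt_rOut := by have := ch.dl_pos; linarith

/-- the `TT*` kernel -/
noncomputable def JJ {m : ℕ} (ch : Chart (m + 1)) (om : EE (m + 2)) (lam r : ℝ) (e : EE (m + 1))
    (L : EE m →ₗᵢ[ℝ] EE (m + 1)) (zt : EE (m + 2)) (sg sg' : ℝ) (b b'' : EE m) : ℂ :=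
  ∫ b', ((cut ch m b' : ℝ) : ℂ) * (ks ch om lam r e L zt sg sg' b b' *
    (starRingEnd ℂ) (ks ch om lam r e L zt sg sg' b'' b'))

/-- the standard bump function of `EE k` (1 on radius 1/4, 0 outside radius 1/2) -/
noncomputable def bm (k : ℕ) : ContDiffBump (0 : EE k) where
  rIn := 1 / 4
  rOut := 1 / 2
  rIn_pos := by norm_num
  rIn_lt_rOut := by norm_num

/-- label of the cube of side `l` containing `n` -/
noncomputable def cb {d : ℕ} (l : ℝ) (n : Fin d → ℤ) : Fin d → ℤ := fun i => ⌊(n i : ℝ) / l⌋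

/-- `Sg` is, near `p`, contained in the graph over its tangent hyperplane at `p` of a smooth function with
positive definite Hessian at `p` -/
def PosAt {k : ℕ} (Sg : Set (EE (k + 1))) (p : EE (k + 1)) : Prop :=
  ∃ (J : EE k →ₗᵢ[ℝ] EE (k + 1)) (nu : EE (k + 1)) (g : EE k → ℝ) (rho : ℝ),
    ‖nu‖ = 1 ∧ (∀ v, inner ℝ nu (J v) = 0) ∧ ContDiff ℝ ∞ g ∧ g 0 = 0 ∧ fderiv ℝ g 0 = 0 ∧
    (∀ v : EE k, v ≠ 0 → 0 < fderiv ℝ (fderiv ℝ g) 0 v v) ∧ 0 < rho ∧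
    ∀ x ∈ Sg, ‖x - p‖ < rho → ∃ y : EE k, x = p + J y + g y • nu

/-- compact and positively curved -/
def PosCurved {k : ℕ} (Sg : Set (EE (k + 1))) : Prop := IsCompact Sg ∧ ∀ p ∈ Sg, PosAt Sg p

end Pool.Agent.Lib.MP_a8dae7_an.CV
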