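import Pool.Agent.Lib.MP_a8dae7_an.CV.Spec

/-!
# MP_a8dae7_an, CV: first reduction (SpecRD1)
-/

set_option autoImplicit false

open MeasureTheory
open scoped ContDiff

namespace Pool.Agent.Lib.MP_a8dae7_an.CV.RD1M

open Pool.Agent.Lib.MP_a8dae7_an.CV

/-- the estimate of far pairs of frequencies -/
def FarPairs : Prop := ∀ (k : ℕ) (ch : Chart k) (chi : EE k → ℝ), ContDiff ℝ ∞ chi →
  (∀ q, 3 / 2 * ch.dl < ‖q‖ → chi q = 0) → ∀ (eps : ℝ), 0 < eps → eps ≤ 1 / 10 → ∀ N : ℕ,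
  ∃ C R0 lam0 : ℝ, 0 < C ∧ 1 ≤ lam0 ∧ 1 ≤ R0 ∧ ∀ lam : ℝ, lam0 ≤ lam → ∀ n n' : Fin (k + 1) → ℤ,
  ‖zv n‖ = lam → ‖zv n'‖ = lam → ∀ psi : ℝ → ℝ, (psi = psT ∨ psi = psP ∨ psi = psN) →
  (∃ i, R0 * lam ^ (2 * eps) <
    |((cb (lam ^ (2 / 3 - eps)) n i - cb (lam ^ (2 / 3 - eps)) n' i : ℤ) : ℝ)|) →
  ‖∫ q, ((chi q * (psi (sn ch (lam ^ (2 / 3 - eps) • zv (cb (lam ^ (2 / 3 - eps)) n)) q / lam ^ (2 / 3 + eps)) *
      psi (sn ch (lam ^ (2 / 3 - eps) • zv (cb (lam ^ (2 / 3 - eps)) n')) q / lam ^ (2 / 3 + eps))) : ℝ) : ℂ) *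
    (ex (zv n) (ch.X q) * (starRingEnd ℂ) (ex (zv n') (ch.X q)))‖ ≤ C * lam⁻¹ ^ N

theorem ex_cont {d : ℕ} (n : EE d) : Continuous (ex n) := by
  unfold ex
  fun_prop

theorem es_cont {d : ℕ} (s : Finset (Fin d → ℤ)) (a : (Fin d → ℤ) → ℂ) : Continuous (es s a) := by
  unfold es
  exact continuous_finsetSum _ fun n _ => continuous_const.mul (ex_cont _)

theorem sn_cont {k : ℕ} (ch : Chart k) (n : EE (k + 1)) : Continuous (sn ch n) := by
  unfold sn
  exact continuous_const.inner (continuous_const.sub ch.J.continuous)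

/-- the bump function -/
noncomputable def bb {k : ℕ} (ch : Chart k) : ContDiffBump (0 : EE k) where
  rIn := ch.dl
  rOut := 3 / 2 * ch.dl
  rIn_pos := ch.dl_pos
  rIn_lt_rOut := by have := ch.dl_pos; linarith

theorem bb_zero {k : ℕ} (ch : Chart k) (q : EE k) (h : 3 / 2 * ch.dl ≤ ‖q‖) : bb ch q = 0 := by
  apply (bb ch).zero_of_le_dist
  rw [dist_zero_right]
  exact h

theorem bb_one {k : ℕ} (ch : Chart k) (q : EE k) (h : ‖q‖ ≤ ch.dl) : bb ch q = 1 := by
  apply (bb ch).one_of_mem_closedBall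
  rw [mem_closedBall_zero_iff]
  exact h

/-- from the weight to the ball -/
theorem weight_le {k : ℕ} (ch : Chart k) (F g : EE k → ℝ) (hF : Continuous F) (hF0 : ∀ q, 0 ≤ F q)
    (hg : Continuous g) (hg1 : ∀ q, 0 ≤ g q ∧ g q ≤ 1) :
    ∫ q, bb ch q * (g q ^ 2 * F q) ≤ ∫ q in Metric.closedBall (0 : EE k) (3 / 2 * ch.dl), F q := by
  have hcomp : IsCompact (Metric.closedBall (0 : EE k) (3 / 2 * ch.dl)) := isCompact_closedBall _ _
  rw [← integral_indicator hcomp.measurableSet]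
  apply integral_mono
  · apply Continuous.integrable_of_hasCompactSupport
    · exact (bb ch).continuous.mul ((hg.pow 2).mul hF)
    · exact (bb ch).hasCompactSupport.mul_right
  · exact (hF.continuousOn.integrableOn_compact hcomp).integrable_indicator hcomp.measurableSet
  · intro q
    show bb ch q * (g q ^ 2 * F q) ≤ _
    by_cases h : q ∈ Metric.closedBall (0 : EE k) (3 / 2 * ch.dl)
    · rw [Set.indicator_of_mem h]
      have h1 : bb ch q ≤ 1 := (bb ch).le_one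
      have h2 : 0 ≤ bb ch q := (bb ch).nonneg
      have h3 : g q ^ 2 ≤ 1 := pow_le_one₀ (hg1 q).1 (hg1 q).2
      have h4 := hF0 q
      calc bb ch q * (g q ^ 2 * F q) ≤ 1 * (1 * F q) := by gcongr
        _ = F q := by ring
    · rw [Set.indicator_of_notMem h, bb_zero ch q, zero_mul]
      rw [mem_closedBall_zero_iff, not_le] at h
      exact h.le

theorem ball_le {k : ℕ} (ch : Chart k) (F : EE k → ℝ) (hF : Continuous F) (hF0 : ∀ q, 0 ≤ F q) :
    ∫ q in Metric.closedBall (0 : EE k) ch.dl, F q ≤ ∫ q, bb ch q * F q := by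
  have hcomp : IsCompact (Metric.closedBall (0 : EE k) ch.dl) := isCompact_closedBall _ _
  rw [← integral_indicator hcomp.measurableSet]
  apply integral_mono
  · exact (hF.continuousOn.integrableOn_compact hcomp).integrable_indicator hcomp.measurableSet
  · apply Continuous.integrable_of_hasCompactSupport
    · exact (bb ch).continuous.mul hF
    · exact (bb ch).hasCompactSupport.mul_right
  · intro q
    show _ ≤ bb ch q * F q
    by_cases h : q ∈ Metric.closedBall (0 : EE k) ch.dl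
    · rw [Set.indicator_of_mem h, bb_one ch q (mem_closedBall_zero_iff.1 h), one_mul]
    · rw [Set.indicator_of_notMem h]
      exact mul_nonneg (bb ch).nonneg (hF0 q)

/-- one cutoff -/
theorem one_cut (hOR : SpecOR) {k : ℕ} (ch : Chart k) (s : Finset (Fin (k + 1) → ℤ))
    (a : (Fin (k + 1) → ℤ) → ℂ) (l mu : ℝ) (psi : ℝ → ℝ) (hpc : Continuous psi)
    (hp : ∀ t, 0 ≤ psi t ∧ psi t ≤ 1) (R : ℕ) (E : ℝ) (hE : 0 ≤ E)
    (hfar : ∀ n ∈ s, ∀ n' ∈ s, (∃ i, (R : ℤ) < |cb l n i - cb l n' i|) →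
      ‖∫ q, ((bb ch q * (psi (sn ch (l • zv (cb l n)) q / mu) *
        psi (sn ch (l • zv (cb l n')) q / mu)) : ℝ) : ℂ) *
          (ex (zv n) (ch.X q) * (starRingEnd ℂ) (ex (zv n') (ch.X q)))‖ ≤ E) :
    ∫ q, bb ch q * ‖∑ n ∈ s, ((psi (sn ch (l • zv (cb l n)) q / mu) : ℝ) : ℂ) *
        (a n * ex (zv n) (ch.X q))‖ ^ 2 ≤
      (2 * R + 1 : ℝ) ^ (k + 1) * (∑ c ∈ s.image (cb l),
        ∫ q in Metric.closedBall (0 : EE k) (3 / 2 * ch.dl),
          ‖es (s.filter fun n => cb l n = c) a (ch.X q)‖ ^ 2) + E * s.card * ∑ n ∈ s, ‖a n‖ ^ 2 := by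
  have hX : Continuous ch.X := ch.smooth.continuous
  have hgc : ∀ c : Fin (k + 1) → ℤ, Continuous (fun q => psi (sn ch (l • zv c) q / mu)) :=
    fun c => hpc.comp ((sn_cont ch _).div_const _)
  have h := hOR (k + 1) k s a (fun n q => ex (zv n) (ch.X q)) (cb l)
    (fun c q => psi (sn ch (l • zv c) q / mu)) (bb ch) R E (fun n => (ex_cont _).comp hX) hgc
    (bb ch).continuous (bb ch).hasCompactSupport (fun q => (bb ch).nonneg) hE hfar
  refine h.trans ?_
  gcongr with c hc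
  refine weight_le ch (fun q => ‖∑ n ∈ s with cb l n = c, a n * ex (zv n) (ch.X q)‖ ^ 2)
    (fun q => psi (sn ch (l • zv c) q / mu)) ?_ (fun q => by positivity) (hgc c) (fun q => hp _)
  exact ((es_cont (s.filter fun n => cb l n = c) a).comp hX).norm.pow 2

theorem sum_three (x y z : ℂ) : ‖x + y + z‖ ^ 2 ≤ 3 * (‖x‖ ^ 2 + ‖y‖ ^ 2 + ‖z‖ ^ 2) := by
  have h1 : ‖x + y + z‖ ≤ ‖x‖ + ‖y‖ + ‖z‖ := norm_add₃_le
  have h2 : ‖x + y + z‖ ^ 2 ≤ (‖x‖ + ‖y‖ + ‖z‖) ^ 2 := by gcongr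
  nlinarith [sq_nonneg (‖x‖ - ‖y‖), sq_nonneg (‖x‖ - ‖z‖), sq_nonneg (‖y‖ - ‖z‖)]

theorem int3 {k : ℕ} {F1 F2 F3 : EE k → ℝ} (h1 : Integrable F1) (h2 : Integrable F2)
    (h3 : Integrable F3) :
    3 * ((∫ q, F1 q) + (∫ q, F2 q) + ∫ q, F3 q) = ∫ q, 3 * (F1 q + F2 q + F3 q) := by
  rw [integral_const_mul, integral_add (f := fun q => F1 q + F2 q) (h1.add h2) h3, integral_add h1 h2]

theorem rd1 (hfar : FarPairs) (hOR : SpecOR) (hTR : SpecTR) (hCT : SpecCT) : SpecRD1 := by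
  intro k ch
  refine ⟨2 * ((k : ℝ) + 1), by positivity, ?_⟩
  intro eps heps heps1
  obtain ⟨hP, hN, hT, -, -, hb, -⟩ := hCT
  obtain ⟨C1, R0, lam0, hC1, hlam0, hR0, hfp⟩ := hfar k ch (bb ch) (bb ch).contDiff
    (fun q hq => bb_zero ch q hq.le) eps heps heps1 (k + 1)
  have hX : Continuous ch.X := ch.smooth.continuous
  have hcomp : IsCompact (Metric.closedBall (0 : EE k) ch.dl) := isCompact_closedBall _ _
  set V : ℝ := volume.real (Metric.closedBall (0 : EE k) ch.dl) with hV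
  have hV0 : 0 ≤ V := measureReal_nonneg
  refine ⟨9 * (2 * R0 + 3) ^ (k + 1) + 9 * (C1 * 3 ^ (k + 1)) + V * (2 * lam0 + 1) ^ (k + 1), by positivity, ?_⟩
  intro lam s a hlam hs
  set A2 : ℝ := ∑ n ∈ s, ‖a n‖ ^ 2 with hA2
  have hA0 : 0 ≤ A2 := Finset.sum_nonneg fun n _ => by positivity
  set l : ℝ := lam ^ (2 / 3 - eps) with hl
  set mu : ℝ := lam ^ (2 / 3 + eps) with hmu
  set SS : ℝ := ∑ c ∈ s.image (cb l), ∫ q in Metric.closedBall (0 : EE k) (3 / 2 * ch.dl),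
        ‖es (s.filter fun n => cb l n = c) a (ch.X q)‖ ^ 2 with hSS
  have hS0 : 0 ≤ SS := Finset.sum_nonneg fun c _ => integral_nonneg fun q => by positivity
  have hlamK : 1 ≤ lam ^ (2 * ((k : ℝ) + 1) * eps) := Real.one_le_rpow hlam (by positivity)
  have hcard : (s.card : ℝ) ≤ (2 * lam + 1) ^ (k + 1) := by
    refine hTR.2 (k + 1) s 0 lam (by linarith) fun n hn => ?_
    rw [sub_zero, hs n hn]
  have hesc : Continuous (fun q => ‖es s a (ch.X q)‖ ^ 2) := ((es_cont s a).comp hX).norm.pow 2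
  rcases lt_or_ge lam lam0 with hlt | hge
  · -- small `lam`
    have h1 : ∫ q in Metric.closedBall (0 : EE k) ch.dl, ‖es s a (ch.X q)‖ ^ 2 ≤
        V * ((2 * lam0 + 1) ^ (k + 1) * A2) := by
      have h2 : ∫ q in Metric.closedBall (0 : EE k) ch.dl, ‖es s a (ch.X q)‖ ^ 2 ≤
          ∫ _ in Metric.closedBall (0 : EE k) ch.dl, ((2 * lam0 + 1) ^ (k + 1) * A2) := by
        apply setIntegral_mono (hesc.continuousOn.integrableOn_compact hcomp)
          (continuous_const.continuousOn.integrableOn_compact hcomp)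
        intro q
        have h5 : (s.card : ℝ) * A2 ≤ (2 * lam0 + 1) ^ (k + 1) * A2 :=
          mul_le_mul_of_nonneg_right (hcard.trans (by gcongr)) hA0
        exact (hTR.1 (k + 1) s a (ch.X q)).trans h5
      rw [setIntegral_const, smul_eq_mul] at h2
      exact h2
    refine h1.trans ?_
    have h3 : 0 ≤ (9 * (2 * R0 + 3) ^ (k + 1) + 9 * (C1 * 3 ^ (k + 1)) + V * (2 * lam0 + 1) ^ (k + 1)) *
        lam ^ (2 * ((k : ℝ) + 1) * eps) * SS := by positivity
    have h4 : 0 ≤ 9 * (2 * R0 + 3) ^ (k + 1) + 9 * (C1 * 3 ^ (k + 1)) := by positivity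
    nlinarith [mul_nonneg h4 hA0]
  · -- large `lam`
    have hlpos : (0 : ℝ) < lam := by linarith
    have hpow : 1 ≤ lam ^ (2 * eps) := Real.one_le_rpow hlam (by positivity)
    set R : ℕ := ⌈R0 * lam ^ (2 * eps)⌉₊ with hR
    have hR1 : R0 * lam ^ (2 * eps) ≤ R := Nat.le_ceil _
    have hR2 : (R : ℝ) ≤ R0 * lam ^ (2 * eps) + 1 := (Nat.ceil_lt_add_one (by positivity)).le
    have hR3 : (2 * R + 1 : ℝ) ≤ (2 * R0 + 3) * lam ^ (2 * eps) := by nlinarith
    have hR4 : (2 * R + 1 : ℝ) ^ (k + 1) ≤ (2 * R0 + 3) ^ (k + 1) * lam ^ (2 * ((k : ℝ) + 1) * eps) := by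
      calc (2 * R + 1 : ℝ) ^ (k + 1) ≤ ((2 * R0 + 3) * lam ^ (2 * eps)) ^ (k + 1) := by gcongr
        _ = (2 * R0 + 3) ^ (k + 1) * lam ^ (2 * ((k : ℝ) + 1) * eps) := by
          rw [mul_pow, ← Real.rpow_natCast (lam ^ (2 * eps)), ← Real.rpow_mul hlpos.le]
          congr 2
          push_cast
          ring
    have hE : C1 * lam⁻¹ ^ (k + 1) * s.card ≤ C1 * 3 ^ (k + 1) := by
      calc C1 * lam⁻¹ ^ (k + 1) * s.card ≤ C1 * lam⁻¹ ^ (k + 1) * (3 * lam) ^ (k + 1) := by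
            gcongr
            exact hcard.trans (by gcongr; linarith)
        _ = C1 * 3 ^ (k + 1) := by
          rw [mul_assoc, ← mul_pow]
          congr 2
          field_simp
    have hone : ∀ psi : ℝ → ℝ, (psi = psT ∨ psi = psP ∨ psi = psN) → Continuous psi →
        (∀ t, 0 ≤ psi t ∧ psi t ≤ 1) →
        ∫ q, bb ch q * ‖∑ n ∈ s, ((psi (sn ch (l • zv (cb l n)) q / mu) : ℝ) : ℂ) *
          (a n * ex (zv n) (ch.X q))‖ ^ 2 ≤
        (2 * R0 + 3) ^ (k + 1) * lam ^ (2 * ((k : ℝ) + 1) * eps) * SS + C1 * 3 ^ (k + 1) * A2 := by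
      intro psi hpsi hpc hp
      refine (one_cut hOR ch s a l mu psi hpc hp R (C1 * lam⁻¹ ^ (k + 1)) (by positivity) ?_).trans ?_
      · intro n hn n' hn' hi
        obtain ⟨i, hi⟩ := hi
        refine hfp lam hge n n' (hs n hn) (hs n' hn') psi hpsi ⟨i, ?_⟩
        have h5 : ((R : ℤ) : ℝ) < ((|cb l n i - cb l n' i| : ℤ) : ℝ) := by exact_mod_cast hi
        rw [Int.cast_abs] at h5
        refine hR1.trans_lt ?_
        simpa using h5
      · gcongr
    have h1 := hone psT (Or.inl rfl) hT.1.continuous (fun t => ⟨(hb t).2.2.2.2.1, (hb t).2.2.2.2.2.1⟩)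
    have h2 := hone psP (Or.inr (Or.inl rfl)) hP.1.continuous (fun t => ⟨(hb t).1, (hb t).2.1⟩)
    have h3 := hone psN (Or.inr (Or.inr rfl)) hN.1.continuous (fun t => ⟨(hb t).2.2.1, (hb t).2.2.2.1⟩)
    have hint : ∀ psi : ℝ → ℝ, Continuous psi → Integrable (fun q => bb ch q *
        ‖∑ n ∈ s, ((psi (sn ch (l • zv (cb l n)) q / mu) : ℝ) : ℂ) * (a n * ex (zv n) (ch.X q))‖ ^ 2) := by
      intro psi hpc
      apply Continuous.integrable_of_hasCompactSupport
      · refine (bb ch).continuous.mul (Continuous.pow (Continuous.norm ?_) 2)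
        refine continuous_finsetSum _ fun n _ => ?_
        exact (Complex.continuous_ofReal.comp (hpc.comp ((sn_cont ch _).div_const _))).mul
          (continuous_const.mul ((ex_cont _).comp hX))
      · exact (bb ch).hasCompactSupport.mul_right
    have h4 : ∫ q in Metric.closedBall (0 : EE k) ch.dl, ‖es s a (ch.X q)‖ ^ 2 ≤
        3 * ((∫ q, bb ch q * ‖∑ n ∈ s, ((psT (sn ch (l • zv (cb l n)) q / mu) : ℝ) : ℂ) *
          (a n * ex (zv n) (ch.X q))‖ ^ 2) +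
        (∫ q, bb ch q * ‖∑ n ∈ s, ((psP (sn ch (l • zv (cb l n)) q / mu) : ℝ) : ℂ) *
          (a n * ex (zv n) (ch.X q))‖ ^ 2) +
        ∫ q, bb ch q * ‖∑ n ∈ s, ((psN (sn ch (l • zv (cb l n)) q / mu) : ℝ) : ℂ) *
          (a n * ex (zv n) (ch.X q))‖ ^ 2) := by
      refine (ball_le ch _ hesc (fun q => by positivity)).trans ?_
      rw [int3 (hint _ hT.1.continuous) (hint _ hP.1.continuous) (hint _ hN.1.continuous)]
      apply integral_mono
      · apply Continuous.integrable_of_hasCompactSupport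
        · exact (bb ch).continuous.mul hesc
        · exact (bb ch).hasCompactSupport.mul_right
      · exact (((hint _ hT.1.continuous).add (hint _ hP.1.continuous)).add (hint _ hN.1.continuous)).const_mul 3
      · intro q
        have h5 : es s a (ch.X q) =
            (∑ n ∈ s, ((psT (sn ch (l • zv (cb l n)) q / mu) : ℝ) : ℂ) * (a n * ex (zv n) (ch.X q))) +
            (∑ n ∈ s, ((psP (sn ch (l • zv (cb l n)) q / mu) : ℝ) : ℂ) * (a n * ex (zv n) (ch.X q))) +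
            ∑ n ∈ s, ((psN (sn ch (l • zv (cb l n)) q / mu) : ℝ) : ℂ) * (a n * ex (zv n) (ch.X q)) := by
          rw [← Finset.sum_add_distrib, ← Finset.sum_add_distrib]
          refine Finset.sum_congr rfl fun n _ => ?_
          unfold psT
          push_cast
          ring
        have h6 : 0 ≤ bb ch q := (bb ch).nonneg
        have h7 := mul_le_mul_of_nonneg_left (sum_three
          (∑ n ∈ s, ((psT (sn ch (l • zv (cb l n)) q / mu) : ℝ) : ℂ) * (a n * ex (zv n) (ch.X q)))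
          (∑ n ∈ s, ((psP (sn ch (l • zv (cb l n)) q / mu) : ℝ) : ℂ) * (a n * ex (zv n) (ch.X q)))
          (∑ n ∈ s, ((psN (sn ch (l • zv (cb l n)) q / mu) : ℝ) : ℂ) * (a n * ex (zv n) (ch.X q)))) h6
        show bb ch q * ‖es s a (ch.X q)‖ ^ 2 ≤ _
        rw [h5]
        refine h7.trans (le_of_eq ?_)
        ring
    refine h4.trans ?_
    have h8 : 0 ≤ V * (2 * lam0 + 1) ^ (k + 1) := by positivity
    have h9 : 0 ≤ C1 * 3 ^ (k + 1) := by positivity
    have h10 : 0 ≤ (2 * R0 + 3) ^ (k + 1) := by positivity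
    have h11 : 0 ≤ lam ^ (2 * ((k : ℝ) + 1) * eps) * SS := by positivity
    nlinarith [mul_nonneg h8 hA0, mul_nonneg h8 h11, mul_nonneg h9 h11, mul_nonneg h10 hA0]

end Pool.Agent.Lib.MP_a8dae7_an.CV.RD1M
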