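import Pool.Agent.Lib.MP_a8dae7_an.CV.Spec

/-!
# MP_a8dae7_an, CV: RD2, the second reduction (dyadic angles), from RA, P, TR
-/

set_option autoImplicit false

open MeasureTheory
open scoped ContDiff

namespace Pool.Agent.Lib.MP_a8dae7_an.CV.RD2M

/-- points of one cube are near to each other -/
theorem near {d : ℕ} {l : ℝ} (hl : 0 < l) {n n' : Fin d → ℤ} (h : cb l n = cb l n') :
    ‖zv n - zv n'‖ ≤ Real.sqrt d * l := by
  have h1 : ∀ i, |(n i : ℝ) - n' i| ≤ l := by
    intro i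
    have h2 : ⌊(n i : ℝ) / l⌋ = ⌊(n' i : ℝ) / l⌋ := congrFun h i
    have h3 := Int.abs_sub_lt_one_of_floor_eq_floor h2
    have h4 : |(n i : ℝ) - n' i| = |(n i : ℝ) / l - n' i / l| * l := by
      rw [← sub_div, abs_div, abs_of_pos hl, div_mul_cancel₀ _ hl.ne']
    rw [h4]
    nlinarith
  rw [EuclideanSpace.norm_eq]
  calc Real.sqrt (∑ i, ‖(zv n - zv n') i‖ ^ 2) ≤ Real.sqrt (∑ _i : Fin d, l ^ 2) := by
        apply Real.sqrt_le_sqrt
        apply Finset.sum_le_sum
        intro i _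
        have h5 : (zv n - zv n') i = (n i : ℝ) - n' i := by simp [zv]
        rw [h5, Real.norm_eq_abs]
        exact pow_le_pow_left₀ (abs_nonneg _) (h1 i) 2
    _ = Real.sqrt d * l := by
        rw [Finset.sum_const, Finset.card_univ, Fintype.card_fin, nsmul_eq_mul,
          Real.sqrt_mul (Nat.cast_nonneg d), Real.sqrt_sq hl.le]

theorem continuous_es {k d : ℕ} (s : Finset (Fin d → ℤ)) (a : (Fin d → ℤ) → ℂ) (X : EE k → EE d)
    (hX : Continuous X) : Continuous fun q => es s a (X q) := by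
  unfold es ex
  refine continuous_finsetSum _ fun n _ => ?_
  refine continuous_const.mul (Complex.continuous_exp.comp ?_)
  refine continuous_const.mul (Complex.continuous_ofReal.comp ?_)
  exact continuous_const.inner hX

/-- the number of dyadic angles -/
theorem count {eps lam : ℝ} (he : 0 < eps) (he' : eps ≤ 1 / 20) (hlam : 1 ≤ lam) :
    ∃ I : ℕ, (I : ℝ) ≤ (2 + 1 / (eps * Real.log 2)) * lam ^ eps ∧
      ∀ x : ℝ, lam ^ (-(1 / 3) + eps) ≤ x → x ≤ 2 → ∃ i < I,
        2 ^ i * lam ^ (-(1 / 3) + eps) ≤ x ∧ x ≤ 2 * (2 ^ i * lam ^ (-(1 / 3) + eps)) := by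
  have hlam0 : 0 < lam := by linarith
  obtain ⟨t, ht⟩ : ∃ t, t = lam ^ (-(1 / 3) + eps) := ⟨_, rfl⟩
  rw [← ht]
  have ht0 : 0 < t := by rw [ht]; positivity
  have hl2 : 0 < Real.log 2 := Real.log_pos (by norm_num)
  have h1 : 1 ≤ lam ^ eps := Real.one_le_rpow hlam he.le
  refine ⟨⌊Real.logb 2 (2 / t)⌋₊ + 1, ?_, ?_⟩
  · push_cast
    have h2 : Real.logb 2 (2 / t) = 1 + (1 / 3 - eps) * Real.logb 2 lam := by
      rw [Real.logb_div (by norm_num) ht0.ne', Real.logb_self_eq_one (by norm_num), ht,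
        Real.logb_rpow_eq_mul_logb_of_pos hlam0]
      ring
    have h3 : 0 ≤ Real.logb 2 lam := Real.logb_nonneg (by norm_num) hlam
    have h4 : 0 ≤ Real.logb 2 (2 / t) := by
      rw [h2]
      have : 0 ≤ (1 / 3 - eps) * Real.logb 2 lam := mul_nonneg (by linarith) h3
      linarith
    have h5 : Real.logb 2 lam ≤ 1 / (eps * Real.log 2) * lam ^ eps := by
      have h6 := Real.log_le_rpow_div hlam0.le he
      unfold Real.logb
      rw [div_le_iff₀ hl2]
      calc Real.log lam ≤ lam ^ eps / eps := h6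
        _ = 1 / (eps * Real.log 2) * lam ^ eps * Real.log 2 := by field_simp
    have h7 : (1 / 3 - eps) * Real.logb 2 lam ≤ 1 * Real.logb 2 lam :=
      mul_le_mul_of_nonneg_right (by linarith) h3
    have h8 := Nat.floor_le h4
    rw [h2] at h8
    rw [add_mul]
    rw [h2]
    linarith
  · intro x hx hx2
    have h9 : 1 ≤ x / t := (one_le_div ht0).2 hx
    obtain ⟨i, hi1, hi2⟩ := exists_nat_pow_near h9 (by norm_num : (1 : ℝ) < 2)
    rw [le_div_iff₀ ht0] at hi1
    rw [div_lt_iff₀ ht0, pow_succ] at hi2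
    refine ⟨i, ?_, hi1, by linarith⟩
    have h10 : (2 : ℝ) ^ i ≤ 2 / t := by
      rw [le_div_iff₀ ht0]
      linarith
    have h11 : (i : ℝ) ≤ Real.logb 2 (2 / t) := by
      rw [Real.le_logb_iff_rpow_le (by norm_num) (by positivity), Real.rpow_natCast]
      exact h10
    have h12 := Nat.le_floor h11
    omega

theorem sn_le {k : ℕ} (ch : Chart k) (n : EE (k + 1)) (q : EE k) (hq : ‖q‖ ≤ 4 * ch.dl) :
    |sn ch n q| ≤ 2 * ‖n‖ := by
  have h1 : ‖ch.nu - ch.J q‖ ≤ 2 := by
    have h2 := norm_sub_le ch.nu (ch.J q)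
    rw [ch.nu_one, ch.J.norm_map] at h2
    have h3 := ch.dl_le
    linarith
  unfold sn
  calc |inner ℝ n (ch.nu - ch.J q)| ≤ ‖n‖ * ‖ch.nu - ch.J q‖ := abs_real_inner_le_norm _ _
    _ ≤ ‖n‖ * 2 := mul_le_mul_of_nonneg_left h1 (norm_nonneg _)
    _ = 2 * ‖n‖ := by ring

theorem continuous_sn {k : ℕ} (ch : Chart k) (n : EE (k + 1)) : Continuous (sn ch n) := by
  unfold sn
  exact continuous_const.inner (continuous_const.sub ch.J.continuous)

/-- integral over a covered set -/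
theorem cover {k : ℕ} (f : EE k → ℝ) (hf : Continuous f) (hf0 : ∀ q, 0 ≤ f q) (R : ℝ) (D T : Set (EE k))
    (P N : ℕ → Set (EE k)) (I : ℕ) (A B : ℝ) (hT : MeasurableSet T)
    (hP : ∀ i, MeasurableSet (P i)) (hN : ∀ i, MeasurableSet (N i)) (hD : MeasurableSet D)
    (hTR : T ⊆ Metric.closedBall 0 R) (hPR : ∀ i, P i ⊆ Metric.closedBall 0 R)
    (hNR : ∀ i, N i ⊆ Metric.closedBall 0 R)
    (hc : ∀ q ∈ D, q ∈ T ∨ ∃ i < I, q ∈ P i ∨ q ∈ N i)
    (hA : ∫ q in T, f q ≤ A) (hB : ∀ i < I, ∫ q in P i, f q ≤ B) (hB' : ∀ i < I, ∫ q in N i, f q ≤ B) :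
    ∫ q in D, f q ≤ A + I * (2 * B) := by
  have hint : ∀ S : Set (EE k), S ⊆ Metric.closedBall 0 R → IntegrableOn f S := fun S hS =>
    (hf.continuousOn.integrableOn_compact (isCompact_closedBall 0 R)).mono_set hS
  have i1 : Integrable (T.indicator f) := (integrable_indicator_iff hT).2 (hint T hTR)
  have i2 : ∀ i, Integrable ((P i).indicator f) := fun i =>
    (integrable_indicator_iff (hP i)).2 (hint _ (hPR i))
  have i3 : ∀ i, Integrable ((N i).indicator f) := fun i =>
    (integrable_indicator_iff (hN i)).2 (hint _ (hNR i))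
  have i4 : Integrable (fun q => ∑ i ∈ Finset.range I, ((P i).indicator f q + (N i).indicator f q)) :=
    integrable_finsetSum _ fun i _ => (i2 i).add (i3 i)
  have hnn : ∀ (S : Set (EE k)) (q : EE k), 0 ≤ S.indicator f q := fun S q =>
    Set.indicator_nonneg (fun q _ => hf0 q) q
  have hle : ∀ q, D.indicator f q ≤ T.indicator f q +
      ∑ i ∈ Finset.range I, ((P i).indicator f q + (N i).indicator f q) := by
    intro q
    have hs : 0 ≤ ∑ i ∈ Finset.range I, ((P i).indicator f q + (N i).indicator f q) :=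
      Finset.sum_nonneg fun i _ => add_nonneg (hnn _ _) (hnn _ _)
    by_cases hq : q ∈ D
    · rw [Set.indicator_of_mem hq]
      rcases hc q hq with h | ⟨i, hi, h⟩
      · rw [Set.indicator_of_mem h]
        linarith
      · have h1 : f q ≤ (P i).indicator f q + (N i).indicator f q := by
          rcases h with h | h
          · rw [Set.indicator_of_mem h]
            linarith [hnn (N i) q]
          · rw [Set.indicator_of_mem h]
            linarith [hnn (P i) q]
        have h2 : (P i).indicator f q + (N i).indicator f q ≤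
            ∑ i ∈ Finset.range I, ((P i).indicator f q + (N i).indicator f q) :=
          Finset.single_le_sum (f := fun i => (P i).indicator f q + (N i).indicator f q)
            (fun i _ => add_nonneg (hnn _ _) (hnn _ _)) (Finset.mem_range.2 hi)
        linarith [hnn T q]
    · rw [Set.indicator_of_notMem hq]
      linarith [hnn T q]
  calc ∫ q in D, f q = ∫ q, D.indicator f q := (integral_indicator hD).symm
    _ ≤ ∫ q, (T.indicator f q + ∑ i ∈ Finset.range I, ((P i).indicator f q + (N i).indicator f q)) :=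
        integral_mono_of_nonneg (Filter.Eventually.of_forall (hnn D)) (i1.add i4)
          (Filter.Eventually.of_forall hle)
    _ = (∫ q in T, f q) + ∑ i ∈ Finset.range I, ((∫ q in P i, f q) + ∫ q in N i, f q) := by
        have j1 : ∫ q, (T.indicator f q +
            ∑ i ∈ Finset.range I, ((P i).indicator f q + (N i).indicator f q)) =
            (∫ q, T.indicator f q) +
              ∫ q, ∑ i ∈ Finset.range I, ((P i).indicator f q + (N i).indicator f q) :=
          integral_add i1 i4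
        have j2 : ∫ q, ∑ i ∈ Finset.range I, ((P i).indicator f q + (N i).indicator f q) =
            ∑ i ∈ Finset.range I, ∫ q, ((P i).indicator f q + (N i).indicator f q) :=
          integral_finsetSum _ fun i _ => (i2 i).add (i3 i)
        rw [j1, j2, integral_indicator hT]
        congr 1
        refine Finset.sum_congr rfl fun i _ => ?_
        rw [← integral_indicator (hP i), ← integral_indicator (hN i)]
        exact integral_add (i2 i) (i3 i)
    _ ≤ A + ∑ i ∈ Finset.range I, (2 * B) := by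
        refine add_le_add hA (Finset.sum_le_sum fun i hi => ?_)
        have h1 := hB i (Finset.mem_range.1 hi)
        have h2 := hB' i (Finset.mem_range.1 hi)
        linarith
    _ = A + I * (2 * B) := by rw [Finset.sum_const, Finset.card_range, nsmul_eq_mul]

/-- the trivial bound -/
theorem small (hTR : SpecTR) {m : ℕ} (ch : Chart (m + 1)) (lam lam0 : ℝ) (s : Finset (Fin (m + 2) → ℤ))
    (a : (Fin (m + 2) → ℤ) → ℂ) (hlam : 0 ≤ lam) (h : lam ≤ lam0) (hs : ∀ n ∈ s, ‖zv n‖ = lam) :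
    ∫ q in Metric.closedBall (0 : EE (m + 1)) (3 / 2 * ch.dl), ‖es s a (ch.X q)‖ ^ 2 ≤
      (volume (Metric.closedBall (0 : EE (m + 1)) (3 / 2 * ch.dl))).toReal * (2 * lam0 + 1) ^ (m + 2) *
        ∑ n ∈ s, ‖a n‖ ^ 2 := by
  have hS : 0 ≤ ∑ n ∈ s, ‖a n‖ ^ 2 := Finset.sum_nonneg fun n _ => by positivity
  have h1 : (s.card : ℝ) ≤ (2 * lam0 + 1) ^ (m + 2) := by
    have h2 := hTR.2 (m + 2) s 0 lam hlam (fun n hn => by rw [sub_zero, hs n hn])
    exact h2.trans (pow_le_pow_left₀ (by linarith) (by linarith) _)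
  have h3 : ∀ q : EE (m + 1), ‖es s a (ch.X q)‖ ^ 2 ≤ (2 * lam0 + 1) ^ (m + 2) * ∑ n ∈ s, ‖a n‖ ^ 2 :=
    fun q => (hTR.1 (m + 2) s a (ch.X q)).trans (mul_le_mul_of_nonneg_right h1 hS)
  have h4 : volume (Metric.closedBall (0 : EE (m + 1)) (3 / 2 * ch.dl)) ≠ ⊤ :=
    (isCompact_closedBall _ _).measure_lt_top.ne
  calc ∫ q in Metric.closedBall (0 : EE (m + 1)) (3 / 2 * ch.dl), ‖es s a (ch.X q)‖ ^ 2
      ≤ ∫ _q in Metric.closedBall (0 : EE (m + 1)) (3 / 2 * ch.dl),
          (2 * lam0 + 1) ^ (m + 2) * ∑ n ∈ s, ‖a n‖ ^ 2 := by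
        refine integral_mono_of_nonneg (Filter.Eventually.of_forall fun q => by positivity) ?_
          (Filter.Eventually.of_forall h3)
        exact integrableOn_const (hs := h4)
    _ = _ := by
        rw [setIntegral_const, smul_eq_mul, Measure.real]
        ring

theorem specRD2 (hRA : SpecRA) (hP : SpecP) (hTR : SpecTR) : SpecRD2 := by
  intro m ch
  obtain ⟨K1, hK1, hRA⟩ := hRA m ch
  obtain ⟨K2, hK2, hP⟩ := hP m ch
  refine ⟨K1 + 2 * K2 + 1, by positivity, fun eps he he' => ?_⟩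
  obtain ⟨C1, hC1, hRA⟩ := hRA eps he he'
  obtain ⟨C2, hC2, hP⟩ := hP (2 * eps) (by positivity) (by linarith)
  obtain ⟨lam0, hlam0⟩ : ∃ x : ℝ, x = ((m + 2 : ℕ) : ℝ) ^ (1 / eps) := ⟨_, rfl⟩
  have hm1 : (1 : ℝ) ≤ ((m + 2 : ℕ) : ℝ) := by
    push_cast
    linarith [(Nat.cast_nonneg m : (0 : ℝ) ≤ m)]
  have hlam01 : 1 ≤ lam0 := by
    rw [hlam0]
    exact Real.one_le_rpow hm1 (by positivity)
  obtain ⟨V, hV⟩ : ∃ V : ℝ, V = (volume (Metric.closedBall (0 : EE (m + 1)) (3 / 2 * ch.dl))).toReal *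
    (2 * lam0 + 1) ^ (m + 2) := ⟨_, rfl⟩
  have hV0 : 0 ≤ V := by rw [hV]; positivity
  obtain ⟨CI, hCI⟩ : ∃ CI : ℝ, CI = 2 + 1 / (eps * Real.log 2) := ⟨_, rfl⟩
  have hl2 : 0 < Real.log 2 := Real.log_pos (by norm_num)
  have hCI0 : 0 < CI := by rw [hCI]; positivity
  refine ⟨V + C2 + 2 * (CI * C1) + 1, by positivity, fun lam s a hlam hs hcb => ?_⟩
  have hS : 0 ≤ ∑ n ∈ s, ‖a n‖ ^ 2 := Finset.sum_nonneg fun n _ => by positivity
  have hlamp : 0 < lam := by linarith
  have hbig : 1 ≤ lam ^ ((K1 + 2 * K2 + 1) * eps) := Real.one_le_rpow hlam (by positivity)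
  rcases le_total lam lam0 with hsm | hla
  · refine (small hTR ch lam lam0 s a hlamp.le hsm hs).trans ?_
    rw [← hV]
    refine mul_le_mul_of_nonneg_right ?_ hS
    calc V = V * 1 := (mul_one V).symm
      _ ≤ (V + C2 + 2 * (CI * C1) + 1) * lam ^ ((K1 + 2 * K2 + 1) * eps) := by
        refine mul_le_mul ?_ hbig zero_le_one (by positivity)
        have : 0 < CI * C1 := by positivity
        linarith
  rcases s.eq_empty_or_nonempty with hse | ⟨n0, hn0⟩
  · subst hse
    simp [es]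
  have hd : ((m + 2 : ℕ) : ℝ) ≤ lam ^ eps := by
    have h1 : lam0 ^ eps ≤ lam ^ eps := Real.rpow_le_rpow (by linarith) hla he.le
    rw [hlam0, ← Real.rpow_mul (by linarith), one_div, inv_mul_cancel₀ he.ne', Real.rpow_one] at h1
    exact h1
  have hsq : Real.sqrt ((m + 2 : ℕ) : ℝ) ≤ lam ^ eps := by
    refine le_trans ?_ hd
    rw [Real.sqrt_le_left (by linarith)]
    nlinarith
  have hsq1 : 1 ≤ Real.sqrt ((m + 2 : ℕ) : ℝ) := Real.one_le_sqrt.2 hm1
  obtain ⟨l0, hl0⟩ : ∃ x : ℝ, x = lam ^ (2 / 3 - eps) := ⟨_, rfl⟩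
  have hl01 : 1 ≤ l0 := by
    rw [hl0]
    exact Real.one_le_rpow hlam (by linarith)
  obtain ⟨r, hr⟩ : ∃ r : ℝ, r = Real.sqrt ((m + 2 : ℕ) : ℝ) * l0 := ⟨_, rfl⟩
  have hr1 : 1 ≤ r := by
    rw [hr]
    nlinarith
  have hrle : r ≤ lam ^ ((2 : ℝ) / 3) := by
    calc r ≤ lam ^ eps * lam ^ (2 / 3 - eps) := by
          rw [hr, ← hl0]
          exact mul_le_mul_of_nonneg_right hsq (by linarith)
      _ = lam ^ ((2 : ℝ) / 3) := by
          rw [← Real.rpow_add hlamp]
          congr 1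
          ring
  have hr3 : r ^ 3 ≤ lam ^ 2 := by
    calc r ^ 3 ≤ (lam ^ ((2 : ℝ) / 3)) ^ 3 := pow_le_pow_left₀ (by linarith) hrle 3
      _ = lam ^ 2 := by
          rw [← Real.rpow_natCast (lam ^ ((2 : ℝ) / 3)) 3, ← Real.rpow_mul hlamp.le,
            ← Real.rpow_natCast lam 2]
          norm_num
  obtain ⟨th, hth⟩ : ∃ x : ℝ, x = lam ^ (-(1 / 3) + eps) := ⟨_, rfl⟩
  have hth0 : 0 < th := by rw [hth]; positivity
  have hthr : th ^ 2 * r ≤ lam ^ (2 * eps) := by
    calc th ^ 2 * r ≤ (lam ^ (-(1 / 3) + eps)) ^ 2 * (lam ^ eps * lam ^ (2 / 3 - eps)) := by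
          rw [← hth]
          refine mul_le_mul_of_nonneg_left ?_ (by positivity)
          rw [hr, ← hl0]
          exact mul_le_mul_of_nonneg_right hsq (by linarith)
      _ = lam ^ (2 * eps) := by
          rw [← Real.rpow_natCast (lam ^ (-(1 / 3) + eps)) 2, ← Real.rpow_mul hlamp.le,
            ← Real.rpow_add hlamp, ← Real.rpow_add hlamp]
          congr 1
          push_cast
          ring
  have hnear : ∀ n ∈ s, ‖zv n - zv n0‖ ≤ r := by
    intro n hn
    rw [hr]
    refine near (by linarith) ?_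
    rw [hl0]
    exact hcb n hn n0 hn0
  obtain ⟨I, hI, hsel⟩ := count he he' hlam
  rw [← hCI] at hI
  rw [← hth] at hsel
  have hX : Continuous ch.X := ch.smooth.continuous
  have hdl := ch.dl_pos
  have hA := hP lam r th (zv n0) s a hlam hr1 hr3 hth0 hthr (hs n0 hn0) hs hnear
  have hsnc := continuous_sn ch (zv n0)
  have hB : ∀ sg : ℝ, (sg = 1 ∨ sg = -1) → ∀ i : ℕ, 2 ^ i * th ≤ 4 →
      ∫ q in {q | ‖q‖ ≤ 3 / 2 * ch.dl ∧ 2 ^ i * th * lam ≤ sg * sn ch (zv n0) q ∧
        sg * sn ch (zv n0) q ≤ 2 * (2 ^ i * th * lam)}, ‖es s a (ch.X q)‖ ^ 2 ≤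
      C1 * lam ^ (K1 * eps) * ∑ n ∈ s, ‖a n‖ ^ 2 := by
    intro sg hsg i hi
    refine hRA lam (2 ^ i * th) sg s a n0 hlam ?_ hi hsg hs hn0 hcb
    rw [← hth]
    have : (1 : ℝ) ≤ 2 ^ i := one_le_pow₀ (by norm_num)
    nlinarith
  -- the sets, cut down to the admissible angles
  have hfin := cover (fun q => ‖es s a (ch.X q)‖ ^ 2) ((continuous_es s a ch.X hX).norm.pow 2)
    (fun q => by positivity) (2 * ch.dl) (Metric.closedBall (0 : EE (m + 1)) (3 / 2 * ch.dl))
    {q | ‖q‖ ≤ 2 * ch.dl ∧ |sn ch (zv n0) q| ≤ th * lam}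
    (fun i => {q | 2 ^ i * th ≤ 4 ∧ ‖q‖ ≤ 3 / 2 * ch.dl ∧ 2 ^ i * th * lam ≤ 1 * sn ch (zv n0) q ∧
        1 * sn ch (zv n0) q ≤ 2 * (2 ^ i * th * lam)})
    (fun i => {q | 2 ^ i * th ≤ 4 ∧ ‖q‖ ≤ 3 / 2 * ch.dl ∧ 2 ^ i * th * lam ≤ -1 * sn ch (zv n0) q ∧
        -1 * sn ch (zv n0) q ≤ 2 * (2 ^ i * th * lam)})
    I (C2 * lam ^ (K2 * (2 * eps)) * ∑ n ∈ s, ‖a n‖ ^ 2) (C1 * lam ^ (K1 * eps) * ∑ n ∈ s, ‖a n‖ ^ 2)
    ?_ ?_ ?_ ?_ ?_ ?_ ?_ ?_ hA ?_ ?_
  · refine hfin.trans ?_
    have e1 : lam ^ (K2 * (2 * eps)) ≤ lam ^ ((K1 + 2 * K2 + 1) * eps) := by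
      refine Real.rpow_le_rpow_of_exponent_le hlam ?_
      nlinarith
    have e2 : lam ^ eps * lam ^ (K1 * eps) ≤ lam ^ ((K1 + 2 * K2 + 1) * eps) := by
      rw [← Real.rpow_add hlamp]
      refine Real.rpow_le_rpow_of_exponent_le hlam ?_
      nlinarith
    obtain ⟨S, hSS⟩ : ∃ S, S = ∑ n ∈ s, ‖a n‖ ^ 2 := ⟨_, rfl⟩
    rw [← hSS] at hS ⊢
    obtain ⟨W, hW⟩ : ∃ W, W = lam ^ ((K1 + 2 * K2 + 1) * eps) := ⟨_, rfl⟩
    rw [← hW] at hbig e1 e2 ⊢
    have e3 : (I : ℝ) * (2 * (C1 * lam ^ (K1 * eps) * S)) ≤ 2 * (CI * C1) * W * S := by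
      calc (I : ℝ) * (2 * (C1 * lam ^ (K1 * eps) * S))
          ≤ (CI * lam ^ eps) * (2 * (C1 * lam ^ (K1 * eps) * S)) :=
            mul_le_mul_of_nonneg_right hI (by positivity)
        _ = 2 * (CI * C1) * (lam ^ eps * lam ^ (K1 * eps)) * S := by ring
        _ ≤ 2 * (CI * C1) * W * S := by gcongr
    have e4 : C2 * lam ^ (K2 * (2 * eps)) * S ≤ C2 * W * S := by gcongr
    have e5 : 0 ≤ (V + 1) * W * S := by
      have : 0 ≤ W := by linarith
      positivity
    nlinarith
  · exact (measurableSet_le measurable_norm measurable_const).inter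
      (measurableSet_le hsnc.measurable.norm measurable_const)
  · intro i
    by_cases h4 : (2 : ℝ) ^ i * th ≤ 4
    · simp only [h4, true_and]
      exact (measurableSet_le measurable_norm measurable_const).inter
        ((measurableSet_le measurable_const (hsnc.measurable.const_mul _)).inter
          (measurableSet_le (hsnc.measurable.const_mul _) measurable_const))
    · simp only [h4, false_and]
      simp
  · intro i
    by_cases h4 : (2 : ℝ) ^ i * th ≤ 4
    · simp only [h4, true_and]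
      exact (measurableSet_le measurable_norm measurable_const).inter
        ((measurableSet_le measurable_const (hsnc.measurable.const_mul _)).inter
          (measurableSet_le (hsnc.measurable.const_mul _) measurable_const))
    · simp only [h4, false_and]
      simp
  · exact measurableSet_closedBall
  · intro q hq
    rw [mem_closedBall_zero_iff]
    exact hq.1
  · intro i q hq
    rw [mem_closedBall_zero_iff]
    exact hq.2.1.trans (by linarith)
  · intro i q hq
    rw [mem_closedBall_zero_iff]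
    exact hq.2.1.trans (by linarith)
  · intro q hq
    rw [mem_closedBall_zero_iff] at hq
    rcases le_total |sn ch (zv n0) q| (th * lam) with h | h
    · exact Or.inl ⟨by linarith, h⟩
    · right
      have h1 : |sn ch (zv n0) q| ≤ 2 * lam := by
        have := sn_le ch (zv n0) q (by linarith)
        rwa [hs n0 hn0] at this
      obtain ⟨i, hi, hi1, hi2⟩ := hsel (|sn ch (zv n0) q| / lam) ((le_div_iff₀ hlamp).2 h)
        ((div_le_iff₀ hlamp).2 h1)
      have h2 : |sn ch (zv n0) q| / lam ≤ 2 := (div_le_iff₀ hlamp).2 h1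
      have h4 : (2 : ℝ) ^ i * th ≤ 4 := by linarith
      rw [le_div_iff₀ hlamp] at hi1
      rw [div_le_iff₀ hlamp] at hi2
      refine ⟨i, hi, ?_⟩
      rcases le_total 0 (sn ch (zv n0) q) with h0 | h0
      · left
        rw [abs_of_nonneg h0] at hi1 hi2
        exact ⟨h4, hq, by linarith, by linarith⟩
      · right
        rw [abs_of_nonpos h0] at hi1 hi2
        exact ⟨h4, hq, by linarith, by linarith⟩
  · intro i _
    by_cases h4 : (2 : ℝ) ^ i * th ≤ 4
    · simp only [h4, true_and]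
      exact hB 1 (Or.inl rfl) i h4
    · simp only [h4, false_and]
      simp only [Set.ofPred_false, Measure.restrict_empty, integral_zero_measure]
      positivity
  · intro i _
    by_cases h4 : (2 : ℝ) ^ i * th ≤ 4
    · simp only [h4, true_and]
      exact hB (-1) (Or.inr rfl) i h4
    · simp only [h4, false_and]
      simp only [Set.ofPred_false, Measure.restrict_empty, integral_zero_measure]
      positivity

end Pool.Agent.Lib.MP_a8dae7_an.CV.RD2M
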