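import Pool.Agent.Lib.MP_a8dae7_an.CV.Spec
import Pool.Agent.Lib.MP_a8dae7_an.CV.Z1

set_option autoImplicit false

open MeasureTheory
open scoped ContDiff

namespace Pool.Agent.Lib.MP_a8dae7_an.CV.Z0M

open Z1M

theorem pq_nonneg {d : ℕ} {om : EE d} (h : ‖om‖ = 1) (x : EE d) : 0 ≤ pq om x := by
  unfold pq
  have h1 := abs_real_inner_le_norm om x
  rw [h, one_mul] at h1
  nlinarith [sq_abs (inner ℝ om x), abs_nonneg (inner ℝ om x)]

theorem pq_le {d : ℕ} (om x : EE d) : pq om x ≤ ‖x‖ ^ 2 := by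
  unfold pq
  nlinarith [sq_nonneg (inner ℝ om x)]

theorem pq_add_le {d : ℕ} {om : EE d} (h : ‖om‖ = 1) (x y : EE d) :
    pq om (x + y) ≤ 2 * pq om x + 2 * pq om y := by
  have h1 := pq_nonneg h (x - y)
  have h2 : pq om (x + y) + pq om (x - y) = 2 * pq om x + 2 * pq om y := by
    unfold pq
    rw [inner_add_right, inner_sub_right]
    have := parallelogram_law_with_norm ℝ x y
    nlinarith
  linarith

/-- Lipschitz bound for the chart -/
theorem lip {m : ℕ} (ch : Chart (m + 1)) : ∃ D : ℝ, 1 ≤ D ∧ ∀ q q' : EE (m + 1), ‖q‖ ≤ 4 * ch.dl →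
    ‖q'‖ ≤ 4 * ch.dl → ‖ch.X q - ch.X q'‖ ≤ D * ‖q - q'‖ := by
  obtain ⟨K, hK⟩ := (ch.smooth.contDiffOn (s := Metric.closedBall (0 : EE (m + 1)) (4 * ch.dl))).exists_lipschitzOnWith
    (by simp) (convex_closedBall _ _) (isCompact_closedBall _ _)
  refine ⟨max K 1, le_max_right _ _, fun q q' hq hq' => ?_⟩
  have h := hK.dist_le_mul q (by simpa using hq) q' (by simpa using hq')
  rw [dist_eq_norm, dist_eq_norm] at h
  exact h.trans (mul_le_mul_of_nonneg_right (le_max_left _ _) (norm_nonneg _))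

/-- the elementary inequality for the exponent -/
theorem mm_min {N La r lam C t2 : ℝ} (hN : 0 ≤ N) (hLa : 1 ≤ La) (hr : 1 ≤ r) (hlam : 1 ≤ lam)
    (hrl : r ^ 3 ≤ lam ^ 2) (hC : 0 < C) (ht : 0 ≤ t2) (h : 4 + t2 ≤ C * (La + N * r ^ 4 / lam ^ 2)) :
    Real.exp (-(N * r ^ 2 / (4 + t2))) ≤ Real.exp (-(r ^ 2 / (2 * C * La) * N)) + Real.exp (-(r / (2 * C))) := by
  have hr0 : 0 < r := by linarith
  have hl0 : 0 < lam := by linarith
  have hLa0 : 0 < La := by linarith
  have h4 : 0 < 4 + t2 := by linarith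
  rcases le_total (N * r ^ 4 / lam ^ 2) La with hc | hc
  · have : Real.exp (-(N * r ^ 2 / (4 + t2))) ≤ Real.exp (-(r ^ 2 / (2 * C * La) * N)) := by
      refine Real.exp_le_exp.mpr (neg_le_neg ?_)
      rw [div_mul_eq_mul_div, div_le_div_iff₀ (by positivity) h4, mul_comm (r ^ 2) N]
      refine mul_le_mul_of_nonneg_left ?_ (by positivity)
      nlinarith
    have h2 := (Real.exp_pos (-(r / (2 * C)))).le
    linarith
  · have : Real.exp (-(N * r ^ 2 / (4 + t2))) ≤ Real.exp (-(r / (2 * C))) := by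
      refine Real.exp_le_exp.mpr (neg_le_neg ?_)
      have hN0 : 0 < N := by
        rcases hN.lt_or_eq with h0 | h0
        · exact h0
        · rw [← h0] at hc; simp at hc; linarith
      have h5 : 4 + t2 ≤ 2 * C * (N * r ^ 4 / lam ^ 2) := by nlinarith
      calc r / (2 * C) ≤ (lam ^ 2 / r ^ 2) / (2 * C) := by
            refine div_le_div_of_nonneg_right ?_ (by positivity)
            rw [le_div_iff₀ (by positivity)]
            linarith [hrl, (by ring : r * r ^ 2 = r ^ 3)]
        _ = N * r ^ 2 / (2 * C * (N * r ^ 4 / lam ^ 2)) := by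
            field_simp
        _ ≤ N * r ^ 2 / (4 + t2) := div_le_div_of_nonneg_left (by positivity) h4 h5
    have h2 := (Real.exp_pos (-(r ^ 2 / (2 * C * La) * N))).le
    linarith

theorem exp_pow {m : ℕ} {r C : ℝ} (hr : 0 < r) (hC : 0 < C) :
    Real.exp (-(r / C)) ≤ (m.factorial : ℝ) * C ^ m * r⁻¹ ^ m := by
  have h := Real.pow_div_factorial_le_exp (r / C) (by positivity) m
  have hf : (0 : ℝ) < m.factorial := by exact_mod_cast m.factorial_pos
  rw [Real.exp_neg, inv_le_comm₀ (Real.exp_pos _) (by positivity)]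
  refine le_trans (le_of_eq ?_) h
  rw [div_pow, inv_pow]
  field_simp

theorem specZ0 (hKN : SpecKN) (hSC : SpecSC) (hBL : SpecBL) : SpecZ0 := by
  intro m ch
  obtain ⟨C1, hC1, hK⟩ := hKN (m + 1)
  obtain ⟨C2, hC2, hB⟩ := hBL m ch
  obtain ⟨D, hD, hlip⟩ := lip ch
  have hdl := ch.dl_pos
  have hC2' : 0 < C2 := lt_of_lt_of_le one_pos hC2
  have hD' : 0 < D := lt_of_lt_of_le one_pos hD
  -- constants
  set C3 : ℝ := D ^ 2 * (32 + 128 * C2 * D ^ 2) with hC3
  have hC3' : 0 < C3 := by positivity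
  set C4 : ℝ := 4 + C3 with hC4
  have hC4' : 0 < C4 := by positivity
  set V : ℝ := (volume (Metric.closedBall (0 : EE m) (3 * ch.dl))).toReal with hV
  have hV0 : 0 ≤ V := ENNReal.toReal_nonneg
  set C5 : ℝ := C2 * Real.sqrt (2 * C4) ^ m + V * ((m.factorial : ℝ) * (2 * C4) ^ m) with hC5
  have hC5' : 0 < C5 := by
    have : 0 < Real.sqrt (2 * C4) := Real.sqrt_pos.mpr (by positivity)
    have h2 : 0 ≤ V * ((m.factorial : ℝ) * (2 * C4) ^ m) := by positivity
    have h3 : 0 < C2 * Real.sqrt (2 * C4) ^ m := by positivity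
    linarith
  refine ⟨C1 * C5, by positivity, ?_⟩
  intro om e L hS lam r th La sg sg' hlam hr hrl hth hLa hthr hsg hsg' hss
  have hr0 : 0 < r := lt_of_lt_of_le one_pos hr
  have hl0 : 0 < lam := lt_of_lt_of_le one_pos hlam
  have hLa0 : 0 < La := lt_of_lt_of_le one_pos hLa
  have hcK := cont_ks ch om lam r hr0 e L 0 sg sg'
  have hs0 : 0 < Real.sqrt (2 * C4 * La) := Real.sqrt_pos.mpr (by positivity)
  have hal : (r / Real.sqrt (2 * C4 * La)) ^ 2 = r ^ 2 / (2 * C4 * La) := by
    rw [div_pow, Real.sq_sqrt (by positivity)]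
  -- pointwise bound
  have key : ∀ b b' : EE m, ‖b‖ ≤ 2 * ch.dl → ‖b'‖ ≤ 2 * ch.dl →
      ‖ks ch om lam r e L 0 sg sg' b b'‖ ≤ C1 * (r / lam) * r ^ (m + 1) *
        (Real.exp (-((r / Real.sqrt (2 * C4 * La)) ^ 2 * pq om (xd ch e L 0 sg sg' b b'))) +
          Real.exp (-(r / (2 * C4)))) := by
    intro b b' hb hb'
    have hq : ‖sl e L sg b‖ ≤ 4 * ch.dl := (norm_sl hS.e_one L sg b).trans (by linarith)
    have hq1 : ‖sl e L sg b'‖ ≤ 4 * ch.dl := (norm_sl hS.e_one L sg b').trans (by linarith)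
    have hq' : ‖sl e L sg' b'‖ ≤ 4 * ch.dl := (norm_sl hS.e_one L sg' b').trans (by linarith)
    set x := xd ch e L 0 sg sg' b b' with hx
    have hxX : x = ch.X (sl e L sg b) - ch.X (sl e L sg' b') := by rw [hx, xd, add_zero]
    have h := (hK om lam r x hS.om_one hl0 hr0).1
    refine h.trans ?_
    refine mul_le_mul_of_nonneg_left ?_ (by positivity)
    have hN0 : 0 ≤ pq om x := pq_nonneg hS.om_one x
    set N := pq om x with hN
    set t := inner ℝ om x with ht
    -- distance in b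
    have hw : ‖ch.X (sl e L sg b') - ch.X (sl e L sg' b')‖ ≤ D * (4 * th) := by
      refine (hlip _ _ hq1 hq').trans (mul_le_mul_of_nonneg_left ?_ hD'.le)
      have : sl e L sg b' - sl e L sg' b' = (sg - sg') • e := by
        unfold sl; rw [sub_smul]; abel
      rw [this, norm_smul, hS.e_one, mul_one, Real.norm_eq_abs]
      exact hss
    have hbb : ‖b - b'‖ ^ 2 ≤ C2 * (2 * N + 2 * (D * (4 * th)) ^ 2) := by
      refine ((hB om e L hS sg hsg).1 b b' (by linarith) (by linarith)).trans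
        (mul_le_mul_of_nonneg_left ?_ hC2'.le)
      have e1 : ch.X (sl e L sg b) - ch.X (sl e L sg b') =
          x + (-(ch.X (sl e L sg b') - ch.X (sl e L sg' b'))) := by rw [hxX]; abel
      rw [e1]
      refine (pq_add_le hS.om_one _ _).trans ?_
      have e2 : pq om (-(ch.X (sl e L sg b') - ch.X (sl e L sg' b'))) ≤ (D * (4 * th)) ^ 2 := by
        rw [pq_neg]
        exact (pq_le _ _).trans (pow_le_pow_left₀ (norm_nonneg _) hw 2)
      linarith
    -- size of t
    have htx : t ^ 2 ≤ C3 * (th ^ 2 + N) := by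
      have h1 : |t| ≤ ‖x‖ := by
        have := abs_real_inner_le_norm om x
        rwa [hS.om_one, one_mul] at this
      have h2 : ‖x‖ ≤ D * (4 * th + ‖b - b'‖) := by
        rw [hxX]
        refine (hlip _ _ hq hq').trans (mul_le_mul_of_nonneg_left ?_ hD'.le)
        have : sl e L sg b - sl e L sg' b' = (sg - sg') • e + L (b - b') := by
          unfold sl; rw [sub_smul, map_sub]; abel
        rw [this]
        refine (norm_add_le _ _).trans ?_
        rw [norm_smul, hS.e_one, mul_one, Real.norm_eq_abs, L.norm_map]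
        linarith
      have h3 : t ^ 2 ≤ (D * (4 * th + ‖b - b'‖)) ^ 2 := by
        rw [← sq_abs t]
        exact pow_le_pow_left₀ (abs_nonneg _) (h1.trans h2) 2
      have h4 : (4 * th + ‖b - b'‖) ^ 2 ≤ 2 * (4 * th) ^ 2 + 2 * ‖b - b'‖ ^ 2 := by
        nlinarith [sq_nonneg (4 * th - ‖b - b'‖)]
      have h5 : (4 * th + ‖b - b'‖) ^ 2 ≤ 32 * th ^ 2 + 2 * (C2 * (2 * N + 2 * (D * (4 * th)) ^ 2)) := by
        nlinarith
      have h6 : 32 * th ^ 2 + 2 * (C2 * (2 * N + 2 * (D * (4 * th)) ^ 2)) ≤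
          (32 + 128 * C2 * D ^ 2) * (th ^ 2 + N) := by
        have h7 : 0 ≤ C2 * N := by positivity
        have h8 : C2 * N ≤ C2 * D ^ 2 * N := by
          have : (1 : ℝ) ≤ D ^ 2 := one_le_pow₀ hD
          have := mul_le_mul_of_nonneg_left this h7
          linarith
        nlinarith [mul_nonneg hC2'.le (sq_nonneg (D * th))]
      calc t ^ 2 ≤ (D * (4 * th + ‖b - b'‖)) ^ 2 := h3
        _ = D ^ 2 * (4 * th + ‖b - b'‖) ^ 2 := by ring
        _ ≤ D ^ 2 * ((32 + 128 * C2 * D ^ 2) * (th ^ 2 + N)) :=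
            mul_le_mul_of_nonneg_left (h5.trans h6) (by positivity)
        _ = C3 * (th ^ 2 + N) := by rw [hC3]; ring
    have ht2 : 4 + (t * r ^ 2 / lam) ^ 2 ≤ C4 * (La + N * r ^ 4 / lam ^ 2) := by
      have h1 : (t * r ^ 2 / lam) ^ 2 = t ^ 2 * (r ^ 4 / lam ^ 2) := by
        rw [div_pow, mul_pow]; ring
      have h2 : t ^ 2 * (r ^ 4 / lam ^ 2) ≤ C3 * (th ^ 2 + N) * (r ^ 4 / lam ^ 2) :=
        mul_le_mul_of_nonneg_right htx (by positivity)
      have h3 : th ^ 2 * (r ^ 4 / lam ^ 2) ≤ La := by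
        have e3 : th ^ 2 * (r ^ 4 / lam ^ 2) = th ^ 2 * r * (r ^ 3 / lam ^ 2) := by ring
        rw [e3]
        have e4 : r ^ 3 / lam ^ 2 ≤ 1 := by rw [div_le_one (by positivity)]; exact hrl
        have e5 : 0 ≤ th ^ 2 * r := by positivity
        have e6 : 0 ≤ r ^ 3 / lam ^ 2 := by positivity
        nlinarith
      have h4 : 0 ≤ N * r ^ 4 / lam ^ 2 := by positivity
      rw [h1, hC4]
      have h5 : C3 * (th ^ 2 + N) * (r ^ 4 / lam ^ 2) = C3 * (th ^ 2 * (r ^ 4 / lam ^ 2)) +
          C3 * (N * r ^ 4 / lam ^ 2) := by ring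
      nlinarith
    have hmm := mm_min hN0 hLa hr hlam hrl hC4' (sq_nonneg (t * r ^ 2 / lam)) ht2
    refine le_trans ?_ (le_trans hmm ?_)
    · refine Real.exp_le_exp.mpr (neg_le_neg ?_)
      unfold MM
      rw [← ht, ← hN]
      have : 0 ≤ t ^ 2 * r ^ 2 / (4 * lam ^ 2) := by positivity
      linarith
    · rw [hal]
  -- the constant
  have hconst : C1 * (r / lam) * r ^ (m + 1) * (C2 * (r / Real.sqrt (2 * C4 * La))⁻¹ ^ m +
      V * Real.exp (-(r / (2 * C4)))) ≤ C1 * C5 * La ^ m * (r ^ 2 / lam) := by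
    have e0 : (r / Real.sqrt (2 * C4 * La))⁻¹ ^ m ≤ Real.sqrt (2 * C4) ^ m * La ^ m * r⁻¹ ^ m := by
      rw [← mul_pow, ← mul_pow]
      refine pow_le_pow_left₀ (by positivity) ?_ m
      rw [inv_div, Real.sqrt_mul (by positivity), div_eq_mul_inv]
      refine mul_le_mul_of_nonneg_right (mul_le_mul_of_nonneg_left ?_ (Real.sqrt_nonneg _)) (by positivity)
      rw [Real.sqrt_le_left (by positivity)]
      nlinarith
    have e1 : Real.exp (-(r / (2 * C4))) ≤ (m.factorial : ℝ) * (2 * C4) ^ m * r⁻¹ ^ m :=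
      exp_pow hr0 (by positivity)
    have e2 : (1 : ℝ) ≤ La ^ m := one_le_pow₀ hLa
    have e3 : C2 * (r / Real.sqrt (2 * C4 * La))⁻¹ ^ m + V * Real.exp (-(r / (2 * C4))) ≤
        C5 * La ^ m * r⁻¹ ^ m := by
      have h1 : C2 * (r / Real.sqrt (2 * C4 * La))⁻¹ ^ m ≤
          C2 * (Real.sqrt (2 * C4) ^ m * La ^ m * r⁻¹ ^ m) := mul_le_mul_of_nonneg_left e0 hC2'.le
      have h2 : V * Real.exp (-(r / (2 * C4))) ≤ V * ((m.factorial : ℝ) * (2 * C4) ^ m * r⁻¹ ^ m) :=
        mul_le_mul_of_nonneg_left e1 hV0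
      have h3 : V * ((m.factorial : ℝ) * (2 * C4) ^ m * r⁻¹ ^ m) ≤
          V * ((m.factorial : ℝ) * (2 * C4) ^ m * r⁻¹ ^ m) * La ^ m :=
        le_mul_of_one_le_right (by positivity) e2
      rw [hC5]
      linarith [(by ring : (C2 * Real.sqrt (2 * C4) ^ m + V * ((m.factorial : ℝ) * (2 * C4) ^ m)) *
        La ^ m * r⁻¹ ^ m = C2 * (Real.sqrt (2 * C4) ^ m * La ^ m * r⁻¹ ^ m) +
          V * ((m.factorial : ℝ) * (2 * C4) ^ m * r⁻¹ ^ m) * La ^ m)]
    calc C1 * (r / lam) * r ^ (m + 1) * (C2 * (r / Real.sqrt (2 * C4 * La))⁻¹ ^ m +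
          V * Real.exp (-(r / (2 * C4))))
        ≤ C1 * (r / lam) * r ^ (m + 1) * (C5 * La ^ m * r⁻¹ ^ m) :=
          mul_le_mul_of_nonneg_left e3 (by positivity)
      _ = C1 * C5 * La ^ m * (r ^ 2 / lam) := by
          rw [inv_pow, pow_succ r m]
          field_simp
  have hcX := ch.smooth.continuous
  have hE0 : Continuous fun _ : EE m => Real.exp (-(r / (2 * C4))) := continuous_const
  -- the integral of the majorant over the big ball
  have hint : ∀ h : EE m → ℝ, Continuous h →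
      ∫ b in Metric.closedBall (0 : EE m) (3 * ch.dl), Real.exp (-((r / Real.sqrt (2 * C4 * La)) ^ 2 * h b)) ≤
        C2 * (r / Real.sqrt (2 * C4 * La))⁻¹ ^ m →
      ∫ b in Metric.closedBall (0 : EE m) (3 * ch.dl), C1 * (r / lam) * r ^ (m + 1) *
        (Real.exp (-((r / Real.sqrt (2 * C4 * La)) ^ 2 * h b)) + Real.exp (-(r / (2 * C4)))) ≤
        C1 * C5 * La ^ m * (r ^ 2 / lam) := by
    intro h hh hle
    have hc1 : Continuous fun b => Real.exp (-((r / Real.sqrt (2 * C4 * La)) ^ 2 * h b)) :=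
      Real.continuous_exp.comp (Continuous.neg (continuous_const.mul hh))
    rw [integral_const_mul, integral_add (hc1.continuousOn.integrableOn_compact (isCompact_closedBall _ _))
      (hE0.continuousOn.integrableOn_compact (isCompact_closedBall _ _)), setIntegral_const, smul_eq_mul]
    refine le_trans (mul_le_mul_of_nonneg_left ?_ (by positivity)) hconst
    exact add_le_add hle (le_of_eq rfl)
  apply hSC m (2 * ch.dl) _ _ hcK (by positivity)
  · intro b hb
    have hpc : Continuous fun b' => pq om (xd ch e L 0 sg sg' b b') := by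
      refine (cont_pq om).comp ?_
      unfold xd
      exact (continuous_const.sub (hcX.comp (cont_sl e L sg'))).add continuous_const
    have hcpt : Continuous fun b' => C1 * (r / lam) * r ^ (m + 1) *
        (Real.exp (-((r / Real.sqrt (2 * C4 * La)) ^ 2 * pq om (xd ch e L 0 sg sg' b b'))) +
          Real.exp (-(r / (2 * C4)))) :=
      continuous_const.mul ((Real.continuous_exp.comp (Continuous.neg (continuous_const.mul hpc))).add
        continuous_const)
    refine le_trans (int_le (R' := 3 * ch.dl) ((hcK.comp (Continuous.prodMk_right b)).norm) hcpt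
      (fun b' hb' => key b b' hb hb') (fun b' => by positivity) (by linarith)) (hint _ hpc ?_)
    have h7 := (hB om e L hS sg' hsg').2 (ch.X (sl e L sg b)) (r / Real.sqrt (2 * C4 * La)) (by positivity)
    have hx : ∀ b', xd ch e L 0 sg sg' b b' =
        ch.X (sl e L sg b) - ch.X (sl e L sg' b') := fun b' => by unfold xd; rw [add_zero]
    simp only [hx]
    exact h7
  · intro b' hb'
    have hpc : Continuous fun b => pq om (xd ch e L 0 sg sg' b b') := by
      refine (cont_pq om).comp ?_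
      unfold xd
      exact ((hcX.comp (cont_sl e L sg)).sub continuous_const).add continuous_const
    have hcpt : Continuous fun b => C1 * (r / lam) * r ^ (m + 1) *
        (Real.exp (-((r / Real.sqrt (2 * C4 * La)) ^ 2 * pq om (xd ch e L 0 sg sg' b b'))) +
          Real.exp (-(r / (2 * C4)))) :=
      continuous_const.mul ((Real.continuous_exp.comp (Continuous.neg (continuous_const.mul hpc))).add
        continuous_const)
    refine le_trans (int_le (R' := 3 * ch.dl) ((hcK.comp (Continuous.prodMk_left b')).norm) hcpt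
      (fun b hb => key b b' hb hb') (fun b => by positivity) (by linarith)) (hint _ hpc ?_)
    have h7 := (hB om e L hS sg hsg).2 (ch.X (sl e L sg' b')) (r / Real.sqrt (2 * C4 * La)) (by positivity)
    have hx : ∀ b, pq om (xd ch e L 0 sg sg' b b') =
        pq om (ch.X (sl e L sg' b') - ch.X (sl e L sg b)) := fun b => by
      rw [← pq_neg]; unfold xd; congr 1; rw [add_zero]; abel
    simp only [hx]
    exact h7

end Pool.Agent.Lib.MP_a8dae7_an.CV.Z0M
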